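import Pool.Agent.helper1.GLI.DefsB
import Pool.Agent.helper1.LI.Val

/-!
[GLI-RVal] `2`-adic valuations of the roots of the real polynomial (imports `DefsB`, `LI/Val`).

`R` as in `RCond k`, `k ≥ 2`, `g = 2^k`, `E` a field of characteristic zero, `A` a valuation ring
with `v(2) < 1`, `R = ∏ (X - y_i)` in `E[X]`.  (`v` is multiplicative, `v(x + y) ≤ max`.)

* `real_val_y`: `v(y_i)^g = v(2)`.  `v(y_i) ≤ 1` (integral, `val_le_one`).  `y^g = - ∑_{j<g} R_j y^j`;
  each `R_j`, `j ≥ 1`, is `4 *` integer, `R_0 = 2 *` odd.  `v(R_0) = v(2)` (`v` of an odd integer is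
  `1`: `val_int_unit`), `v(R_j y^j) ≤ v(4) < v(2)`.  So `v(y^g) = v(2)`
  (`Valuation.map_add_eq_of_lt_left` etc.).
* `real_val_diff`: `v(y_i - y_j)^(g-1) = v(2)^2` for `i ≠ j`.
  (i) `v(R'(y_i)) = v(4)`: `R'(y) = g y^(g-1) + ∑_{2 ≤ j < g} j R_j y^(j-1) + R_1`; `v(R_1) = v(4)`
  (`R_1 = 4 *` odd); `v(j R_j y^(j-1)) ≤ v(4) v(y) < v(4)` for `2 ≤ j < g` (`v(y) < 1`);
  `v(g y^(g-1)) ≤ v(4) v(y) < v(4)` since `4 ∣ g`, `g - 1 ≥ 1`.
  `R'(y_i) = ∏_{j ≠ i} (y_i - y_j)`.
  (ii) for every `j ≠ i`: `v(y_j - y_i)^(g-1) ≤ v(4)`.  Let `δ = y_j - y_i`, `y = y_i`.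
  `R(y + X) = ∑_m c_m X^m`, `c_m = ∑_{j ≥ m} C(j, m) R_j y^(j-m)`, `c_0 = 0`, `c_g = 1`; `δ` is a root:
  `δ^g = - ∑_{1 ≤ m < g} c_m δ^m`.  Put `λ = v(4)`.  Claim: `v(c_m)^(g-1) ≤ λ^(g-m)` for
  `1 ≤ m < g`: the terms with `j < g` have `v ≤ v(4) = λ` if `j ≥ 1` and `λ^(g-1) ≤ λ^(g-m)`; the
  term `j = g` is `C(g, m) y^(g-m)`: `2 ∣ C(g, m)` for `0 < m < g`, `4 ∣ C(g, m)` unless `m = g/2`.
  If `4 ∣ C(g,m)`: `v ≤ v(4) = λ`, fine.  If `m = g/2`: `v ≤ v(2) v(y)^(g/2)`, and
  `(v(2) v(y)^(g/2))^2 = v(2)^2 v(2) = v(2)^3`, so `v(c)^(2(g-1)) ≤ v(2)^(3(g-1))`, to be compared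
  with `λ^(2(g-m)) = λ^g = v(2)^(2g)`: `3(g-1) ≥ 2g` as `g ≥ 3`; so
  `v(c)^(g-1) ≤ λ^(g/2) = λ^(g-m)` (squares: `x^2 ≤ y^2 → x ≤ y` in an ordered group with zero).
  Suppose `v(δ)^(g-1) > λ`.  Then for `1 ≤ m < g`:
  `(v(c_m) v(δ)^m)^(g-1) ≤ λ^(g-m) v(δ)^(m(g-1)) < v(δ)^((g-1)(g-m)) v(δ)^(m(g-1)) =
  (v(δ)^g)^(g-1)`, so `v(c_m δ^m) < v(δ^g)` for all `1 ≤ m < g`: contradiction to
  `δ^g = - ∑ c_m δ^m`.
  (iii) by (i) `∏_{j ≠ i} v(y_i - y_j)^(g-1) = v(4)^(g-1)`, a product of `g - 1` factors each `≤ v(4)`;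
  so all factors equal `v(4) = v(2)^2` (`v(4) ≠ 0`).
  Useful: `2 ∣ C(2^k, m)` for `0 < m < 2^k`, and `4 ∣ C(2^k, m)` for `0 < m < 2^k`, `m ≠ 2^(k-1)`
  (`m C(2^k, m) = 2^k C(2^k - 1, m - 1)`: if `m = 2^a u`, `u` odd, then `2^(k-a) ∣ C(2^k, m)`).
-/

set_option autoImplicit false

namespace LIF

open Polynomial

theorem RVal_pow_le {Γ : Type*} [LinearOrderedCommGroupWithZero Γ] {a b : Γ} (h : a ≤ b) (n : ℕ) :
    a ^ n ≤ b ^ n := pow_le_pow_left' h n

theorem RVal_pow_lt {Γ : Type*} [LinearOrderedCommGroupWithZero Γ] {a b : Γ} (h : a < b) {n : ℕ}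
    (hn : n ≠ 0) : a ^ n < b ^ n := pow_lt_pow_left₀ h zero_le hn

theorem RVal_le_of_pow {Γ : Type*} [LinearOrderedCommGroupWithZero Γ] {a b : Γ} {n : ℕ}
    (hn : n ≠ 0) (h : a ^ n ≤ b ^ n) : a ≤ b := le_of_pow_le_pow_left₀ hn zero_le h

theorem RVal_lt_of_pow {Γ : Type*} [LinearOrderedCommGroupWithZero Γ] {a b : Γ} (n : ℕ)
    (h : a ^ n < b ^ n) : a < b := lt_of_pow_lt_pow_left₀ n zero_le h

theorem RVal_pow_anti {Γ : Type*} [LinearOrderedCommGroupWithZero Γ] {a : Γ} (h : a ≤ 1)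
    {m n : ℕ} (hmn : m ≤ n) : a ^ n ≤ a ^ m := pow_le_pow_right_of_le_one' h hmn

theorem RVal_mod4_dvd {a : ℤ} (h : a % 4 = 2) : ∃ m : ℤ, a = 2 * m ∧ ¬ (2 : ℤ) ∣ m := by
  refine ⟨a / 2, by omega, ?_⟩
  rintro ⟨c, hc⟩
  omega

theorem four_dvd_choose {k m : ℕ} (h0 : 0 < m) (hm : m < 2 ^ k) :
    2 ∣ (2 ^ k).choose m ∧ (m ≠ 2 ^ (k - 1) → 4 ∣ (2 ^ k).choose m) := by
  refine ⟨Nat.prime_two.dvd_choose_pow h0.ne' hm.ne, fun hne => ?_⟩
  have hk : 1 ≤ k := by
    rcases Nat.eq_zero_or_pos k with rfl | h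
    · simp at hm; omega
    · exact h
  -- `m * C(2^k, m) = 2^k * C(2^k - 1, m - 1)`
  have hid : m * (2 ^ k).choose m = 2 ^ k * (2 ^ k - 1).choose (m - 1) := by
    have h := Nat.add_one_mul_choose_eq (2 ^ k - 1) (m - 1)
    have e1 : 2 ^ k - 1 + 1 = 2 ^ k := Nat.sub_add_cancel Nat.one_le_two_pow
    have e2 : m - 1 + 1 = m := Nat.sub_add_cancel h0
    rw [e1, e2] at h
    rw [h, mul_comm]
  obtain ⟨a, u, hu, hmu⟩ := Nat.exists_eq_two_pow_mul_odd (n := m) h0.ne'
  have hcop : Nat.Coprime (2 ^ (k - a)) u := (Nat.coprime_two_left.2 hu).pow_left _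
  have hu1 : 1 ≤ u := by
    rcases Nat.eq_zero_or_pos u with rfl | h
    · simp at hu
    · exact h
  have hak : a + 2 ≤ k := by
    by_contra hcon
    have hka : k - 1 ≤ a := by omega
    have h1 : 2 ^ (k - 1) ∣ m := by
      rw [hmu]
      exact (pow_dvd_pow 2 hka).mul_right u
    obtain ⟨c, hc⟩ := h1
    have h2 : 2 ^ k = 2 ^ (k - 1) * 2 := by rw [← pow_succ, Nat.sub_add_cancel hk]
    rw [hc, h2] at hm
    have h3 : c < 2 := lt_of_mul_lt_mul_left hm (Nat.zero_le _)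
    have h4 : c ≠ 0 := by
      rintro rfl
      rw [hc] at h0
      simp at h0
    have h5 : c = 1 := by omega
    rw [h5, mul_one] at hc
    exact hne hc
  have h2k : 2 ^ k = 2 ^ a * 2 ^ (k - a) := by
    rw [← pow_add]
    congr 1
    omega
  have h3 : u * (2 ^ k).choose m = 2 ^ (k - a) * (2 ^ k - 1).choose (m - 1) := by
    have h4 : 2 ^ a * (u * (2 ^ k).choose m) =
        2 ^ a * (2 ^ (k - a) * (2 ^ k - 1).choose (m - 1)) := by
      rw [← mul_assoc, ← hmu, hid, ← mul_assoc, ← h2k]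
    exact Nat.eq_of_mul_eq_mul_left (pow_pos (by norm_num) a) h4
  have h5 : 2 ^ (k - a) ∣ (2 ^ k).choose m :=
    hcop.dvd_of_dvd_mul_left (Dvd.intro _ h3.symm)
  have h6 : (4 : ℕ) ∣ 2 ^ (k - a) := by
    have : (4 : ℕ) = 2 ^ 2 := by norm_num
    rw [this]
    exact pow_dvd_pow 2 (by omega)
  exact h6.trans h5

section RVal

variable {E : Type*} [Field E] (A : ValuationSubring E)

theorem RVal_four_le (h2 : A.valuation (2 : E) < 1) : A.valuation (4 : E) ≤ A.valuation (2 : E) := by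
  have h : (4 : E) = 2 * 2 := by norm_num
  rw [h, map_mul]
  exact mul_le_of_le_one_left' h2.le

theorem RVal_four_eq : A.valuation (4 : E) = A.valuation (2 : E) ^ 2 := by
  have h : (4 : E) = 2 ^ 2 := by norm_num
  rw [h, map_pow]

theorem RVal_two_ne [CharZero E] : A.valuation (2 : E) ≠ 0 :=
  (Valuation.ne_zero_iff _).2 two_ne_zero

theorem RVal_four_lt [CharZero E] (h2 : A.valuation (2 : E) < 1) :
    A.valuation (4 : E) < A.valuation (2 : E) := by
  rw [RVal_four_eq, pow_two]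
  exact mul_lt_of_lt_one_left (zero_lt_iff.2 (RVal_two_ne A)) h2

theorem RVal_dvd4 {c : ℤ} (h : (4 : ℤ) ∣ c) : A.valuation (c : E) ≤ A.valuation (4 : E) := by
  have := val_int_dvd (E := E) A (p := 4) (c := c) (by exact_mod_cast h)
  simpa using this

theorem RVal_dvd2 {c : ℤ} (h : (2 : ℤ) ∣ c) : A.valuation (c : E) ≤ A.valuation (2 : E) := by
  have := val_int_dvd (E := E) A (p := 2) (c := c) (by exact_mod_cast h)
  simpa using this

theorem RVal_odd (h2 : A.valuation (2 : E) < 1) {c : ℤ} (h : ¬ (2 : ℤ) ∣ c) :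
    A.valuation (c : E) = 1 := by
  have : Fact (Nat.Prime 2) := ⟨Nat.prime_two⟩
  exact val_int_unit A (p := 2) (by simpa using h2) (by exact_mod_cast h)

/-- power version of the ultrametric inequality -/
theorem RVal_sum_pow_le {ι : Type*} {n : ℕ} (hn : n ≠ 0) {B : A.ValueGroup} (s : Finset ι)
    (f : ι → E) (hf : ∀ i ∈ s, A.valuation (f i) ^ n ≤ B) :
    A.valuation (∑ i ∈ s, f i) ^ n ≤ B := by
  classical
  induction s using Finset.induction_on with
  | empty => simp [zero_pow hn]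
  | insert a s ha ih =>
    rw [Finset.sum_insert ha]
    have h1 := hf a (Finset.mem_insert_self a s)
    have h3 := ih (fun i hi => hf i (Finset.mem_insert_of_mem hi))
    rcases le_total (A.valuation (f a)) (A.valuation (∑ i ∈ s, f i)) with h | h
    · exact (pow_le_pow_left' ((A.valuation.map_add _ _).trans (max_le h le_rfl)) n).trans h3
    · exact (pow_le_pow_left' ((A.valuation.map_add _ _).trans (max_le le_rfl h)) n).trans h1

end RVal

section RValR

variable {k : ℕ} {R : ℤ[X]} {E : Type*} [Field E] [CharZero E] (A : ValuationSubring E)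

omit [CharZero E] in
theorem RVal_coeff (hR : RCond k R) {j : ℕ} (h1 : 1 ≤ j) (h2 : j < 2 ^ k) :
    A.valuation ((R.coeff j : ℤ) : E) ≤ A.valuation (4 : E) :=
  RVal_dvd4 A (hR.c4 j h1 h2)

theorem RVal_coeff_top (hR : RCond k R) : R.coeff (2 ^ k) = 1 := by
  rw [← hR.deg]
  exact hR.mon

omit [CharZero E] in
theorem RVal_coeff_zero (hR : RCond k R) (h2 : A.valuation (2 : E) < 1) :
    A.valuation ((R.coeff 0 : ℤ) : E) = A.valuation (2 : E) := by
  obtain ⟨m, hm, hm2⟩ := RVal_mod4_dvd hR.c0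
  rw [hm, Int.cast_mul, map_mul, RVal_odd A h2 hm2, mul_one]
  norm_num

omit [CharZero E] in
theorem RVal_coeff_one (hR : RCond k R) (h2 : A.valuation (2 : E) < 1) :
    A.valuation ((R.coeff 1 : ℤ) : E) = A.valuation (4 : E) := by
  obtain ⟨c, hc⟩ := hR.c1
  have h : R.coeff 1 = 4 * (2 * c + 1) := by linarith
  have hodd : ¬ (2 : ℤ) ∣ 2 * c + 1 := by omega
  rw [h, Int.cast_mul, map_mul, RVal_odd A h2 hodd, mul_one]
  norm_num

omit [CharZero E] in
theorem RVal_natDegree (hR : RCond k R) :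
    (R.map (Int.castRingHom E)).natDegree = 2 ^ k := by
  rw [hR.mon.natDegree_map, hR.deg]

omit [CharZero E] in
theorem RVal_root {y : Fin (2 ^ k) → E}
    (hy : R.map (Int.castRingHom E) = ∏ i, (X - C (y i))) (i : Fin (2 ^ k)) :
    (R.map (Int.castRingHom E)).eval (y i) = 0 := by
  rw [hy, eval_prod]
  exact Finset.prod_eq_zero (Finset.mem_univ i) (by simp)

omit [CharZero E] in
theorem RVal_le_one (hR : RCond k R) {x : E} (hx : (R.map (Int.castRingHom E)).eval x = 0) :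
    A.valuation x ≤ 1 := by
  refine val_le_one A ⟨R, hR.mon, ?_⟩
  rw [eval_map] at hx
  exact hx

theorem RVal_x (_ : 2 ≤ k) (hR : RCond k R) (h2 : A.valuation (2 : E) < 1) {x : E}
    (hx : (R.map (Int.castRingHom E)).eval x = 0) :
    A.valuation x ^ (2 ^ k) = A.valuation (2 : E) := by
  have hx1 := RVal_le_one A hR hx
  have hg : (2 : ℕ) ^ k = (2 ^ k - 1) + 1 := (Nat.sub_add_cancel Nat.one_le_two_pow).symm
  rw [eval_eq_sum_range, RVal_natDegree hR, Finset.sum_range_succ, hg,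
    Finset.sum_range_succ', ← hg] at hx
  simp only [coeff_map, eq_intCast, RVal_coeff_top hR, Int.cast_one, one_mul, pow_zero,
    mul_one] at hx
  have h3 : x ^ (2 ^ k) = -(∑ j ∈ Finset.range (2 ^ k - 1),
      ((R.coeff (j + 1) : ℤ) : E) * x ^ (j + 1) + ((R.coeff 0 : ℤ) : E)) := by
    linear_combination hx
  have h4 : A.valuation (∑ j ∈ Finset.range (2 ^ k - 1),
      ((R.coeff (j + 1) : ℤ) : E) * x ^ (j + 1)) ≤ A.valuation (4 : E) := by
    refine A.valuation.map_sum_le (fun j hj => ?_)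
    rw [Finset.mem_range] at hj
    rw [map_mul, map_pow]
    exact (mul_le_of_le_one_right' (pow_le_one' hx1 _)).trans
      (RVal_coeff A hR (by omega) (by omega))
  have h5 : A.valuation (∑ j ∈ Finset.range (2 ^ k - 1),
      ((R.coeff (j + 1) : ℤ) : E) * x ^ (j + 1)) < A.valuation ((R.coeff 0 : ℤ) : E) := by
    rw [RVal_coeff_zero A hR h2]
    exact h4.trans_lt (RVal_four_lt A h2)
  rw [← map_pow, h3, Valuation.map_neg, Valuation.map_add_eq_of_lt_right _ h5,
    RVal_coeff_zero A hR h2]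

end RValR

/-! ### differences of roots -/

section RValD

variable {k : ℕ} {R : ℤ[X]} {E : Type*} [Field E] [CharZero E] (A : ValuationSubring E)

omit [CharZero E] in
theorem RVal_taylor (hR : RCond k R) (x : E) (m : ℕ) :
    (taylor x (R.map (Int.castRingHom E))).coeff m =
      ∑ j ∈ Finset.range (2 ^ k + 1),
        ((j.choose m : ℕ) : E) * ((R.coeff j : ℤ) : E) * x ^ (j - m) := by
  rw [taylor_coeff, hasseDeriv_apply, sum_over_range, RVal_natDegree hR, eval_finsetSum]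
  · refine Finset.sum_congr rfl (fun j _ => ?_)
    rw [eval_monomial, coeff_map]
    rfl
  · intro n
    simp

/-- the term with `j = g` of `c_m` -/
theorem RVal_top (hk : 2 ≤ k) (hR : RCond k R) (h2 : A.valuation (2 : E) < 1) {x : E}
    (hx : (R.map (Int.castRingHom E)).eval x = 0) {m : ℕ} (hm1 : 1 ≤ m) (hm : m < 2 ^ k) :
    A.valuation ((((2 ^ k).choose m : ℕ) : E) * x ^ (2 ^ k - m)) ^ (2 ^ k - 1) ≤
      A.valuation (4 : E) ^ (2 ^ k - m) := by
  have hx1 := RVal_le_one A hR hx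
  have h41 : A.valuation (4 : E) ≤ 1 := (RVal_four_le A h2).trans h2.le
  rw [map_mul, map_pow]
  obtain ⟨hc2, hc4⟩ := four_dvd_choose (k := k) (m := m) hm1 hm
  have hle : 2 ^ k - m ≤ 2 ^ k - 1 := by omega
  by_cases hmid : m = 2 ^ (k - 1)
  · -- `v ≤ v(2) v(x)^(g/2)`
    have hxv := RVal_x A hk hR h2 hx
    have h2k : 2 ^ k = 2 ^ (k - 1) + 2 ^ (k - 1) := by
      have : 2 ^ k = 2 ^ (k - 1) * 2 := by rw [← pow_succ, Nat.sub_add_cancel (by omega)]
      omega
    have hgm : 2 ^ k - m = 2 ^ (k - 1) := by omega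
    have hge : 3 ≤ 2 ^ k := by
      calc 3 ≤ 2 ^ 2 := by norm_num
        _ ≤ 2 ^ k := Nat.pow_le_pow_right (by norm_num) hk
    have hcv : A.valuation ((((2 ^ k).choose m : ℕ) : E)) ≤ A.valuation (2 : E) := by
      have := RVal_dvd2 (E := E) A (c := (((2 ^ k).choose m : ℕ) : ℤ)) (by exact_mod_cast hc2)
      simpa using this
    have hsq : ((A.valuation ((((2 ^ k).choose m : ℕ) : E)) * A.valuation x ^ (2 ^ k - m)) ^
        (2 ^ k - 1)) ^ 2 ≤ (A.valuation (4 : E) ^ (2 ^ k - m)) ^ 2 := by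
      have e1 : ((A.valuation ((((2 ^ k).choose m : ℕ) : E)) * A.valuation x ^ (2 ^ k - m)) ^
          (2 ^ k - 1)) ^ 2 = (A.valuation ((((2 ^ k).choose m : ℕ) : E)) ^ 2 *
            A.valuation x ^ (2 ^ k)) ^ (2 ^ k - 1) := by
        rw [hgm, ← pow_mul, mul_comm (2 ^ k - 1) 2, pow_mul]
        congr 1
        rw [mul_pow, ← pow_mul, mul_comm (2 ^ (k - 1)) 2]
        congr 2
        omega
      have e2 : (A.valuation (4 : E) ^ (2 ^ k - m)) ^ 2 = A.valuation (2 : E) ^ (2 * 2 ^ k) := by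
        rw [RVal_four_eq, hgm, ← pow_mul, ← pow_mul]
        congr 1
        omega
      rw [e1, e2, hxv]
      have e3 : (A.valuation ((((2 ^ k).choose m : ℕ) : E)) ^ 2 * A.valuation (2 : E)) ^
          (2 ^ k - 1) ≤ (A.valuation (2 : E) ^ 3) ^ (2 ^ k - 1) := by
        refine RVal_pow_le ?_ _
        rw [pow_succ (A.valuation (2 : E)) 2]
        exact mul_le_mul_left (RVal_pow_le hcv 2) _
      refine e3.trans ?_
      rw [← pow_mul]
      exact RVal_pow_anti h2.le (by omega)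
    exact RVal_le_of_pow two_ne_zero hsq
  · have hcv : A.valuation ((((2 ^ k).choose m : ℕ) : E)) ≤ A.valuation (4 : E) := by
      have := RVal_dvd4 (E := E) A (c := (((2 ^ k).choose m : ℕ) : ℤ)) (by exact_mod_cast hc4 hmid)
      simpa using this
    have hxp : A.valuation x ^ (2 ^ k - m) ≤ 1 := pow_le_one' hx1 _
    have hprod : A.valuation ((((2 ^ k).choose m : ℕ) : E)) * A.valuation x ^ (2 ^ k - m) ≤
        A.valuation (4 : E) := (mul_le_of_le_one_right' hxp).trans hcv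
    generalize 2 ^ k - 1 = N at hle ⊢
    exact (RVal_pow_le hprod N).trans (RVal_pow_anti h41 hle)

/-- the coefficients `c_m`, `1 ≤ m < g`, of `R(x + X)` -/
theorem RVal_cm (hk : 2 ≤ k) (hR : RCond k R) (h2 : A.valuation (2 : E) < 1) {x : E}
    (hx : (R.map (Int.castRingHom E)).eval x = 0) {m : ℕ} (hm1 : 1 ≤ m) (hm : m < 2 ^ k) :
    A.valuation ((taylor x (R.map (Int.castRingHom E))).coeff m) ^ (2 ^ k - 1) ≤
      A.valuation (4 : E) ^ (2 ^ k - m) := by
  have hx1 := RVal_le_one A hR hx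
  have h41 : A.valuation (4 : E) ≤ 1 := (RVal_four_le A h2).trans h2.le
  have hge : 3 ≤ 2 ^ k := by
    calc 3 ≤ 2 ^ 2 := by norm_num
      _ ≤ 2 ^ k := Nat.pow_le_pow_right (by norm_num) hk
  rw [RVal_taylor hR]
  refine RVal_sum_pow_le A (by omega) _ _ (fun j hj => ?_)
  rw [Finset.mem_range] at hj
  rcases Nat.lt_or_ge j (2 ^ k) with hjg | hjg
  · rcases Nat.lt_or_ge j m with hjm | hjm
    · rw [Nat.choose_eq_zero_of_lt hjm]
      simp only [Nat.cast_zero, zero_mul, map_zero]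
      rw [zero_pow (by omega)]
      exact zero_le
    · have h1 : A.valuation (((j.choose m : ℕ) : E) * ((R.coeff j : ℤ) : E) * x ^ (j - m)) ≤
          A.valuation (4 : E) := by
        rw [map_mul, map_mul, map_pow]
        have hn : A.valuation ((j.choose m : ℕ) : E) ≤ 1 := by
          simp
        exact (mul_le_of_le_one_right' (pow_le_one' hx1 _)).trans
          ((mul_le_of_le_one_left' hn).trans (RVal_coeff A hR (by omega) hjg))
      exact (RVal_pow_le h1 _).trans (RVal_pow_anti h41 (by omega))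
  · have hj' : j = 2 ^ k := by omega
    subst hj'
    rw [RVal_coeff_top hR]
    simp only [Int.cast_one, mul_one]
    exact RVal_top A hk hR h2 hx hm1 hm

/-- the value of `c_1 = R'(x)` -/
theorem RVal_c1 (hk : 2 ≤ k) (hR : RCond k R) (h2 : A.valuation (2 : E) < 1) {x : E}
    (hx : (R.map (Int.castRingHom E)).eval x = 0) :
    A.valuation ((taylor x (R.map (Int.castRingHom E))).coeff 1) = A.valuation (4 : E) := by
  have hx1 := RVal_le_one A hR hx
  have hge : 4 ≤ 2 ^ k := by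
    calc 4 = 2 ^ 2 := by norm_num
      _ ≤ 2 ^ k := Nat.pow_le_pow_right (by norm_num) hk
  have hxlt : A.valuation x < 1 := by
    by_contra hcon
    rw [not_lt] at hcon
    have h1 := RVal_x A hk hR h2 hx
    have h3 : (1 : A.ValueGroup) ≤ A.valuation x ^ (2 ^ k) := one_le_pow_of_one_le' hcon _
    rw [h1] at h3
    exact absurd h2 (not_lt.2 h3)
  have h40 : A.valuation (4 : E) ≠ 0 := by
    rw [RVal_four_eq]
    exact pow_ne_zero 2 (RVal_two_ne A)
  rw [RVal_taylor hR, ← Finset.add_sum_erase _ _ (Finset.mem_range.2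
    (show 1 < 2 ^ k + 1 by omega))]
  have hmain : A.valuation (((Nat.choose 1 1 : ℕ) : E) * ((R.coeff 1 : ℤ) : E) * x ^ (1 - 1)) =
      A.valuation (4 : E) := by
    simp only [Nat.choose_self, Nat.cast_one, one_mul, Nat.sub_self, pow_zero, mul_one]
    exact RVal_coeff_one A hR h2
  have hrest : A.valuation (∑ j ∈ (Finset.range (2 ^ k + 1)).erase 1,
      ((j.choose 1 : ℕ) : E) * ((R.coeff j : ℤ) : E) * x ^ (j - 1)) < A.valuation (4 : E) := by
    refine A.valuation.map_sum_lt h40 (fun j hj => ?_)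
    rw [Finset.mem_erase, Finset.mem_range] at hj
    obtain ⟨hj2, hj1⟩ := hj
    rcases Nat.eq_zero_or_pos j with rfl | hj0
    · simp only [Nat.choose_zero_succ, Nat.cast_zero, zero_mul, map_zero]
      exact zero_lt_iff.2 h40
    · have hpow : A.valuation x ^ (j - 1) < 1 := pow_lt_one' hxlt (by omega)
      have hcoef : A.valuation (((j.choose 1 : ℕ) : E) * ((R.coeff j : ℤ) : E)) ≤
          A.valuation (4 : E) := by
        rw [map_mul]
        rcases Nat.lt_or_ge j (2 ^ k) with hjg | hjg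
        · have hn : A.valuation ((j.choose 1 : ℕ) : E) ≤ 1 := by
            simp
          exact (mul_le_of_le_one_left' hn).trans (RVal_coeff A hR (by omega) hjg)
        · have hj' : j = 2 ^ k := by omega
          subst hj'
          rw [RVal_coeff_top hR, Int.cast_one, map_one, mul_one, Nat.choose_one_right]
          have h4g : (4 : ℤ) ∣ ((2 ^ k : ℕ) : ℤ) := by
            have : (4 : ℕ) ∣ 2 ^ k := by
              have h4 : (4 : ℕ) = 2 ^ 2 := by norm_num
              rw [h4]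
              exact pow_dvd_pow 2 hk
            exact_mod_cast this
          have := RVal_dvd4 (E := E) A h4g
          simpa using this
      rw [map_mul, map_pow]
      calc A.valuation (((j.choose 1 : ℕ) : E) * ((R.coeff j : ℤ) : E)) * A.valuation x ^ (j - 1)
          ≤ A.valuation (4 : E) * A.valuation x ^ (j - 1) := mul_le_mul_left hcoef _
        _ < A.valuation (4 : E) := mul_lt_of_lt_one_right (zero_lt_iff.2 h40) hpow
  rw [Valuation.map_add_eq_of_lt_left _ (by rw [hmain]; exact hrest), hmain]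

/-- `v(x' - x)^(g-1) ≤ v(4)` for two roots -/
theorem RVal_diff_le (hk : 2 ≤ k) (hR : RCond k R) (h2 : A.valuation (2 : E) < 1) {x x' : E}
    (hx : (R.map (Int.castRingHom E)).eval x = 0)
    (hx' : (R.map (Int.castRingHom E)).eval x' = 0) :
    A.valuation (x' - x) ^ (2 ^ k - 1) ≤ A.valuation (4 : E) := by
  by_contra hcon
  rw [not_le] at hcon
  set δ : E := x' - x with hδ
  have hge : 4 ≤ 2 ^ k := by
    calc 4 = 2 ^ 2 := by norm_num
      _ ≤ 2 ^ k := Nat.pow_le_pow_right (by norm_num) hk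
  have hδ0 : A.valuation δ ≠ 0 := by
    intro h0
    rw [h0, zero_pow (by omega)] at hcon
    exact absurd hcon (not_lt.2 zero_le)
  have hev : (taylor x (R.map (Int.castRingHom E))).eval δ = 0 := by
    rw [taylor_eval, hδ, sub_add_cancel, hx']
  have hnd : (taylor x (R.map (Int.castRingHom E))).natDegree = 2 ^ k := by
    rw [natDegree_taylor, RVal_natDegree hR]
  have htop : (taylor x (R.map (Int.castRingHom E))).coeff (2 ^ k) = 1 := by
    rw [← RVal_natDegree (E := E) hR, coeff_taylor_natDegree]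
    exact hR.mon.map _
  have hc0 : (taylor x (R.map (Int.castRingHom E))).coeff 0 = 0 := by
    rw [taylor_coeff_zero, hx]
  have hg : (2 : ℕ) ^ k = (2 ^ k - 1) + 1 := (Nat.sub_add_cancel Nat.one_le_two_pow).symm
  rw [eval_eq_sum_range, hnd, Finset.sum_range_succ, htop, one_mul] at hev
  have h3 : δ ^ (2 ^ k) = -∑ m ∈ Finset.range (2 ^ k),
      (taylor x (R.map (Int.castRingHom E))).coeff m * δ ^ m := by
    linear_combination hev
  have h4 : A.valuation (∑ m ∈ Finset.range (2 ^ k),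
      (taylor x (R.map (Int.castRingHom E))).coeff m * δ ^ m) < A.valuation δ ^ (2 ^ k) := by
    refine A.valuation.map_sum_lt (pow_ne_zero _ hδ0) (fun m hm => ?_)
    rw [Finset.mem_range] at hm
    rcases Nat.eq_zero_or_pos m with rfl | hm0
    · rw [hc0, zero_mul, map_zero]
      exact zero_lt_iff.2 (pow_ne_zero _ hδ0)
    · refine RVal_lt_of_pow (2 ^ k - 1) ?_
      have h5 := RVal_cm A hk hR h2 hx hm0 hm
      rw [map_mul, map_pow, mul_pow]
      have hδp : A.valuation δ ^ m ≠ 0 := pow_ne_zero _ hδ0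
      have hpos : 0 < (A.valuation δ ^ m) ^ (2 ^ k - 1) := zero_lt_iff.2 (pow_ne_zero _ hδp)
      calc A.valuation ((taylor x (R.map (Int.castRingHom E))).coeff m) ^ (2 ^ k - 1) *
            (A.valuation δ ^ m) ^ (2 ^ k - 1)
          ≤ A.valuation (4 : E) ^ (2 ^ k - m) * (A.valuation δ ^ m) ^ (2 ^ k - 1) :=
            mul_le_mul_left h5 _
        _ < (A.valuation δ ^ (2 ^ k - 1)) ^ (2 ^ k - m) * (A.valuation δ ^ m) ^ (2 ^ k - 1) := by
            refine mul_lt_mul_of_pos_right ?_ hpos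
            exact RVal_pow_lt hcon (by omega)
        _ = (A.valuation δ ^ (2 ^ k)) ^ (2 ^ k - 1) := by
            rw [← pow_mul, ← pow_mul, ← pow_mul, mul_comm m, ← pow_add, ← mul_add,
              Nat.sub_add_cancel hm.le, mul_comm]
  rw [← Valuation.map_neg, ← h3, map_pow] at h4
  exact lt_irrefl _ h4

end RValD

theorem real_val_y {k : ℕ} (hk : 2 ≤ k) {R : ℤ[X]} (hR : RCond k R) {E : Type*} [Field E]
    [CharZero E] (A : ValuationSubring E) (h2 : A.valuation (2 : E) < 1) {y : Fin (2 ^ k) → E}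
    (hy : R.map (Int.castRingHom E) = ∏ i, (X - C (y i))) (i : Fin (2 ^ k)) :
    A.valuation (y i) ^ (2 ^ k) = A.valuation (2 : E) :=
  RVal_x A hk hR h2 (RVal_root hy i)

theorem real_val_diff {k : ℕ} (hk : 2 ≤ k) {R : ℤ[X]} (hR : RCond k R) {E : Type*} [Field E]
    [CharZero E] (A : ValuationSubring E) (h2 : A.valuation (2 : E) < 1) {y : Fin (2 ^ k) → E}
    (hy : R.map (Int.castRingHom E) = ∏ i, (X - C (y i))) {i j : Fin (2 ^ k)} (hij : i ≠ j) :
    A.valuation (y i - y j) ^ (2 ^ k - 1) = A.valuation (2 : E) ^ 2 := by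
  have hroot := RVal_root hy
  have h40 : A.valuation (4 : E) ≠ 0 := by
    rw [RVal_four_eq]
    exact pow_ne_zero 2 (RVal_two_ne A)
  have hge : 4 ≤ 2 ^ k := by
    calc 4 = 2 ^ 2 := by norm_num
      _ ≤ 2 ^ k := Nat.pow_le_pow_right (by norm_num) hk
  rw [← RVal_four_eq]
  have hle : ∀ j, A.valuation (y i - y j) ^ (2 ^ k - 1) ≤ A.valuation (4 : E) :=
    fun j => RVal_diff_le A hk hR h2 (hroot j) (hroot i)
  have hprod : ∏ j ∈ Finset.univ.erase i, A.valuation (y i - y j) = A.valuation (4 : E) := by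
    rw [← RVal_c1 A hk hR h2 (hroot i), taylor_coeff_one, hy, ← map_prod]
    congr 1
    rw [derivative_prod_finset, eval_finsetSum, ← Finset.add_sum_erase _ _ (Finset.mem_univ i)]
    rw [Finset.sum_eq_zero, add_zero]
    · simp [eval_prod]
    · intro l hl
      rw [eval_mul, eval_prod, Finset.prod_eq_zero (i := i)]
      · simp
      · rw [Finset.mem_erase]
        exact ⟨(Finset.ne_of_mem_erase hl).symm, Finset.mem_univ i⟩
      · simp
  refine le_antisymm (hle j) ?_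
  by_contra hcon
  rw [not_le] at hcon
  have hjm : j ∈ Finset.univ.erase i := Finset.mem_erase.2 ⟨hij.symm, Finset.mem_univ j⟩
  have h1 : ∏ l ∈ Finset.univ.erase i, A.valuation (y i - y l) ^ (2 ^ k - 1) =
      A.valuation (4 : E) ^ (2 ^ k - 1) := by
    rw [Finset.prod_pow, hprod]
  have h3 : ∏ l ∈ (Finset.univ.erase i).erase j, A.valuation (y i - y l) ^ (2 ^ k - 1) ≤
      A.valuation (4 : E) ^ (2 ^ k - 2) := by
    have hcard : ((Finset.univ.erase i).erase j).card = 2 ^ k - 2 := by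
      rw [Finset.card_erase_of_mem hjm, Finset.card_erase_of_mem (Finset.mem_univ i),
        Finset.card_univ, Fintype.card_fin]
      omega
    rw [← hcard]
    exact Finset.prod_le_pow_card _ _ _ (fun l _ => hle l)
  have h4 : A.valuation (4 : E) ^ (2 ^ k - 1) < A.valuation (4 : E) ^ (2 ^ k - 1) := by
    calc A.valuation (4 : E) ^ (2 ^ k - 1)
        = A.valuation (y i - y j) ^ (2 ^ k - 1) *
            ∏ l ∈ (Finset.univ.erase i).erase j, A.valuation (y i - y l) ^ (2 ^ k - 1) := by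
          rw [← h1]
          exact (Finset.mul_prod_erase _ (fun l => A.valuation (y i - y l) ^ (2 ^ k - 1)) hjm).symm
      _ ≤ A.valuation (y i - y j) ^ (2 ^ k - 1) * A.valuation (4 : E) ^ (2 ^ k - 2) :=
          mul_le_mul_right h3 _
      _ < A.valuation (4 : E) * A.valuation (4 : E) ^ (2 ^ k - 2) :=
          mul_lt_mul_of_pos_right hcon (zero_lt_iff.2 (pow_ne_zero _ h40))
      _ = A.valuation (4 : E) ^ (2 ^ k - 1) := by
          rw [← pow_succ']
          congr 1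
          omega
  exact lt_irrefl _ h4

end LIF
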