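import Pool.Agent.helper1.GLI.Real
import Pool.Agent.helper1.GLI.RVal

/-!
[GLI-AVal] `2`-adic valuations of the roots of `f`: assembly of `TwoAd` (proofs: helper59)
(imports the stubs `Real`, `RVal`).

* `alpha_val`: `v(a) = 1`, `v(2) < 1`, `v(p - 1) ≤ v(2)`, `y = a + p/a`, `v(y)^g = v(2)`, `g ≥ 2`,
  `v(2) ≠ 0` ⇒ `v(a - 1)^(2g) = v(2)`.  Proof: `(a - 1)^2 = (y - 2) a - (p - 1)` (from
  `a^2 = y a - p`).  `v(2) < v(y)`: otherwise `v(y) ≤ v(2) < 1` and `v(y)^g ≤ v(2)^g < v(2)`.
  So `v(y - 2) = v(y)`, `v((y-2) a) = v(y) > v(2) ≥ v(p-1)`, `v((a-1)^2) = v(y)`.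
* `two_ad`: `GoodF`, `Spl`, `v(2) < 1` give `TwoAd`: `y_i = a_i + p/a_i` are the roots of `R`
  (`real_map`, `real_cond`), `real_val_y`, `real_val_diff`; `v(a_i) = 1`: `a_i` and `p/a_i` are
  integral (`val_le_one`; roots of the monic `f`) and their product `p` is odd (`p % 4 = 3`), `v(p) = 1`
  (`val_int_unit` with the prime `2`); `2 ∣ p - 1`.  For `p/a_i` apply `alpha_val` to `p/a_i`
  (`p/(p/a_i) = a_i`).
* `val_unit`: `v(a_i) = 1` and `v(p/a_i) = 1` (used elsewhere too).
-/

set_option autoImplicit false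

namespace LIF

open Polynomial

theorem alpha_val {E : Type*} [Field E] (A : ValuationSubring E) (h2 : A.valuation (2 : E) < 1)
    (h20 : (2 : E) ≠ 0) {p g : ℕ} (hg : 2 ≤ g) {a : E} (ha : A.valuation a = 1)
    (hp : A.valuation ((p : E) - 1) ≤ A.valuation (2 : E))
    (hy : A.valuation (a + (p : E) / a) ^ g = A.valuation (2 : E)) :
    A.valuation (a - 1) ^ (2 * g) = A.valuation (2 : E) := by
  have ha0 : a ≠ 0 := by
    rintro rfl
    rw [map_zero] at ha
    exact zero_ne_one ha
  obtain ⟨y, hyd⟩ : ∃ y, y = a + (p : E) / a := ⟨_, rfl⟩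
  rw [← hyd] at hy
  have h20' : A.valuation (2 : E) ≠ 0 := (map_ne_zero A.valuation).2 h20
  have hpos : 0 < A.valuation (2 : E) := zero_lt_iff.2 h20'
  have h2y : A.valuation (2 : E) < A.valuation y := by
    by_contra hcon
    rw [not_lt] at hcon
    have h1 : A.valuation y ^ g ≤ A.valuation (2 : E) ^ g := pow_le_pow_left₀ zero_le hcon g
    have h3 : A.valuation (2 : E) ^ g ≤ A.valuation (2 : E) ^ 2 :=
      pow_le_pow_right_of_le_one' h2.le hg
    have h4 : A.valuation (2 : E) ^ 2 < A.valuation (2 : E) := by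
      rw [pow_two]
      calc A.valuation (2 : E) * A.valuation (2 : E) < 1 * A.valuation (2 : E) :=
            mul_lt_mul_of_pos_right h2 hpos
        _ = A.valuation (2 : E) := one_mul _
    rw [hy] at h1
    exact absurd (h1.trans h3) (not_le.2 h4)
  have hy2 : A.valuation (y - 2) = A.valuation y := Valuation.map_sub_eq_of_lt_left _ h2y
  have hid : (a - 1) ^ 2 = (y - 2) * a - ((p : E) - 1) := by
    rw [hyd]
    field_simp
    ring
  have hv : A.valuation ((a - 1) ^ 2) = A.valuation y := by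
    rw [hid]
    have h5 : A.valuation ((y - 2) * a) = A.valuation y := by
      rw [map_mul, ha, mul_one, hy2]
    rw [← h5]
    refine Valuation.map_sub_eq_of_lt_left _ ?_
    rw [h5]
    exact lt_of_le_of_lt hp h2y
  rw [pow_mul, ← map_pow, hv, hy]

theorem val_unit {p k : ℕ} {f : ℤ[X]} (h : GoodF p k f) {E : Type*} [Field E] [CharZero E]
    {a : Fin (2 ^ k) → E} (hs : Spl p f a) (A : ValuationSubring E)
    (h2 : A.valuation (2 : E) < 1) (i : Fin (2 ^ k)) :
    A.valuation (a i) = 1 ∧ A.valuation ((p : E) / a i) = 1 := by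
  obtain ⟨ha, -⟩ := roots_inj h hs
  have hint : ∀ x : E, (f.map (Int.castRingHom E)).eval x = 0 → IsIntegral ℤ x := by
    intro x hx
    refine ⟨f, h.mon, ?_⟩
    rw [← hx, eval_map]
    rfl
  have h1 : A.valuation (a i) ≤ 1 := by
    refine val_le_one A (hint _ ?_)
    rw [hs, eval_prod]
    refine Finset.prod_eq_zero (Finset.mem_univ i) ?_
    simp
  have h3 : A.valuation ((p : E) / a i) ≤ 1 := by
    refine val_le_one A (hint _ ?_)
    rw [hs, eval_prod]
    refine Finset.prod_eq_zero (Finset.mem_univ i) ?_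
    simp
  have h4 : A.valuation (p : E) = 1 := by
    have h5 := val_int_unit (E := E) A (p := 2) (by exact_mod_cast h2) (c := (p : ℤ)) (by
      have := h.p4
      omega)
    rwa [Int.cast_natCast] at h5
  have h6 : A.valuation (a i) * A.valuation ((p : E) / a i) = 1 := by
    rw [← map_mul, mul_div_cancel₀ _ (ha i), h4]
  have h7 : A.valuation (a i) = 1 := by
    refine le_antisymm h1 ?_
    calc (1 : A.ValueGroup) = A.valuation (a i) * A.valuation ((p : E) / a i) := h6.symm
      _ ≤ A.valuation (a i) * 1 := mul_le_mul_right h3 _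
      _ = _ := mul_one _
  refine ⟨h7, ?_⟩
  rwa [h7, one_mul] at h6

theorem two_ad {p k : ℕ} {f : ℤ[X]} (h : GoodF p k f) {E : Type*} [Field E] [CharZero E]
    {a : Fin (2 ^ k) → E} (hs : Spl p f a) (A : ValuationSubring E)
    (h2 : A.valuation (2 : E) < 1) : TwoAd p k A a := by
  have hmap := real_map h hs
  have hR := real_cond h
  have hg : 2 ≤ 2 ^ k := by
    calc 2 = 2 ^ 1 := by norm_num
      _ ≤ 2 ^ k := Nat.pow_le_pow_right (by norm_num) (by have := h.k2; omega)
  have h20 : (2 : E) ≠ 0 := two_ne_zero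
  have hp : A.valuation ((p : E) - 1) ≤ A.valuation (2 : E) := by
    have h3 := val_int_dvd (E := E) A (p := 2) (c := (p : ℤ) - 1) (by
      have := h.p4
      omega)
    push_cast at h3
    exact h3
  obtain ⟨ha, -⟩ := roots_inj h hs
  have hy := fun i => real_val_y h.k2 hR A h2 hmap i
  refine ⟨h2, fun i => ?_, fun i => ?_, fun i j hij => ?_⟩
  · exact alpha_val A h2 h20 hg (val_unit h hs A h2 i).1 hp (hy i)
  · refine alpha_val A h2 h20 hg (val_unit h hs A h2 i).2 hp ?_
    have e : (p : E) / ((p : E) / a i) = a i := by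
      have hp0 : (p : E) ≠ 0 := by
        rw [Nat.cast_ne_zero]
        rintro rfl
        have := h.p4
        omega
      have hai := ha i
      field_simp
    rw [e, add_comm]
    exact hy i
  · exact real_val_diff h.k2 hR A h2 hmap hij

end LIF
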