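import Pool.Agent.helper1.GLI.Defs

/-!
[GLI-Base3] The base value for `p = 3`, `s = -1`: explicit computation (imports only `Defs`).

`γ^8 - γ^4 - 1 = 0` over `F_3`.  Put `δ = γ^2`, `e = γ^4`: `e^2 = e + 1`, `δ^2 = e`,
`e^4 = (e+1)^2 = e^2 + 2e + 1 = 3e + 2 = -1`, `δ^8 = -1`.
* `base3_kappa`: `(δ/(1-δ))^20 = -1` (`(3^4-1)/4 = 20`): `δ^20 = δ^16 δ^4 = δ^4 = e^2 = e + 1`;
  `(1-δ)^9 = 1 - δ^9 = 1 + δ`, so `(1-δ)^20 = ((1-δ)^9)^2 (1-δ)^2 = (1+δ)^2 (1-δ)^2 = (1-e)^2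
  = 1 - 2e + e^2 = 2 + 2e = -(1+e)`.  The quotient is `-1` (`1 + e ≠ 0` because `e^2 = e+1`, `e ≠ 0`).
* `base3_b`: `eta 3 2 (1 - (γ^4)^((3-1)/2)) = (1 - e)^4 = (2 + 2e)^2 = 4(1+e)^2 = e^4 = -1`.
* `base3_lam`: `Lam 3 2 (γ^2)`: `odds 2 = {1}`, `= eta 3 4 (1 + (1 - δ)^1) = (2 - δ)^40 =
  (-(1+δ))^40 = (1+δ)^40`; `(1+δ)^9 = 1 + δ^9 = 1 - δ`, so `(1+δ)^10 = (1+δ)(1-δ) = 1 - e` and
  `(1+δ)^40 = (1-e)^4 = -1`.
-/

set_option autoImplicit false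

namespace LIF

open Polynomial

private theorem base3_aux [Fact (Nat.Prime 3)] {γ : AlgebraicClosure (ZMod 3)}
    (h : aeval γ (hq (-1 : ZMod 3) 4) = 0) :
    (3 : AlgebraicClosure (ZMod 3)) = 0 ∧ (fun δ : AlgebraicClosure (ZMod 3) => δ ^ 4 - δ ^ 2 - 1 = 0) (γ ^ 2) := by
  have h3 : (3 : AlgebraicClosure (ZMod 3)) = 0 := by
    have e : (3 : ZMod 3) = 0 := rfl
    rw [← map_ofNat (algebraMap (ZMod 3) (AlgebraicClosure (ZMod 3))) 3, e, map_zero]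
  refine ⟨h3, ?_⟩
  unfold hq at h
  simp only [map_sub, map_add, map_mul, map_pow, map_one, aeval_X, map_neg] at h
  show _ = _
  linear_combination h

private theorem base3_k {K : Type*} [Field K] {δ : K} (h3 : (3 : K) = 0) (hm : δ ^ 4 - δ ^ 2 - 1 = 0) :
    (1 - δ) ^ 20 = -1 - δ ^ 2 ∧ δ ^ 20 = 1 + δ ^ 2 := by
  have k_1 : (1 - δ) ^ 1 = 1 - δ := by
    ring
  have k_2 : (1 - δ) ^ 2 = 1 + δ + δ ^ 2 := by
    have e : (1 - δ) ^ 2 = ((1 - δ) ^ 1) ^ 2 := by rw [← pow_mul]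
    rw [e, k_1]
    linear_combination (-δ) * h3
  have k_4 : (1 - δ) ^ 4 = -1 - δ + δ ^ 2 - δ ^ 3 := by
    have e : (1 - δ) ^ 4 = ((1 - δ) ^ 2) ^ 2 := by rw [← pow_mul]
    rw [e, k_2]
    linear_combination (1) * hm + (1 + δ + δ ^ 2 + δ ^ 3) * h3
  have k_5 : (1 - δ) ^ 5 = δ ^ 3 := by
    have e : (1 - δ) ^ 5 = (1 - δ) ^ 4 * (1 - δ) ^ 1 := by rw [← pow_add]
    rw [e, k_4, k_1]
    linear_combination (1) * hm + (δ ^ 2 - δ ^ 3) * h3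
  have k_10 : (1 - δ) ^ 10 = 1 - δ ^ 2 := by
    have e : (1 - δ) ^ 10 = ((1 - δ) ^ 5) ^ 2 := by rw [← pow_mul]
    rw [e, k_5]
    linear_combination (1 + δ ^ 2) * hm + (δ ^ 2) * h3
  have k_20 : (1 - δ) ^ 20 = -1 - δ ^ 2 := by
    have e : (1 - δ) ^ 20 = ((1 - δ) ^ 10) ^ 2 := by rw [← pow_mul]
    rw [e, k_10]
    linear_combination (1) * hm + (1) * h3
  have d_1 : (δ) ^ 1 = δ := by
    ring
  have d_2 : (δ) ^ 2 = δ ^ 2 := by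
    have e : (δ) ^ 2 = ((δ) ^ 1) ^ 2 := by rw [← pow_mul]
    rw [e, d_1]
    first | done | ring
  have d_4 : (δ) ^ 4 = 1 + δ ^ 2 := by
    have e : (δ) ^ 4 = ((δ) ^ 2) ^ 2 := by rw [← pow_mul]
    rw [e, d_2]
    linear_combination (1) * hm
  have d_5 : (δ) ^ 5 = δ + δ ^ 3 := by
    have e : (δ) ^ 5 = (δ) ^ 4 * (δ) ^ 1 := by rw [← pow_add]
    rw [e, d_4, d_1]
    ring
  have d_10 : (δ) ^ 10 = -δ ^ 2 := by
    have e : (δ) ^ 10 = ((δ) ^ 5) ^ 2 := by rw [← pow_mul]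
    rw [e, d_5]
    linear_combination (3 + δ ^ 2) * hm + (1 + 2 * δ ^ 2) * h3
  have d_20 : (δ) ^ 20 = 1 + δ ^ 2 := by
    have e : (δ) ^ 20 = ((δ) ^ 10) ^ 2 := by rw [← pow_mul]
    rw [e, d_10]
    linear_combination (1) * hm
  exact ⟨k_20, d_20⟩

private theorem base3_bb {K : Type*} [Field K] {δ : K} (h3 : (3 : K) = 0) (hm : δ ^ 4 - δ ^ 2 - 1 = 0) :
    (1 - δ ^ 2) ^ 4 = -1 := by
  have b_1 : (1 - δ ^ 2) ^ 1 = 1 - δ ^ 2 := by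
    ring
  have b_2 : (1 - δ ^ 2) ^ 2 = -1 - δ ^ 2 := by
    have e : (1 - δ ^ 2) ^ 2 = ((1 - δ ^ 2) ^ 1) ^ 2 := by rw [← pow_mul]
    rw [e, b_1]
    linear_combination (1) * hm + (1) * h3
  have b_4 : (1 - δ ^ 2) ^ 4 = -1 := by
    have e : (1 - δ ^ 2) ^ 4 = ((1 - δ ^ 2) ^ 2) ^ 2 := by rw [← pow_mul]
    rw [e, b_2]
    linear_combination (1) * hm + (1 + δ ^ 2) * h3
  exact b_4

private theorem base3_ll {K : Type*} [Field K] {δ : K} (h3 : (3 : K) = 0) (hm : δ ^ 4 - δ ^ 2 - 1 = 0) :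
    (1 + (1 - δ) ^ 1) ^ 40 = -1 := by
  have l_1 : (1 + (1 - δ) ^ 1) ^ 1 = -1 - δ := by
    linear_combination (1) * h3
  have l_2 : (1 + (1 - δ) ^ 1) ^ 2 = 1 - δ + δ ^ 2 := by
    have e : (1 + (1 - δ) ^ 1) ^ 2 = ((1 + (1 - δ) ^ 1) ^ 1) ^ 2 := by rw [← pow_mul]
    rw [e, l_1]
    linear_combination (δ) * h3
  have l_4 : (1 + (1 - δ) ^ 1) ^ 4 = -1 + δ + δ ^ 2 + δ ^ 3 := by
    have e : (1 + (1 - δ) ^ 1) ^ 4 = ((1 + (1 - δ) ^ 1) ^ 2) ^ 2 := by rw [← pow_mul]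
    rw [e, l_2]
    linear_combination (1) * hm + (1 - δ + δ ^ 2 - δ ^ 3) * h3
  have l_5 : (1 + (1 - δ) ^ 1) ^ 5 = δ ^ 3 := by
    have e : (1 + (1 - δ) ^ 1) ^ 5 = (1 + (1 - δ) ^ 1) ^ 4 * (1 + (1 - δ) ^ 1) ^ 1 := by rw [← pow_add]
    rw [e, l_4, l_1]
    linear_combination (-1) * hm + (-δ ^ 2 - δ ^ 3) * h3
  have l_10 : (1 + (1 - δ) ^ 1) ^ 10 = 1 - δ ^ 2 := by
    have e : (1 + (1 - δ) ^ 1) ^ 10 = ((1 + (1 - δ) ^ 1) ^ 5) ^ 2 := by rw [← pow_mul]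
    rw [e, l_5]
    linear_combination (1 + δ ^ 2) * hm + (δ ^ 2) * h3
  have l_20 : (1 + (1 - δ) ^ 1) ^ 20 = -1 - δ ^ 2 := by
    have e : (1 + (1 - δ) ^ 1) ^ 20 = ((1 + (1 - δ) ^ 1) ^ 10) ^ 2 := by rw [← pow_mul]
    rw [e, l_10]
    linear_combination (1) * hm + (1) * h3
  have l_40 : (1 + (1 - δ) ^ 1) ^ 40 = -1 := by
    have e : (1 + (1 - δ) ^ 1) ^ 40 = ((1 + (1 - δ) ^ 1) ^ 20) ^ 2 := by rw [← pow_mul]
    rw [e, l_20]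
    linear_combination (1) * hm + (1 + δ ^ 2) * h3
  exact l_40

theorem base3_kappa [Fact (Nat.Prime 3)] {γ : AlgebraicClosure (ZMod 3)}
    (h : aeval γ (hq (-1 : ZMod 3) 4) = 0) :
    (γ ^ 2 / (1 - γ ^ 2)) ^ ((3 ^ 4 - 1) / 4) = -1 := by
  obtain ⟨h3, hm⟩ := base3_aux h
  obtain ⟨hk, hd⟩ := base3_k h3 hm
  have e : (3 ^ 4 - 1) / 4 = 20 := by norm_num
  rw [e, div_pow]
  have hs : (γ ^ 2) ^ 20 = -(1 - γ ^ 2) ^ 20 := by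
    rw [hd, hk]
    ring
  have hg : (γ ^ 2) ^ 20 ≠ 0 := by
    intro h0
    have h1 : γ = 0 := by
      have := pow_eq_zero_iff (by norm_num : 20 ≠ 0) |>.1 h0
      exact pow_eq_zero_iff (by norm_num : 2 ≠ 0) |>.1 this
    simp only [h1] at hm
    norm_num at hm
  have hne : (1 - γ ^ 2) ^ 20 ≠ 0 := by
    intro h0
    rw [h0, neg_zero] at hs
    exact hg hs
  rw [hs, neg_div, div_self hne]

theorem base3_b [Fact (Nat.Prime 3)] {γ : AlgebraicClosure (ZMod 3)}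
    (h : aeval γ (hq (-1 : ZMod 3) 4) = 0) :
    eta 3 2 (1 - (γ ^ 4) ^ ((3 - 1) / 2)) = -1 := by
  obtain ⟨h3, hm⟩ := base3_aux h
  have hb := base3_bb h3 hm
  have e : (3 ^ 2 - 1) / 2 = 4 := by norm_num
  have e2 : (γ ^ 4) ^ ((3 - 1) / 2) = (γ ^ 2) ^ 2 := by
    rw [← pow_mul, ← pow_mul]
  unfold eta
  rw [e, e2, hb]

theorem base3_lam [Fact (Nat.Prime 3)] {γ : AlgebraicClosure (ZMod 3)}
    (h : aeval γ (hq (-1 : ZMod 3) 4) = 0) : Lam 3 2 (γ ^ 2) = -1 := by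
  obtain ⟨h3, hm⟩ := base3_aux h
  have hl := base3_ll h3 hm
  have ho : odds 2 = {1} := by decide
  have e : (3 ^ (2 * 2) - 1) / 2 = 40 := by norm_num
  have e2 : (3 ^ 1 - 1) / 2 = 1 := by norm_num
  unfold Lam eta zz
  rw [ho, Finset.prod_singleton, e, e2, hl]

end LIF
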