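import Pool.Agent.helper1.GLI.Defs

/-!
[GLI-Base7] The base value for `p = 7`, `s = 3`: explicit computation (imports only `Defs`).

`γ^8 + 3 γ^4 - 1 = 0` over `F_7`.  Put `δ = γ^2`, `e = γ^4 = δ^2`: `e^2 = 4e + 1` (`-3 = 4`),
`e^4 = 2e + 3`, `e^8 = -1`, `δ^16 = -1`, and Frobenius: `e^7 = -1/e = 3 - ... ` i.e. `e^7 e = -1`
(`e^8 = -1`), `δ^49 = -δ` (`δ^48 = (δ^16)^3 = -1`).  For a polynomial expression `x(δ)` with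
coefficients in `F_7`: `x(δ)^49 = x(-δ)`; for `y(e)`: `y(e)^7 = y(e^7)`, `e + e^7 = 4`,
`e e^7 = -1`, so `(a + b e)^8 = (a + b e)(a + b e^7) = a^2 + 4ab - b^2`.
* `base7_kappa`: `((7^4-1)/4 = 600 = 50 * 12)`: `(δ/(1-δ))^50 = δ (-δ)/((1-δ)(1+δ)) = -e/(1-e)`,
  `^12`: `e^12/(1-e)^12`; `e^12 = -e^4 = -(2e+3)`; `(1-e)^8 = 1 - 4 - 1 = -4 = 3`
  (`a = 1, b = -1`: `1 - 4 - 1`), `(1-e)^4 = (2e+2)^2 = 4(e^2+2e+1) = 4(6e+2) = 3e+1`, so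
  `(1-e)^12 = 3(3e+1) = 2e+3`.  Quotient `-1`.
* `base7_b`: `eta 7 2 (1 - (γ^4)^((7-1)/2)) = (1 - e^3)^24`, `e^3 = 3e+4`, `1 - e^3 = 4(e+1)`,
  `(e+1)^8 = 1 + 4 - 1 = 4`, `(4(e+1))^8 = 4^8 * 4 = 4^9 = 1` (`4^3 = 1`), so the value is `1`.
* `base7_lam`: `Lam 7 2 (γ^2) = eta 7 4 (1 + (1-δ)^3) = y^1200`, `y = 1 + (1-δ)^3`, `1200 = 50 * 24`;
  `y^50 = (1 + (1-δ)^3)(1 + (1+δ)^3) = 1 + (2 + 6 e) + (1-e)^3 = 3 + 6e + (1-e)(2e+2)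
  = 5 + 6e - 2e^2 = 3 - 2e`; `(3-2e)^8 = 9 - 24 - 4 = -19 = 2`, `^3 = 8 = 1`.  Value `1`.
All denominators are nonzero (`(1-e)^12 = 2e+3`; if `2e + 3 = 0` then `e ∈ F_7`, impossible as
`e^2 = 4e+1` has no root in `F_7`; or from `(1-e)^8 = 3 ≠ 0`).
-/

set_option autoImplicit false

namespace LIF

open Polynomial

private theorem base7_aux [Fact (Nat.Prime 7)] {γ : AlgebraicClosure (ZMod 7)}
    (h : aeval γ (hq (3 : ZMod 7) 4) = 0) :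
    (7 : AlgebraicClosure (ZMod 7)) = 0 ∧ (fun δ : AlgebraicClosure (ZMod 7) => δ ^ 4 + 3 * δ ^ 2 - 1 = 0) (γ ^ 2) := by
  have h3 : (7 : AlgebraicClosure (ZMod 7)) = 0 := by
    have e : (7 : ZMod 7) = 0 := rfl
    rw [← map_ofNat (algebraMap (ZMod 7) (AlgebraicClosure (ZMod 7))) 7, e, map_zero]
  refine ⟨h3, ?_⟩
  unfold hq at h
  simp only [map_sub, map_add, map_mul, map_pow, map_one, aeval_X, map_ofNat] at h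
  show _ = _
  linear_combination h

private theorem base7_k {K : Type*} [Field K] {δ : K} (h3 : (7 : K) = 0) (hm : δ ^ 4 + 3 * δ ^ 2 - 1 = 0) :
    (1 - δ) ^ 600 = 3 + 2 * δ ^ 2 ∧ δ ^ 600 = -3 - 2 * δ ^ 2 := by
  have k_1 : (1 - δ) ^ 1 = 1 - δ := by
    ring
  have k_2 : (1 - δ) ^ 2 = 1 - 2 * δ + δ ^ 2 := by
    have e : (1 - δ) ^ 2 = ((1 - δ) ^ 1) ^ 2 := by rw [← pow_mul]
    rw [e, k_1]
    first | done | ring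
  have k_4 : (1 - δ) ^ 4 = 2 + 3 * δ + 3 * δ ^ 2 + 3 * δ ^ 3 := by
    have e : (1 - δ) ^ 4 = ((1 - δ) ^ 2) ^ 2 := by rw [← pow_mul]
    rw [e, k_2]
    linear_combination (1) * hm + (-δ - δ ^ 3) * h3
  have k_8 : (1 - δ) ^ 8 = -3 + 2 * δ + 2 * δ ^ 2 - 3 * δ ^ 3 := by
    have e : (1 - δ) ^ 8 = ((1 - δ) ^ 4) ^ 2 := by rw [← pow_mul]
    rw [e, k_4]
    linear_combination (18 * δ + 9 * δ ^ 2) * hm + (1 + 4 * δ + 4 * δ ^ 2 - 3 * δ ^ 3) * h3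
  have k_9 : (1 - δ) ^ 9 = -2 * δ - 2 * δ ^ 2 + 2 * δ ^ 3 := by
    have e : (1 - δ) ^ 9 = (1 - δ) ^ 8 * (1 - δ) ^ 1 := by rw [← pow_add]
    rw [e, k_8, k_1]
    linear_combination (3) * hm + (δ - δ ^ 2 - δ ^ 3) * h3
  have k_18 : (1 - δ) ^ 18 = -2 - δ - 3 * δ ^ 3 := by
    have e : (1 - δ) ^ 18 = ((1 - δ) ^ 9) ^ 2 := by rw [← pow_mul]
    rw [e, k_9]
    linear_combination (-16 - 8 * δ + 4 * δ ^ 2) * hm + (-2 - δ + 8 * δ ^ 2 + 5 * δ ^ 3) * h3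
  have k_36 : (1 - δ) ^ 36 = -3 - 3 * δ + 3 * δ ^ 2 - 2 * δ ^ 3 := by
    have e : (1 - δ) ^ 36 = ((1 - δ) ^ 18) ^ 2 := by rw [← pow_mul]
    rw [e, k_18]
    linear_combination (-21 + 9 * δ ^ 2) * hm + (-2 + δ + 10 * δ ^ 2 + 2 * δ ^ 3) * h3
  have k_37 : (1 - δ) ^ 37 = -1 + 2 * δ ^ 3 := by
    have e : (1 - δ) ^ 37 = (1 - δ) ^ 36 * (1 - δ) ^ 1 := by rw [← pow_add]
    rw [e, k_36, k_1]
    linear_combination (2) * hm + (-δ ^ 3) * h3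
  have k_74 : (1 - δ) ^ 74 = 3 - 2 * δ ^ 2 + 3 * δ ^ 3 := by
    have e : (1 - δ) ^ 74 = ((1 - δ) ^ 37) ^ 2 := by rw [← pow_mul]
    rw [e, k_37]
    linear_combination (-12 + 4 * δ ^ 2) * hm + (-2 + 6 * δ ^ 2 - δ ^ 3) * h3
  have k_75 : (1 - δ) ^ 75 = -3 * δ - 2 * δ ^ 3 := by
    have e : (1 - δ) ^ 75 = (1 - δ) ^ 74 * (1 - δ) ^ 1 := by rw [← pow_add]
    rw [e, k_74, k_1]
    linear_combination (-3) * hm + (δ ^ 2 + δ ^ 3) * h3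
  have k_150 : (1 - δ) ^ 150 = -δ ^ 2 := by
    have e : (1 - δ) ^ 150 = ((1 - δ) ^ 75) ^ 2 := by rw [← pow_mul]
    rw [e, k_75]
    linear_combination (4 * δ ^ 2) * hm + (2 * δ ^ 2) * h3
  have k_300 : (1 - δ) ^ 300 = 1 - 3 * δ ^ 2 := by
    have e : (1 - δ) ^ 300 = ((1 - δ) ^ 150) ^ 2 := by rw [← pow_mul]
    rw [e, k_150]
    linear_combination (1) * hm
  have k_600 : (1 - δ) ^ 600 = 3 + 2 * δ ^ 2 := by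
    have e : (1 - δ) ^ 600 = ((1 - δ) ^ 300) ^ 2 := by rw [← pow_mul]
    rw [e, k_300]
    linear_combination (9) * hm + (1 - 5 * δ ^ 2) * h3
  have d_1 : (δ) ^ 1 = δ := by
    ring
  have d_2 : (δ) ^ 2 = δ ^ 2 := by
    have e : (δ) ^ 2 = ((δ) ^ 1) ^ 2 := by rw [← pow_mul]
    rw [e, d_1]
    first | done | ring
  have d_4 : (δ) ^ 4 = 1 - 3 * δ ^ 2 := by
    have e : (δ) ^ 4 = ((δ) ^ 2) ^ 2 := by rw [← pow_mul]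
    rw [e, d_2]
    linear_combination (1) * hm
  have d_8 : (δ) ^ 8 = 3 + 2 * δ ^ 2 := by
    have e : (δ) ^ 8 = ((δ) ^ 4) ^ 2 := by rw [← pow_mul]
    rw [e, d_4]
    linear_combination (9) * hm + (1 - 5 * δ ^ 2) * h3
  have d_9 : (δ) ^ 9 = 3 * δ + 2 * δ ^ 3 := by
    have e : (δ) ^ 9 = (δ) ^ 8 * (δ) ^ 1 := by rw [← pow_add]
    rw [e, d_8, d_1]
    ring
  have d_18 : (δ) ^ 18 = -δ ^ 2 := by
    have e : (δ) ^ 18 = ((δ) ^ 9) ^ 2 := by rw [← pow_mul]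
    rw [e, d_9]
    linear_combination (4 * δ ^ 2) * hm + (2 * δ ^ 2) * h3
  have d_36 : (δ) ^ 36 = 1 - 3 * δ ^ 2 := by
    have e : (δ) ^ 36 = ((δ) ^ 18) ^ 2 := by rw [← pow_mul]
    rw [e, d_18]
    linear_combination (1) * hm
  have d_37 : (δ) ^ 37 = δ - 3 * δ ^ 3 := by
    have e : (δ) ^ 37 = (δ) ^ 36 * (δ) ^ 1 := by rw [← pow_add]
    rw [e, d_36, d_1]
    ring
  have d_74 : (δ) ^ 74 = 2 - 3 * δ ^ 2 := by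
    have e : (δ) ^ 74 = ((δ) ^ 37) ^ 2 := by rw [← pow_mul]
    rw [e, d_37]
    linear_combination (-33 + 9 * δ ^ 2) * hm + (-5 + 16 * δ ^ 2) * h3
  have d_75 : (δ) ^ 75 = 2 * δ - 3 * δ ^ 3 := by
    have e : (δ) ^ 75 = (δ) ^ 74 * (δ) ^ 1 := by rw [← pow_add]
    rw [e, d_74, d_1]
    ring
  have d_150 : (δ) ^ 150 = 3 - 3 * δ ^ 2 := by
    have e : (δ) ^ 150 = ((δ) ^ 75) ^ 2 := by rw [← pow_mul]
    rw [e, d_75]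
    linear_combination (-39 + 9 * δ ^ 2) * hm + (-6 + 19 * δ ^ 2) * h3
  have d_300 : (δ) ^ 300 = -3 - 3 * δ ^ 2 := by
    have e : (δ) ^ 300 = ((δ) ^ 150) ^ 2 := by rw [← pow_mul]
    rw [e, d_150]
    linear_combination (9) * hm + (3 - 6 * δ ^ 2) * h3
  have d_600 : (δ) ^ 600 = -3 - 2 * δ ^ 2 := by
    have e : (δ) ^ 600 = ((δ) ^ 300) ^ 2 := by rw [← pow_mul]
    rw [e, d_300]
    linear_combination (9) * hm + (3 - δ ^ 2) * h3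
  exact ⟨k_600, d_600⟩

private theorem base7_bb {K : Type*} [Field K] {δ : K} (h3 : (7 : K) = 0) (hm : δ ^ 4 + 3 * δ ^ 2 - 1 = 0) :
    (1 - δ ^ 6) ^ 24 = 1 := by
  have b_1 : (1 - δ ^ 6) ^ 1 = -3 - 3 * δ ^ 2 := by
    linear_combination (3 - δ ^ 2) * hm + (1 - δ ^ 2) * h3
  have b_2 : (1 - δ ^ 6) ^ 2 = -3 - 2 * δ ^ 2 := by
    have e : (1 - δ ^ 6) ^ 2 = ((1 - δ ^ 6) ^ 1) ^ 2 := by rw [← pow_mul]
    rw [e, b_1]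
    linear_combination (9) * hm + (3 - δ ^ 2) * h3
  have b_3 : (1 - δ ^ 6) ^ 3 = 1 - 3 * δ ^ 2 := by
    have e : (1 - δ ^ 6) ^ 3 = (1 - δ ^ 6) ^ 2 * (1 - δ ^ 6) ^ 1 := by rw [← pow_add]
    rw [e, b_2, b_1]
    linear_combination (6) * hm + (2) * h3
  have b_6 : (1 - δ ^ 6) ^ 6 = 3 + 2 * δ ^ 2 := by
    have e : (1 - δ ^ 6) ^ 6 = ((1 - δ ^ 6) ^ 3) ^ 2 := by rw [← pow_mul]
    rw [e, b_3]
    linear_combination (9) * hm + (1 - 5 * δ ^ 2) * h3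
  have b_12 : (1 - δ ^ 6) ^ 12 = -1 := by
    have e : (1 - δ ^ 6) ^ 12 = ((1 - δ ^ 6) ^ 6) ^ 2 := by rw [← pow_mul]
    rw [e, b_6]
    linear_combination (4) * hm + (2) * h3
  have b_24 : (1 - δ ^ 6) ^ 24 = 1 := by
    have e : (1 - δ ^ 6) ^ 24 = ((1 - δ ^ 6) ^ 12) ^ 2 := by rw [← pow_mul]
    rw [e, b_12]
    first | done | ring
  exact b_24

private theorem base7_ll {K : Type*} [Field K] {δ : K} (h3 : (7 : K) = 0) (hm : δ ^ 4 + 3 * δ ^ 2 - 1 = 0) :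
    (1 + (1 - δ) ^ 3) ^ 1200 = 1 := by
  have l_1 : (1 + (1 - δ) ^ 3) ^ 1 = 2 - 3 * δ + 3 * δ ^ 2 - δ ^ 3 := by
    ring
  have l_2 : (1 + (1 - δ) ^ 3) ^ 2 = 2 + 3 * δ + 3 * δ ^ 3 := by
    have e : (1 + (1 - δ) ^ 3) ^ 2 = ((1 + (1 - δ) ^ 3) ^ 1) ^ 2 := by rw [← pow_mul]
    rw [e, l_1]
    linear_combination (12 - 6 * δ + δ ^ 2) * hm + (2 - 3 * δ - 2 * δ ^ 2 - δ ^ 3) * h3
  have l_4 : (1 + (1 - δ) ^ 3) ^ 4 = 2 - 2 * δ + 3 * δ ^ 2 - 2 * δ ^ 3 := by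
    have e : (1 + (1 - δ) ^ 3) ^ 4 = ((1 + (1 - δ) ^ 3) ^ 2) ^ 2 := by rw [← pow_mul]
    rw [e, l_2]
    linear_combination (-9 + 9 * δ ^ 2) * hm + (-1 + 2 * δ + 6 * δ ^ 2 + 2 * δ ^ 3) * h3
  have l_8 : (1 + (1 - δ) ^ 3) ^ 8 = 2 + δ - 2 * δ ^ 2 + 2 * δ ^ 3 := by
    have e : (1 + (1 - δ) ^ 3) ^ 8 = ((1 + (1 - δ) ^ 3) ^ 4) ^ 2 := by rw [← pow_mul]
    rw [e, l_4]
    linear_combination (5 - 12 * δ + 4 * δ ^ 2) * hm + (1 - 3 * δ + δ ^ 2 + 2 * δ ^ 3) * h3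
  have l_9 : (1 + (1 - δ) ^ 3) ^ 9 = -3 - 3 * δ - 3 * δ ^ 2 + δ ^ 3 := by
    have e : (1 + (1 - δ) ^ 3) ^ 9 = (1 + (1 - δ) ^ 3) ^ 8 * (1 + (1 - δ) ^ 3) ^ 1 := by rw [← pow_add]
    rw [e, l_8, l_1]
    linear_combination (-7 + 8 * δ - 2 * δ ^ 2) * hm + (δ + 3 * δ ^ 2 - 2 * δ ^ 3) * h3
  have l_18 : (1 + (1 - δ) ^ 3) ^ 18 = 2 - 2 * δ + 2 * δ ^ 3 := by
    have e : (1 + (1 - δ) ^ 3) ^ 18 = ((1 + (1 - δ) ^ 3) ^ 9) ^ 2 := by rw [← pow_mul]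
    rw [e, l_9]
    linear_combination (-6 * δ + δ ^ 2) * hm + (1 + 2 * δ + 4 * δ ^ 2 + 4 * δ ^ 3) * h3
  have l_36 : (1 + (1 - δ) ^ 3) ^ 36 = -2 - δ - 2 * δ ^ 2 + δ ^ 3 := by
    have e : (1 + (1 - δ) ^ 3) ^ 36 = ((1 + (1 - δ) ^ 3) ^ 18) ^ 2 := by rw [← pow_mul]
    rw [e, l_18]
    linear_combination (-20 + 4 * δ ^ 2) * hm + (-2 - δ + 10 * δ ^ 2 + δ ^ 3) * h3
  have l_37 : (1 + (1 - δ) ^ 3) ^ 37 = -2 + 2 * δ - δ ^ 3 := by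
    have e : (1 + (1 - δ) ^ 3) ^ 37 = (1 + (1 - δ) ^ 3) ^ 36 * (1 + (1 - δ) ^ 3) ^ 1 := by rw [← pow_add]
    rw [e, l_36, l_1]
    linear_combination (-5 + 5 * δ - δ ^ 2) * hm + (-1 + δ + δ ^ 2 - δ ^ 3) * h3
  have l_74 : (1 + (1 - δ) ^ 3) ^ 74 = -3 - δ - 2 * δ ^ 2 - 3 * δ ^ 3 := by
    have e : (1 + (1 - δ) ^ 3) ^ 74 = ((1 + (1 - δ) ^ 3) ^ 37) ^ 2 := by rw [← pow_mul]
    rw [e, l_37]
    linear_combination (-7 + δ ^ 2) * hm + (-δ + 4 * δ ^ 2 + δ ^ 3) * h3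
  have l_75 : (1 + (1 - δ) ^ 3) ^ 75 = 3 + δ ^ 2 := by
    have e : (1 + (1 - δ) ^ 3) ^ 75 = (1 + (1 - δ) ^ 3) ^ 74 * (1 + (1 - δ) ^ 3) ^ 1 := by rw [← pow_add]
    rw [e, l_74, l_1]
    linear_combination (-5 - 7 * δ + 3 * δ ^ 2) * hm + (-2 + δ ^ 2 + 3 * δ ^ 3) * h3
  have l_150 : (1 + (1 - δ) ^ 3) ^ 150 = 3 + 3 * δ ^ 2 := by
    have e : (1 + (1 - δ) ^ 3) ^ 150 = ((1 + (1 - δ) ^ 3) ^ 75) ^ 2 := by rw [← pow_mul]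
    rw [e, l_75]
    linear_combination (1) * hm + (1) * h3
  have l_300 : (1 + (1 - δ) ^ 3) ^ 300 = -3 - 2 * δ ^ 2 := by
    have e : (1 + (1 - δ) ^ 3) ^ 300 = ((1 + (1 - δ) ^ 3) ^ 150) ^ 2 := by rw [← pow_mul]
    rw [e, l_150]
    linear_combination (9) * hm + (3 - δ ^ 2) * h3
  have l_600 : (1 + (1 - δ) ^ 3) ^ 600 = -1 := by
    have e : (1 + (1 - δ) ^ 3) ^ 600 = ((1 + (1 - δ) ^ 3) ^ 300) ^ 2 := by rw [← pow_mul]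
    rw [e, l_300]
    linear_combination (4) * hm + (2) * h3
  have l_1200 : (1 + (1 - δ) ^ 3) ^ 1200 = 1 := by
    have e : (1 + (1 - δ) ^ 3) ^ 1200 = ((1 + (1 - δ) ^ 3) ^ 600) ^ 2 := by rw [← pow_mul]
    rw [e, l_600]
    first | done | ring
  exact l_1200

theorem base7_kappa [Fact (Nat.Prime 7)] {γ : AlgebraicClosure (ZMod 7)}
    (h : aeval γ (hq (3 : ZMod 7) 4) = 0) :
    (γ ^ 2 / (1 - γ ^ 2)) ^ ((7 ^ 4 - 1) / 4) = -1 := by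
  obtain ⟨h3, hm⟩ := base7_aux h
  obtain ⟨hk, hd⟩ := base7_k h3 hm
  have e : (7 ^ 4 - 1) / 4 = 600 := by norm_num
  rw [e, div_pow]
  have hs : (γ ^ 2) ^ 600 = -(1 - γ ^ 2) ^ 600 := by
    rw [hd, hk]
    ring
  have hg : (γ ^ 2) ^ 600 ≠ 0 := by
    intro h0
    have h1 : γ = 0 := by
      have := pow_eq_zero_iff (by norm_num : 600 ≠ 0) |>.1 h0
      exact pow_eq_zero_iff (by norm_num : 2 ≠ 0) |>.1 this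
    simp only [h1] at hm
    norm_num at hm
  have hne : (1 - γ ^ 2) ^ 600 ≠ 0 := by
    intro h0
    rw [h0, neg_zero] at hs
    exact hg hs
  rw [hs, neg_div, div_self hne]

theorem base7_b [Fact (Nat.Prime 7)] {γ : AlgebraicClosure (ZMod 7)}
    (h : aeval γ (hq (3 : ZMod 7) 4) = 0) :
    eta 7 2 (1 - (γ ^ 4) ^ ((7 - 1) / 2)) = 1 := by
  obtain ⟨h3, hm⟩ := base7_aux h
  have hb := base7_bb h3 hm
  have e : (7 ^ 2 - 1) / 2 = 24 := by norm_num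
  have e2 : (γ ^ 4) ^ ((7 - 1) / 2) = (γ ^ 2) ^ 6 := by
    rw [← pow_mul, ← pow_mul]
  unfold eta
  rw [e, e2, hb]

theorem base7_lam [Fact (Nat.Prime 7)] {γ : AlgebraicClosure (ZMod 7)}
    (h : aeval γ (hq (3 : ZMod 7) 4) = 0) : Lam 7 2 (γ ^ 2) = 1 := by
  obtain ⟨h3, hm⟩ := base7_aux h
  have hl := base7_ll h3 hm
  have ho : odds 2 = {1} := by decide
  have e : (7 ^ (2 * 2) - 1) / 2 = 1200 := by norm_num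
  have e2 : (7 ^ 1 - 1) / 2 = 3 := by norm_num
  unfold Lam eta zz
  rw [ho, Finset.prod_singleton, e, e2, hl]

end LIF
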