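import Pool.Agent.helper1.GLI.Defs

/-!
[GLI-Beta] The element `β` of `F_(p^2)` with `β^(p+1) = -1`, `p % 4 = 3` (any field of
characteristic `p` will do; stated in the algebraic closure).

`ω = β^((p-1)/2)`.
* `omega_frob`: `ω^(p+1) = (β^(p+1))^((p-1)/2) = (-1)^((p-1)/2) = -1` (`(p-1)/2` odd).
* `beta_pow`: `(p^d-1)/2 = ((p-1)/2)(1 + p + ... + p^(d-1))`, so `β^((p^d-1)/2) =
  ω^(1 + p + ... + p^(d-1))`; induction `d → d + 2`: the exponent grows by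
  `p^d + p^(d+1) = (1+p) p^d` and `ω^((1+p) p^d) = (-1)^(p^d) = -1`.  So for odd `d` the value is
  `(-1)^((d-1)/2) ω`.
* `beta_prod`: `(1 - ω)(1 + ω) = 1 - ω^2` and `ω^p = -1/ω`, so
  `(1 - ω^2)^(p+1) = (1 - ω^2)(1 - ω^(2p)) = (1 - ω^2)(1 - ω^(-2)) = - (ω - ω^(-1))^2
  = - t^2` with `t = ω + ω^p`, `t^p = t` (`ω^(p^2) = ω` as `ω^(p^2-1) = (-1)^(p-1) = 1`), `t ≠ 0`
  (otherwise `ω^2 = 1`, `ω^(p+1) = 1 ≠ -1`).  `eta p 2 (1 - ω^2) = ((1-ω^2)^(p+1))^((p-1)/2)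
  = (-1)^((p-1)/2) t^(p-1) = -1`.
* `beta_pm`: `(1 - ω)^(p^2 - 1) = 1` (`ω^(p^2) = ω`, `ω ≠ 1`), so `eta p 2 (1 - ω) = ±1`.
* `beta_all`: for `4 ∣ g` the odd `d < g` are `g/4` numbers `≡ 1` and `g/4` numbers `≡ 3 (mod 4)`:
  the product over the odd `d < g` of `eta p 2 (1 - β^((p^d-1)/2))` is
  `(eta p 2 (1 - ω) eta p 2 (1 + ω))^(g/4) = (-1)^(g/4)` (induction on `g/4`:
  `odds (4(m+1)) = odds (4m) ∪ {4m+1, 4m+3}`).
-/

set_option autoImplicit false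

namespace LIF

open Polynomial

variable {p : ℕ} [Fact p.Prime]

theorem omega_frob (hp4 : p % 4 = 3) {β : AlgebraicClosure (ZMod p)} (hβ : β ^ (p + 1) = -1) :
    (β ^ ((p - 1) / 2)) ^ (p + 1) = -1 := by
  rw [← pow_mul, mul_comm, pow_mul, hβ]
  apply Odd.neg_one_pow
  rw [Nat.odd_iff]
  omega

private theorem Beta_neg_ne_one (hp4 : p % 4 = 3) : (-1 : AlgebraicClosure (ZMod p)) ≠ 1 := by
  have : CharP (AlgebraicClosure (ZMod p)) p := charP_of_injective_algebraMap' (ZMod p) p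
  intro h
  have h2 : ((2 : ℕ) : AlgebraicClosure (ZMod p)) = 0 := by
    push_cast
    linear_combination -h
  rw [CharP.cast_eq_zero_iff (AlgebraicClosure (ZMod p)) p] at h2
  have h3 := Nat.le_of_dvd (by norm_num) h2
  have h4 := (Fact.out : p.Prime).two_le
  omega

private theorem Beta_half {e : ℕ} (hp4 : p % 4 = 3) :
    (p ^ (2 * (e + 1) + 1) - 1) / 2 =
      (p ^ (2 * e + 1) - 1) / 2 + (p + 1) * ((p - 1) / 2) * p ^ (2 * e + 1) := by
  obtain ⟨a, ha⟩ : ∃ a, p = 2 * a + 1 := ⟨p / 2, by omega⟩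
  have h1 : p ^ (2 * e + 1) % 2 = 1 := by
    have : Odd (p ^ (2 * e + 1)) := Odd.pow (Nat.odd_iff.2 (by omega))
    exact Nat.odd_iff.1 this
  obtain ⟨b, hb⟩ : ∃ b, p ^ (2 * e + 1) = 2 * b + 1 := ⟨p ^ (2 * e + 1) / 2, by omega⟩
  have h2 : p ^ (2 * (e + 1) + 1) = p ^ (2 * e + 1) * (p * p) := by ring
  have h3 : (p - 1) / 2 = a := by omega
  rw [h2, hb, h3, ha]
  have h4 : (2 * b + 1) * ((2 * a + 1) * (2 * a + 1)) - 1 =
      2 * (b + (2 * a + 1 + 1) * a * (2 * b + 1)) := by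
    have : (2 * b + 1) * ((2 * a + 1) * (2 * a + 1)) =
        2 * (b + (2 * a + 1 + 1) * a * (2 * b + 1)) + 1 := by ring
    omega
  rw [h4]
  omega

theorem beta_pow (hp4 : p % 4 = 3) {β : AlgebraicClosure (ZMod p)} (hβ : β ^ (p + 1) = -1)
    {d : ℕ} (hd : d % 2 = 1) :
    β ^ ((p ^ d - 1) / 2) = (-1) ^ ((d - 1) / 2) * β ^ ((p - 1) / 2) := by
  obtain ⟨e, rfl⟩ : ∃ e, d = 2 * e + 1 := ⟨d / 2, by omega⟩
  clear hd
  have he : (2 * e + 1 - 1) / 2 = e := by omega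
  rw [he]
  clear he
  induction e with
  | zero => simp
  | succ e ih =>
    rw [Beta_half hp4, pow_add, ih, pow_mul, pow_mul, hβ]
    have h1 : ((-1 : AlgebraicClosure (ZMod p)) ^ ((p - 1) / 2)) ^ p ^ (2 * e + 1) = -1 := by
      have o1 : Odd ((p - 1) / 2) := by
        rw [Nat.odd_iff]
        omega
      have o2 : Odd (p ^ (2 * e + 1)) := Odd.pow (Nat.odd_iff.2 (by omega))
      rw [o1.neg_one_pow, o2.neg_one_pow]
    rw [h1, pow_succ]
    ring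

private theorem Beta_sq {x : AlgebraicClosure (ZMod p)} (hp4 : p % 4 = 3)
    (hx : x ^ (p + 1) = -1) : x ^ (p ^ 2) = x := by
  have h1 : x ^ ((p + 1) * (p - 1)) = 1 := by
    rw [pow_mul, hx]
    apply Even.neg_one_pow
    rw [Nat.even_iff]
    omega
  have h2 : p ^ 2 = (p + 1) * (p - 1) + 1 := by
    obtain ⟨a, ha⟩ : ∃ a, p = a + 1 := ⟨p - 1, by omega⟩
    rw [ha]
    simp only [Nat.add_sub_cancel]
    ring
  rw [h2, pow_succ, h1, one_mul]

theorem beta_prod (hp4 : p % 4 = 3) {β : AlgebraicClosure (ZMod p)} (hβ : β ^ (p + 1) = -1) :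
    eta p 2 (1 - β ^ ((p - 1) / 2)) * eta p 2 (1 + β ^ ((p - 1) / 2)) = -1 := by
  have : CharP (AlgebraicClosure (ZMod p)) p := charP_of_injective_algebraMap' (ZMod p) p
  have hw := omega_frob hp4 hβ
  obtain ⟨w, hw0⟩ : ∃ w, w = β ^ ((p - 1) / 2) := ⟨_, rfl⟩
  rw [← hw0] at hw ⊢
  have hww := Beta_sq hp4 hw
  have hw1 : w * w ^ p = -1 := by rw [← hw, pow_succ, mul_comm]
  unfold eta
  rw [← mul_pow]
  have e1 : (1 - w) * (1 + w) = 1 - w ^ 2 := by ring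
  have e2 : (p ^ 2 - 1) / 2 = (p + 1) * ((p - 1) / 2) := by
    obtain ⟨a, ha⟩ : ∃ a, p = 2 * a + 1 := ⟨p / 2, by omega⟩
    have h3 : (p - 1) / 2 = a := by omega
    rw [h3, ha]
    have h4 : (2 * a + 1) ^ 2 - 1 = 2 * ((2 * a + 1 + 1) * a) := by
      have : (2 * a + 1) ^ 2 = 2 * ((2 * a + 1 + 1) * a) + 1 := by ring
      omega
    rw [h4]
    omega
  have e3 : (1 - w ^ 2) ^ (p + 1) = -(w + w ^ p) ^ 2 := by
    rw [pow_succ, sub_pow_char, one_pow, ← pow_mul, mul_comm 2 p, pow_mul]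
    linear_combination (w * w ^ p + 1) * hw1 - 0 * hw1
  have ht1 : (w + w ^ p) ^ p = w + w ^ p := by
    rw [add_pow_char, ← pow_mul, ← sq, hww, add_comm]
  have ht0 : w + w ^ p ≠ 0 := by
    intro h
    have h5 : w ^ p = -w := by linear_combination h
    rw [h5] at hw1
    have h6 : w ^ 2 = 1 := by linear_combination -hw1
    obtain ⟨a, ha⟩ : ∃ a, p + 1 = 2 * a := ⟨(p + 1) / 2, by omega⟩
    rw [ha, pow_mul, h6, one_pow] at hw
    exact Beta_neg_ne_one hp4 hw.symm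
  have ht2 : (w + w ^ p) ^ (p - 1) = 1 := by
    have h5 : (w + w ^ p) ^ (p - 1) * (w + w ^ p) = 1 * (w + w ^ p) := by
      rw [← pow_succ, Nat.sub_add_cancel (by omega), ht1, one_mul]
    exact mul_right_cancel₀ ht0 h5
  rw [e1, e2, pow_mul, e3, neg_pow, ← pow_mul]
  have e4 : 2 * ((p - 1) / 2) = p - 1 := by omega
  have o1 : Odd ((p - 1) / 2) := by
    rw [Nat.odd_iff]
    omega
  rw [e4, ht2, o1.neg_one_pow, mul_one]

theorem beta_pm (hp4 : p % 4 = 3) {β : AlgebraicClosure (ZMod p)} (hβ : β ^ (p + 1) = -1) :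
    eta p 2 (1 - β ^ ((p - 1) / 2)) = 1 ∨ eta p 2 (1 - β ^ ((p - 1) / 2)) = -1 := by
  have : CharP (AlgebraicClosure (ZMod p)) p := charP_of_injective_algebraMap' (ZMod p) p
  have hw := omega_frob hp4 hβ
  obtain ⟨w, hw0⟩ : ∃ w, w = β ^ ((p - 1) / 2) := ⟨_, rfl⟩
  rw [← hw0] at hw ⊢
  have hww := Beta_sq hp4 hw
  have h1 : 1 - w ≠ 0 := by
    intro h
    have h2 : w = 1 := by linear_combination -h
    rw [h2, one_pow] at hw
    exact Beta_neg_ne_one hp4 hw.symm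
  have h2 : (1 - w) ^ (p ^ 2) = 1 - w := by
    rw [sub_pow_char_pow, one_pow, hww]
  have hp1 : 1 ≤ p ^ 2 := Nat.one_le_pow _ _ (by omega)
  have h3 : (1 - w) ^ (p ^ 2 - 1) = 1 := by
    have h5 : (1 - w) ^ (p ^ 2 - 1) * (1 - w) = 1 * (1 - w) := by
      rw [← pow_succ, Nat.sub_add_cancel hp1, h2, one_mul]
    exact mul_right_cancel₀ h1 h5
  unfold eta
  have h4 : ((1 - w) ^ ((p ^ 2 - 1) / 2)) ^ 2 = 1 := by
    rw [← pow_mul]
    have o2 : Odd (p ^ 2) := Odd.pow (Nat.odd_iff.2 (by omega))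
    have h5 := Nat.odd_iff.1 o2
    have h6 : (p ^ 2 - 1) / 2 * 2 = p ^ 2 - 1 := by omega
    rw [h6, h3]
  have h5 : ((1 - w) ^ ((p ^ 2 - 1) / 2) - 1) * ((1 - w) ^ ((p ^ 2 - 1) / 2) + 1) = 0 := by
    linear_combination h4
  rcases mul_eq_zero.1 h5 with h6 | h6
  · left
    linear_combination h6
  · right
    linear_combination h6

theorem beta_all (hp4 : p % 4 = 3) {β : AlgebraicClosure (ZMod p)} (hβ : β ^ (p + 1) = -1)
    {g : ℕ} (hg : 4 ∣ g) :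
    ∏ d ∈ odds g, eta p 2 (1 - β ^ ((p ^ d - 1) / 2)) = (-1) ^ (g / 4) := by
  obtain ⟨m, rfl⟩ := hg
  have e : 4 * m / 4 = m := by omega
  rw [e]
  clear e
  induction m with
  | zero => simp [odds]
  | succ m ih =>
    have h1 : ∏ d ∈ odds (4 * (m + 1)), eta p 2 (1 - β ^ ((p ^ d - 1) / 2)) =
        (∏ d ∈ odds (4 * m), eta p 2 (1 - β ^ ((p ^ d - 1) / 2))) *
          (eta p 2 (1 - β ^ ((p ^ (4 * m + 1) - 1) / 2)) *
            eta p 2 (1 - β ^ ((p ^ (4 * m + 3) - 1) / 2))) := by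
      unfold odds
      rw [Finset.prod_filter, Finset.prod_filter,
        show 4 * (m + 1) = 4 * m + 1 + 1 + 1 + 1 by ring, Finset.prod_range_succ,
        Finset.prod_range_succ, Finset.prod_range_succ, Finset.prod_range_succ,
        if_neg (by omega), if_pos (by omega), if_neg (by omega), if_pos (by omega)]
      ring
    rw [h1, ih, beta_pow hp4 hβ (d := 4 * m + 1) (by omega),
      beta_pow hp4 hβ (d := 4 * m + 3) (by omega)]
    have e1 : (4 * m + 1 - 1) / 2 = 2 * m := by omega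
    have e2 : (4 * m + 3 - 1) / 2 = 2 * m + 1 := by omega
    rw [e1, e2, pow_succ (-1) (2 * m), pow_mul, neg_one_sq, one_pow, one_mul, one_mul, neg_one_mul,
      sub_neg_eq_add, beta_prod hp4 hβ, pow_succ]

end LIF
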