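import Pool.Agent.helper1.GLI.Defs
import Pool.Agent.helper1.LI.Mon
import Pool.Agent.helper1.LI.Km

/-!
[GLI-Carl] The product of all monic polynomials of degree `d`, evaluated at `γ` (Carlitz).

`∏_{h monic of degree d} h(γ) = ∏_{i < d} (γ^(p^d) - γ^(p^i))` for `γ` in the algebraic closure of
degree `≥ d` over `F_p`.

Proof.  Let `K = AlgebraicClosure (ZMod p)`.  `1, γ, ..., γ^(d-1)` are linearly independent over
`F_p` (`d ≤ natDegree (minpoly)`), so the `p^d` elements `a(γ)`, `a ∈ Low p d`, are pairwise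
different, and `γ^(p^i)`, `i < d`, are pairwise different (`Km_ne`).
Consider the polynomial in `Z` over `K`
`Q(Z) = det (matrix with rows i = 0..d, columns: (γ^j)^(p^i) for j < d, last column Z^(p^i))`
`     = ∑_i m_i Z^(p^i)`, `m_i` the cofactors.
* `m_d = det ((γ^(p^i))^j)_{i,j<d}` is a Vandermonde determinant, `≠ 0`; so `Q` has degree `p^d`
  and leading coefficient `m_d`.
* `Q(Z)` vanishes at each `Z = a(γ) = ∑_j c_j γ^j`, `c_j ∈ F_p`, because `Z^(p^i) = ∑_j c_j
  (γ^j)^(p^i)`: the last column is a linear combination of the others.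
So `Q(Z) = m_d ∏_{a ∈ Low p d} (Z - a(γ))`.  At `Z = γ^d` the left side is the Vandermonde
determinant of the nodes `γ^(p^i)`, `i ≤ d`, which is `m_d ∏_{i < d} (γ^(p^d) - γ^(p^i))`
(`Matrix.det_vandermonde`), and the right side is `m_d ∏_a (γ^d - a(γ)) = m_d ∏_{h ∈ Mon p d} h(γ)`
(`a ↦ -a` on `Low p d`; multiplicative version of `sum_Mon_eq`, or use the definition of `Mon` as an
image of an injective map).
(Alternatively: induction on `d` with the additive polynomial `E_d(Z) = ∏_{a ∈ Low p d} (Z + a(γ))`,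
`E_(d+1)(Z) = E_d(Z)^p - E_d(γ^d)^(p-1) E_d(Z)`.)
-/

set_option autoImplicit false

namespace LIF

open Polynomial

section Carlaux

variable {p : ℕ} [Fact p.Prime]

/-- `∏_{c ∈ F_p} (x + c y) = x^p - y^(p-1) x` -/
theorem Carl_hom {K : Type*} [Field K] [Algebra (ZMod p) K] (x y : K) :
    ∏ c : ZMod p, (x + algebraMap (ZMod p) K c * y) = x ^ p - y ^ (p - 1) * x := by
  have hp := (Fact.out : p.Prime)
  have h0 : (∏ c : ZMod p, (X - C c) : (ZMod p)[X]) = X ^ p - X := by
    have hroots := FiniteField.roots_X_pow_card_sub_X (ZMod p)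
    rw [ZMod.card p] at hroots
    have hmon : (X ^ p - X : (ZMod p)[X]).Monic := by
      apply Polynomial.monic_X_pow_sub
      rw [degree_X]
      exact_mod_cast hp.one_lt
    have hdeg : (X ^ p - X : (ZMod p)[X]).natDegree = p :=
      FiniteField.X_pow_card_sub_X_natDegree_eq _ hp.one_lt
    have h1 := Polynomial.prod_multiset_X_sub_C_of_monic_of_roots_card_eq hmon (by
      rw [hroots, hdeg]
      simp [ZMod.card])
    rw [hroots] at h1
    exact h1
  have h1 : (∏ c : ZMod p, (X - C (algebraMap (ZMod p) K c)) : K[X]) = X ^ p - X := by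
    have h2 := congrArg (Polynomial.map (algebraMap (ZMod p) K)) h0
    rw [Polynomial.map_prod] at h2
    simpa using h2
  have h3 : ∀ z : K, ∏ c : ZMod p, (z + algebraMap (ZMod p) K c) = z ^ p - z := by
    intro z
    have h4 := congrArg (Polynomial.eval z) h1
    rw [Polynomial.eval_prod] at h4
    simp only [eval_sub, eval_X, eval_C, eval_pow] at h4
    rw [← h4]
    refine Fintype.prod_equiv (Equiv.neg _) _ _ ?_
    intro c
    simp
  by_cases hy : y = 0
  · subst hy
    rw [zero_pow (by have := hp.two_le; omega)]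
    simp [ZMod.card]
  · have h4 := h3 (x / y)
    have h5 : ∏ c : ZMod p, (x + algebraMap (ZMod p) K c * y) =
        y ^ p * ∏ c : ZMod p, (x / y + algebraMap (ZMod p) K c) := by
      have h6 : (y ^ p : K) = ∏ _c : ZMod p, y := by
        simp [ZMod.card]
      rw [h6, ← Finset.prod_mul_distrib]
      refine Finset.prod_congr rfl fun c _ => ?_
      field_simp
    rw [h5, h4]
    have h7 : y ^ p = y ^ (p - 1) * y := by
      rw [← pow_succ, Nat.sub_add_cancel hp.one_le]
    rw [div_pow, mul_sub, mul_div_cancel₀ _ (pow_ne_zero _ hy), h7]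
    field_simp

/-- the additive polynomials `e_d` -/
noncomputable def CarlE {K : Type*} [Field K] (p : ℕ) (γ : K) : ℕ → K → K
  | 0, z => z
  | d + 1, z => (CarlE p γ d z) ^ p - (CarlE p γ d (γ ^ d)) ^ (p - 1) * CarlE p γ d z

theorem CarlE_zero {K : Type*} [Field K] (γ z : K) : CarlE p γ 0 z = z := rfl

theorem CarlE_succ {K : Type*} [Field K] (γ z : K) (d : ℕ) :
    CarlE p γ (d + 1) z =
      (CarlE p γ d z) ^ p - (CarlE p γ d (γ ^ d)) ^ (p - 1) * CarlE p γ d z := rfl

theorem CarlE_add {K : Type*} [Field K] [CharP K p] (γ z w : K) (d : ℕ) :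
    CarlE p γ d (z + w) = CarlE p γ d z + CarlE p γ d w := by
  induction d with
  | zero => rfl
  | succ d ih =>
    rw [CarlE_succ, CarlE_succ, CarlE_succ, ih, add_pow_char]
    ring

theorem CarlE_smul {K : Type*} [Field K] [Algebra (ZMod p) K] (γ z : K) (c : ZMod p) (d : ℕ) :
    CarlE p γ d (algebraMap (ZMod p) K c * z) = algebraMap (ZMod p) K c * CarlE p γ d z := by
  induction d with
  | zero => rfl
  | succ d ih =>
    rw [CarlE_succ, CarlE_succ, ih, mul_pow, ← map_pow, ZMod.pow_card]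
    ring

theorem CarlE_prod {K : Type*} [Field K] [Algebra (ZMod p) K] [CharP K p] (γ : K) (d : ℕ) :
    ∀ z : K, ∏ c : Fin d → ZMod p,
      (z + ∑ i : Fin d, algebraMap (ZMod p) K (c i) * γ ^ (i : ℕ)) = CarlE p γ d z := by
  induction d with
  | zero =>
    intro z
    rw [CarlE_zero]
    simp
  | succ d ih =>
    intro z
    rw [← (Fin.snocEquiv (fun _ => ZMod p)).prod_comp, Fintype.prod_prod_type]
    have h1 : ∀ c : ZMod p, ∏ f : Fin d → ZMod p,
        (z + ∑ i : Fin (d + 1), algebraMap (ZMod p) K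
          ((Fin.snocEquiv (fun _ => ZMod p)) (c, f) i) * γ ^ (i : ℕ)) =
        CarlE p γ d z + algebraMap (ZMod p) K c * CarlE p γ d (γ ^ d) := by
      intro c
      rw [← CarlE_smul, ← CarlE_add, ← ih]
      refine Finset.prod_congr rfl fun f _ => ?_
      rw [Fin.sum_univ_castSucc]
      simp [Fin.snocEquiv]
      ring
    rw [Finset.prod_congr rfl (fun c _ => h1 c), Carl_hom, CarlE_succ]

/-- Carlitz: `e_d(γ z) = γ e_d(z) + (γ^(p^d) - γ) e_(d-1)(z)^p` and `D_(d+1) = [d+1] D_d^p` -/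
theorem CarlE_rec {K : Type*} [Field K] [Algebra (ZMod p) K] [CharP K p] (γ : K) (d : ℕ) :
    (∀ z : K, CarlE p γ (d + 1) (γ * z) =
      γ * CarlE p γ (d + 1) z + (γ ^ (p ^ (d + 1)) - γ) * CarlE p γ d z ^ p) ∧
    CarlE p γ (d + 1) (γ ^ (d + 1)) =
      (γ ^ (p ^ (d + 1)) - γ) * CarlE p γ d (γ ^ d) ^ p := by
  have hp := (Fact.out : p.Prime)
  have hvan : CarlE p γ (d + 1) (γ ^ d) = 0 := by
    rw [CarlE_succ]
    have h7 : ∀ y : K, y ^ p = y ^ (p - 1) * y := by
      intro y
      rw [← pow_succ, Nat.sub_add_cancel hp.one_le]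
    rw [h7 (CarlE p γ d (γ ^ d)), sub_self]
  have key : (∀ z : K, CarlE p γ (d + 1) (γ * z) =
      γ * CarlE p γ (d + 1) z + (γ ^ (p ^ (d + 1)) - γ) * CarlE p γ d z ^ p) := by
    clear hvan
    induction d with
    | zero =>
      intro z
      rw [CarlE_succ, CarlE_succ, CarlE_zero, CarlE_zero, CarlE_zero, pow_zero, zero_add, pow_one,
        mul_pow, one_pow]
      ring
    | succ d ih =>
      intro z
      have h1 : CarlE p γ (d + 1) (γ ^ (d + 1)) =
          (γ ^ (p ^ (d + 1)) - γ) * CarlE p γ d (γ ^ d) ^ p := by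
        rw [pow_succ', ih]
        have h7 : CarlE p γ (d + 1) (γ ^ d) = 0 := by
          rw [CarlE_succ, sub_eq_zero, ← pow_succ, Nat.sub_add_cancel hp.one_le]
        rw [h7, mul_zero, zero_add]
      rw [CarlE_succ γ (γ * z) (d + 1), ih z, CarlE_succ γ z (d + 1), h1]
      have h2 := CarlE_succ (p := p) γ z d
      set A := CarlE p γ d z
      set B := CarlE p γ (d + 1) z
      set D := CarlE p γ d (γ ^ d)
      set G := γ ^ (p ^ (d + 1)) - γ
      have h3 : (γ * B + G * A ^ p) ^ p = γ ^ p * B ^ p + G ^ p * (A ^ p) ^ p := by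
        rw [add_pow_char, mul_pow, mul_pow]
      have h4 : B ^ p = (A ^ p) ^ p - (D ^ (p - 1)) ^ p * A ^ p := by
        rw [h2, sub_pow_char, mul_pow]
      have h5 : G ^ p = γ ^ (p ^ (d + 2)) - γ ^ p := by
        simp only [G]
        rw [sub_pow_char, ← pow_mul, ← pow_succ]
      have h6 : (G * D ^ p) ^ (p - 1) * G = G ^ p * (D ^ (p - 1)) ^ p := by
        have h8 : G ^ p = G ^ (p - 1) * G := by
          rw [← pow_succ, Nat.sub_add_cancel hp.one_le]
        rw [h8, mul_pow, ← pow_mul, ← pow_mul, mul_comm p (p - 1)]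
        ring
      have h9 : (G * D ^ p) ^ (p - 1) * (G * A ^ p) = G ^ p * (D ^ (p - 1)) ^ p * A ^ p := by
        rw [← mul_assoc, h6]
      rw [h3, mul_add, h9]
      have h10 : (A ^ p) ^ p = B ^ p + (D ^ (p - 1)) ^ p * A ^ p := by
        rw [h4]; ring
      rw [h10]
      have h11 : γ ^ (p ^ (d + 1 + 1)) = G ^ p + γ ^ p := by
        rw [h5]; ring
      rw [h11]
      ring
  refine ⟨key, ?_⟩
  rw [pow_succ', key, hvan, mul_zero, zero_add]

theorem CarlE_top {K : Type*} [Field K] [Algebra (ZMod p) K] [CharP K p] (γ : K) (d : ℕ) :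
    CarlE p γ d (γ ^ d) = ∏ i ∈ Finset.range d, (γ ^ (p ^ d) - γ ^ (p ^ i)) := by
  induction d with
  | zero => simp [CarlE_zero]
  | succ d ih =>
    rw [(CarlE_rec γ d).2, ih, Finset.prod_range_succ', ← Finset.prod_pow, pow_zero, pow_one,
      mul_comm]
    congr 1
    refine Finset.prod_congr rfl fun i _ => ?_
    rw [sub_pow_char, ← pow_mul, ← pow_mul, ← pow_succ, ← pow_succ]

end Carlaux

theorem prod_Mon_aeval {p : ℕ} [Fact p.Prime] {γ : AlgebraicClosure (ZMod p)} {d : ℕ}
    (hd : d ≤ (minpoly (ZMod p) γ).natDegree) :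
    ∏ h ∈ Mon p d, aeval γ h = ∏ i ∈ Finset.range d, (γ ^ (p ^ d) - γ ^ (p ^ i)) := by
  classical
  haveI : CharP (AlgebraicClosure (ZMod p)) p :=
    charP_of_injective_algebraMap (algebraMap (ZMod p) (AlgebraicClosure (ZMod p))).injective p
  rw [← CarlE_top, ← CarlE_prod]
  unfold Mon
  rw [Finset.prod_image (fun c _ c' _ h => Mon_inj (add_left_cancel h))]
  refine Finset.prod_congr rfl fun c _ => ?_
  simp

end LIF
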