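import Pool.Agent.helper1.GLI.Defs
import Pool.Agent.helper1.LI.ChiMp
import Pool.Agent.helper1.LI.Km

/-!
[GLI-Chh] The character modulo `h0` as a power in the algebraic closure, and the element `γ`.

`h0` as in `Good p g h0`, `γ` a root.  `minpoly γ = h0` (monic irreducible).
* `chh_pow`: `chh h0 h = η(Res(h0, h))`, as an element of `ZMod p` it is `Res(h0,h)^((p-1)/2)`
  (`quadraticChar_eq_pow_of_char_ne_two'` or see `chi_res` in `LI/ChiMp.lean`), and by `res_roots`
  (with `h0` in the place of `h`) `Res(h0, h) = ∏_{x root of h0} h(x)`; by `minpoly_map` the roots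
  are `γ^(p^i)`, `i < 2g`, and `h(γ^(p^i)) = h(γ)^(p^i)`.  So the product is
  `h(γ)^(1 + p + ... + p^(2g-1)) = h(γ)^((p^(2g)-1)/(p-1))`, and the `(p-1)/2`-th power of this is
  `h(γ)^((p^(2g)-1)/2)`.
* `gam_deg`: the minimal polynomial of `γ` has degree `2g`.
* `gam_roots`: `h0(x) = ∏_{i < 2g} (x - γ^(p^i))`.
-/

set_option autoImplicit false

namespace LIF

open Polynomial

variable {p : ℕ} [Fact p.Prime] {g : ℕ} {h0 : (ZMod p)[X]}

theorem Chh_min (hg : Good p g h0) {γ : AlgebraicClosure (ZMod p)} (hγ : aeval γ h0 = 0) :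
    minpoly (ZMod p) γ = h0 :=
  (minpoly.eq_of_irreducible_of_monic hg.irr hγ hg.mon).symm

theorem gam_deg (hg : Good p g h0) {γ : AlgebraicClosure (ZMod p)} (hγ : aeval γ h0 = 0) :
    (minpoly (ZMod p) γ).natDegree = 2 * g := by
  rw [Chh_min hg hγ, hg.deg]

theorem gam_roots (hg : Good p g h0) {γ : AlgebraicClosure (ZMod p)} (hγ : aeval γ h0 = 0)
    (x : AlgebraicClosure (ZMod p)) :
    aeval x h0 = ∏ i ∈ Finset.range (2 * g), (x - γ ^ (p ^ i)) := by
  have h := minpoly_map γ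
  rw [gam_deg hg hγ, Chh_min hg hγ] at h
  rw [← eval_map_algebraMap, h, eval_prod]
  refine Finset.prod_congr rfl fun i _ => ?_
  rw [eval_sub, eval_X, eval_C]

theorem chh_pow (hg : Good p g h0) {γ : AlgebraicClosure (ZMod p)} (hγ : aeval γ h0 = 0)
    (h : (ZMod p)[X]) :
    ((chh h0 h : ℤ) : AlgebraicClosure (ZMod p)) = eta p (2 * g) (aeval γ h) := by
  have g1 := hg.g1
  have hm : 1 ≤ 2 * g := by omega
  have hx : γ ∈ Km p (2 * g) := by
    rw [mem_Km_iff_dvd hm, gam_deg hg hγ]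
  have hMp : Mp (2 * g) γ = h0 := by
    unfold Mp
    rw [gam_deg hg hγ, Nat.div_self (by omega), pow_one, Chh_min hg hγ]
  have h1 := chi_Mp hg.p2 h hm hx
  rw [hMp] at h1
  exact h1

end LIF
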