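import Mathlib

/-!
(proofs: helper41)
[GLI-CombD] Invariant subspaces of signed permutation representations (imports Mathlib only).

`Γ` a group of permutations of `Fin g × Bool` commuting with the swap `(i, c) ↦ (i, !c)`, such that
`(h1)` every `(i, true)` can be mapped to every `(j, true)`; `(h2)` the stabilizer of `(i, true)`
maps `(j, true)` to `(l, true)` for all `j, l ≠ i`; `(h3)` some `γ ∈ Γ` maps some `(i, true)` to a
`(j, true)` and some `(i', true)` to a `(j', false)`.  `W` a nonzero `Γ`-stable space of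
antisymmetric rational functions.  Then `dim W ≥ g - 1`.

Proof.  For `i : Fin g` let `S_i = {γ ∈ Γ : γ (i, true) = (i, true)}` and for `φ ∈ W` let
`P_i φ = (1/|S_i|) ∑_{γ ∈ S_i} φ ∘ γ ∈ W`.  `P_i φ ∘ γ' = P_i φ` for `γ' ∈ S_i` (reindexing), so by (h2)
`P_i φ (j, true) = P_i φ (l, true)` for all `j, l ≠ i`; and `P_i φ (i, true) = φ (i, true)`.  So `P_i φ` is
`a_i e_i + b_i 1_(≠ i)` in the coordinates `φ ↦ (φ (j, true))_j` (an injective map
`W → (Fin g → ℚ)` because of antisymmetry).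
For every `i` there is `φ ∈ W` with `φ (i, true) ≠ 0`: take `φ ≠ 0` in `W`, `φ (i0, c) ≠ 0`, so
`φ (i0, true) ≠ 0`, and `γ ∈ Γ` with `γ (i, true) = (i0, true)`; use `φ ∘ γ`.
Let `𝟙` be the antisymmetric function with `𝟙 (j, true) = 1`.
Case A: for every `i` there is `w ∈ W` of the form `a e_i + b 1_(≠ i)` with `a ≠ b`.  Then
`e_i ∈ W + ℚ 𝟙` for all `i` (`w - b 𝟙 = (a - b) e_i`), so `W + ℚ 𝟙` is the space of all
antisymmetric functions, of dimension `g`, and `dim W ≥ g - 1`.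
Case B: there is `i` such that for all `φ ∈ W`, `P_i φ` is a multiple of `𝟙`; with `φ (i, true) ≠ 0` this
gives `𝟙 ∈ W`.  Take `γ` as in (h3), `ξ = 𝟙 ∘ γ ∈ W`: `ξ (j, true) = ±1`, both signs occur.  For
every `i`: `P_i ξ = a e_i + b 1_(≠ i)`, `a = ξ (i, true)`.  Claim `a ≠ b`: let `l ≠ i` (`g ≥ 2` as both
signs occur).  `b = (1/|S_i|) ∑_{γ' ∈ S_i} ξ (γ' (l, true))`, all the terms are `±1`; if `b = a = ±1`,
all the terms are equal to `a`, and as `γ' (l, true)` takes every value `(m, true)`, `m ≠ i` (h2),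
`ξ (m, true) = a` for all `m`, a contradiction.  So `(a - b) e_i = P_i ξ - b 𝟙 ∈ W` for every `i`, and
`W` contains all antisymmetric functions, `dim W ≥ g`.
-/

set_option autoImplicit false

namespace LIF

/-- the stabilizer of `(i, true)` in `Γ` as a finset -/
noncomputable def CombD_S {g : ℕ} (Γ : Subgroup (Equiv.Perm (Fin g × Bool))) (i : Fin g) :
    Finset (Equiv.Perm (Fin g × Bool)) := by
  classical
  exact Finset.univ.filter (fun γ => γ ∈ Γ ∧ γ (i, true) = (i, true))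

theorem CombD_mem {g : ℕ} {Γ : Subgroup (Equiv.Perm (Fin g × Bool))} {i : Fin g}
    {γ : Equiv.Perm (Fin g × Bool)} :
    γ ∈ CombD_S Γ i ↔ γ ∈ Γ ∧ γ (i, true) = (i, true) := by
  classical
  unfold CombD_S
  rw [Finset.mem_filter]
  exact ⟨fun h => h.2, fun h => ⟨Finset.mem_univ _, h⟩⟩

theorem CombD_pos {g : ℕ} (Γ : Subgroup (Equiv.Perm (Fin g × Bool))) (i : Fin g) :
    0 < (CombD_S Γ i).card :=
  Finset.card_pos.2 ⟨1, CombD_mem.2 ⟨Γ.one_mem, rfl⟩⟩

theorem CombD_inv {g : ℕ} {Γ : Subgroup (Equiv.Perm (Fin g × Bool))} {i : Fin g}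
    (φ : Fin g × Bool → ℚ) {γ' : Equiv.Perm (Fin g × Bool)} (h : γ' ∈ CombD_S Γ i)
    (x : Fin g × Bool) :
    ∑ γ ∈ CombD_S Γ i, φ (γ (γ' x)) = ∑ γ ∈ CombD_S Γ i, φ (γ x) := by
  obtain ⟨h1, h2⟩ := CombD_mem.1 h
  refine Finset.sum_bij (fun γ _ => γ * γ') ?_ ?_ ?_ ?_
  · intro γ hγ
    obtain ⟨h3, h4⟩ := CombD_mem.1 hγ
    refine CombD_mem.2 ⟨Γ.mul_mem h3 h1, ?_⟩
    rw [Equiv.Perm.mul_apply, h2, h4]
  · intro a _ b _ hab
    exact mul_right_cancel hab
  · intro γ hγ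
    obtain ⟨h3, h4⟩ := CombD_mem.1 hγ
    refine ⟨γ * γ'⁻¹, CombD_mem.2 ⟨Γ.mul_mem h3 (Γ.inv_mem h1), ?_⟩, by group⟩
    rw [Equiv.Perm.mul_apply]
    have h5 : γ'⁻¹ (i, true) = (i, true) := by
      rw [Equiv.Perm.inv_eq_iff_eq]
      exact h2.symm
    rw [h5, h4]
  · intro γ _
    rfl

theorem comb_dim {g : ℕ} (Γ : Subgroup (Equiv.Perm (Fin g × Bool)))
    (hsw : ∀ γ ∈ Γ, ∀ i c, γ (i, !c) = ((γ (i, c)).1, !(γ (i, c)).2))
    (h1 : ∀ i j, ∃ γ ∈ Γ, γ (i, true) = (j, true))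
    (h2 : ∀ i j l, j ≠ i → l ≠ i → ∃ γ ∈ Γ, γ (i, true) = (i, true) ∧ γ (j, true) = (l, true))
    (h3 : ∃ γ ∈ Γ, (∃ i, (γ (i, true)).2 = true) ∧ (∃ i, (γ (i, true)).2 = false))
    (W : Submodule ℚ (Fin g × Bool → ℚ))
    (hanti : ∀ φ ∈ W, ∀ i c, φ (i, !c) = - φ (i, c))
    (hst : ∀ φ ∈ W, ∀ γ ∈ Γ, (fun x => φ (γ x)) ∈ W) (hW : W ≠ ⊥) :
    g - 1 ≤ Module.finrank ℚ W := by
  classical
  -- the averages
  have hT : ∀ i, ∀ φ ∈ W, (fun x => ∑ γ ∈ CombD_S Γ i, φ (γ x)) ∈ W := by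
    intro i φ hφ
    have h5 : (fun x => ∑ γ ∈ CombD_S Γ i, φ (γ x)) = ∑ γ ∈ CombD_S Γ i, (fun x => φ (γ x)) := by
      funext x
      rw [Finset.sum_apply]
    rw [h5]
    exact W.sum_mem (fun γ hγ => hst φ hφ γ (CombD_mem.1 hγ).1)
  have hTi : ∀ i, ∀ φ : Fin g × Bool → ℚ, ∑ γ ∈ CombD_S Γ i, φ (γ (i, true)) =
      (CombD_S Γ i).card * φ (i, true) := by
    intro i φ
    rw [Finset.sum_congr rfl (fun γ hγ => by rw [(CombD_mem.1 hγ).2]), Finset.sum_const,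
      nsmul_eq_mul]
  have hTj : ∀ i, ∀ φ : Fin g × Bool → ℚ, ∀ j l, j ≠ i → l ≠ i →
      ∑ γ ∈ CombD_S Γ i, φ (γ (j, true)) = ∑ γ ∈ CombD_S Γ i, φ (γ (l, true)) := by
    intro i φ j l hj hl
    obtain ⟨γ', hγ', h5, h6⟩ := h2 i j l hj hl
    rw [← h6]
    exact (CombD_inv φ (CombD_mem.2 ⟨hγ', h5⟩) _).symm
  have hnz : ∀ i, ∃ φ ∈ W, φ (i, true) ≠ 0 := by
    intro i
    obtain ⟨φ, hφ, hφ0⟩ := W.ne_bot_iff.1 hW
    obtain ⟨⟨i0, c⟩, hx⟩ := Function.ne_iff.1 hφ0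
    have hx' : φ (i0, true) ≠ 0 := by
      cases c with
      | true => exact hx
      | false =>
        intro h0
        apply hx
        have h5 := hanti φ hφ i0 true
        rw [h0, neg_zero] at h5
        exact h5
    obtain ⟨γ, hγ, h5⟩ := h1 i i0
    refine ⟨fun x => φ (γ x), hst φ hφ γ hγ, ?_⟩
    show φ (γ (i, true)) ≠ 0
    rw [h5]
    exact hx'
  -- case A holds for all indices
  have hA : ∀ i, ∃ w ∈ W, ∃ b, w (i, true) ≠ b ∧ ∀ j, j ≠ i → w (j, true) = b := by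
    by_contra hcon
    push Not at hcon
    obtain ⟨i, hB⟩ := hcon
    obtain ⟨φ, hφ, hφ0⟩ := hnz i
    obtain ⟨γ, hγ, ⟨i1, hi1⟩, ⟨i2, hi2⟩⟩ := h3
    have hi12 : i1 ≠ i2 := by
      rintro rfl
      rw [hi1] at hi2
      exact absurd hi2 (by decide)
    -- an element of `W` which is constant
    have hcst : ∀ w ∈ W, ∀ b, (∀ j, j ≠ i → w (j, true) = b) → w (i, true) = b := by
      intro w hw b hb
      by_contra hne
      obtain ⟨j, hj, hjb⟩ := hB w hw b hne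
      exact hjb (hb j hj)
    obtain ⟨l, hl⟩ : ∃ l, l ≠ i := by
      by_cases h5 : i1 = i
      · exact ⟨i2, fun h6 => hi12 (h5.trans h6.symm)⟩
      · exact ⟨i1, h5⟩
    obtain ⟨c, hc0, hone⟩ : ∃ c : ℚ, c ≠ 0 ∧
        ∀ j, (∑ γ ∈ CombD_S Γ i, φ (γ (j, true))) = c := by
      refine ⟨(CombD_S Γ i).card * φ (i, true), ?_, ?_⟩
      · have h5 := CombD_pos Γ i
        have h6 : ((CombD_S Γ i).card : ℚ) ≠ 0 := by exact_mod_cast h5.ne'
        exact mul_ne_zero h6 hφ0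
      · have h5 := hcst _ (hT i φ hφ) (∑ γ ∈ CombD_S Γ i, φ (γ (l, true)))
          (fun j hj => hTj i φ j l hj hl)
        rw [hTi] at h5
        intro j
        by_cases hj : j = i
        · rw [hj, hTi]
        · rw [hTj i φ j l hj hl, h5]
    obtain ⟨w1, hw1, hw1t⟩ : ∃ w ∈ W, ∀ j, w (j, true) = 1 := by
      refine ⟨c⁻¹ • (fun x => ∑ γ ∈ CombD_S Γ i, φ (γ x)), W.smul_mem _ (hT i φ hφ), ?_⟩
      intro j
      rw [Pi.smul_apply, smul_eq_mul]
      rw [hone, inv_mul_cancel₀ hc0]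
    have hw1f : ∀ j, w1 (j, false) = -1 := by
      intro j
      have h5 := hanti w1 hw1 j true
      rw [hw1t] at h5
      exact h5
    have hpm : ∀ x, w1 x = 1 ∨ w1 x = -1 := by
      rintro ⟨j, c⟩
      cases c with
      | true => exact Or.inl (hw1t j)
      | false => exact Or.inr (hw1f j)
    obtain ⟨ξ, hξ⟩ : ∃ ξ : Fin g × Bool → ℚ, ξ = fun x => w1 (γ x) := ⟨_, rfl⟩
    have hξW : ξ ∈ W := by
      rw [hξ]
      exact hst w1 hw1 γ hγ
    have hξ1 : ξ (i1, true) = 1 := by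
      rw [hξ]
      have h5 : γ (i1, true) = ((γ (i1, true)).1, true) := Prod.ext rfl hi1
      show w1 (γ (i1, true)) = 1
      rw [h5, hw1t]
    have hξ2 : ξ (i2, true) = -1 := by
      rw [hξ]
      have h5 : γ (i2, true) = ((γ (i2, true)).1, false) := Prod.ext rfl hi2
      show w1 (γ (i2, true)) = -1
      rw [h5, hw1f]
    have hξpm : ∀ x, ξ x = 1 ∨ ξ x = -1 := by
      intro x
      rw [hξ]
      exact hpm (γ x)
    have h5 := hcst _ (hT i ξ hξW) (∑ γ ∈ CombD_S Γ i, ξ (γ (l, true)))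
      (fun j hj => hTj i ξ j l hj hl)
    -- all the terms are equal to `ξ (i, true)`
    have hall : ∀ γ' ∈ CombD_S Γ i, ξ (γ' (l, true)) = ξ (i, true) := by
      have h6 : ∑ γ' ∈ CombD_S Γ i, (1 - ξ (i, true) * ξ (γ' (l, true))) = 0 := by
        rw [Finset.sum_sub_distrib, ← Finset.mul_sum, ← h5, hTi, Finset.sum_const, nsmul_eq_mul]
        rcases hξpm (i, true) with h7 | h7 <;> rw [h7] <;> ring
      have h7 := (Finset.sum_eq_zero_iff_of_nonneg (fun γ' _ => by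
        rcases hξpm (i, true) with h8 | h8 <;> rcases hξpm (γ' (l, true)) with h9 | h9 <;>
          rw [h8, h9] <;> norm_num)).1 h6
      intro γ' hγ'
      have h8 := h7 γ' hγ'
      rcases hξpm (i, true) with h9 | h9 <;> rcases hξpm (γ' (l, true)) with h10 | h10 <;>
        rw [h9, h10] at h8 ⊢ <;> norm_num at h8
    have hm : ∀ m, ξ (m, true) = ξ (i, true) := by
      intro m
      by_cases hmi : m = i
      · rw [hmi]
      · obtain ⟨γ', hγ', h6, h7⟩ := h2 i l m hl hmi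
        rw [← h7]
        exact hall γ' (CombD_mem.2 ⟨hγ', h6⟩)
    have h6 := (hm i1).trans (hm i2).symm
    rw [hξ1, hξ2] at h6
    norm_num at h6
  -- the dimension
  let ev : (Fin g × Bool → ℚ) →ₗ[ℚ] (Fin g → ℚ) :=
    LinearMap.funLeft ℚ ℚ (fun j : Fin g => (j, true))
  have hev : ∀ (w : Fin g × Bool → ℚ) (j : Fin g), ev w j = w (j, true) := fun w j => rfl
  have hone : ∀ i : Fin g, (Pi.single i 1 : Fin g → ℚ) ∈
      W.map ev ⊔ Submodule.span ℚ {(fun _ => 1 : Fin g → ℚ)} := by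
    intro i
    obtain ⟨w, hw, b, hwb, hwj⟩ := hA i
    have h5 : (Pi.single i 1 : Fin g → ℚ) =
        (w (i, true) - b)⁻¹ • ev w + (-(w (i, true) - b)⁻¹ * b) • (fun _ => 1 : Fin g → ℚ) := by
      have hne : w (i, true) - b ≠ 0 := sub_ne_zero.2 hwb
      funext j
      rw [Pi.add_apply, Pi.smul_apply, Pi.smul_apply, hev, smul_eq_mul, smul_eq_mul]
      by_cases hj : j = i
      · subst hj
        rw [Pi.single_eq_same]
        field_simp
        ring
      · rw [Pi.single_eq_of_ne hj, hwj j hj]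
        ring
    rw [h5]
    refine Submodule.add_mem_sup (Submodule.smul_mem _ _ (Submodule.mem_map_of_mem hw))
      (Submodule.smul_mem _ _ (Submodule.mem_span_singleton_self _))
  have htop : W.map ev ⊔ Submodule.span ℚ {(fun _ => 1 : Fin g → ℚ)} = ⊤ := by
    rw [Submodule.eq_top_iff']
    intro x
    rw [pi_eq_sum_univ' x]
    refine Submodule.sum_mem _ (fun i _ => Submodule.smul_mem _ _ ?_)
    exact hone i
  have h5 := Submodule.finrank_add_le_finrank_add_finrank (W.map ev)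
    (Submodule.span ℚ {(fun _ => 1 : Fin g → ℚ)})
  rw [htop, finrank_top, Module.finrank_fintype_fun_eq_card, Fintype.card_fin] at h5
  have h6 := Submodule.finrank_map_le ev W
  have h7 : Module.finrank ℚ (Submodule.span ℚ {(fun _ => 1 : Fin g → ℚ)}) ≤ 1 := by
    have h8 := finrank_span_le_card (R := ℚ) ({(fun _ => 1 : Fin g → ℚ)} : Set (Fin g → ℚ))
    simpa using h8
  omega

end LIF
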