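import Pool.Agent.helper1.LI.Defs

/-!
helper1: project GLI (MP_0ec205_nt, continuation of the project LI): joint linear independence of
all the zeros of ALL the curves `y² = (1 - x)(x^(2g) + s x^g - 1)`, `g = 2^k`, of the explicit
infinite family.  Part I (arithmetic over finite fields): the coefficients of the L-polynomials
modulo `4` and `8`.

`p` is a prime with `p % 4 = 3`; `AlgebraicClosure (ZMod p)` is the ambient field.
-/

set_option autoImplicit false

namespace LIF

open Polynomial

/-- the quadratic character of `F_(p^n)` written as a power -/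
def eta {M : Type*} [Monoid M] (p n : ℕ) (x : M) : M := x ^ ((p ^ n - 1) / 2)

/-- the polynomial `X^(2N) + s X^N - 1` -/
noncomputable def hq {p : ℕ} (s : ZMod p) (N : ℕ) : (ZMod p)[X] :=
  X ^ (2 * N) + C s * X ^ N - 1

/-- `(1 - γ)^((p^d - 1)/2)` -/
def zz {R : Type*} [CommRing R] (p d : ℕ) (γ : R) : R := (1 - γ) ^ ((p ^ d - 1) / 2)

/-- the odd numbers below `g` -/
def odds (g : ℕ) : Finset ℕ := (Finset.range g).filter (fun d => d % 2 = 1)

/-- the product of `η (1 + (1 - γ)^((p^d-1)/2))` over the odd `d < g` -/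
def Lam {R : Type*} [CommRing R] (p g : ℕ) (γ : R) : R :=
  ∏ d ∈ odds g, eta p (2 * g) (1 + zz p d γ)

/-- the number of `x ∈ F_(p^d)` for which `1 - x` and `h0(x)` are non-squares -/
noncomputable def Md {p : ℕ} [Fact p.Prime] (h0 : (ZMod p)[X]) (d : ℕ) : ℕ := by
  classical
  exact ((Km p d).filter
    (fun x => eta p d (1 - x) = -1 ∧ eta p d (aeval x h0) = -1)).card

/-- the number of non-zero squares `v ∈ F_(p^d)` for which `H(v)` is a non-square -/
noncomputable def nd {p : ℕ} [Fact p.Prime] (H : (ZMod p)[X]) (d : ℕ) : ℕ := by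
  classical
  exact ((Km p d).filter
    (fun v => eta p d v = 1 ∧ eta p d (aeval v H) = -1)).card

end LIF
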