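import Pool.Agent.helper1.GLI.DefsB
import Pool.Agent.helper1.GLI.Defs
import Pool.Agent.helper1.LI.Crit
import Pool.Agent.helper1.LI.Gauss2

/-!
[GLI-Data] The hypotheses `GoodF` for the L-polynomials, the angles and the counting formula
(assembly).
-/

set_option autoImplicit false

namespace LIF

open Polynomial

theorem Data_const {p : ℕ} [Fact p.Prime] {g : ℕ} {f : ℤ[X]} {α : Fin g → ℂ}
    (h0 : ∀ i, α i ≠ 0)
    (hf : f.map (Int.castRingHom ℂ) = ∏ i, ((X - C (α i)) * (X - C ((p : ℂ) / α i)))) :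
    f.coeff 0 = (p : ℤ) ^ g := by
  have h1 := congrArg (fun q => q.eval 0) hf
  simp only [eval_prod, eval_mul, eval_sub, eval_X, eval_C, zero_sub] at h1
  rw [← coeff_zero_eq_eval_zero, coeff_map] at h1
  have h2 : ∏ i, (-α i * -((p : ℂ) / α i)) = (p : ℂ) ^ g := by
    rw [Finset.prod_congr rfl fun i _ => by
      rw [neg_mul_neg, mul_div_cancel₀ _ (h0 i)], Finset.prod_const, Finset.card_univ,
      Fintype.card_fin]
  rw [h2] at h1
  have h3 : ((f.coeff 0 : ℤ) : ℂ) = (((p : ℤ) ^ g : ℤ) : ℂ) := by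
    push_cast
    exact h1
  exact_mod_cast h3

theorem crit_data {p : ℕ} [Fact p.Prime] {k : ℕ} (hk : 2 ≤ k) (hp4 : p % 4 = 3)
    {h0 : (ZMod p)[X]} (hg : Good p (2 ^ k) h0)
    (h4 : ∀ j, 1 ≤ j → j < 2 * 2 ^ k → (4 : ℤ) ∣ Sd (Dp h0) j)
    (h8 : (8 : ℤ) ∣ (∑ d ∈ odds (2 ^ k), Sd (Dp h0) d) - 4)
    (hw0 : (HW p (2 ^ k) (Dp h0)).charpoly.coeff 0 = 0)
    (hw1 : (HW p (2 ^ k) (Dp h0)).charpoly.coeff 1 ≠ 0) :
    GoodF p k (Lp (2 ^ k) (Dp h0)) ∧
    ∃ θ : Fin (2 ^ k) → ℝ, 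
    (∀ m : ℕ, 1 ≤ m →
      (Nat.card {z : GaloisField p m × GaloisField p m // z.2 ^ 2 = aeval z.1 (Dp h0)} : ℝ) =
        (p : ℝ) ^ m - ∑ i, 2 * (Real.sqrt p) ^ m * Real.cos (m * θ i)) ∧
    (Lp (2 ^ k) (Dp h0)).map (Int.castRingHom ℂ) =
        ∏ i, ((X - C ((Real.sqrt p : ℂ) * Complex.exp (θ i * Complex.I))) *
          (X - C ((p : ℂ) / ((Real.sqrt p : ℂ) * Complex.exp (θ i * Complex.I))))) := by
  set g := 2 ^ k with hgdef
  have g4 : 4 ≤ g := by
    rw [hgdef]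
    calc 4 = 2 ^ 2 := by norm_num
      _ ≤ 2 ^ k := Nat.pow_le_pow_right (by norm_num) hk
  have g2 : 2 ≤ g := by omega
  set f := Lp g (Dp h0) with hf
  have hirr := Lp_irreducible hg
  obtain ⟨θ, hmono, hrange, hfac⟩ := angles (p := p) g2 (f := f) (Lp_monic _)
    (Lp_natDegree _) hirr (rh hg)
  have hp := (Fact.out : p.Prime)
  have hmod : ∀ d, (p : ℤ) ∣ Sd (Dp h0) d ↔ eps (HW p g (Dp h0)) d = 0 := by
    intro d
    rw [← Sd_mod hg d, ZMod.intCast_zmod_eq_zero_iff_dvd]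
  have hhigh : ∀ d, g < d → d ≤ 2 * g → (p : ℤ) ∣ Sd (Dp h0) d := by
    intro d hd1 hd2
    rw [hmod, eps, if_neg (by omega)]
  have hc : ∀ j ≤ 2 * g, f.coeff j = Sd (Dp h0) (2 * g - j) := by
    intro j hj
    rw [hf, Lp_coeff _ hj]
  have hsq : (Real.sqrt p : ℂ) ≠ 0 := by
    have hp0 : (0 : ℝ) < p := by exact_mod_cast hp.pos
    exact_mod_cast (Real.sqrt_pos.2 hp0).ne'
  have hS2g : Sd (Dp h0) (2 * g) = (p : ℤ) ^ g := by
    have h1 := Data_const (p := p) (f := f)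
      (α := fun i => (Real.sqrt p : ℂ) * Complex.exp (θ i * Complex.I))
      (fun i => mul_ne_zero hsq (Complex.exp_ne_zero _)) hfac
    rw [hc 0 (by omega)] at h1
    simpa using h1
  refine ⟨?_, θ, ?_, hfac⟩
  · refine ⟨hk, hp4, Lp_monic _, Lp_natDegree _, hirr, ?_, ?_, ?_, ?_, ?_⟩
    · intro d hd
      rw [hc d (by omega), hc (2 * g - d) (by omega)]
      have h1 := Sd_fe hg (d := 2 * g - d) (by omega)
      have h2 := Sd_fe hg (d := d) (by omega)
      have e1 : 2 * g - (2 * g - d) = d := by omega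
      rw [e1]
      rw [hS2g] at h2
      have h3 : (p : ℤ) ^ d * Sd (Dp h0) (2 * g - d) =
          (p : ℤ) ^ d * ((p : ℤ) ^ (g - d) * Sd (Dp h0) d) := by
        rw [← mul_assoc, ← pow_add, Nat.add_sub_cancel' hd]
        exact h2.symm
      have hp0 : (p : ℤ) ^ d ≠ 0 := pow_ne_zero _ (by exact_mod_cast hp.ne_zero)
      exact mul_left_cancel₀ hp0 h3
    · intro j h1 h2
      rw [hc j (by omega)]
      exact h4 _ (by omega) (by omega)
    · have e : ∑ d ∈ oddsB g, f.coeff (2 * g - d) = ∑ d ∈ odds g, Sd (Dp h0) d := by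
        refine Finset.sum_congr rfl fun d hd => ?_
        have h1 := Finset.mem_range.1 (Finset.mem_filter.1 hd).1
        rw [hc _ (by omega)]
        congr 1
        omega
      rw [e]
      exact h8
    · intro j hj
      rw [hc j (by omega)]
      rcases Nat.lt_or_ge j g with h | h
      · exact hhigh _ (by omega) (by omega)
      · have hjg : j = g := by omega
        rw [hmod, eps, if_pos (by omega)]
        have : g - (2 * g - j) = 0 := by omega
        rw [this]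
        exact hw0
    · rw [hc _ (by omega), hmod, eps, if_pos (by omega)]
      have : g - (2 * g - (g + 1)) = 1 := by omega
      rw [this]
      exact hw1
  · intro m hm
    have h1 := card_points hg.p2 (Dp h0) hm
    have h2 := am_eq_roots hg hm
    rw [angles_sum θ hfac m] at h2
    have h3 : ((am (Dp h0) m : ℤ) : ℝ) =
        - ∑ i, 2 * (Real.sqrt p) ^ m * Real.cos (m * θ i) := by
      exact_mod_cast h2
    have h5 : (Nat.card {z : GaloisField p m × GaloisField p m //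
        z.2 ^ 2 = aeval z.1 (Dp h0)} : ℝ) = (p : ℝ) ^ m + (am (Dp h0) m : ℤ) := by
      have h6 : ((Nat.card {z : GaloisField p m × GaloisField p m //
        z.2 ^ 2 = aeval z.1 (Dp h0)} : ℤ) : ℝ) = (p : ℝ) ^ m + (am (Dp h0) m : ℤ) := by
        rw [h1]; push_cast; ring
      rw [← h6]; push_cast; rfl
    rw [h5, h3]; ring

end LIF
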