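import Mathlib

/-!
helper1: project GLI (MP_0ec205_nt), part II: Galois action on the roots of the L-polynomials.

`f` is the (reversed) L-polynomial of a curve of genus `g = 2^k`: monic of degree `2g`, irreducible
over `ℚ`, `f = X^(2g) + S_1 X^(2g-1) + ... + S_(2g)`, `S_d = f.coeff (2g - d)`.
`E` is an algebraically closed field of characteristic zero, algebraic over `ℚ`; the roots of `f` in
`E` are `a_i, p/a_i`, `i < g`.
-/

set_option autoImplicit false

namespace LIF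

open Polynomial

/-- the odd numbers below `g` -/
def oddsB (g : ℕ) : Finset ℕ := (Finset.range g).filter (fun d => d % 2 = 1)

/-- the hypotheses on the L-polynomial of one curve -/
structure GoodF (p k : ℕ) (f : ℤ[X]) : Prop where
  k2 : 2 ≤ k
  p4 : p % 4 = 3
  mon : f.Monic
  deg : f.natDegree = 2 * 2 ^ k
  irr : Irreducible (f.map (Int.castRingHom ℚ))
  /-- functional equation `S_(2g-d) = p^(g-d) S_d` -/
  fe : ∀ d ≤ 2 ^ k, f.coeff d = (p : ℤ) ^ (2 ^ k - d) * f.coeff (2 * 2 ^ k - d)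
  /-- `4 ∣ S_d`, `0 < d < 2g` -/
  four : ∀ j, 1 ≤ j → j < 2 * 2 ^ k → (4 : ℤ) ∣ f.coeff j
  /-- `∑_{d odd < g} S_d ≡ 4 (mod 8)` -/
  eight : (8 : ℤ) ∣ (∑ d ∈ oddsB (2 ^ k), f.coeff (2 * 2 ^ k - d)) - 4
  low : ∀ j ≤ 2 ^ k, (p : ℤ) ∣ f.coeff j
  mid : ¬ (p : ℤ) ∣ f.coeff (2 ^ k + 1)

/-- the roots of `f` in `E` are `a_i, p / a_i` -/
def Spl {E : Type*} [Field E] (p : ℕ) {g : ℕ} (f : ℤ[X]) (a : Fin g → E) : Prop :=
  f.map (Int.castRingHom E) = ∏ i, ((X - C (a i)) * (X - C ((p : E) / a i)))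

/-- Dickson type polynomials: `Dk p n` evaluated at `x + p/x` is `x^n + (p/x)^n` -/
noncomputable def Dk (p : ℕ) : ℕ → ℤ[X]
  | 0 => 2
  | 1 => X
  | (n + 2) => X * Dk p (n + 1) - C (p : ℤ) * Dk p n

/-- the real polynomial `R` with `f(x) = x^g R(x + p/x)`, `S d` the coefficients -/
noncomputable def Rp (p g : ℕ) (S : ℕ → ℤ) : ℤ[X] :=
  C (S g) + ∑ d ∈ Finset.range g, C (S d) * Dk p (g - d)

/-- the congruences satisfied by the real polynomial -/
structure RCond (k : ℕ) (R : ℤ[X]) : Prop where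
  mon : R.Monic
  deg : R.natDegree = 2 ^ k
  c0 : R.coeff 0 % 4 = 2
  c4 : ∀ i, 1 ≤ i → i < 2 ^ k → (4 : ℤ) ∣ R.coeff i
  c1 : (8 : ℤ) ∣ R.coeff 1 - 4

/-- the `2`-adic valuations of the roots of `f` (`A` a valuation ring above `2`) -/
structure TwoAd {E : Type*} [Field E] (p k : ℕ) (A : ValuationSubring E) (a : Fin (2 ^ k) → E) :
    Prop where
  h2 : A.valuation (2 : E) < 1
  al : ∀ i, A.valuation (a i - 1) ^ (2 * 2 ^ k) = A.valuation (2 : E)
  al' : ∀ i, A.valuation ((p : E) / a i - 1) ^ (2 * 2 ^ k) = A.valuation (2 : E)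
  di : ∀ i j, i ≠ j → A.valuation ((a i + (p : E) / a i) - (a j + (p : E) / a j)) ^ (2 ^ k - 1) =
    A.valuation (2 : E) ^ 2

/-- orientation: all the `b_i^g` are congruent modulo more than `2`, and opposite to the
`(p/b_i)^g` -/
structure Orient {E : Type*} [Field E] (p k : ℕ) (A : ValuationSubring E) (b : Fin (2 ^ k) → E) :
    Prop where
  same : ∀ i j, A.valuation (b i ^ (2 ^ k) - b j ^ (2 ^ k)) < A.valuation (2 : E)
  opp : ∀ i, A.valuation (((p : E) / b i) ^ (2 ^ k) + b i ^ (2 ^ k)) < A.valuation (2 : E)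

/-- the enumeration of all the roots: `(i, true) ↦ b_i`, `(i, false) ↦ p / b_i` -/
def Bx {E : Type*} [Field E] (p : ℕ) {g : ℕ} (b : Fin g → E) (x : Fin g × Bool) : E :=
  if x.2 then b x.1 else (p : E) / b x.1

end LIF
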