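import Pool.Agent.helper1.GLI.DefsB

/-!
helper1: project GLI (MP_0ec205_nt), part III: joint relations between the roots for several `k`.
-/

set_option autoImplicit false

namespace LIF

/-- `φ` is (a rational multiple of) a multiplicative relation between the roots of the `f k`,
`k ∈ T`: there is a positive integer `m` such that `m φ = n` is integral and
`∏_k ∏_x (Bx x)^(n k x) = 1` -/
def IsRel {E : Type*} [Field E] (p : ℕ) (T : Finset ℕ) (a : (k : ℕ) → Fin (2 ^ k) → E)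
    (φ : (k : T) → Fin (2 ^ (k : ℕ)) × Bool → ℚ) : Prop :=
  ∃ m : ℕ, 0 < m ∧ ∃ n : (k : T) → Fin (2 ^ (k : ℕ)) × Bool → ℤ,
    (∀ k x, (m : ℚ) * φ k x = n k x) ∧ ∏ k : T, ∏ x, Bx p (a k) x ^ n k x = 1

/-- the family `π, θ_(k,i)`, `k ∈ P`, `i < 2^k` -/
noncomputable def jfam (P : ℕ → Prop) (θ : (k : ℕ) → Fin (2 ^ k) → ℝ) :
    Option (Σ k : {k : ℕ // P k}, Fin (2 ^ (k : ℕ))) → ℝ :=
  fun o => o.elim Real.pi (fun x => θ x.1 x.2)

end LIF
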