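import Mathlib

/-!
[GLI-LinV] Valuation independence (imports Mathlib only).

`E` a field of characteristic zero, `A` a valuation ring, `v(2) < 1` (hence `v(c) = 1` for odd
integers `c`, and `v(c) = v(2)^m` for a nonzero rational `c = 2^m u`, `u` a quotient of odd integers,
`m ∈ ℤ`).  `g = 2^k`, `k ≥ 2`, `v(u)^(2g) = v(2)`, `v(w)^(g-1) = v(2)^2`.

Key fact: for `0 ≤ a, a' < 2g`, `0 ≤ b, b' < g - 1`, nonzero rationals `c, c'`: if
`v(c u^a w^b) = v(c' u^a' w^b')` then `a = a'`, `b = b'` (and `v(c) = v(c')`).  Proof: write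
`v(c) = v(2)^m`, `v(c') = v(2)^m'`; raise to the power `2g(g-1)`:
`v(2)^(2g(g-1) m + (g-1) a + 4 g b) = v(2)^(2g(g-1) m' + (g-1) a' + 4 g b')`, and as
`0 < v(2) < 1` the exponents (integers) are equal.  Modulo `g - 1` (odd, `g ≡ 1`): `4 (b - b') ≡ 0`, so
`g - 1 ∣ b - b'`, `b = b'`.  Then `2g (m - m') + (a - a') = 0`, `|a - a'| < 2g`, so `a = a'`.

So in a sum `∑ c_(a,b) u^a w^b` (finite, `c` rational) the nonzero terms have pairwise different
valuations, and the valuation of the sum is the maximum of the valuations of the terms.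
* `lin_zero`: if the sum is `0` then all `c = 0`.
* `lin_val`: if `u', w'` satisfy the same conditions, then `v(u') = v(u)`, `v(w') = v(w)` (in a
  linearly ordered group with zero `x^n = y^n`, `n ≥ 1` implies `x = y`), so the corresponding terms
  have the same valuations and the two sums have the same valuation.
-/

set_option autoImplicit false

namespace LIF

variable {E : Type*} [Field E] [CharZero E] (A : ValuationSubring E)

private theorem LinV_ne : A.valuation (2 : E) ≠ 0 := by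
  rw [Valuation.ne_zero_iff]
  exact two_ne_zero

omit [CharZero E] in
private theorem LinV_nat_le (n : ℕ) : A.valuation (n : E) ≤ 1 := by
  have h := A.valuation_le_one (n : A)
  rwa [show (((n : A) : A) : E) = (n : E) from by push_cast; rfl] at h

omit [CharZero E] in
private theorem LinV_odd (h2 : A.valuation (2 : E) < 1) {n : ℕ} (hn : Odd n) :
    A.valuation (n : E) = 1 := by
  obtain ⟨j, rfl⟩ := hn
  have h1 : ((2 * j + 1 : ℕ) : E) = 1 + 2 * (j : E) := by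
    push_cast
    ring
  rw [h1]
  apply Valuation.map_one_add_of_lt
  rw [map_mul]
  exact mul_lt_one_of_lt_of_le h2 (LinV_nat_le A j)

omit [CharZero E] in
private theorem LinV_nat (h2 : A.valuation (2 : E) < 1) {n : ℕ} (hn : n ≠ 0) :
    ∃ m : ℕ, A.valuation (n : E) = A.valuation (2 : E) ^ m := by
  obtain ⟨k, m, hm, rfl⟩ := Nat.exists_eq_two_pow_mul_odd hn
  refine ⟨k, ?_⟩
  rw [Nat.cast_mul, Nat.cast_pow, map_mul, map_pow, LinV_odd A h2 hm, mul_one, Nat.cast_ofNat]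

theorem rat_val (h2 : A.valuation (2 : E) < 1) {c : ℚ} (hc : c ≠ 0) :
    ∃ m : ℤ, A.valuation (c : E) = A.valuation (2 : E) ^ m := by
  obtain ⟨k, hk⟩ := LinV_nat A h2 (n := c.num.natAbs)
    (by rw [Ne, Int.natAbs_eq_zero]; exact Rat.num_ne_zero.2 hc)
  obtain ⟨l, hl⟩ := LinV_nat A h2 (n := c.den) c.den_ne_zero
  refine ⟨(k : ℤ) - l, ?_⟩
  have h1 : A.valuation (c.num : E) = A.valuation ((c.num.natAbs : ℕ) : E) := by
    rcases Int.natAbs_eq c.num with h | h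
    · rw [h]
      simp
    · rw [h]
      simp
  rw [Rat.cast_def, map_div₀, h1, hk, hl, zpow_sub₀ (LinV_ne A), zpow_natCast, zpow_natCast]

/-- The arithmetic of the exponents. -/
private theorem LinV_arith {k : ℕ} (hk : 2 ≤ k) {m m' a a' b b' : ℤ} (ha : 0 ≤ a)
    (ha2 : a < 2 * 2 ^ k) (ha' : 0 ≤ a') (ha2' : a' < 2 * 2 ^ k) (hb : 0 ≤ b)
    (hb2 : b < 2 ^ k - 1) (hb' : 0 ≤ b') (hb2' : b' < 2 ^ k - 1)
    (h : m * (2 * 2 ^ k * (2 ^ k - 1)) + a * (2 ^ k - 1) + 2 * (b * (2 * 2 ^ k)) =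
      m' * (2 * 2 ^ k * (2 ^ k - 1)) + a' * (2 ^ k - 1) + 2 * (b' * (2 * 2 ^ k))) :
    a = a' ∧ b = b' := by
  obtain ⟨q, hq⟩ : ∃ q : ℤ, (2 : ℤ) ^ k = 4 * q := by
    refine ⟨2 ^ (k - 2), ?_⟩
    rw [show (4 : ℤ) = 2 ^ 2 by norm_num, ← pow_add]
    congr 1
    omega
  rw [hq] at h ha2 ha2' hb2 hb2'
  have hdvd : (4 * q - 1) ∣ (b - b') := by
    have h1 : (4 * q - 1) ∣ 4 * (b - b') := by
      refine ⟨-(2 * (4 * q) * (m - m') + (a - a')) - 4 * (b - b'), ?_⟩
      linear_combination h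
    obtain ⟨r, hr⟩ := h1
    refine ⟨q * r - (b - b'), ?_⟩
    linear_combination q * hr
  have hbb : b - b' = 0 := by
    apply Int.eq_zero_of_abs_lt_dvd hdvd
    rw [abs_lt]
    constructor <;> linarith
  have hb3 : b = b' := by linarith
  refine ⟨?_, hb3⟩
  subst hb3
  have hq1 : (4 * q - 1 : ℤ) ≠ 0 := by
    intro h0
    omega
  have h1 : (4 * q - 1) * (2 * (4 * q) * (m - m') + (a - a')) = 0 := by
    linear_combination h
  have h2 : 2 * (4 * q) * (m - m') + (a - a') = 0 := by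
    rcases mul_eq_zero.1 h1 with h3 | h3
    · exact absurd h3 hq1
    · exact h3
  have h3 : (2 * (4 * q)) ∣ (a - a') := ⟨-(m - m'), by linear_combination h2⟩
  have h4 : a - a' = 0 := by
    apply Int.eq_zero_of_abs_lt_dvd h3
    rw [abs_lt]
    constructor <;> linarith
  linarith

/-- The valuations of the terms, raised to a power. -/
private theorem LinV_term {k : ℕ} {u w : E}
    (hu : A.valuation u ^ (2 * 2 ^ k) = A.valuation (2 : E))
    (hw : A.valuation w ^ (2 ^ k - 1) = A.valuation (2 : E) ^ 2) {c : E} {m : ℤ}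
    (hc : A.valuation c = A.valuation (2 : E) ^ m) (a b : ℕ) :
    A.valuation (c * (u ^ a * w ^ b)) ^ (2 * 2 ^ k * (2 ^ k - 1)) =
      A.valuation (2 : E) ^ (m * (2 * 2 ^ k * (2 ^ k - 1)) + a * (2 ^ k - 1) +
        2 * (b * (2 * 2 ^ k)) : ℤ) := by
  have h0 := LinV_ne A
  have hcast : ((2 ^ k - 1 : ℕ) : ℤ) = 2 ^ k - 1 := by
    have : 1 ≤ 2 ^ k := Nat.one_le_two_pow
    push_cast [this]
    ring
  have e1 : (A.valuation (2 : E) ^ m) ^ (2 * 2 ^ k * (2 ^ k - 1)) =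
      A.valuation (2 : E) ^ (m * (2 * 2 ^ k * (2 ^ k - 1))) := by
    rw [← zpow_natCast (A.valuation (2 : E) ^ m), ← zpow_mul]
    congr 1
    rw [Nat.cast_mul, hcast]
    push_cast
    ring
  have e2 : (A.valuation u ^ a) ^ (2 * 2 ^ k * (2 ^ k - 1)) =
      A.valuation (2 : E) ^ ((a : ℤ) * (2 ^ k - 1)) := by
    have h1 : (A.valuation u ^ a) ^ (2 * 2 ^ k * (2 ^ k - 1)) =
        (A.valuation u ^ (2 * 2 ^ k)) ^ (a * (2 ^ k - 1)) := by
      rw [← pow_mul, ← pow_mul]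
      congr 1
      ring
    rw [h1, hu, ← zpow_natCast]
    congr 1
    rw [Nat.cast_mul, hcast]
  have e3 : (A.valuation w ^ b) ^ (2 * 2 ^ k * (2 ^ k - 1)) =
      A.valuation (2 : E) ^ (2 * ((b : ℤ) * (2 * 2 ^ k))) := by
    have h1 : (A.valuation w ^ b) ^ (2 * 2 ^ k * (2 ^ k - 1)) =
        (A.valuation w ^ (2 ^ k - 1)) ^ (b * (2 * 2 ^ k)) := by
      rw [← pow_mul, ← pow_mul]
      congr 1
      ring
    rw [h1, hw, ← pow_mul, ← zpow_natCast]
    congr 1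
  rw [map_mul, map_mul, map_pow, map_pow, mul_pow, mul_pow, hc, e1, e2, e3, zpow_add₀ h0,
    zpow_add₀ h0]
  exact (mul_assoc _ _ _).symm

/-- Different terms have different valuations. -/
private theorem LinV_inj (h2 : A.valuation (2 : E) < 1) {k : ℕ} (hk : 2 ≤ k) {u w : E}
    (hu : A.valuation u ^ (2 * 2 ^ k) = A.valuation (2 : E))
    (hw : A.valuation w ^ (2 ^ k - 1) = A.valuation (2 : E) ^ 2)
    {c c' : ℚ} (hc : c ≠ 0) (hc' : c' ≠ 0) {x y : Fin (2 * 2 ^ k) × Fin (2 ^ k - 1)}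
    (h : A.valuation ((c : E) * (u ^ (x.1 : ℕ) * w ^ (x.2 : ℕ))) =
      A.valuation ((c' : E) * (u ^ (y.1 : ℕ) * w ^ (y.2 : ℕ)))) : x = y := by
  obtain ⟨m, hm⟩ := rat_val A h2 hc
  obtain ⟨m', hm'⟩ := rat_val A h2 hc'
  have h3 := LinV_term A hu hw hm (x.1 : ℕ) (x.2 : ℕ)
  have h4 := LinV_term A hu hw hm' (y.1 : ℕ) (y.2 : ℕ)
  rw [h, h4] at h3
  have h5 := zpow_right_injective₀ (zero_lt_iff.2 (LinV_ne A)) h2.ne h3
  have hone : 1 ≤ 2 ^ k := Nat.one_le_two_pow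
  have cast1 : ∀ z : Fin (2 * 2 ^ k), ((z : ℕ) : ℤ) < 2 * 2 ^ k := by
    intro z
    have := z.2
    exact_mod_cast this
  have cast2 : ∀ z : Fin (2 ^ k - 1), ((z : ℕ) : ℤ) < 2 ^ k - 1 := by
    intro z
    have h6 : (z : ℕ) + 1 < 2 ^ k := by
      have := z.2
      omega
    have h7 : ((z : ℕ) : ℤ) + 1 < 2 ^ k := by exact_mod_cast h6
    linarith
  obtain ⟨h6, h7⟩ := LinV_arith hk (by positivity) (cast1 y.1) (by positivity) (cast1 x.1)
    (by positivity) (cast2 y.2) (by positivity) (cast2 x.2) h5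
  apply Prod.ext
  · apply Fin.ext
    exact_mod_cast h6.symm
  · apply Fin.ext
    exact_mod_cast h7.symm

/-- There is a dominating term. -/
private theorem LinV_max (h2 : A.valuation (2 : E) < 1) {k : ℕ} (hk : 2 ≤ k) {u w : E}
    (hu : A.valuation u ^ (2 * 2 ^ k) = A.valuation (2 : E))
    (hw : A.valuation w ^ (2 ^ k - 1) = A.valuation (2 : E) ^ 2)
    {c : Fin (2 * 2 ^ k) × Fin (2 ^ k - 1) → ℚ} (hc : c ≠ 0) :
    ∃ j, 0 < A.valuation ((c j : E) * (u ^ (j.1 : ℕ) * w ^ (j.2 : ℕ))) ∧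
      ∀ i, i ≠ j → A.valuation ((c i : E) * (u ^ (i.1 : ℕ) * w ^ (i.2 : ℕ))) <
        A.valuation ((c j : E) * (u ^ (j.1 : ℕ) * w ^ (j.2 : ℕ))) := by
  classical
  have h0 := LinV_ne A
  have hone : 4 ≤ 2 ^ k := by
    calc 4 = 2 ^ 2 := by norm_num
      _ ≤ 2 ^ k := Nat.pow_le_pow_right (by norm_num) hk
  have hu0 : A.valuation u ≠ 0 := by
    intro h
    rw [h, zero_pow (by omega)] at hu
    exact h0 hu.symm
  have hw0 : A.valuation w ≠ 0 := by
    intro h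
    rw [h, zero_pow (by omega)] at hw
    exact pow_ne_zero 2 h0 hw.symm
  obtain ⟨x0, hx0⟩ : ∃ x, c x ≠ 0 := by
    by_contra hcon
    push Not at hcon
    exact hc (funext hcon)
  have hne : (Finset.univ.filter fun x => c x ≠ 0).Nonempty :=
    ⟨x0, Finset.mem_filter.2 ⟨Finset.mem_univ _, hx0⟩⟩
  obtain ⟨j, hj, hmax⟩ := Finset.exists_max_image (Finset.univ.filter fun x => c x ≠ 0)
    (fun x => A.valuation ((c x : E) * (u ^ (x.1 : ℕ) * w ^ (x.2 : ℕ)))) hne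
  have hcj : c j ≠ 0 := (Finset.mem_filter.1 hj).2
  have hpos : 0 < A.valuation ((c j : E) * (u ^ (j.1 : ℕ) * w ^ (j.2 : ℕ))) := by
    rw [zero_lt_iff, map_mul, map_mul, map_pow, map_pow]
    refine mul_ne_zero ?_ (mul_ne_zero (pow_ne_zero _ hu0) (pow_ne_zero _ hw0))
    rw [Valuation.ne_zero_iff]
    exact_mod_cast hcj
  refine ⟨j, hpos, fun i hij => ?_⟩
  by_cases hci : c i = 0
  · rw [hci, Rat.cast_zero, zero_mul, map_zero]
    exact hpos
  · refine lt_of_le_of_ne (hmax i (Finset.mem_filter.2 ⟨Finset.mem_univ _, hci⟩)) ?_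
    intro h
    exact hij (LinV_inj A h2 hk hu hw hci hcj h)

theorem lin_zero (h2 : A.valuation (2 : E) < 1) {k : ℕ} (hk : 2 ≤ k) {u w : E}
    (hu : A.valuation u ^ (2 * 2 ^ k) = A.valuation (2 : E))
    (hw : A.valuation w ^ (2 ^ k - 1) = A.valuation (2 : E) ^ 2)
    (c : Fin (2 * 2 ^ k) × Fin (2 ^ k - 1) → ℚ)
    (h : ∑ x, (c x : E) * (u ^ (x.1 : ℕ) * w ^ (x.2 : ℕ)) = 0) : c = 0 := by
  classical
  by_contra hc
  obtain ⟨j, hpos, hj⟩ := LinV_max A h2 hk hu hw hc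
  have h1 := Valuation.map_sum_eq_of_lt A.valuation (s := Finset.univ)
    (f := fun x : Fin (2 * 2 ^ k) × Fin (2 ^ k - 1) =>
      (c x : E) * (u ^ (x.1 : ℕ) * w ^ (x.2 : ℕ))) (Finset.mem_univ j) (fun i hi => by
      rw [Finset.mem_sdiff, Finset.mem_singleton] at hi
      exact hj i hi.2)
  rw [h, map_zero] at h1
  exact hpos.ne h1

theorem lin_val (h2 : A.valuation (2 : E) < 1) {k : ℕ} (hk : 2 ≤ k) {u w u' w' : E}
    (hu : A.valuation u ^ (2 * 2 ^ k) = A.valuation (2 : E))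
    (hw : A.valuation w ^ (2 ^ k - 1) = A.valuation (2 : E) ^ 2)
    (hu' : A.valuation u' ^ (2 * 2 ^ k) = A.valuation (2 : E))
    (hw' : A.valuation w' ^ (2 ^ k - 1) = A.valuation (2 : E) ^ 2)
    (c : Fin (2 * 2 ^ k) × Fin (2 ^ k - 1) → ℚ) :
    A.valuation (∑ x, (c x : E) * (u' ^ (x.1 : ℕ) * w' ^ (x.2 : ℕ))) =
      A.valuation (∑ x, (c x : E) * (u ^ (x.1 : ℕ) * w ^ (x.2 : ℕ))) := by
  classical
  have hone : 4 ≤ 2 ^ k := by
    calc 4 = 2 ^ 2 := by norm_num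
      _ ≤ 2 ^ k := Nat.pow_le_pow_right (by norm_num) hk
  have huu : A.valuation u' = A.valuation u := by
    rw [← hu] at hu'
    exact (pow_left_inj₀ zero_le zero_le (by omega)).1 hu'
  have hww : A.valuation w' = A.valuation w := by
    rw [← hw] at hw'
    exact (pow_left_inj₀ zero_le zero_le (by omega)).1 hw'
  have hterm : ∀ x : Fin (2 * 2 ^ k) × Fin (2 ^ k - 1),
      A.valuation ((c x : E) * (u' ^ (x.1 : ℕ) * w' ^ (x.2 : ℕ))) =
        A.valuation ((c x : E) * (u ^ (x.1 : ℕ) * w ^ (x.2 : ℕ))) := by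
    intro x
    rw [map_mul, map_mul, map_pow, map_pow, map_mul, map_mul, map_pow, map_pow, huu, hww]
  by_cases hc : c = 0
  · simp [hc]
  · obtain ⟨j, hpos, hj⟩ := LinV_max A h2 hk hu hw hc
    have h1 := Valuation.map_sum_eq_of_lt A.valuation (s := Finset.univ)
      (f := fun x : Fin (2 * 2 ^ k) × Fin (2 ^ k - 1) =>
        (c x : E) * (u ^ (x.1 : ℕ) * w ^ (x.2 : ℕ))) (Finset.mem_univ j) (fun i hi => by
        rw [Finset.mem_sdiff, Finset.mem_singleton] at hi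
        exact hj i hi.2)
    have h3 := Valuation.map_sum_eq_of_lt A.valuation (s := Finset.univ)
      (f := fun x : Fin (2 * 2 ^ k) × Fin (2 ^ k - 1) =>
        (c x : E) * (u' ^ (x.1 : ℕ) * w' ^ (x.2 : ℕ))) (Finset.mem_univ j) (fun i hi => by
        rw [Finset.mem_sdiff, Finset.mem_singleton] at hi
        show A.valuation ((c i : E) * (u' ^ (i.1 : ℕ) * w' ^ (i.2 : ℕ))) <
          A.valuation ((c j : E) * (u' ^ (j.1 : ℕ) * w' ^ (j.2 : ℕ)))
        rw [hterm, hterm]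
        exact hj i hi.2)
    rw [h1, h3]
    exact hterm j

end LIF
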