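import Pool.Agent.helper1.GLI.Real

/-!
[GLI-Perm] The action of an automorphism on the roots (imports the stub `Real`).

`Bx p a : Fin g × Bool → E`, `(i, true) ↦ a_i`, `(i, false) ↦ p/a_i`, is injective (`roots_inj`) and
its values are exactly the roots of `f` in `E`.  `σ : E ≃ₐ[ℚ] E` maps roots of `f` to roots, so there
is a permutation `γ` of `Fin g × Bool` with `σ (Bx x) = Bx (γ x)` for all `x` (injective self map of a
finite set), unique, and as `Bx (i, !c) = p / Bx (i, c)` it commutes with the swap.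
* `exists_root_conj`: any two roots are conjugate: `f` is irreducible, so it is the minimal
  polynomial of each root (`isConjRoot_iff_exists_algEquiv`, see the end of the proof of
  `gal_core_aux` in `LI/Gal.lean`).
-/

set_option autoImplicit false

namespace LIF

open Polynomial

variable {p k : ℕ} {f : ℤ[X]} {E : Type*} [Field E] [CharZero E] [Algebra ℚ E]

theorem Bx_root {a : Fin (2 ^ k) → E} (hs : Spl p f a) (ha : ∀ i, a i ≠ 0) (x : E) :
    (∃ z, Bx p a z = x) ↔ (f.map (Int.castRingHom E)).eval x = 0 := by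
  have hs' : f.map (Int.castRingHom E) = ∏ i, ((X - C (a i)) * (X - C ((p : E) / a i))) := hs
  rw [hs', eval_prod, Finset.prod_eq_zero_iff]
  constructor
  · rintro ⟨⟨i, c⟩, rfl⟩
    refine ⟨i, Finset.mem_univ i, ?_⟩
    cases c <;> simp [Bx]
  · rintro ⟨i, -, hi⟩
    rw [eval_mul, mul_eq_zero] at hi
    simp only [eval_sub, eval_X, eval_C] at hi
    rcases hi with hi | hi
    · exact ⟨(i, true), by simpa [Bx] using (sub_eq_zero.mp hi).symm⟩
    · exact ⟨(i, false), by simpa [Bx] using (sub_eq_zero.mp hi).symm⟩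

theorem exists_perm (h : GoodF p k f) {a : Fin (2 ^ k) → E} (hs : Spl p f a)
    (σ : E ≃ₐ[ℚ] E) :
    ∃ γ : Equiv.Perm (Fin (2 ^ k) × Bool), (∀ x, σ (Bx p a x) = Bx p a (γ x)) ∧
      ∀ i c, γ (i, !c) = ((γ (i, c)).1, !(γ (i, c)).2) := by
  classical
  obtain ⟨ha0, hinj⟩ := roots_inj h hs
  have hp0 : (p : E) ≠ 0 := by
    have h1 : p ≠ 0 := by
      intro h0
      have h2 := h.p4
      rw [h0] at h2
      omega
    exact_mod_cast h1
  have hmap : (f.map (Int.castRingHom E)).map (σ : E →+* E) = f.map (Int.castRingHom E) := by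
    rw [Polynomial.map_map]
    congr 1
    exact RingHom.ext_int _ _
  have hroot : ∀ x, ∃ z, Bx p a z = σ (Bx p a x) := by
    intro x
    rw [Bx_root hs ha0]
    have h1 : (f.map (Int.castRingHom E)).eval (Bx p a x) = 0 := (Bx_root hs ha0 _).mp ⟨x, rfl⟩
    have h2 : ((f.map (Int.castRingHom E)).map (σ : E →+* E)).eval ((σ : E →+* E) (Bx p a x)) =
        (σ : E →+* E) ((f.map (Int.castRingHom E)).eval (Bx p a x)) := by
      rw [eval_map_apply]
    rw [hmap, h1, map_zero] at h2
    exact h2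
  choose γ hγ using hroot
  have hγi : Function.Injective γ := by
    intro x y hxy
    apply hinj
    apply σ.injective
    rw [← hγ x, ← hγ y, hxy]
  have hγb : Function.Bijective γ := Finite.injective_iff_bijective.mp hγi
  have hneg : ∀ (i : Fin (2 ^ k)) (c : Bool), Bx p a (i, !c) = (p : E) / Bx p a (i, c) := by
    intro i c
    cases c
    · simp only [Bx, Bool.not_false, if_true, Bool.false_eq_true, if_false]
      rw [div_div_cancel₀ hp0]
    · simp [Bx]
  refine ⟨Equiv.ofBijective γ hγb, fun x => (hγ x).symm, fun i c => ?_⟩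
  change γ (i, !c) = ((γ (i, c)).1, !(γ (i, c)).2)
  apply hinj
  rw [hγ, hneg, hneg, hγ]
  rw [map_div₀, map_natCast]

theorem exists_root_conj [IsAlgClosed E] [Algebra.IsAlgebraic ℚ E] [Normal ℚ E]
    (h : GoodF p k f) {a : Fin (2 ^ k) → E} (hs : Spl p f a) (x y : Fin (2 ^ k) × Bool) :
    ∃ σ : E ≃ₐ[ℚ] E, σ (Bx p a x) = Bx p a y := by
  obtain ⟨ha0, -⟩ := roots_inj h hs
  have hmin : ∀ z, minpoly ℚ (Bx p a z) = f.map (Int.castRingHom ℚ) := by
    intro z
    symm
    apply minpoly.eq_of_irreducible_of_monic h.irr _ (h.mon.map _)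
    have h1 : (f.map (Int.castRingHom E)).eval (Bx p a z) = 0 := (Bx_root hs ha0 _).mp ⟨z, rfl⟩
    have h2 : (f.map (Int.castRingHom ℚ)).map (algebraMap ℚ E) = f.map (Int.castRingHom E) := by
      rw [Polynomial.map_map]
      congr 1
      exact RingHom.ext_int _ _
    rw [aeval_def, ← eval_map, h2, h1]
  have hconj : IsConjRoot ℚ (Bx p a y) (Bx p a x) := by
    rw [IsConjRoot, hmin, hmin]
  exact isConjRoot_iff_exists_algEquiv.mp hconj

end LIF
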