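import Pool.Agent.helper1.GLI.Real
import Pool.Agent.helper1.GLI.LinV
import Pool.Agent.helper1.GLI.Perm

/-!
[GLI-Deg] The field `ℚ(a_i, y_j)`, `y_j = a_j + p/a_j`, `j ≠ i` (imports the stubs `Real`, `LinV`,
`Perm`).  `g = 2^k`.

* `deg_span`: every element of `ℚ(a_i, y_j)` is a `ℚ`-linear combination of the `2g(g-1)` elements
  `(a_i - 1)^a (y_i - y_j)^b`, `a < 2g`, `b < g - 1`.
  Proof.  `L = ℚ(a_i)` has degree `2g` over `ℚ` (`f` is the minimal polynomial).  `y_j` is a root of
  `R / (X - y_i) = ∏_{l ≠ i} (X - y_l)`, a polynomial of degree `g - 1` with coefficients in `L`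
  (`real_map`; `R` has integer coefficients and `y_i ∈ L`).  So `[L(y_j) : L] ≤ g - 1` and
  `[ℚ(a_i, y_j) : ℚ] ≤ 2g(g-1)`.  The `2g(g-1)` elements lie in `ℚ(a_i, y_j)` and are linearly
  independent over `ℚ` (`lin_zero` with `u = a_i - 1`, `w = y_i - y_j`, hypotheses from `TwoAd`), so
  they form a basis and `[ℚ(a_i, y_j) : ℚ] = 2g(g-1)`.
* `val_inv`: for every `σ : E ≃ₐ[ℚ] E` and `x ∈ ℚ(a_i, y_j)`: `v(σ x) = v(x)`.  Write
  `x = ∑ c (a_i-1)^a (y_i-y_j)^b`; `σ x = ∑ c (σ a_i - 1)^a (σ y_i - σ y_j)^b`.  `σ a_i` is `a_l` or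
  `p/a_l` for some `l` (`exists_perm`), `σ y_i = y_l`, `σ y_j = y_m` with `m ≠ l`; `TwoAd` gives the
  hypotheses of `lin_val` for `u' = σ a_i - 1`, `w' = y_l - y_m`.
* `deg_trans`: for `j ≠ i`, `l ≠ i` there is `σ` with `σ a_i = a_i` and `σ y_j = y_l`.  The minimal
  polynomial of `y_j` over `L = ℚ(a_i)` has degree `g - 1` (by the degree computation) and divides
  `∏_{l ≠ i} (X - y_l)`, so it is this polynomial and `y_l` is a root of it: `y_j`, `y_l` are conjugate
  over `L` (`isConjRoot_iff_exists_algEquiv` over the base field `L`; `E` is normal over `L`).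
-/

set_option autoImplicit false

namespace LIF

open Polynomial

variable {p k : ℕ} {f : ℤ[X]} {E : Type*} [Field E] [CharZero E] [Algebra ℚ E]
  [IsAlgClosed E] [Algebra.IsAlgebraic ℚ E] [Normal ℚ E]

private theorem Deg_aeval {a : Fin (2 ^ k) → E} (hs : Spl p f a) (i : Fin (2 ^ k)) :
    aeval (a i) (f.map (Int.castRingHom ℚ)) = 0 := by
  have h1 : (f.map (Int.castRingHom E)).eval (a i) = 0 := by
    rw [show f.map (Int.castRingHom E) = _ from hs, eval_prod]
    refine Finset.prod_eq_zero (Finset.mem_univ i) ?_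
    rw [eval_mul, eval_sub, eval_X, eval_C, sub_self, zero_mul]
  have h2 : aeval (a i) (f.map (Int.castRingHom ℚ)) = (f.map (Int.castRingHom E)).eval (a i) := by
    rw [aeval_def, eval₂_map, eval_map]
    congr 1
    exact RingHom.ext_int _ _
  rw [h2, h1]

private theorem Deg_minpoly (h : GoodF p k f) {a : Fin (2 ^ k) → E} (hs : Spl p f a)
    (i : Fin (2 ^ k)) : (minpoly ℚ (a i)).natDegree = 2 * 2 ^ k := by
  have h1 := minpoly.eq_of_irreducible_of_monic h.irr (Deg_aeval hs i)
    (h.mon.map (Int.castRingHom ℚ))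
  rw [← h1, h.mon.natDegree_map, h.deg]

private theorem Deg_sum {M F ι : Type*} [Field M] [Field F] [CharZero F] [Algebra M F]
    [hm : Module ℚ M] [Fintype ι] (c : ι → ℚ) (v : ι → M) :
    algebraMap M F (∑ z, hm.toDistribMulAction.toDistribSMul.toSMulZeroClass.toSMul.smul (c z)
      (v z)) = ∑ z, (c z : F) * algebraMap M F (v z) := by
  rw [map_sum]
  refine Finset.sum_congr rfl fun z _ => ?_
  exact (map_rat_smul (algebraMap M F) (c z) (v z)).trans (Rat.smul_def _ _)

/-- the quotient of `R` by `X - y_i` over `ℚ(a_i)` -/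
private theorem Deg_quot (h : GoodF p k f) {a : Fin (2 ^ k) → E} (hs : Spl p f a)
    (i : Fin (2 ^ k)) :
    ∃ Q : (IntermediateField.adjoin ℚ {a i})[X],
      Q.map (algebraMap (IntermediateField.adjoin ℚ {a i}) E) =
        ∏ l ∈ Finset.univ.erase i, (X - C (a l + (p : E) / a l)) := by
  classical
  set L := IntermediateField.adjoin ℚ {a i} with hL
  have hai : a i ∈ L := IntermediateField.mem_adjoin_simple_self ℚ (a i)
  have hyi : a i + (p : E) / a i ∈ L :=
    L.add_mem hai (L.div_mem (natCast_mem L p) hai)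
  set yi : L := ⟨a i + (p : E) / a i, hyi⟩ with hyi'
  set RL : L[X] := (Rp p (2 ^ k) (fun d => f.coeff (2 * 2 ^ k - d))).map (Int.castRingHom L)
    with hRL
  have hRE : RL.map (algebraMap L E) = ∏ i, (X - C (a i + (p : E) / a i)) := by
    rw [← real_map h hs, hRL, Polynomial.map_map]
    congr 1
  have hroot : RL.IsRoot yi := by
    apply (algebraMap L E).injective
    have h1 : algebraMap L E (RL.eval yi) = (RL.map (algebraMap L E)).eval (algebraMap L E yi) :=
      (eval_map_apply (algebraMap L E) yi).symm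
    rw [h1, hRE, map_zero, eval_prod]
    refine Finset.prod_eq_zero (Finset.mem_univ i) ?_
    rw [eval_sub, eval_X, eval_C]
    exact sub_self _
  refine ⟨RL /ₘ (X - C yi), ?_⟩
  have h2 := mul_divByMonic_eq_iff_isRoot.2 hroot
  have h3 := congrArg (Polynomial.map (algebraMap L E)) h2
  rw [Polynomial.map_mul, hRE, Polynomial.map_sub, map_X, map_C,
    ← Finset.mul_prod_erase Finset.univ _ (Finset.mem_univ i)] at h3
  exact mul_left_cancel₀ (X_sub_C_ne_zero _) h3

private theorem Deg_core (h : GoodF p k f) {a : Fin (2 ^ k) → E} (hs : Spl p f a)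
    (A : ValuationSubring E) (ht : TwoAd p k A a) {i j : Fin (2 ^ k)} (hij : j ≠ i) :
    (minpoly (IntermediateField.adjoin ℚ {a i}) (a j + (p : E) / a j)).map
      (algebraMap (IntermediateField.adjoin ℚ {a i}) E) =
        ∏ l ∈ Finset.univ.erase i, (X - C (a l + (p : E) / a l)) ∧
    ∀ x ∈ IntermediateField.adjoin (IntermediateField.adjoin ℚ {a i}) {a j + (p : E) / a j},
      ∃ c : Fin (2 * 2 ^ k) × Fin (2 ^ k - 1) → ℚ,
      x = ∑ z, (c z : E) * ((a i - 1) ^ (z.1 : ℕ) *
        ((a i + (p : E) / a i) - (a j + (p : E) / a j)) ^ (z.2 : ℕ)) := by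
  classical
  set L := IntermediateField.adjoin ℚ {a i} with hL
  obtain ⟨Q, hQ⟩ : ∃ Q : L[X], Q.map (algebraMap L E) =
    ∏ l ∈ Finset.univ.erase i, (X - C (a l + (p : E) / a l)) := Deg_quot h hs i
  set y := a j + (p : E) / a j with hy
  set M := IntermediateField.adjoin L {y} with hM
  have hai : a i ∈ L := IntermediateField.mem_adjoin_simple_self ℚ (a i)
  have hyi : a i + (p : E) / a i ∈ L :=
    L.add_mem hai (L.div_mem (natCast_mem L p) hai)
  have hLM : ∀ x : E, x ∈ L → x ∈ M := fun x hx => M.algebraMap_mem (⟨x, hx⟩ : L)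
  have hyM : y ∈ M := IntermediateField.mem_adjoin_simple_self L y
  have hint : IsIntegral ℚ (a i) := Algebra.IsIntegral.isIntegral (a i)
  have hinty : IsIntegral L y := (Algebra.IsIntegral.isIntegral (R := ℚ) y).tower_top
  have hQm : Q.Monic := by
    refine monic_of_injective (algebraMap L E).injective ?_
    rw [hQ]
    exact monic_prod_of_monic _ _ fun l _ => monic_X_sub_C _
  have hQd : Q.natDegree = 2 ^ k - 1 := by
    rw [← natDegree_map_eq_of_injective (algebraMap L E).injective, hQ,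
      natDegree_prod_of_monic _ _ fun l _ => monic_X_sub_C _,
      Finset.sum_congr rfl fun l _ => natDegree_X_sub_C _, Finset.sum_const,
      Finset.card_erase_of_mem (Finset.mem_univ i), Finset.card_univ, Fintype.card_fin,
      smul_eq_mul, mul_one]
  have hQy : aeval y Q = 0 := by
    rw [aeval_def, ← eval_map, hQ, eval_prod]
    refine Finset.prod_eq_zero (Finset.mem_erase.2 ⟨hij, Finset.mem_univ j⟩) ?_
    rw [eval_sub, eval_X, eval_C]
    exact sub_self _
  have hdvd : minpoly L y ∣ Q := minpoly.dvd L y hQy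
  have hle : (minpoly L y).natDegree ≤ 2 ^ k - 1 := by
    rw [← hQd]
    exact natDegree_le_of_dvd hdvd hQm.ne_zero
  have : FiniteDimensional ℚ L := IntermediateField.adjoin.finiteDimensional hint
  have : FiniteDimensional L M := IntermediateField.adjoin.finiteDimensional hinty
  have : FiniteDimensional ℚ M := FiniteDimensional.trans ℚ L M
  have hf1 : Module.finrank ℚ L = 2 * 2 ^ k := by
    rw [hL, IntermediateField.adjoin.finrank hint, Deg_minpoly h hs]
  have hf2 : Module.finrank L M = (minpoly L y).natDegree := by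
    rw [hM, IntermediateField.adjoin.finrank hinty]
  have hf3 : Module.finrank ℚ L * Module.finrank L M = Module.finrank ℚ M :=
    Module.finrank_mul_finrank ℚ L M
  let v : Fin (2 * 2 ^ k) × Fin (2 ^ k - 1) → M := fun z =>
    ⟨(a i - 1) ^ (z.1 : ℕ) * ((a i + (p : E) / a i) - y) ^ (z.2 : ℕ),
      M.mul_mem (pow_mem (M.sub_mem (hLM _ hai) M.one_mem) _)
        (pow_mem (M.sub_mem (hLM _ hyi) hyM) _)⟩
  have hli : LinearIndependent ℚ v := by
    rw [Fintype.linearIndependent_iff]
    intro c hc z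
    have h1 : c = 0 := by
      refine lin_zero A ht.h2 h.k2 (ht.al i) (ht.di i j hij.symm) c ?_
      have h0 := congrArg (algebraMap M E) hc
      rw [map_zero] at h0
      exact (Deg_sum (M := M) (F := E) c v).symm.trans h0
    rw [h1]; rfl
  have hcard : Fintype.card (Fin (2 * 2 ^ k) × Fin (2 ^ k - 1)) = 2 * 2 ^ k * (2 ^ k - 1) := by
    simp
  have hge : 2 * 2 ^ k * (2 ^ k - 1) ≤ Module.finrank ℚ M := by
    rw [← hcard]
    exact hli.fintype_card_le_finrank
  have hfin : Module.finrank ℚ M = 2 * 2 ^ k * (2 ^ k - 1) := by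
    apply le_antisymm _ hge
    rw [← hf3, hf1, hf2]
    exact Nat.mul_le_mul_left _ hle
  constructor
  · have hdeg : (minpoly L y).natDegree = 2 ^ k - 1 := by
      rw [← hf3, hf1, hf2] at hfin
      have h0 : 0 < 2 * 2 ^ k := by positivity
      exact Nat.eq_of_mul_eq_mul_left h0 hfin
    have : minpoly L y = Q := by
      refine eq_of_dvd_of_natDegree_le_of_leadingCoeff hdvd (by rw [hdeg, hQd]) ?_
      rw [(minpoly.monic hinty).leadingCoeff, hQm.leadingCoeff]
    rw [this, hQ]
  · intro x hx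
    have hspan := hli.span_eq_top_of_card_eq_finrank' (by rw [hcard, hfin])
    have hx' : (⟨x, hx⟩ : M) ∈ Submodule.span ℚ (Set.range v) := by
      rw [hspan]; trivial
    obtain ⟨c, hc⟩ := (Submodule.mem_span_range_iff_exists_fun ℚ).1 hx'
    refine ⟨c, ?_⟩
    have h0 := congrArg (algebraMap M E) hc
    exact h0.symm.trans (Deg_sum (M := M) (F := E) c v)

private theorem Deg_mem {a : Fin (2 ^ k) → E} {i j : Fin (2 ^ k)} {x : E}
    (hx : x ∈ IntermediateField.adjoin ℚ {a i, a j + (p : E) / a j}) :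
    x ∈ IntermediateField.adjoin (IntermediateField.adjoin ℚ {a i}) {a j + (p : E) / a j} := by
  have h1 := IntermediateField.adjoin_adjoin_left ℚ ({a i} : Set E) ({a j + (p : E) / a j} : Set E)
  rw [Set.singleton_union] at h1
  rw [← h1] at hx
  exact hx

theorem deg_span (h : GoodF p k f) {a : Fin (2 ^ k) → E} (hs : Spl p f a)
    (A : ValuationSubring E) (ht : TwoAd p k A a) {i j : Fin (2 ^ k)} (hij : j ≠ i) {x : E}
    (hx : x ∈ IntermediateField.adjoin ℚ {a i, a j + (p : E) / a j}) :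
    ∃ c : Fin (2 * 2 ^ k) × Fin (2 ^ k - 1) → ℚ,
      x = ∑ z, (c z : E) * ((a i - 1) ^ (z.1 : ℕ) *
        ((a i + (p : E) / a i) - (a j + (p : E) / a j)) ^ (z.2 : ℕ)) :=
  (Deg_core h hs A ht hij).2 x (Deg_mem hx)

theorem val_inv (h : GoodF p k f) {a : Fin (2 ^ k) → E} (hs : Spl p f a)
    (A : ValuationSubring E) (ht : TwoAd p k A a) {i j : Fin (2 ^ k)} (hij : j ≠ i) {x : E}
    (hx : x ∈ IntermediateField.adjoin ℚ {a i, a j + (p : E) / a j}) (σ : E ≃ₐ[ℚ] E) :
    A.valuation (σ x) = A.valuation x := by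
  obtain ⟨c, hc⟩ := deg_span h hs A ht hij hx
  obtain ⟨γ, hγ, hγ2⟩ := exists_perm h hs σ
  have hBt : ∀ i, Bx p a (i, true) = a i := fun i => rfl
  have hBf : ∀ i, Bx p a (i, false) = (p : E) / a i := fun i => rfl
  have hy : ∀ i, σ (a i + (p : E) / a i) =
      a (γ (i, true)).1 + (p : E) / a (γ (i, true)).1 := by
    intro i
    have h1 : a i + (p : E) / a i = Bx p a (i, true) + Bx p a (i, false) := rfl
    have h2 := hγ2 i true
    rw [Bool.not_true] at h2
    rw [h1, map_add, hγ, hγ, h2]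
    generalize hq : γ (i, true) = q
    obtain ⟨l, b⟩ := q
    cases b
    · show (p : E) / a l + a l = _
      rw [add_comm]
    · rfl
  have hu' : A.valuation (σ (a i) - 1) ^ (2 * 2 ^ k) = A.valuation (2 : E) := by
    rw [← hBt i, hγ]
    generalize hq : γ (i, true) = q
    obtain ⟨l, b⟩ := q
    cases b
    · exact ht.al' l
    · exact ht.al l
  have hne : (γ (i, true)).1 ≠ (γ (j, true)).1 := by
    intro he
    by_cases hb : (γ (i, true)).2 = (γ (j, true)).2
    · have := γ.injective (Prod.ext he hb)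
      exact hij (congrArg Prod.fst this).symm
    · have h2 := hγ2 j true
      rw [Bool.not_true] at h2
      have h3 : γ (i, true) = γ (j, false) := by
        rw [h2]
        refine Prod.ext he ?_
        show (γ (i, true)).2 = !(γ (j, true)).2
        revert hb
        cases (γ (i, true)).2 <;> cases (γ (j, true)).2 <;> simp
      have := γ.injective h3
      exact hij (congrArg Prod.fst this).symm
  have hw' : A.valuation (σ (a i + (p : E) / a i) - σ (a j + (p : E) / a j)) ^ (2 ^ k - 1) =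
      A.valuation (2 : E) ^ 2 := by
    rw [hy, hy]
    exact ht.di _ _ hne
  have hσx : σ x = ∑ z, (c z : E) * ((σ (a i) - 1) ^ (z.1 : ℕ) *
        (σ (a i + (p : E) / a i) - σ (a j + (p : E) / a j)) ^ (z.2 : ℕ)) := by
    conv_lhs => rw [hc]
    rw [map_sum]
    refine Finset.sum_congr rfl fun z _ => ?_
    rw [map_mul, map_mul, map_pow, map_pow, map_sub, map_sub, map_one, map_ratCast]
  rw [hσx, hc]
  exact lin_val A ht.h2 h.k2 (ht.al i) (ht.di i j hij.symm) hu' hw' c

theorem deg_trans (h : GoodF p k f) {a : Fin (2 ^ k) → E} (hs : Spl p f a)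
    (A : ValuationSubring E) (ht : TwoAd p k A a) {i j l : Fin (2 ^ k)} (hij : j ≠ i)
    (hil : l ≠ i) :
    ∃ σ : E ≃ₐ[ℚ] E, σ (a i) = a i ∧ σ (a j + (p : E) / a j) = a l + (p : E) / a l := by
  classical
  have hc := (Deg_core h hs A ht hij).1
  set L := IntermediateField.adjoin ℚ {a i} with hL
  have : Normal L E := Normal.tower_top_of_normal ℚ L E
  have hinty : IsIntegral L (a j + (p : E) / a j) :=
    (Algebra.IsIntegral.isIntegral (R := ℚ) _).tower_top
  have h1 : aeval (a l + (p : E) / a l) (minpoly L (a j + (p : E) / a j)) = 0 := by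
    rw [aeval_def, ← eval_map, hc, eval_prod]
    refine Finset.prod_eq_zero (Finset.mem_erase.2 ⟨hil, Finset.mem_univ l⟩) ?_
    rw [eval_sub, eval_X, eval_C]
    exact sub_self _
  have h2 : IsConjRoot L (a j + (p : E) / a j) (a l + (p : E) / a l) :=
    (isConjRoot_iff_aeval_eq_zero hinty).2 h1
  obtain ⟨σ, hσ⟩ := isConjRoot_iff_exists_algEquiv.1 h2
  refine ⟨σ.symm.restrictScalars ℚ, ?_, ?_⟩
  · have hai : a i ∈ L := IntermediateField.mem_adjoin_simple_self ℚ (a i)
    exact σ.symm.commutes (⟨a i, hai⟩ : L)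
  · show σ.symm _ = _
    rw [← hσ, AlgEquiv.symm_apply_apply]

end LIF
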