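import Pool.Agent.helper1.GLI.DefsB

/-!
[GLI-Dick] Dickson type polynomials (imports only `DefsB`).  Proofs: helper59.

* `Dk_eval`: for `x ≠ 0` in a field, `(Dk p n)(x + p/x) = x^n + (p/x)^n`: two-step induction.
* `Dk_monic`: `Dk p n` is monic of degree `n` for `n ≥ 1` (two-step induction).
* `Dk_double`: `Dk p (2 n) = (Dk p n)^2 - 2 p^n`: from the recursion: prove
  `Dk p (m + n) + p^n Dk p (m - n) = Dk p m Dk p n` for `n ≤ m` by induction on `n` and take
  `m = n`, or compare values at infinitely many points `x + p/x` in `ℚ` (`Dk_eval`,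
  `Polynomial.funext` type argument; `ℤ → ℚ` injective).
* `Dk_pow`: for `g = 2^k`, `k ≥ 1`, `p` odd: `(Dk p g).coeff 0 % 4 = 2`, `4 ∣ (Dk p g).coeff i` for
  `0 < i < g`, `(Dk p g).coeff 1 = 0` if `k ≥ 1`.  Proof: `Dk p 2 = X^2 - 2p`; and if
  `T = Dk p g = X^g + 2 c + 4 Q` (`c` odd integer) then `T^2 - 2p^g = X^(2g) + 4 c X^g + 4 c^2
  + 8 (...) - 2 p^g`, which is `X^(2g) - 2 p^g + 4 (...)`, `p^g` odd.  `coeff 1`: `Dk p n` is an
  even polynomial for even `n` (`Dk_parity`).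
* `Dk_parity`: `(Dk p n).coeff i = 0` if `i + n` is odd (two-step induction).
* `Dk_one`: for odd `n`: `(Dk p n).coeff 1` is odd (`p` odd): with `Dk p n (0) = 2 (...)` for even
  `n` (`coeff 0` of `Dk p n` is even for every `n`): `(Dk p (n+2)).coeff 1 = (Dk p (n+1)).coeff 0 -
  p (Dk p n).coeff 1`.
* `Dk_zero_even`: `(Dk p n).coeff 0` is even for all `n`.
-/

set_option autoImplicit false

namespace LIF

open Polynomial

private theorem Dick_zero (p : ℕ) : Dk p 0 = 2 := rfl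

private theorem Dick_one (p : ℕ) : Dk p 1 = X := rfl

private theorem Dick_succ (p n : ℕ) :
    Dk p (n + 2) = X * Dk p (n + 1) - C (p : ℤ) * Dk p n := rfl

private theorem Dick_coeff_succ (p n i : ℕ) :
    (Dk p (n + 2)).coeff (i + 1) = (Dk p (n + 1)).coeff i - p * (Dk p n).coeff (i + 1) := by
  rw [Dick_succ, coeff_sub, coeff_X_mul, coeff_C_mul]

private theorem Dick_coeff_zero (p n : ℕ) :
    (Dk p (n + 2)).coeff 0 = - (p * (Dk p n).coeff 0) := by
  rw [Dick_succ, coeff_sub, coeff_X_mul_zero, coeff_C_mul, zero_sub]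

private theorem Dick_deg (p : ℕ) : ∀ n : ℕ, ((Dk p (n + 1)).Monic ∧
    (Dk p (n + 1)).natDegree = n + 1) ∧ (Dk p n).natDegree ≤ n := by
  intro n
  induction n with
  | zero =>
    refine ⟨⟨monic_X, natDegree_X⟩, ?_⟩
    rw [Dick_zero]
    exact le_of_eq (natDegree_ofNat 2)
  | succ n ih =>
    obtain ⟨⟨h1, h2⟩, h3⟩ := ih
    have h4 : (X * Dk p (n + 1)).Monic := monic_X.mul h1
    have h5 : (X * Dk p (n + 1)).natDegree = n + 2 := by
      rw [monic_X.natDegree_mul h1, natDegree_X, h2]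
      omega
    have h6 : (C (p : ℤ) * Dk p n).natDegree < (X * Dk p (n + 1)).natDegree := by
      rw [h5]
      have h7 := natDegree_C_mul_le (p : ℤ) (Dk p n)
      omega
    refine ⟨⟨?_, ?_⟩, by rw [h2]⟩
    · rw [Dick_succ]
      exact h4.sub_of_left (degree_lt_degree h6)
    · rw [Dick_succ, natDegree_sub_eq_left_of_natDegree_lt h6, h5]

private theorem Dick_cassini (p : ℕ) : ∀ n : ℕ, Dk p n * Dk p (n + 2) =
    Dk p (n + 1) ^ 2 + C ((p : ℤ) ^ n) * (X ^ 2 - 4 * C (p : ℤ)) := by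
  intro n
  induction n with
  | zero =>
    rw [Dick_succ, Dick_zero, Dick_one, pow_zero, C_1]
    ring
  | succ n ih =>
    have e1 : Dk p (n + 1 + 2) = X * Dk p (n + 2) - C (p : ℤ) * Dk p (n + 1) := rfl
    have e2 : Dk p (n + 1 + 1) = Dk p (n + 2) := rfl
    have e3 := Dick_succ p n
    rw [e1, e2, pow_succ (p : ℤ) n, C_mul]
    have e4 : Dk p (n + 1) * (X * Dk p (n + 2) - C (p : ℤ) * Dk p (n + 1)) =
        Dk p (n + 2) * (X * Dk p (n + 1)) - C (p : ℤ) * Dk p (n + 1) ^ 2 := by ring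
    have e5 : X * Dk p (n + 1) = Dk p (n + 2) + C (p : ℤ) * Dk p n := by
      rw [e3]
      ring
    rw [e4, e5]
    have e6 : Dk p (n + 2) * (Dk p (n + 2) + C (p : ℤ) * Dk p n) =
        Dk p (n + 2) ^ 2 + C (p : ℤ) * (Dk p n * Dk p (n + 2)) := by ring
    rw [e6, ih]
    ring

private theorem Dick_double (p : ℕ) : ∀ n : ℕ,
    Dk p (2 * n) = Dk p n ^ 2 - 2 * C ((p : ℤ) ^ n) ∧
    Dk p (2 * n + 1) = Dk p n * Dk p (n + 1) - C ((p : ℤ) ^ n) * X := by
  intro n
  induction n with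
  | zero =>
    rw [Nat.mul_zero, Nat.zero_add, Dick_zero, Dick_one, pow_zero, C_1]
    constructor <;> ring
  | succ n ih =>
    obtain ⟨h1, h2⟩ := ih
    have e1 : Dk p (2 * (n + 1)) = X * Dk p (2 * n + 1) - C (p : ℤ) * Dk p (2 * n) := rfl
    have e2 : Dk p (2 * (n + 1) + 1) = X * Dk p (2 * (n + 1)) - C (p : ℤ) * Dk p (2 * n + 1) := rfl
    have e3 := Dick_succ p n
    have e4 := Dick_cassini p n
    have e5 : Dk p (n + 1 + 1) = Dk p (n + 2) := rfl
    have h3 : Dk p (2 * (n + 1)) = Dk p (n + 1) ^ 2 - 2 * C ((p : ℤ) ^ (n + 1)) := by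
      rw [e1, h1, h2, pow_succ (p : ℤ) n, C_mul]
      rw [e3] at e4
      linear_combination e4
    refine ⟨h3, ?_⟩
    rw [e2, h3, h2, e5, e3, pow_succ (p : ℤ) n, C_mul]
    ring

theorem Dk_eval {E : Type*} [Field E] (p n : ℕ) {x : E} (hx : x ≠ 0) :
    ((Dk p n).map (Int.castRingHom E)).eval (x + (p : E) / x) = x ^ n + ((p : E) / x) ^ n := by
  have hxy : x * ((p : E) / x) = p := by
    field_simp
  obtain ⟨y, hy⟩ : ∃ y, y = (p : E) / x := ⟨_, rfl⟩
  rw [← hy] at hxy ⊢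
  have key : ∀ n : ℕ, ((Dk p n).map (Int.castRingHom E)).eval (x + y) = x ^ n + y ^ n ∧
      ((Dk p (n + 1)).map (Int.castRingHom E)).eval (x + y) = x ^ (n + 1) + y ^ (n + 1) := by
    intro n
    induction n with
    | zero =>
      constructor
      · rw [Dick_zero, Polynomial.map_ofNat, eval_ofNat, pow_zero, pow_zero]
        norm_num
      · rw [Dick_one, map_X, eval_X, pow_one, pow_one]
    | succ n ih =>
      refine ⟨ih.2, ?_⟩
      have e1 : Dk p (n + 1 + 1) = X * Dk p (n + 1) - C (p : ℤ) * Dk p n := rfl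
      rw [e1, Polynomial.map_sub, Polynomial.map_mul, Polynomial.map_mul, map_X, map_C,
        eval_sub, eval_mul, eval_mul, eval_X, eval_C, ih.1, ih.2]
      have e2 : (Int.castRingHom E) (p : ℤ) = x * y := by
        rw [hxy]
        simp
      rw [e2]
      ring
  exact (key n).1

theorem Dk_monic (p : ℕ) {n : ℕ} (hn : 1 ≤ n) : (Dk p n).Monic ∧ (Dk p n).natDegree = n := by
  obtain ⟨m, rfl⟩ : ∃ m, n = m + 1 := ⟨n - 1, by omega⟩
  exact (Dick_deg p m).1

theorem Dk_parity (p n i : ℕ) (h : (i + n) % 2 = 1) : (Dk p n).coeff i = 0 := by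
  have key : ∀ n : ℕ, (∀ i : ℕ, (i + n) % 2 = 1 → (Dk p n).coeff i = 0) ∧
      (∀ i : ℕ, (i + (n + 1)) % 2 = 1 → (Dk p (n + 1)).coeff i = 0) := by
    intro n
    induction n with
    | zero =>
      constructor
      · intro i hi
        have e2 : (2 : ℤ[X]) = C 2 := rfl
        rw [Dick_zero, e2, coeff_C]
        exact if_neg (by omega)
      · intro i hi
        rw [Dick_one, coeff_X]
        exact if_neg (by omega)
    | succ n ih =>
      refine ⟨ih.2, ?_⟩
      intro i hi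
      rcases i with _ | i
      · rw [Dick_coeff_zero, ih.1 0 (by omega), mul_zero, neg_zero]
      · rw [Dick_coeff_succ, ih.2 i (by omega), ih.1 (i + 1) (by omega), mul_zero, sub_zero]
  exact (key n).1 i h

theorem Dk_double (p n : ℕ) : Dk p (2 * n) = (Dk p n) ^ 2 - C (2 * (p : ℤ) ^ n) := by
  rw [(Dick_double p n).1, C_mul]
  rfl

theorem Dk_pow (p : ℕ) (hp : p % 2 = 1) {k : ℕ} (hk : 1 ≤ k) :
    (Dk p (2 ^ k)).coeff 0 % 4 = 2 ∧ ∀ i, 1 ≤ i → i < 2 ^ k → (4 : ℤ) ∣ (Dk p (2 ^ k)).coeff i := by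
  have key : ∃ (c : ℤ) (Q : ℤ[X]), c % 2 = 1 ∧ Dk p (2 ^ k) = X ^ (2 ^ k) + C (2 * c) + C 4 * Q := by
    induction k, hk using Nat.le_induction with
    | base =>
      refine ⟨-p, 0, by omega, ?_⟩
      have e1 : Dk p (2 ^ 1) = X * Dk p 1 - C (p : ℤ) * Dk p 0 := rfl
      rw [e1, Dick_one, Dick_zero]
      simp only [C_mul, C_neg, C_ofNat, mul_zero, add_zero, pow_one]
      ring
    | succ k hk ih =>
      obtain ⟨c, Q, hc, hQ⟩ := ih
      refine ⟨-(p : ℤ) ^ (2 ^ k), C (c ^ 2) + 4 * Q ^ 2 + C c * X ^ (2 ^ k) + 2 * Q * X ^ (2 ^ k)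
        + 4 * C c * Q, ?_, ?_⟩
      · have h1 : Odd ((p : ℤ) ^ (2 ^ k)) := by
          apply Odd.pow
          rw [Int.odd_iff]
          omega
        have h2 := h1.neg
        rwa [Int.odd_iff] at h2
      · have e1 : 2 ^ (k + 1) = 2 * 2 ^ k := by ring
        rw [e1, (Dick_double p (2 ^ k)).1, hQ]
        simp only [C_mul, C_neg, C_pow, C_ofNat]
        ring
  obtain ⟨c, Q, hc, hQ⟩ := key
  have hpos : 0 < 2 ^ k := pow_pos (by norm_num) k
  rw [hQ]
  constructor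
  · rw [coeff_add, coeff_add, coeff_X_pow, if_neg (by omega), coeff_C_zero, coeff_C_mul]
    omega
  · intro i h1 h2
    rw [coeff_add, coeff_add, coeff_X_pow, if_neg (by omega), coeff_C, if_neg (by omega),
      coeff_C_mul, zero_add, zero_add]
    exact dvd_mul_right _ _

theorem Dk_zero_even (p n : ℕ) : (2 : ℤ) ∣ (Dk p n).coeff 0 := by
  have key : ∀ n : ℕ, (2 : ℤ) ∣ (Dk p n).coeff 0 ∧ (2 : ℤ) ∣ (Dk p (n + 1)).coeff 0 := by
    intro n
    induction n with
    | zero =>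
      constructor
      · rw [Dick_zero, coeff_ofNat_zero]
      · rw [Dick_one, coeff_X_zero]
        exact dvd_zero _
    | succ n ih =>
      refine ⟨ih.2, ?_⟩
      rw [Dick_coeff_zero]
      exact (dvd_neg).2 (ih.1.mul_left _)
  exact (key n).1

theorem Dk_one (p : ℕ) (hp : p % 2 = 1) {n : ℕ} (hn : n % 2 = 1) :
    (Dk p n).coeff 1 % 2 = 1 := by
  obtain ⟨m, rfl⟩ : ∃ m, n = 2 * m + 1 := ⟨n / 2, by omega⟩
  clear hn
  induction m with
  | zero =>
    have e : Dk p (2 * 0 + 1) = X := rfl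
    rw [e, coeff_X_one]
    rfl
  | succ m ih =>
    have e : (Dk p (2 * (m + 1) + 1)).coeff 1 = (Dk p (2 * m + 1 + 1)).coeff 0 -
        p * (Dk p (2 * m + 1)).coeff 1 := Dick_coeff_succ p (2 * m + 1) 0
    rw [e]
    have h1 := Dk_zero_even p (2 * m + 1 + 1)
    have h2 : Odd ((p : ℤ) * (Dk p (2 * m + 1)).coeff 1) := by
      apply Odd.mul
      · rw [Int.odd_iff]
        omega
      · rwa [Int.odd_iff]
    rw [Int.odd_iff] at h2
    omega

end LIF
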