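import Pool.Agent.helper1.GLI.AVal

/-!
[GLI-Eps] Orientation of the roots at a place above `2` (imports the stub `AVal`).

`g = 2^k`; `f = X^(2g) + p^g + 4 s(X)`, `s ∈ ℤ[X]` (`four`; `f.coeff 0 = p^g` from `fe` with `d = 0`).
* for a root `α`: `α^(2g) = - p^g - 4 s(α)`.
* for roots `α, α'`: `(α^g - α'^g)(α^g + α'^g) = -4 (s(α) - s(α'))` and
  `v(s(α) - s(α')) ≤ v(α - α') < 1` (`α, α'` integral, `v(α - 1) < 1` because `v(α-1)^(2g) = v(2) < 1`
  by `two_ad`; `s(α) - s(α') = (α - α') *` integral element: `Polynomial.sub_dvd_eval_sub`, or from the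
  expansion `α^j - α'^j = (α - α') ∑ ...`).  So
  `v(α^g - α'^g) v(α^g + α'^g) < v(4) = v(2)^2`, hence one of the two is `< v(2)`.
* opposite: `(p/α)^g + α^g = (p^g + α^(2g))/α^g = -4 s(α)/α^g`, `v ≤ v(4) < v(2)` (`v(α) = 1`).
  This is `opp` for every choice of the `b_i`.
* `exists_orient`: let `i0` be the first index; put `b_i = a_i` if `v(a_i^g - a_(i0)^g) < v(2)`,
  otherwise `b_i = p/a_i`; in the second case `v(a_i^g + a_(i0)^g) < v(2)`, and
  `b_i^g - a_(i0)^g = ((p/a_i)^g + a_i^g) - (a_i^g + a_(i0)^g)`, so `v < v(2)`.  So all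
  `v(b_i^g - a_(i0)^g) < v(2)` (`b_(i0) = a_(i0)` as `v(0) = 0 < v(2)`), and `same` follows by
  subtraction.
* `spl_swap`: `Spl p f b` for such `b` (each factor is symmetric, `p/(p/a_i) = a_i`).
-/

set_option autoImplicit false

namespace LIF

open Polynomial

private theorem Eps_cast {E : Type*} [Field E] (A : ValuationSubring E) (s : ℤ[X]) (x : A) :
    ((eval x (s.map (Int.castRingHom A)) : A) : E) = eval (x : E) (s.map (Int.castRingHom E)) := by
  rw [eval_map, eval_map]
  have h1 := Polynomial.hom_eval₂ s (Int.castRingHom A) A.subtype x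
  have h2 : A.subtype.comp (Int.castRingHom A) = Int.castRingHom E := RingHom.ext_int _ _
  rw [h2] at h1
  exact h1

private theorem Eps_int {E : Type*} [Field E] (A : ValuationSubring E) (s : ℤ[X]) {x : E}
    (hx : A.valuation x ≤ 1) : A.valuation (eval x (s.map (Int.castRingHom E))) ≤ 1 := by
  have h1 := Eps_cast A s ⟨x, (A.valuation_le_one_iff x).1 hx⟩
  rw [A.valuation_le_one_iff, ← h1]
  exact Subtype.property _

private theorem Eps_lip {E : Type*} [Field E] (A : ValuationSubring E) (s : ℤ[X]) {x y : E}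
    (hx : A.valuation x ≤ 1) (hy : A.valuation y ≤ 1) :
    A.valuation (eval x (s.map (Int.castRingHom E)) - eval y (s.map (Int.castRingHom E))) ≤
      A.valuation (x - y) := by
  set x' : A := ⟨x, (A.valuation_le_one_iff x).1 hx⟩
  set y' : A := ⟨y, (A.valuation_le_one_iff y).1 hy⟩
  obtain ⟨q, hq⟩ := Polynomial.sub_dvd_eval_sub x' y' (s.map (Int.castRingHom A))
  have h1 := congrArg (fun z : A => (z : E)) hq
  simp only [A.coe_sub, A.coe_mul, Eps_cast] at h1
  have h2 : eval x (s.map (Int.castRingHom E)) - eval y (s.map (Int.castRingHom E)) =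
      (x - y) * q := h1
  rw [h2, map_mul]
  exact mul_le_of_le_one_right' (A.valuation_le_one q)

private theorem Eps_expand {p k : ℕ} {f : ℤ[X]} (h : GoodF p k f) :
    ∃ s : ℤ[X], f = X ^ (2 * 2 ^ k) + C ((p : ℤ) ^ (2 ^ k)) + C 4 * s := by
  have h1 : C 4 ∣ f - X ^ (2 * 2 ^ k) - C ((p : ℤ) ^ (2 ^ k)) := by
    rw [C_dvd_iff_dvd_coeff]
    intro i
    rw [coeff_sub, coeff_sub, coeff_X_pow, coeff_C]
    have hk : 0 < 2 ^ k := by positivity
    have hlead : f.coeff (2 * 2 ^ k) = 1 := by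
      rw [← h.deg]
      exact h.mon
    rcases Nat.eq_zero_or_pos i with rfl | hi
    · have h2 := h.fe 0 (Nat.zero_le _)
      rw [Nat.sub_zero, Nat.sub_zero, hlead, mul_one] at h2
      rw [if_neg (by omega), if_pos rfl, h2]
      simp
    · rcases lt_trichotomy i (2 * 2 ^ k) with h3 | h3 | h3
      · rw [if_neg (by omega), if_neg (by omega), sub_zero, sub_zero]
        exact h.four i hi h3
      · rw [if_pos h3, if_neg (by omega), h3, hlead]
        simp
      · rw [if_neg (by omega), if_neg (by omega), coeff_eq_zero_of_natDegree_lt (by rw [h.deg]; exact h3)]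
        simp
  obtain ⟨s, hs⟩ := h1
  exact ⟨s, by rw [← hs]; ring⟩

private theorem Eps_root {p k : ℕ} {f : ℤ[X]} {E : Type*} [Field E] {s : ℤ[X]}
    (hf : f = X ^ (2 * 2 ^ k) + C ((p : ℤ) ^ (2 ^ k)) + C 4 * s) {x : E}
    (hx : eval x (f.map (Int.castRingHom E)) = 0) :
    x ^ (2 * 2 ^ k) = - (p : E) ^ (2 ^ k) - 4 * eval x (s.map (Int.castRingHom E)) := by
  rw [hf] at hx
  simp only [Polynomial.map_add, Polynomial.map_mul, Polynomial.map_pow, map_X, map_C, eval_add,
    eval_mul, eval_pow, eval_X, eval_C] at hx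
  simp only [eq_intCast, Int.cast_pow, Int.cast_natCast, Int.cast_ofNat] at hx
  linear_combination hx

private theorem Eps_eval {p k : ℕ} {f : ℤ[X]} {E : Type*} [Field E]
    {a : Fin (2 ^ k) → E} (hs : Spl p f a) (i : Fin (2 ^ k)) :
    eval (a i) (f.map (Int.castRingHom E)) = 0 ∧
      eval ((p : E) / a i) (f.map (Int.castRingHom E)) = 0 := by
  unfold Spl at hs
  rw [hs, eval_prod, eval_prod]
  constructor
  · exact Finset.prod_eq_zero (Finset.mem_univ i) (by simp)
  · exact Finset.prod_eq_zero (Finset.mem_univ i) (by simp)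

private theorem Eps_key {p k : ℕ} {f : ℤ[X]} (h : GoodF p k f) {E : Type*} [Field E] [CharZero E]
    (A : ValuationSubring E) {x y : E}
    (hx : eval x (f.map (Int.castRingHom E)) = 0) (hy : eval y (f.map (Int.castRingHom E)) = 0)
    (vx : A.valuation x ≤ 1) (vy : A.valuation y ≤ 1) (vxy : A.valuation (x - y) < 1) :
    A.valuation (x ^ (2 ^ k) - y ^ (2 ^ k)) < A.valuation (2 : E) ∨
      A.valuation (x ^ (2 ^ k) + y ^ (2 ^ k)) < A.valuation (2 : E) := by
  obtain ⟨s, hf⟩ := Eps_expand h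
  have h20 : A.valuation (2 : E) ≠ 0 := by
    rw [Valuation.ne_zero_iff]
    exact two_ne_zero
  have h1 : (x ^ (2 ^ k) - y ^ (2 ^ k)) * (x ^ (2 ^ k) + y ^ (2 ^ k)) =
      - (2 * 2 * (eval x (s.map (Int.castRingHom E)) - eval y (s.map (Int.castRingHom E)))) := by
    have h3 := Eps_root hf hx
    have h4 := Eps_root hf hy
    rw [mul_comm 2, pow_mul] at h3 h4
    linear_combination h3 - h4
  have h2 := congrArg A.valuation h1
  rw [Valuation.map_neg, map_mul, map_mul, map_mul] at h2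
  have h3 := lt_of_le_of_lt (Eps_lip A s vx vy) vxy
  by_contra hcon
  rw [not_or, not_lt, not_lt] at hcon
  have h4 := mul_le_mul' hcon.1 hcon.2
  rw [h2] at h4
  have h5 : A.valuation (2 : E) * A.valuation (2 : E) *
      A.valuation (eval x (s.map (Int.castRingHom E)) - eval y (s.map (Int.castRingHom E))) <
      A.valuation (2 : E) * A.valuation (2 : E) :=
    mul_lt_of_lt_one_right (zero_lt_iff.2 (mul_ne_zero h20 h20)) h3
  exact absurd h4 (not_le.2 h5)

private theorem Eps_opp {p k : ℕ} {f : ℤ[X]} (h : GoodF p k f) {E : Type*} [Field E] [CharZero E]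
    (A : ValuationSubring E) (h2 : A.valuation (2 : E) < 1) {x : E}
    (hx : eval x (f.map (Int.castRingHom E)) = 0) (vx : A.valuation x = 1) :
    A.valuation (((p : E) / x) ^ (2 ^ k) + x ^ (2 ^ k)) < A.valuation (2 : E) := by
  obtain ⟨s, hf⟩ := Eps_expand h
  have h20 : A.valuation (2 : E) ≠ 0 := by
    rw [Valuation.ne_zero_iff]
    exact two_ne_zero
  have hx0 : x ≠ 0 := by
    rintro rfl
    rw [map_zero] at vx
    exact zero_ne_one vx
  have h3 := Eps_root hf hx
  rw [mul_comm 2, pow_mul] at h3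
  have h1 : x ^ (2 ^ k) * (((p : E) / x) ^ (2 ^ k) + x ^ (2 ^ k)) =
      - (2 * (2 * eval x (s.map (Int.castRingHom E)))) := by
    rw [div_pow, mul_add, mul_div_cancel₀ _ (pow_ne_zero _ hx0)]
    linear_combination h3
  have h4 := congrArg A.valuation h1
  rw [Valuation.map_neg, map_mul, map_mul, map_mul, map_pow, vx, one_pow, one_mul] at h4
  rw [h4]
  exact mul_lt_of_lt_one_right (zero_lt_iff.2 h20)
    (lt_of_le_of_lt (mul_le_of_le_one_right' (Eps_int A s vx.le)) h2)

private theorem Eps_one {E : Type*} [Field E] (A : ValuationSubring E)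
    (h2 : A.valuation (2 : E) < 1) {n : ℕ} {x : E}
    (hx : A.valuation (x - 1) ^ n = A.valuation (2 : E)) : A.valuation (x - 1) < 1 := by
  by_contra hcon
  rw [not_lt] at hcon
  have h3 := one_le_pow_of_one_le' hcon n
  rw [hx] at h3
  exact absurd h3 (not_le.2 h2)

private theorem Eps_sub {E : Type*} [Field E] (A : ValuationSubring E) {x y z : E}
    {r : A.ValueGroup} (hx : A.valuation (x - z) < r) (hy : A.valuation (y - z) < r) :
    A.valuation (x - y) < r := by
  have h1 : x - y = (x - z) - (y - z) := by ring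
  rw [h1]
  exact lt_of_le_of_lt (Valuation.map_sub _ _ _) (max_lt hx hy)

theorem spl_swap {p k : ℕ} {f : ℤ[X]} {E : Type*} [Field E] {a b : Fin (2 ^ k) → E}
    (ha : ∀ i, a i ≠ 0) (hp : (p : E) ≠ 0) (hs : Spl p f a)
    (hb : ∀ i, b i = a i ∨ b i = (p : E) / a i) : Spl p f b := by
  unfold Spl at hs ⊢
  rw [hs]
  apply Finset.prod_congr rfl
  intro i _
  rcases hb i with h | h
  · rw [h]
  · have h1 : (p : E) / (p / a i) = a i := by
      have := ha i
      field_simp
    rw [h, h1, mul_comm]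

theorem exists_orient {p k : ℕ} {f : ℤ[X]} (h : GoodF p k f) {E : Type*} [Field E] [CharZero E]
    {a : Fin (2 ^ k) → E} (hs : Spl p f a) (A : ValuationSubring E)
    (h2 : A.valuation (2 : E) < 1) :
    ∃ b : Fin (2 ^ k) → E, (∀ i, b i = a i ∨ b i = (p : E) / a i) ∧ Orient p k A b := by
  classical
  have hT := two_ad h hs A h2
  have hk : 0 < 2 ^ k := by positivity
  have h20 : A.valuation (2 : E) ≠ 0 := by
    rw [Valuation.ne_zero_iff]
    exact two_ne_zero
  set i0 : Fin (2 ^ k) := ⟨0, hk⟩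
  have hv : ∀ i, A.valuation (a i) = 1 := fun i => (val_unit h hs A h2 i).1
  have hv' : ∀ i, A.valuation ((p : E) / a i) = 1 := fun i => (val_unit h hs A h2 i).2
  have ha0 : ∀ i, a i ≠ 0 := by
    intro i hi
    have h3 := hv i
    rw [hi, map_zero] at h3
    exact zero_ne_one h3
  have hp0 : (p : E) ≠ 0 := by
    intro hi
    have h3 := hv' i0
    rw [hi, zero_div, map_zero] at h3
    exact zero_ne_one h3
  have hb : ∀ i, ∃ b : E, (b = a i ∨ b = (p : E) / a i) ∧
      A.valuation (b ^ (2 ^ k) - a i0 ^ (2 ^ k)) < A.valuation (2 : E) := by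
    intro i
    have h3 := Eps_key h A (Eps_eval hs i).1 (Eps_eval hs i0).1 (hv i).le (hv i0).le
      (Eps_sub A (Eps_one A h2 (hT.al i)) (Eps_one A h2 (hT.al i0)))
    rcases h3 with h3 | h3
    · exact ⟨a i, Or.inl rfl, h3⟩
    · refine ⟨(p : E) / a i, Or.inr rfl, ?_⟩
      have h4 := Eps_opp h A h2 (Eps_eval hs i).1 (hv i)
      have h5 : ((p : E) / a i) ^ (2 ^ k) - a i0 ^ (2 ^ k) =
          (((p : E) / a i) ^ (2 ^ k) + a i ^ (2 ^ k)) - (a i ^ (2 ^ k) + a i0 ^ (2 ^ k)) := by
        ring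
      rw [h5]
      exact lt_of_le_of_lt (Valuation.map_sub _ _ _) (max_lt h4 h3)
  choose b hb1 hb2 using hb
  refine ⟨b, hb1, fun i j => Eps_sub A (hb2 i) (hb2 j), fun i => ?_⟩
  have h4 := Eps_opp h A h2 (Eps_eval hs i).1 (hv i)
  rcases hb1 i with h3 | h3
  · rw [h3]
    exact h4
  · have h1 : (p : E) / (p / a i) = a i := by
      have := ha0 i
      field_simp
    rw [h3, h1, add_comm]
    exact h4

end LIF
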