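import Pool.Agent.helper1.GLI.Grand
import Pool.Agent.helper1.GLI.Base3
import Pool.Agent.helper1.GLI.Base7
import Pool.Agent.helper1.LI.Top
import Pool.Agent.helper1.LI.Top7

/-!
[GLI-Fam] The two explicit families (assembly).
-/

set_option autoImplicit false

namespace LIF

open Polynomial

theorem hq3 (k : ℕ) : hq (-1 : ZMod 3) (2 ^ k) = X ^ (2 * 2 ^ k) - X ^ (2 ^ k) - 1 := by
  rw [hq, C_neg, C_1]
  ring

theorem hq7 (k : ℕ) : hq (3 : ZMod 7) (2 ^ k) = X ^ (2 * 2 ^ k) + 3 * X ^ (2 ^ k) - 1 := by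
  rw [hq, show (C 3 : (ZMod 7)[X]) = 3 from map_ofNat C 3]

theorem goodhq3 (k : ℕ) : Good 3 (2 ^ k) (hq (-1 : ZMod 3) (2 ^ k)) := by
  rw [hq3]
  exact good3 k

theorem goodhq7 [Fact (Nat.Prime 7)] (k : ℕ) : Good 7 (2 ^ k) (hq (3 : ZMod 7) (2 ^ k)) := by
  rw [hq7]
  exact good7 k

theorem base3 [Fact (Nat.Prime 3)] (γ : AlgebraicClosure (ZMod 3))
    (h : aeval γ (hq (-1 : ZMod 3) 4) = 0) : Lam 3 4 γ = 1 := by
  have h1 := lam_two (p := 3) (by norm_num) (s := -1) (goodhq3 2) (goodhq3 0) h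
  rw [base3_kappa h, base3_b h, base3_lam h] at h1
  rw [h1]
  norm_num

theorem base7 [Fact (Nat.Prime 7)] (γ : AlgebraicClosure (ZMod 7))
    (h : aeval γ (hq (3 : ZMod 7) 4) = 0) : Lam 7 4 γ = 1 := by
  have h1 := lam_two (p := 7) (by norm_num) (s := 3) (goodhq7 2) (goodhq7 0) h
  rw [base7_kappa h, base7_b h, base7_lam h] at h1
  rw [h1]
  norm_num

theorem hw3 {k : ℕ} (hk : k % 6 = 3 ∨ k % 6 = 5) :
    (HW 3 (2 ^ k) (Dp (hq (-1 : ZMod 3) (2 ^ k)))).charpoly.coeff 0 = 0 ∧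
      (HW 3 (2 ^ k) (Dp (hq (-1 : ZMod 3) (2 ^ k)))).charpoly.coeff 1 ≠ 0 := by
  rw [hq3]
  have h9 := pow2_mod9 hk
  obtain ⟨n, hn⟩ : ∃ n, 2 ^ k = 3 * n + 2 := ⟨2 ^ k / 3, by omega⟩
  have h3 : ¬ 3 ∣ n := by omega
  exact simple_zero (A3 (2 ^ k)) (fun _ => 1) (wt3 n (2 ^ k)) (ker3_mul hn)
    (by
      intro h
      have : (0 : ℕ) < 2 ^ k := by positivity
      have := congrFun h ⟨0, this⟩
      simp at this)
    (by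
      intro u hu
      obtain ⟨c, hc⟩ := ker3_eq hn u hu
      exact ⟨c, by rw [hc]; funext i; simp⟩)
    (ker3_left hn) (ker3_pair hn h3)

theorem hw7 {k : ℕ} [Fact (Nat.Prime 7)]
    (hk : k % 21 ∈ ({2, 4, 5, 7, 10, 13, 14, 16, 17, 19, 20} : Finset ℕ)) :
    (HW 7 (2 ^ k) (Dp (hq (3 : ZMod 7) (2 ^ k)))).charpoly.coeff 0 = 0 ∧
      (HW 7 (2 ^ k) (Dp (hq (3 : ZMod 7) (2 ^ k)))).charpoly.coeff 1 ≠ 0 := by
  rw [hq7]
  have h49 := pow2_mod49 k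
  have hcases : (2 ^ k % 7 = 2 ∧ 2 ^ k % 49 ≠ 2) ∨
      (2 ^ k % 7 = 4 ∧ 2 ^ k % 49 ≠ 11 ∧ 2 ^ k % 49 ≠ 39) := by
    simp only [Finset.mem_insert, Finset.mem_singleton] at hk
    rcases hk with h | h | h | h | h | h | h | h | h | h | h <;>
      (rw [h] at h49; norm_num at h49; omega)
  rcases hcases with ⟨h2, h3⟩ | ⟨h4, h5, h6⟩
  · obtain ⟨n, hn⟩ : ∃ n, 2 ^ k = 7 * n + 2 := ⟨2 ^ k / 7, by omega⟩
    have hn7 : ¬ 7 ∣ n := by omega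
    have hn1 : 1 ≤ n := by
      rcases Nat.eq_zero_or_pos n with h | h
      · exact absurd (h ▸ dvd_zero 7) hn7
      · exact h
    refine simple_zero' (A7 (2 ^ k))
      (fun j : Fin (2 ^ k) => (((j : ℕ) : ZMod 7) * (((j : ℕ) : ZMod 7) - 2))) (wa (2 ^ k))
      ?_ (left7a hn1 hn) (pair7a hn1 hn hn7)
    intro u hu
    obtain ⟨t, ht⟩ := ker7a hn1 hn u hu
    exact ⟨t, by rw [ht]; rfl⟩
  · obtain ⟨n, hn⟩ : ∃ n, 2 ^ k = 7 * n + 4 := ⟨2 ^ k / 7, by omega⟩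
    refine simple_zero' (A7 (2 ^ k))
      (fun j : Fin (2 ^ k) => (((j : ℕ) : ZMod 7) ^ 2 + 1)) (wb (2 ^ k))
      ?_ (left7b hn) (pair7b hn (by omega) (by omega))
    intro u hu
    obtain ⟨t, ht⟩ := ker7b hn u hu
    exact ⟨t, by rw [ht]; rfl⟩

theorem grand3 {a : ℕ} (ha : 1 ≤ a) : ∃ φ : (k : ℕ) → Fin (2 ^ k) → ℝ,
      (∀ k, (k % 6 = 3 ∨ k % 6 = 5) → StrictMono (φ k) ∧ (∀ i, 0 < φ k i ∧ φ k i < Real.pi) ∧
        ∀ m : ℕ, 1 ≤ m →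
        (Nat.card {z : GaloisField 3 (a * m) × GaloisField 3 (a * m) //
          z.2 ^ 2 = aeval z.1 (Dp (hq (-1 : ZMod 3) (2 ^ k)))} : ℝ) =
        ((3 : ℕ) : ℝ) ^ (a * m) -
          ∑ i, 2 * (Real.sqrt (((3 : ℕ) : ℝ) ^ a)) ^ m * Real.cos (m * φ k i)) ∧
      LinearIndependent ℚ (jfam (fun k => k % 6 = 3 ∨ k % 6 = 5) φ) :=
  grand (p := 3) (by norm_num) goodhq3 base3 (fun k hk => ⟨by omega, hw3 hk⟩) ha

theorem grand7 [Fact (Nat.Prime 7)] {a : ℕ} (ha : 1 ≤ a) : ∃ φ : (k : ℕ) → Fin (2 ^ k) → ℝ,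
      (∀ k, k % 21 ∈ ({2, 4, 5, 7, 10, 13, 14, 16, 17, 19, 20} : Finset ℕ) →
        StrictMono (φ k) ∧ (∀ i, 0 < φ k i ∧ φ k i < Real.pi) ∧
        ∀ m : ℕ, 1 ≤ m →
        (Nat.card {z : GaloisField 7 (a * m) × GaloisField 7 (a * m) //
          z.2 ^ 2 = aeval z.1 (Dp (hq (3 : ZMod 7) (2 ^ k)))} : ℝ) =
        ((7 : ℕ) : ℝ) ^ (a * m) -
          ∑ i, 2 * (Real.sqrt (((7 : ℕ) : ℝ) ^ a)) ^ m * Real.cos (m * φ k i)) ∧
      LinearIndependent ℚ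
        (jfam (fun k => k % 21 ∈ ({2, 4, 5, 7, 10, 13, 14, 16, 17, 19, 20} : Finset ℕ)) φ) :=
  grand (p := 7) (by norm_num) goodhq7 base7 (fun k hk => ⟨by
    simp only [Finset.mem_insert, Finset.mem_singleton] at hk
    omega, hw7 hk⟩) ha

end LIF
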