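import Pool.Agent.helper1.GLI.Joint

/-!
[GLI-JC] The complex version (imports the stub `Joint`).

Proof: exactly as `gal_core` / the first half of `gal_core_aux` in `LI/Gal.lean`:
`E = AlgebraicClosure ℚ` (with `letI : Algebra ℚ (AlgebraicClosure ℚ) :=
AlgebraicClosure.instAlgebra ℚ`, see `gal_core`), `ι = IsAlgClosed.lift : E →ₐ[ℚ] ℂ`.  For `k ∈ T`
each `α k i` is `ι (a k i)` for some `a k i ∈ E` (`f k` splits in `E`); for `k ∉ T` choose
`a k i = 0` or anything (use `choose` with `∀ k i, ∃ a, k ∈ T → ι a = α k i`).  `Spl p (f k) (a k)` and the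
relation in `E` follow by injectivity of `ι`.  `joint_core` gives the claim.
-/

set_option autoImplicit false

namespace LIF

open Polynomial

private theorem JC_spl {E : Type*} [Field E] [Algebra ℚ E] [IsAlgClosed E] (ι : E →ₐ[ℚ] ℂ)
    {p g : ℕ} {f : ℤ[X]} (hm : f.Monic) (α : Fin g → ℂ)
    (hα : f.map (Int.castRingHom ℂ) = ∏ i, ((X - C (α i)) * (X - C ((p : ℂ) / α i)))) :
    ∃ a : Fin g → E, (∀ i, ι (a i) = α i) ∧ Spl p f a := by
  classical
  have hιinj : Function.Injective ι := ι.toRingHom.injective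
  have hmapι : (f.map (Int.castRingHom E)).map (ι : E →+* ℂ) = f.map (Int.castRingHom ℂ) := by
    rw [Polynomial.map_map]
    congr 1
    exact RingHom.ext_int _ _
  have hsplit : (f.map (Int.castRingHom E)).Splits := IsAlgClosed.splits _
  have hmE : (f.map (Int.castRingHom E)).Monic := hm.map _
  have hfE : f.map (Int.castRingHom E) =
      ((f.map (Int.castRingHom E)).roots.map fun x => X - C x).prod := by
    have h := hsplit.eq_prod_roots
    rw [hmE.leadingCoeff, C_1, one_mul] at h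
    exact h
  have hex : ∀ i, ∃ a : E, ι a = α i := by
    intro i
    have h1 : (f.map (Int.castRingHom ℂ)).eval (α i) = 0 := by
      rw [hα, eval_prod]
      refine Finset.prod_eq_zero (Finset.mem_univ i) ?_
      simp
    rw [← hmapι, hfE, Polynomial.map_multiset_prod, eval_multiset_prod, Multiset.prod_eq_zero_iff,
      Multiset.mem_map] at h1
    obtain ⟨q, hq, hq0⟩ := h1
    rw [Multiset.mem_map] at hq
    obtain ⟨q', hq', rfl⟩ := hq
    rw [Multiset.mem_map] at hq'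
    obtain ⟨a, -, rfl⟩ := hq'
    refine ⟨a, ?_⟩
    simp only [Polynomial.map_sub, map_X, map_C, eval_sub, eval_X, eval_C] at hq0
    exact (sub_eq_zero.mp hq0).symm
  choose a ha using hex
  refine ⟨a, ha, ?_⟩
  unfold Spl
  apply Polynomial.map_injective (ι : E →+* ℂ) hιinj
  rw [hmapι, hα, Polynomial.map_prod]
  refine Finset.prod_congr rfl fun i _ => ?_
  rw [Polynomial.map_mul, Polynomial.map_sub, Polynomial.map_sub, map_X, map_C, map_C]
  have h1 : (ι : E →+* ℂ) (a i) = α i := ha i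
  have h2 : (ι : E →+* ℂ) ((p : E) / a i) = (p : ℂ) / α i := by
    rw [map_div₀, h1, map_natCast]
  rw [h1, h2]

private theorem JC_aux {E : Type*} [Field E] [CharZero E] [Algebra ℚ E] [IsAlgClosed E]
    [Algebra.IsAlgebraic ℚ E] [Normal ℚ E] (ι : E →ₐ[ℚ] ℂ) {p : ℕ} [Fact p.Prime] (T : Finset ℕ)
    (f : ℕ → ℤ[X]) (α : (k : ℕ) → Fin (2 ^ k) → ℂ) (h : ∀ k ∈ T, GoodF p k (f k))
    (hs : ∀ k ∈ T, (f k).map (Int.castRingHom ℂ) =
      ∏ i, ((X - C (α k i)) * (X - C ((p : ℂ) / α k i))))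
    (n : (k : ℕ) → Fin (2 ^ k) → ℤ)
    (hn : ∏ k ∈ T, ∏ i, (α k i ^ 2 / (p : ℂ)) ^ n k i = 1) : ∀ k ∈ T, ∀ i, n k i = 0 := by
  classical
  have hex : ∀ k : ℕ, ∃ a : Fin (2 ^ k) → E, k ∈ T → (∀ i, ι (a i) = α k i) ∧ Spl p (f k) a := by
    intro k
    by_cases hk : k ∈ T
    · obtain ⟨a, ha⟩ := JC_spl ι (h k hk).mon (α k) (hs k hk)
      exact ⟨a, fun _ => ha⟩
    · exact ⟨fun _ => 0, fun hk' => absurd hk' hk⟩
  choose a ha using hex
  refine joint_core ι T f a h (fun k hk => (ha k hk).2) n ?_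
  apply ι.toRingHom.injective
  show ι (∏ k ∈ T, ∏ i, (a k i ^ 2 / (p : E)) ^ n k i) = ι 1
  rw [map_prod, map_one, ← hn]
  refine Finset.prod_congr rfl fun k hk => ?_
  rw [map_prod]
  refine Finset.prod_congr rfl fun i _ => ?_
  rw [map_zpow₀, map_div₀, map_pow, (ha k hk).1, map_natCast]

theorem joint_complex {p : ℕ} [Fact p.Prime] (T : Finset ℕ) (f : ℕ → ℤ[X])
    (α : (k : ℕ) → Fin (2 ^ k) → ℂ) (h : ∀ k ∈ T, GoodF p k (f k))
    (hs : ∀ k ∈ T, (f k).map (Int.castRingHom ℂ) =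
      ∏ i, ((X - C (α k i)) * (X - C ((p : ℂ) / α k i))))
    (n : (k : ℕ) → Fin (2 ^ k) → ℤ)
    (hn : ∏ k ∈ T, ∏ i, (α k i ^ 2 / (p : ℂ)) ^ n k i = 1) : ∀ k ∈ T, ∀ i, n k i = 0 := by
  letI : Algebra ℚ (AlgebraicClosure ℚ) := AlgebraicClosure.instAlgebra ℚ
  haveI : Algebra.IsAlgebraic ℚ (AlgebraicClosure ℚ) := AlgebraicClosure.isAlgebraic ℚ
  exact JC_aux (E := AlgebraicClosure ℚ) IsAlgClosed.lift T f α h hs n hn

end LIF
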