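import Pool.Agent.helper1.GLI.JAng
import Pool.Agent.helper1.LI.Base

/-!
[GLI-JOver] Extension of the base field for the whole family (imports the stub `JAng`; adapt
`licurve_over` in `LI/Base.lean`).

Proof.  `φ k i = arccos (cos (a θ_(k,i)))`, `φ k i = 2 m π ± a θ_(k,i)` (`Real.cos_eq_cos_iff`), so by
`jbase` `jfam P φ` is linearly independent.  So for `k ∈ P` the `φ k i` are distinct and different
from `0` and `π` (`LinearIndependent.injective`, `.ne_zero`), they lie in `[0, π]`.  Put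
`φ' k = φ k ∘ Tuple.sort (φ k)`; the counting formula as in `licurve_over`
(`cos (m φ) = cos (a m θ)`, `(√p)^(a m) = (√(p^a))^m`), the family `jfam P φ'` is the
composition of `jfam P φ` with an injective (bijective) map of the index type
`some ⟨k, i⟩ ↦ some ⟨k, Tuple.sort (φ k) i⟩`, `none ↦ none`.
-/

set_option autoImplicit false

namespace LIF

open Polynomial

theorem jover {p : ℕ} [Fact p.Prime] {P : ℕ → Prop} {D : ℕ → (ZMod p)[X]} {a : ℕ} (ha : 1 ≤ a)
    (θ : (k : ℕ) → Fin (2 ^ k) → ℝ)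
    (hcard : ∀ k, P k → ∀ m : ℕ, 1 ≤ m →
      (Nat.card {z : GaloisField p m × GaloisField p m // z.2 ^ 2 = aeval z.1 (D k)} : ℝ) =
        (p : ℝ) ^ m - ∑ i, 2 * (Real.sqrt p) ^ m * Real.cos (m * θ k i))
    (hli : LinearIndependent ℚ (jfam P θ)) :
    ∃ φ : (k : ℕ) → Fin (2 ^ k) → ℝ,
      (∀ k, P k → StrictMono (φ k) ∧ (∀ i, 0 < φ k i ∧ φ k i < Real.pi) ∧
        ∀ m : ℕ, 1 ≤ m →
        (Nat.card {z : GaloisField p (a * m) × GaloisField p (a * m) //
          z.2 ^ 2 = aeval z.1 (D k)} : ℝ) =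
        (p : ℝ) ^ (a * m) -
          ∑ i, 2 * (Real.sqrt ((p : ℝ) ^ a)) ^ m * Real.cos (m * φ k i)) ∧
      LinearIndependent ℚ (jfam P φ) := by
  have hcos : ∀ k i, Real.cos (a * θ k i) =
      Real.cos (Real.arccos (Real.cos (a * θ k i))) := fun k i =>
    (Real.cos_arccos (Real.neg_one_le_cos _) (Real.cos_le_one _)).symm
  obtain ⟨φ, hφd⟩ : ∃ φ : (k : ℕ) → Fin (2 ^ k) → ℝ,
      ∀ k i, φ k i = Real.arccos (Real.cos (a * θ k i)) := ⟨_, fun _ _ => rfl⟩
  have hφ : ∀ k i, ∃ m : ℤ, φ k i = 2 * m * Real.pi + a * θ k i ∨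
      φ k i = 2 * m * Real.pi - a * θ k i := by
    intro k i
    rw [hφd k i]
    exact Real.cos_eq_cos_iff.1 (hcos k i)
  have hli' : LinearIndependent ℚ (jfam P φ) := jbase ha hli (fun k _ i => hφ k i)
  have hinj : ∀ k, P k → Function.Injective (φ k) := by
    intro k hk i j hij
    have h1 : jfam P φ (some ⟨⟨k, hk⟩, i⟩) = jfam P φ (some ⟨⟨k, hk⟩, j⟩) := hij
    have h2 := hli'.injective h1
    have h3 := Option.some_injective _ h2
    simpa using h3
  have hpos : ∀ k, P k → ∀ i, 0 < φ k i := by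
    intro k hk i
    have h1 : 0 ≤ φ k i := by
      rw [hφd k i]
      exact Real.arccos_nonneg _
    have h3 : jfam P φ (some ⟨⟨k, hk⟩, i⟩) ≠ 0 := hli'.ne_zero (some ⟨⟨k, hk⟩, i⟩)
    have h2 : φ k i ≠ 0 := h3
    exact lt_of_le_of_ne h1 h2.symm
  have hlt : ∀ k, P k → ∀ i, φ k i < Real.pi := by
    intro k hk i
    have h1 : φ k i ≤ Real.pi := by
      rw [hφd k i]
      exact Real.arccos_le_pi _
    refine lt_of_le_of_ne h1 ?_
    intro hc
    have h2 : jfam P φ (some ⟨⟨k, hk⟩, i⟩) = jfam P φ none := hc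
    have h3 := hli'.injective h2
    exact absurd h3 (by simp)
  have hmcos : ∀ (k m : ℕ) (i : Fin (2 ^ k)),
      Real.cos (m * φ k i) = Real.cos ((a * m : ℕ) * θ k i) := by
    intro k m i
    symm
    rw [Real.cos_eq_cos_iff]
    obtain ⟨l, hl | hl⟩ := hφ k i
    · refine ⟨m * l, Or.inl ?_⟩
      rw [hl]
      push_cast
      ring
    · refine ⟨m * l, Or.inr ?_⟩
      rw [hl]
      push_cast
      ring
  refine ⟨fun k => φ k ∘ Tuple.sort (φ k), ?_, ?_⟩
  · intro k hk
    refine ⟨?_, ?_, ?_⟩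
    · exact (Tuple.monotone_sort (φ k)).strictMono_of_injective
        ((hinj k hk).comp (Tuple.sort (φ k)).injective)
    · intro i
      exact ⟨hpos k hk _, hlt k hk _⟩
    · intro m hm
      have h1 := hcard k hk (a * m) (Nat.mul_pos ha hm)
      rw [h1]
      congr 1
      have h2 : ∑ i, 2 * (Real.sqrt ((p : ℝ) ^ a)) ^ m *
          Real.cos (m * (φ k ∘ Tuple.sort (φ k)) i) =
          ∑ i, 2 * (Real.sqrt ((p : ℝ) ^ a)) ^ m * Real.cos (m * φ k i) :=
        Equiv.sum_comp (Tuple.sort (φ k))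
          (fun i => 2 * (Real.sqrt ((p : ℝ) ^ a)) ^ m * Real.cos (m * φ k i))
      rw [h2]
      apply Finset.sum_congr rfl
      intro i _
      rw [hmcos k m i]
      have h3 : Real.sqrt ((p : ℝ) ^ a) = (Real.sqrt p) ^ a := by
        rw [Real.sqrt_eq_iff_mul_self_eq (by positivity) (by positivity), ← mul_pow,
          Real.mul_self_sqrt (by positivity)]
      rw [h3, ← pow_mul]
  · let e : Option (Σ k : {k : ℕ // P k}, Fin (2 ^ (k : ℕ))) →
        Option (Σ k : {k : ℕ // P k}, Fin (2 ^ (k : ℕ))) :=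
      Option.map (fun x => ⟨x.1, Tuple.sort (φ x.1) x.2⟩)
    have h1 : jfam P (fun k => φ k ∘ Tuple.sort (φ k)) = jfam P φ ∘ e := by
      funext o
      cases o with
      | none => rfl
      | some x => rfl
    rw [h1]
    refine hli'.comp _ ?_
    refine Option.map_injective ?_
    rintro ⟨k, i⟩ ⟨k', j⟩ hc
    simp only [Sigma.mk.injEq] at hc
    obtain ⟨hk, hj⟩ := hc
    subst hk
    simp only [heq_eq_eq] at hj
    rw [(Tuple.sort (φ k)).injective hj]

end LIF
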