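import Pool.Agent.helper1.GLI.Sum8
import Pool.Agent.helper1.GLI.Data
import Pool.Agent.helper1.GLI.JC
import Pool.Agent.helper1.GLI.JOver

/-!
[GLI-Grand] The grand criterion (assembly).
-/

set_option autoImplicit false

namespace LIF

open Polynomial

theorem grand {p : ℕ} [Fact p.Prime] (hp4 : p % 4 = 3) {s : ZMod p}
    (hgood : ∀ k, Good p (2 ^ k) (hq s (2 ^ k)))
    (hbase : ∀ γ : AlgebraicClosure (ZMod p), aeval γ (hq s 4) = 0 → Lam p 4 γ = 1)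
    {P : ℕ → Prop} (hP : ∀ k, P k → 2 ≤ k ∧
      (HW p (2 ^ k) (Dp (hq s (2 ^ k)))).charpoly.coeff 0 = 0 ∧
      (HW p (2 ^ k) (Dp (hq s (2 ^ k)))).charpoly.coeff 1 ≠ 0) {a : ℕ} (ha : 1 ≤ a) :
    ∃ φ : (k : ℕ) → Fin (2 ^ k) → ℝ,
      (∀ k, P k → StrictMono (φ k) ∧ (∀ i, 0 < φ k i ∧ φ k i < Real.pi) ∧
        ∀ m : ℕ, 1 ≤ m →
        (Nat.card {z : GaloisField p (a * m) × GaloisField p (a * m) //
          z.2 ^ 2 = aeval z.1 (Dp (hq s (2 ^ k)))} : ℝ) =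
        (p : ℝ) ^ (a * m) -
          ∑ i, 2 * (Real.sqrt ((p : ℝ) ^ a)) ^ m * Real.cos (m * φ k i)) ∧
      LinearIndependent ℚ (jfam P φ) := by
  classical
  have hdata : ∀ k, P k → GoodF p k (Lp (2 ^ k) (Dp (hq s (2 ^ k)))) ∧
      ∃ θ : Fin (2 ^ k) → ℝ,
      (∀ m : ℕ, 1 ≤ m →
        (Nat.card {z : GaloisField p m × GaloisField p m //
          z.2 ^ 2 = aeval z.1 (Dp (hq s (2 ^ k)))} : ℝ) =
          (p : ℝ) ^ m - ∑ i, 2 * (Real.sqrt p) ^ m * Real.cos (m * θ i)) ∧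
      (Lp (2 ^ k) (Dp (hq s (2 ^ k)))).map (Int.castRingHom ℂ) =
          ∏ i, ((X - C ((Real.sqrt p : ℂ) * Complex.exp (θ i * Complex.I))) *
            (X - C ((p : ℂ) / ((Real.sqrt p : ℂ) * Complex.exp (θ i * Complex.I))))) := by
    intro k hk
    obtain ⟨h2, hw0, hw1⟩ := hP k hk
    obtain ⟨γ, hγ⟩ := Sum8_exists_root (hgood k)
    have hn := gam_neg (by omega) (hgood k) hγ
    have ge : Even (2 ^ k) := (Nat.even_pow' (by omega)).2 even_two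
    exact crit_data h2 hp4 (hgood k)
      (fun j h1 h2 => Sd_four (hgood k) ge hp4 hγ hn h1 h2)
      (sum_eight hp4 hgood hbase h2) hw0 hw1
  have hch : ∀ k, ∃ θ : Fin (2 ^ k) → ℝ, P k →
      (∀ m : ℕ, 1 ≤ m →
        (Nat.card {z : GaloisField p m × GaloisField p m //
          z.2 ^ 2 = aeval z.1 (Dp (hq s (2 ^ k)))} : ℝ) =
          (p : ℝ) ^ m - ∑ i, 2 * (Real.sqrt p) ^ m * Real.cos (m * θ i)) ∧
      (Lp (2 ^ k) (Dp (hq s (2 ^ k)))).map (Int.castRingHom ℂ) =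
          ∏ i, ((X - C ((Real.sqrt p : ℂ) * Complex.exp (θ i * Complex.I))) *
            (X - C ((p : ℂ) / ((Real.sqrt p : ℂ) * Complex.exp (θ i * Complex.I))))) := by
    intro k
    by_cases hk : P k
    · obtain ⟨θ, h1, h2⟩ := (hdata k hk).2
      exact ⟨θ, fun _ => ⟨h1, h2⟩⟩
    · exact ⟨fun _ => 0, fun h => absurd h hk⟩
  choose θ hθ using hch
  refine jover ha θ (fun k hk => (hθ k hk).1) ?_
  refine jangles (p := p) θ ?_
  intro T hT n hn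
  exact joint_complex (p := p) T (fun k => Lp (2 ^ k) (Dp (hq s (2 ^ k))))
    (fun k i => (Real.sqrt p : ℂ) * Complex.exp (θ k i * Complex.I))
    (fun k hk => (hdata k (hT k hk)).1) (fun k hk => (hθ k (hT k hk)).2) n hn

end LIF
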