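import Pool.Agent.helper1.GLI.DefsC

/-!
[GLI-JAng] Linear independence of `π` and all the angles from multiplicative independence
(imports only `DefsC`; adapt `angles_li` in `LI/AngB.lean` by helper authors of project LI).

* `jangles`: pass to integer coefficients (`LinearIndependent.iff_fractionRing`),
  `linearIndependent_iff`: `c : Option (Σ k, Fin (2^k)) →₀ ℤ` with
  `c(none) π + ∑ c(k,i) θ_(k,i) = 0`.  Let `T` be the finite set of the `k` which occur in the
  support of `c` and `n k i = c (some ⟨⟨k, hk⟩, i⟩)` if `P k`, `0` otherwise.  Then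
  `c(none) π + ∑_{k ∈ T} ∑_i n k i θ_(k,i) = 0`, multiply by `2 i` and take `exp`:
  `∏_{k ∈ T} ∏_i (e^(2 i θ_(k,i)))^(n k i) = e^(-2 π i c(none)) = 1` and
  `(√p e^(iθ))^2/p = e^(2iθ)`; the hypothesis gives `n k i = 0`, so `c (some _) = 0`, and then
  `c(none) π = 0`.
* `jbase`: as `Base_li` in `LI/Base.lean`: `φ_(k,i) = 2 m π + e θ_(k,i)`, `e = ±a ≠ 0`.  If
  `c(none) π + ∑ c(k,i) φ_(k,i) = 0` (finite support, rational) then
  `(c(none) + 2 ∑ c(k,i) m(k,i)) π + ∑ c(k,i) e(k,i) θ_(k,i) = 0`, so all `c(k,i) e(k,i) = 0`.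
  (Alternatively: `LinearIndependent.units_smul` for the scaling and a unipotent change.)
-/

set_option autoImplicit false

namespace LIF

/-- linear independence of a family indexed by an option type -/
theorem JAng_option {R M α : Type*} [Ring R] [AddCommGroup M] [Module R M] (v : Option α → M) :
    LinearIndependent R v ↔ ∀ (S : Finset α) (c0 : R) (c : α → R),
      c0 • v none + ∑ x ∈ S, c x • v (some x) = 0 → c0 = 0 ∧ ∀ x ∈ S, c x = 0 := by
  classical
  constructor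
  · intro h S c0 c hc
    have h1 := linearIndependent_iff'.1 h (Finset.insertNone S) (fun o => o.elim c0 c) (by
      rw [Finset.sum_insertNone]
      simpa using hc)
    refine ⟨?_, fun x hx => ?_⟩
    · simpa using h1 none (Finset.none_mem_insertNone)
    · simpa using h1 (some x) (Finset.some_mem_insertNone.2 hx)
  · intro h
    rw [linearIndependent_iff']
    intro s g hs
    have h1 := h (Finset.eraseNone s) (if none ∈ s then g none else 0) (fun x => g (some x)) (by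
      have e : ∑ x ∈ Finset.eraseNone s, g (some x) • v (some x) =
          ∑ o ∈ s.erase none, g o • v o := by
        rw [← Finset.map_some_eraseNone, Finset.sum_map]
        rfl
      rw [e, ← hs]
      by_cases hn : none ∈ s
      · rw [if_pos hn, Finset.add_sum_erase s (fun o => g o • v o) hn]
      · rw [if_neg hn, zero_smul, zero_add, Finset.erase_eq_of_notMem hn])
    intro o ho
    cases o with
    | none => simpa [ho] using h1.1
    | some x => exact h1.2 x (Finset.mem_eraseNone.2 ho)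

private lemma JAng_sqrt {p : ℕ} [Fact p.Prime] : (Real.sqrt p : ℂ) ≠ 0 ∧
    (Real.sqrt p : ℂ) ^ 2 = (p : ℂ) := by
  have hp : (0 : ℝ) < p := by exact_mod_cast (Fact.out : p.Prime).pos
  constructor
  · exact_mod_cast (Real.sqrt_pos.2 hp).ne'
  · rw [← Complex.ofReal_pow, Real.sq_sqrt hp.le]
    simp

theorem jangles {p : ℕ} [Fact p.Prime] {P : ℕ → Prop} (θ : (k : ℕ) → Fin (2 ^ k) → ℝ)
    (h : ∀ T : Finset ℕ, (∀ k ∈ T, P k) → ∀ n : (k : ℕ) → Fin (2 ^ k) → ℤ,
      ∏ k ∈ T, ∏ i, (((Real.sqrt p : ℂ) * Complex.exp (θ k i * Complex.I)) ^ 2 / (p : ℂ)) ^ n k i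
        = 1 → ∀ k ∈ T, ∀ i, n k i = 0) :
    LinearIndependent ℚ (jfam P θ) := by
  classical
  obtain ⟨h1, h2⟩ := JAng_sqrt (p := p)
  have hp0 : (p : ℂ) ≠ 0 := by
    rw [← h2]
    exact pow_ne_zero _ h1
  rw [← LinearIndependent.iff_fractionRing (R := ℤ) (K := ℚ), JAng_option]
  intro S c0 c hc
  simp only [jfam, Option.elim_none, Option.elim_some, zsmul_eq_mul] at hc
  -- extend the coefficients by zero
  let d : (Σ k : {k : ℕ // P k}, Fin (2 ^ (k : ℕ))) → ℤ := fun x => if x ∈ S then c x else 0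
  let T' : Finset {k : ℕ // P k} := S.image Sigma.fst
  have hS : ∑ x ∈ S, (c x : ℝ) * θ x.1 x.2 = ∑ k ∈ T', ∑ i, (d ⟨k, i⟩ : ℝ) * θ k i := by
    have hsub : S ⊆ T'.sigma (fun _ => Finset.univ) := by
      intro x hx
      rw [Finset.mem_sigma]
      exact ⟨Finset.mem_image_of_mem _ hx, Finset.mem_univ _⟩
    have hz : ∀ x ∈ T'.sigma (fun _ => Finset.univ), x ∉ S → (d x : ℝ) * θ x.1 x.2 = 0 := by
      intro x _ hx
      simp [d, hx]
    have e1 := Finset.sum_subset hsub hz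
    have e2 : ∑ x ∈ T'.sigma (fun _ => Finset.univ), (d x : ℝ) * θ x.1 x.2 =
        ∑ k ∈ T', ∑ i, (d ⟨k, i⟩ : ℝ) * θ k i := Finset.sum_sigma _ _ _
    rw [← e2, ← e1]
    refine Finset.sum_congr rfl fun x hx => ?_
    simp [d, hx]
  rw [hS] at hc
  let n : (k : ℕ) → Fin (2 ^ k) → ℤ := fun k i => if hk : P k then d ⟨⟨k, hk⟩, i⟩ else 0
  have hn : ∀ k : {k : ℕ // P k}, ∀ i, n k i = d ⟨k, i⟩ := by
    intro k i
    simp [n, k.2]
  have h3 := h (T'.map (Function.Embedding.subtype P)) (by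
    intro k hk
    simp only [Finset.mem_map, Function.Embedding.coe_subtype] at hk
    obtain ⟨k', _, rfl⟩ := hk
    exact k'.2) n (by
    refine (Finset.prod_map _ _ _).trans ?_
    change ∏ k ∈ T', ∏ i : Fin (2 ^ (k : ℕ)),
      (((Real.sqrt p : ℂ) * Complex.exp (θ k i * Complex.I)) ^ 2 / (p : ℂ)) ^ n k i = 1
    have e1 : ∀ k : {k : ℕ // P k}, ∀ i,
        (((Real.sqrt p : ℂ) * Complex.exp (θ k i * Complex.I)) ^ 2 / (p : ℂ)) ^ n k i =
        Complex.exp ((d ⟨k, i⟩ : ℂ) * (2 * (θ k i * Complex.I))) := by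
      intro k i
      rw [hn, mul_pow, h2, mul_div_cancel_left₀ _ hp0, ← Complex.exp_nat_mul,
        ← Complex.exp_int_mul]
      norm_num
    rw [Finset.prod_congr rfl fun k _ => Finset.prod_congr rfl fun i _ => e1 k i]
    rw [Finset.prod_congr rfl fun k _ => (Complex.exp_sum _ _).symm, ← Complex.exp_sum]
    have e2 : ∑ k ∈ T', ∑ i, (d ⟨k, i⟩ : ℂ) * (2 * ((θ k i : ℂ) * Complex.I)) =
        ((-c0 : ℤ) : ℂ) * (2 * Real.pi * Complex.I) := by
      have hn' : ((c0 : ℂ) * (Real.pi : ℂ) + ∑ k ∈ T', ∑ i, (d ⟨k, i⟩ : ℂ) * (θ k i : ℂ)) = 0 := by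
        exact_mod_cast congrArg (Complex.ofReal) hc
      have e3 : ∑ k ∈ T', ∑ i, (d ⟨k, i⟩ : ℂ) * (2 * ((θ k i : ℂ) * Complex.I)) =
          (2 * Complex.I) * ∑ k ∈ T', ∑ i, (d ⟨k, i⟩ : ℂ) * (θ k i : ℂ) := by
        rw [Finset.mul_sum]
        refine Finset.sum_congr rfl fun k _ => ?_
        rw [Finset.mul_sum]
        exact Finset.sum_congr rfl fun i _ => by ring
      rw [e3]
      push_cast
      linear_combination (2 * Complex.I) * hn'
    rw [e2, Complex.exp_int_mul_two_pi_mul_I])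
  have h4 : ∀ x ∈ S, c x = 0 := by
    intro x hx
    have h5 : d x = 0 := by
      have hk : (x.1 : ℕ) ∈ T'.map (Function.Embedding.subtype P) := by
        simp only [Finset.mem_map, Function.Embedding.coe_subtype]
        exact ⟨x.1, Finset.mem_image_of_mem _ hx, rfl⟩
      have h6 := h3 x.1 hk x.2
      rw [hn x.1 x.2] at h6
      exact h6
    simpa [d, hx] using h5
  refine ⟨?_, h4⟩
  have h5 : ∑ k ∈ T', ∑ i, (d ⟨k, i⟩ : ℝ) * θ k i = 0 := by
    rw [← hS]
    refine Finset.sum_eq_zero fun x hx => ?_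
    rw [h4 x hx]
    simp
  rw [h5, add_zero] at hc
  rcases mul_eq_zero.1 hc with h6 | h6
  · exact_mod_cast h6
  · exact absurd h6 Real.pi_ne_zero

theorem jbase {P : ℕ → Prop} {θ φ : (k : ℕ) → Fin (2 ^ k) → ℝ} {a : ℕ} (ha : 1 ≤ a)
    (hli : LinearIndependent ℚ (jfam P θ))
    (hφ : ∀ k, P k → ∀ i, ∃ m : ℤ, φ k i = 2 * m * Real.pi + a * θ k i ∨
      φ k i = 2 * m * Real.pi - a * θ k i) :
    LinearIndependent ℚ (jfam P φ) := by
  classical
  have h1 : ∀ x : (Σ k : {k : ℕ // P k}, Fin (2 ^ (k : ℕ))), ∃ (m : ℤ) (e : ℚ), e ≠ 0 ∧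
      φ x.1 x.2 = 2 * m * Real.pi + e * θ x.1 x.2 := by
    intro x
    have ha' : (a : ℚ) ≠ 0 := by
      have : a ≠ 0 := by omega
      exact_mod_cast this
    obtain ⟨m, hm | hm⟩ := hφ x.1 x.1.2 x.2
    · exact ⟨m, a, ha', by rw [hm]; push_cast; ring⟩
    · exact ⟨m, -a, neg_ne_zero.2 ha', by rw [hm]; push_cast; ring⟩
  choose m e he hme using h1
  rw [JAng_option] at hli ⊢
  intro S c0 c hc
  simp only [jfam, Option.elim_none, Option.elim_some, Rat.smul_def] at hli hc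
  have h2 := hli S (c0 + ∑ x ∈ S, 2 * (m x : ℚ) * c x) (fun x => c x * e x) (by
    rw [← hc]
    push_cast
    rw [add_mul, Finset.sum_mul, add_assoc, ← Finset.sum_add_distrib]
    congr 1
    refine Finset.sum_congr rfl fun x _ => ?_
    rw [hme x]
    ring)
  have h3 : ∀ x ∈ S, c x = 0 := by
    intro x hx
    rcases mul_eq_zero.1 (h2.2 x hx) with h5 | h5
    · exact h5
    · exact absurd h5 (he x)
  refine ⟨?_, h3⟩
  have h5 : ∑ x ∈ S, 2 * (m x : ℚ) * c x = 0 :=
    Finset.sum_eq_zero fun x hx => by rw [h3 x hx, mul_zero]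
  have h6 := h2.1
  rw [h5, add_zero] at h6
  exact h6

end LIF
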