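import Pool.Agent.helper1.GLI.DefsC

/-!
[GLI-JRel] The relations form a Galois stable rational subspace (imports only `DefsC`).

`Bx p (a k) x ≠ 0` for all `k ∈ T`, all `x`.
* `isRel_zero`: `m = 1`, `n = 0`.
* `isRel_add`: `m φ = n`, `m' φ' = n'`: `m m' (φ + φ') = m' n + m n'`; the product of the
  `(m')`-th power of the first relation and the `m`-th power of the second (`zpow_add₀`,
  `zpow_mul`, `Finset.prod_mul_distrib`, `Finset.prod_zpow`).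
* `isRel_smul`: `c = r/s`, `s > 0`: `(s m) (c φ) = r n`; `r`-th power of the relation.
* `isRel_sigma`: `σ (Bx_k x) = Bx_k (γ_k x)`.  Apply `σ⁻¹` to `∏_k ∏_y (Bx_k y)^(n_k y) = 1` and
  substitute `y = γ_k x` (`Equiv.prod_comp`): `σ⁻¹ (Bx_k (γ_k x)) = Bx_k x`, so
  `∏_k ∏_x (Bx_k x)^(n_k (γ_k x)) = 1`: a relation for `x ↦ φ_k (γ_k x)`.
* `relQ`: the submodule of the antisymmetric relations (its fields follow from the lemmas above).
-/

set_option autoImplicit false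

namespace LIF

variable {E : Type*} [Field E] {p : ℕ} {T : Finset ℕ} {a : (k : ℕ) → Fin (2 ^ k) → E}

theorem isRel_zero : IsRel p T a 0 := by
  exact ⟨1, one_pos, 0, fun k x => by simp, by simp⟩

theorem isRel_add (hne : ∀ k ∈ T, ∀ x, Bx p (a k) x ≠ 0)
    {φ ψ : (k : T) → Fin (2 ^ (k : ℕ)) × Bool → ℚ} (h1 : IsRel p T a φ) (h2 : IsRel p T a ψ) :
    IsRel p T a (φ + ψ) := by
  obtain ⟨m, hm, n, h3, h4⟩ := h1
  obtain ⟨m', hm', n', h5, h6⟩ := h2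
  refine ⟨m * m', Nat.mul_pos hm hm', fun k x => (m' : ℤ) * n k x + (m : ℤ) * n' k x,
    fun k x => ?_, ?_⟩
  · rw [Pi.add_apply, Pi.add_apply]
    push_cast
    rw [← h3, ← h5]
    ring
  · have e : ∀ (k : T) (x : Fin (2 ^ (k : ℕ)) × Bool),
        Bx p (a k) x ^ ((m' : ℤ) * n k x + (m : ℤ) * n' k x) =
        (Bx p (a k) x ^ n k x) ^ (m' : ℤ) * (Bx p (a k) x ^ n' k x) ^ (m : ℤ) := fun k x => by
      rw [zpow_add₀ (hne k k.2 x), zpow_mul', zpow_mul' _ (m : ℤ)]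
    simp only [e, Finset.prod_mul_distrib, Finset.prod_zpow, h4, h6, one_zpow, mul_one]

theorem isRel_smul (hne : ∀ k ∈ T, ∀ x, Bx p (a k) x ≠ 0)
    {φ : (k : T) → Fin (2 ^ (k : ℕ)) × Bool → ℚ} (h1 : IsRel p T a φ) (c : ℚ) :
    IsRel p T a (c • φ) := by
  obtain ⟨m, hm, n, h3, h4⟩ := h1
  refine ⟨c.den * m, Nat.mul_pos c.den_pos hm, fun k x => c.num * n k x, fun k x => ?_, ?_⟩
  · rw [Pi.smul_apply, Pi.smul_apply, smul_eq_mul]
    push_cast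
    rw [← h3, ← Rat.mul_den_eq_num c]
    ring
  · have e : ∀ (k : T) (x : Fin (2 ^ (k : ℕ)) × Bool),
        Bx p (a k) x ^ (c.num * n k x) = (Bx p (a k) x ^ n k x) ^ c.num := fun k x => by
      rw [zpow_mul']
    simp only [e, Finset.prod_zpow, h4, one_zpow]

theorem isRel_sigma [CharZero E] [Algebra ℚ E] (σ : E ≃ₐ[ℚ] E)
    (γ : (k : T) → Equiv.Perm (Fin (2 ^ (k : ℕ)) × Bool))
    (hγ : ∀ (k : T) (x : Fin (2 ^ (k : ℕ)) × Bool), σ (Bx p (a k) x) = Bx p (a k) (γ k x))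
    {φ : (k : T) → Fin (2 ^ (k : ℕ)) × Bool → ℚ} (h1 : IsRel p T a φ) :
    IsRel p T a (fun k x => φ k (γ k x)) := by
  obtain ⟨m, hm, n, h3, h4⟩ := h1
  refine ⟨m, hm, fun k x => n k (γ k x), fun k x => h3 k (γ k x), ?_⟩
  apply σ.injective
  rw [map_one, ← h4]
  simp only [map_prod, map_zpow₀, hγ]
  refine Finset.prod_congr rfl fun k _ => ?_
  exact Equiv.prod_comp (γ k) (fun y => Bx p (a k) y ^ n k y)

/-- the space of antisymmetric relations -/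
def relQ (p : ℕ) (T : Finset ℕ) (a : (k : ℕ) → Fin (2 ^ k) → E)
    (hne : ∀ k ∈ T, ∀ x, Bx p (a k) x ≠ 0) :
    Submodule ℚ ((k : T) → Fin (2 ^ (k : ℕ)) × Bool → ℚ) where
  carrier := {φ | (∀ k i c, φ k (i, !c) = - φ k (i, c)) ∧ IsRel p T a φ}
  add_mem' := by
    rintro φ ψ ⟨h1, h2⟩ ⟨h3, h4⟩
    refine ⟨fun k i c => ?_, isRel_add hne h2 h4⟩
    rw [Pi.add_apply, Pi.add_apply, Pi.add_apply, h1, h3]
    ring
  zero_mem' := ⟨fun k i c => by simp, isRel_zero⟩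
  smul_mem' := by
    rintro c φ ⟨h1, h2⟩
    refine ⟨fun k i c' => ?_, isRel_smul hne h2 c⟩
    rw [Pi.smul_apply, Pi.smul_apply, Pi.smul_apply, h1, smul_neg]

theorem mem_relQ {hne : ∀ k ∈ T, ∀ x, Bx p (a k) x ≠ 0}
    {φ : (k : T) → Fin (2 ^ (k : ℕ)) × Bool → ℚ} :
    φ ∈ relQ p T a hne ↔ (∀ k i c, φ k (i, !c) = - φ k (i, c)) ∧ IsRel p T a φ :=
  Iff.rfl

end LIF
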