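import Mathlib

/-!
[GLI-JStep] Dimension count (linear algebra, imports Mathlib only).

`R` a subspace of `∏_{k ∈ T} ℚ^(Fin (2^k) × Bool)`, all its elements antisymmetric; `K ∈ T`,
`2 ≤ k ≤ K` for `k ∈ T`.  An element of `R` supported at `K` only is zero; an element of `R` which
vanishes at `K` is zero; if the projection `W` of `R` to the component `K` is not zero then
`dim W ≥ 2^K - 1`.  Then `R = 0`.

Proof.  `dim W ≤ dim R` (`LinearMap.finrank_map_le` or `Submodule.finrank_map_le`).  The linear map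
`R → ∏_{k ∈ T, k ≠ K} ℚ^(Fin (2^k))`, `φ ↦ (φ_k (i, true))`, is injective: if the image of `φ` is zero then
by antisymmetry `φ_k = 0` for `k ≠ K`, so `φ = 0`.  So
`dim R ≤ ∑_{k ∈ T, k ≠ K} 2^k ≤ ∑_{2 ≤ k < K} 2^k = 2^K - 4 < 2^K - 1`
(`LinearMap.finrank_le_finrank_of_injective`, `Module.finrank_pi_fintype`).  So `W = 0`, which means
that every element of `R` vanishes at `K`, so `R = 0`.
-/

set_option autoImplicit false

namespace LIF

theorem JStep_sum {K : ℕ} (h : 2 ≤ K) : ∑ k ∈ Finset.Ico 2 K, 2 ^ k + 4 = 2 ^ K := by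
  induction K, h using Nat.le_induction with
  | base => simp
  | succ n hn ih =>
    rw [Finset.sum_Ico_succ_top hn, pow_succ]
    omega

theorem joint_step {T : Finset ℕ} {K : ℕ} (hK : K ∈ T) (hT : ∀ k ∈ T, 2 ≤ k ∧ k ≤ K)
    (R : Submodule ℚ ((k : T) → Fin (2 ^ (k : ℕ)) × Bool → ℚ))
    (hanti : ∀ φ ∈ R, ∀ k i c, φ k (i, !c) = - φ k (i, c))
    (hsingle : ∀ φ ∈ R, (∀ k : T, (k : ℕ) ≠ K → φ k = 0) → φ = 0)
    (hrest : ∀ φ ∈ R, φ ⟨K, hK⟩ = 0 → φ = 0)
    (hmin : R.map (LinearMap.proj (⟨K, hK⟩ : T)) ≠ ⊥ →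
      2 ^ K - 1 ≤ Module.finrank ℚ (R.map (LinearMap.proj (R := ℚ)
        (φ := fun k : T => Fin (2 ^ (k : ℕ)) × Bool → ℚ) (⟨K, hK⟩ : T)))) : R = ⊥ := by
  classical
  have hz : (∀ φ ∈ R, φ ⟨K, hK⟩ = 0) → R = ⊥ := fun h => by
    rw [Submodule.eq_bot_iff]
    exact fun φ hφ => hrest φ hφ (h φ hφ)
  by_cases hW : R.map (LinearMap.proj (R := ℚ)
      (φ := fun k : T => Fin (2 ^ (k : ℕ)) × Bool → ℚ) (⟨K, hK⟩ : T)) = ⊥
  · refine hz fun φ hφ => ?_
    have h1 : (LinearMap.proj (R := ℚ)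
        (φ := fun k : T => Fin (2 ^ (k : ℕ)) × Bool → ℚ) (⟨K, hK⟩ : T)) φ ∈
        R.map (LinearMap.proj (R := ℚ)
        (φ := fun k : T => Fin (2 ^ (k : ℕ)) × Bool → ℚ) (⟨K, hK⟩ : T)) :=
      Submodule.mem_map_of_mem hφ
    rw [hW, Submodule.mem_bot] at h1
    exact h1
  · exfalso
    have h1 := hmin hW
    have h2 : Module.finrank ℚ (R.map (LinearMap.proj (R := ℚ)
        (φ := fun k : T => Fin (2 ^ (k : ℕ)) × Bool → ℚ) (⟨K, hK⟩ : T))) ≤
        Module.finrank ℚ R := Submodule.finrank_map_le _ _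
    let L : R →ₗ[ℚ] ((k : (T.erase K : Finset ℕ)) → Fin (2 ^ (k : ℕ)) → ℚ) :=
      { toFun := fun φ k i => φ.1 ⟨k, Finset.mem_of_mem_erase k.2⟩ (i, true)
        map_add' := fun _ _ => rfl
        map_smul' := fun _ _ => rfl }
    have hL : Function.Injective L := by
      rw [← LinearMap.ker_eq_bot, LinearMap.ker_eq_bot']
      rintro ⟨φ, hφ⟩ h0
      have h3 : φ = 0 := by
        refine hsingle φ hφ fun k hk => ?_
        have h4 : ∀ i, φ k (i, true) = 0 := fun i =>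
          congrFun (congrFun h0 ⟨(k : ℕ), Finset.mem_erase.2 ⟨hk, k.2⟩⟩) i
        funext ⟨i, c⟩
        cases c with
        | true => exact h4 i
        | false =>
          have h5 := hanti φ hφ k i true
          rw [h4 i, neg_zero] at h5
          exact h5
      exact Subtype.ext h3
    have h3 := LinearMap.finrank_le_finrank_of_injective hL
    have h4 : Module.finrank ℚ ((k : (T.erase K : Finset ℕ)) → Fin (2 ^ (k : ℕ)) → ℚ) =
        ∑ k ∈ T.erase K, 2 ^ k := by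
      rw [Module.finrank_pi_fintype]
      simp only [Module.finrank_fin_fun]
      exact Finset.sum_coe_sort (T.erase K) (fun k => 2 ^ k)
    have h5 : ∑ k ∈ T.erase K, 2 ^ k ≤ ∑ k ∈ Finset.Ico 2 K, 2 ^ k := by
      refine Finset.sum_le_sum_of_subset fun k hk => ?_
      have h6 := Finset.mem_of_mem_erase hk
      have h7 := Finset.ne_of_mem_erase hk
      have := hT k h6
      rw [Finset.mem_Ico]
      omega
    have h6 := JStep_sum (hT K hK).1
    omega

end LIF
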