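import Pool.Agent.helper1.GLI.Perm
import Pool.Agent.helper1.LI.Gal

/-!
[GLI-Mix] An automorphism which mixes the signs (imports the stub `Perm` and `LI/Gal`).

`GoodF p k f`, `Spl p f b`, `g = 2^k`, `p` prime.  There is `σ` such that `σ b_i = b_j` for some
`i, j` and `σ b_i = p/b_j` for some `i, j`.

Proof.  For every `σ` and every `i`: `σ b_i` is `b_j` or `p/b_j` for some `j` (`exists_perm`, `γ` with
`σ (Bx x) = Bx (γ x)`).  Suppose there is no such `σ`.  Then for every `σ` either all the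
`(γ (i, true)).2` are `true`, or all are `false` (for one `σ` the two kinds cannot both occur;
`Fin (2^k)` is nonempty).  `γ` commutes with the swap and is injective, so
`i ↦ (γ (i, true)).1` is a permutation of `Fin g` (if `(γ (i,true)).1 = (γ (j,true)).1` then
`γ (i,true)` is `γ (j, true)` or `γ (j, false)`, so `i = j`).  So with `ν = ∏_i b_i` we get
`σ ν = ν` or `σ ν = ∏_i (p/b_i) = p^g/ν`, in both cases `t = ν + p^g/ν` satisfies `σ t = t`.  As `E/ℚ` is
Galois (`Normal` and characteristic zero), `t` is rational (`IsGalois.mem_bot_iff_fixed` or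
`InfiniteGalois.mem_bot_iff_fixed`).
Choose (`exists_val`, `LI/Val.lean`) `A` with `v(p) < 1`, put `π = v(p)`.  `gal_sign` (`LI/Gal.lean`) with
`a = b` (`hlow := h.low`, `hmid := h.mid`, `b_i ≠ 0` by `roots_inj`): there are signs
`s_i ∈ {-1, 0, 1}`, with exactly one zero, and `v(b_i^2/p) = π^(s_i)`.  Multiply:
`v(ν)^2 = π^(g + S)`, `S = ∑ s_i` (zpow), and `v(p^g/ν)^2 = π^(2g - g - S) = π^(g - S)`.
`S` is odd: `g - 1` (odd) signs `±1` and one `0`.  So `S ≠ 0`, the two valuations differ, and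
`v(t)` is the larger one: `v(t)^2 = π^(g - |S|)`.  `t` is a nonzero rational number, so
`v(t) = π^m`, `m ∈ ℤ` (write `t = p^m u`, `u` a quotient of integers prime to `p`;
`val_int_unit`, `LI/Val.lean`), `π^(2m) = π^(g - |S|)`, `0 < π < 1`, so `2m = g - |S|`, but `g` is even
and `|S|` odd: contradiction.
-/

set_option autoImplicit false

namespace LIF

open Polynomial

theorem Mix_nat {E : Type*} [Field E] [CharZero E] (A : ValuationSubring E) {p : ℕ} [Fact p.Prime]
    (hp : A.valuation (p : E) < 1) {c : ℕ} (hc : c ≠ 0) :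
    ∃ m : ℤ, A.valuation (c : E) = A.valuation (p : E) ^ m := by
  obtain ⟨e, n', hn', rfl⟩ := Nat.exists_eq_pow_mul_and_not_dvd hc p (Fact.out : p.Prime).ne_one
  refine ⟨(e : ℤ), ?_⟩
  have h1 : A.valuation ((n' : ℤ) : E) = 1 := val_int_unit A hp (by exact_mod_cast hn')
  rw [Int.cast_natCast] at h1
  rw [Nat.cast_mul, Nat.cast_pow, map_mul, map_pow, h1, mul_one, zpow_natCast]

theorem Mix_int {E : Type*} [Field E] [CharZero E] (A : ValuationSubring E) {p : ℕ} [Fact p.Prime]
    (hp : A.valuation (p : E) < 1) {c : ℤ} (hc : c ≠ 0) :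
    ∃ m : ℤ, A.valuation (c : E) = A.valuation (p : E) ^ m := by
  obtain ⟨m, hm⟩ := Mix_nat A hp (Int.natAbs_ne_zero.2 hc)
  refine ⟨m, ?_⟩
  rw [← hm]
  rcases Int.natAbs_eq c with h | h
  · conv_lhs => rw [h]
    rw [Int.cast_natCast]
  · conv_lhs => rw [h]
    rw [Int.cast_neg, Int.cast_natCast, Valuation.map_neg]

theorem Mix_rat {E : Type*} [Field E] [CharZero E] (A : ValuationSubring E) {p : ℕ} [Fact p.Prime]
    (hp : A.valuation (p : E) < 1) {q : ℚ} (hq : q ≠ 0) :
    ∃ m : ℤ, A.valuation (q : E) = A.valuation (p : E) ^ m := by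
  have hp0 : A.valuation (p : E) ≠ 0 := by
    have : p ≠ 0 := (Fact.out : p.Prime).ne_zero
    simpa using this
  obtain ⟨m, hm⟩ := Mix_int (E := E) A hp (Rat.num_ne_zero.2 hq)
  obtain ⟨n, hn⟩ := Mix_nat (E := E) A hp q.den_ne_zero
  refine ⟨m - n, ?_⟩
  rw [Rat.cast_def, map_div₀, hm, hn, zpow_sub₀ hp0]

theorem Mix_fixed {p k : ℕ} [Fact p.Prime] {f : ℤ[X]} {E : Type*} [Field E] [CharZero E]
    [Algebra ℚ E] (h : GoodF p k f) {b : Fin (2 ^ k) → E} (hs : Spl p f b)
    (hno : ∀ σ : E ≃ₐ[ℚ] E, (∃ i j, σ (b i) = b j) → ∀ i j, σ (b i) ≠ (p : E) / b j)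
    (σ : E ≃ₐ[ℚ] E) :
    σ (∏ i, b i) = ∏ i, b i ∨ σ (∏ i, b i) = ∏ i, (p : E) / b i := by
  obtain ⟨γ, hγ, hsw⟩ := exists_perm h hs σ
  have hinj : Function.Injective fun i : Fin (2 ^ k) => (γ (i, true)).1 := by
    intro i j hij
    simp only at hij
    by_cases h2 : (γ (i, true)).2 = (γ (j, true)).2
    · have h3 : γ (i, true) = γ (j, true) := Prod.ext hij h2
      have h4 := γ.injective h3
      exact (Prod.ext_iff.1 h4).1
    · have h3 : γ (j, true) = γ (i, false) := by
        have h5 := hsw i true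
        simp only [Bool.not_true] at h5
        rw [h5]
        refine Prod.ext hij.symm ?_
        simp only
        revert h2
        cases (γ (i, true)).2 <;> cases (γ (j, true)).2 <;> simp
      have h4 := γ.injective h3
      have h5 := (Prod.ext_iff.1 h4).2
      simp at h5
  have hbij : Function.Bijective fun i : Fin (2 ^ k) => (γ (i, true)).1 :=
    Finite.injective_iff_bijective.1 hinj
  have hval : ∀ i, σ (b i) = Bx p b (γ (i, true)) := by
    intro i
    rw [← hγ]
    simp [Bx]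
  by_cases hex : ∃ i, (γ (i, true)).2 = true
  · left
    obtain ⟨i, hi⟩ := hex
    have h1 : σ (b i) = b (γ (i, true)).1 := by
      rw [hval, Bx, if_pos hi]
    have h2 := hno σ ⟨i, _, h1⟩
    have h3 : ∀ i, σ (b i) = b (γ (i, true)).1 := by
      intro j
      by_cases hj : (γ (j, true)).2 = true
      · rw [hval, Bx, if_pos hj]
      · exfalso
        apply h2 j (γ (j, true)).1
        rw [hval, Bx, if_neg hj]
    rw [map_prod]
    simp only [h3]
    exact hbij.prod_comp b
  · right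
    push Not at hex
    have h3 : ∀ i, σ (b i) = (p : E) / b (γ (i, true)).1 := by
      intro j
      rw [hval, Bx, if_neg (hex j)]
    rw [map_prod]
    simp only [h3]
    exact hbij.prod_comp fun i => (p : E) / b i

theorem Mix_odd {g : ℕ} (hg : Even g) (s : Fin g → ℤ) (i0 : Fin g)
    (hs1 : ∀ i, s i = -1 ∨ s i = 0 ∨ s i = 1) (hs2 : ∀ i, s i = 0 ↔ i = i0) :
    Odd (∑ i, s i) := by
  classical
  have h1 : (2 : ℤ) ∣ ∑ i, (s i - if i = i0 then 0 else 1) := by
    refine Finset.dvd_sum fun i _ => ?_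
    by_cases hi : i = i0
    · rw [if_pos hi, (hs2 i).2 hi]
      simp
    · rw [if_neg hi]
      have h2 : s i ≠ 0 := fun h => hi ((hs2 i).1 h)
      rcases hs1 i with h | h | h
      · rw [h]; norm_num
      · exact absurd h h2
      · rw [h]; norm_num
  rw [Finset.sum_sub_distrib] at h1
  have h2 : ∑ i : Fin g, (if i = i0 then (0 : ℤ) else 1) = g - 1 := by
    have h3 : ∀ i : Fin g, (if i = i0 then (0 : ℤ) else 1) = 1 - if i = i0 then 1 else 0 := by
      intro i
      split_ifs <;> norm_num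
    simp only [h3]
    rw [Finset.sum_sub_distrib, Finset.sum_ite_eq', if_pos (Finset.mem_univ _)]
    simp
  rw [h2] at h1
  obtain ⟨m, hm⟩ := hg
  obtain ⟨c, hc⟩ := h1
  refine ⟨c + m - 1, ?_⟩
  have h4 : ((g : ℕ) : ℤ) = m + m := by exact_mod_cast hm
  linarith

theorem exists_mixed {p k : ℕ} [Fact p.Prime] {f : ℤ[X]} {E : Type*} [Field E] [CharZero E]
    [Algebra ℚ E] [IsAlgClosed E] [Algebra.IsAlgebraic ℚ E] [Normal ℚ E]
    (h : GoodF p k f) {b : Fin (2 ^ k) → E} (hs : Spl p f b) :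
    ∃ σ : E ≃ₐ[ℚ] E, (∃ i j, σ (b i) = b j) ∧ (∃ i j, σ (b i) = (p : E) / b j) := by
  classical
  by_contra hcon
  push Not at hcon
  have hno : ∀ σ : E ≃ₐ[ℚ] E, (∃ i j, σ (b i) = b j) → ∀ i j, σ (b i) ≠ (p : E) / b j := by
    intro σ hσ
    exact hcon σ hσ
  obtain ⟨hb, -⟩ := roots_inj h hs
  have hpE : (p : E) ≠ 0 := by
    have : p ≠ 0 := (Fact.out : p.Prime).ne_zero
    exact_mod_cast this
  have hge : Even (2 ^ k) := by
    have := h.k2
    exact (Nat.even_pow.2 ⟨even_two, by omega⟩)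
  set ν : E := ∏ i, b i with hν
  set ν' : E := ∏ i, (p : E) / b i with hν'
  have hν0 : ν ≠ 0 := Finset.prod_ne_zero_iff.2 fun i _ => hb i
  have hνν : ν * ν' = (p : E) ^ (2 ^ k) := by
    rw [hν, hν', ← Finset.prod_mul_distrib]
    have : ∀ i : Fin (2 ^ k), b i * ((p : E) / b i) = p := fun i => mul_div_cancel₀ _ (hb i)
    simp only [this]
    simp
  have hν'eq : ν' = (p : E) ^ (2 ^ k) / ν := by
    rw [eq_div_iff hν0, mul_comm]
    exact hνν
  have hfix : ∀ σ : E ≃ₐ[ℚ] E, σ (ν + ν') = ν + ν' := by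
    intro σ
    have hpσ : σ ((p : E) ^ (2 ^ k)) = (p : E) ^ (2 ^ k) := by
      rw [map_pow, map_natCast]
    have h1 : σ ν * σ ν' = (p : E) ^ (2 ^ k) := by
      rw [← map_mul, hνν, hpσ]
    have hν'0 : ν' ≠ 0 := by
      intro h0
      rw [h0, mul_zero] at hνν
      exact pow_ne_zero _ hpE hνν.symm
    rcases Mix_fixed h hs hno σ with h2 | h2
    · have h3 : σ ν' = ν' := by
        have h4 : ν * σ ν' = ν * ν' := by
          rw [hνν, ← h1]
          congr 1
          exact h2.symm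
        exact mul_left_cancel₀ hν0 h4
      rw [map_add, h3]
      congr 1
    · have h3 : σ ν' = ν := by
        have h4 : ν' * σ ν' = ν' * ν := by
          rw [mul_comm ν' ν, hνν, ← h1]
          congr 1
          exact h2.symm
        exact mul_left_cancel₀ hν'0 h4
      rw [map_add, h3, add_comm]
      congr 1
  have hgal : IsGalois ℚ E := IsGalois.mk
  have hrat : ∃ q : ℚ, algebraMap ℚ E q = ν + ν' := by
    have h1 : ν + ν' ∈ (⊥ : IntermediateField ℚ E) :=
      (InfiniteGalois.mem_bot_iff_fixed (k := ℚ) (K := E) (ν + ν')).2 hfix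
    exact IntermediateField.mem_bot.1 h1
  obtain ⟨q, hq⟩ := hrat
  have hq' : ((q : ℚ) : E) = ν + ν' := by
    rw [← hq]
    exact (eq_ratCast (algebraMap ℚ E) q).symm
  obtain ⟨A, hA⟩ := exists_val (E := E) p
  have hv0 : A.valuation (p : E) ≠ 0 := by simpa using hpE
  obtain ⟨s, i0, hs1, hs2, hs3, -, -⟩ := gal_sign A hA hpE (Nat.one_le_two_pow) h.mon
    h.low h.mid b hb hs
  have hodd := Mix_odd hge s i0 hs1 hs2
  have hvb : ∀ i, A.valuation (b i) ^ 2 = A.valuation (p : E) ^ (1 + s i) := by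
    intro i
    have h1 := hs3 i
    rw [map_div₀, map_pow, div_eq_iff hv0] at h1
    rw [h1, add_comm, zpow_add₀ hv0, zpow_one]
  have hvν : A.valuation ν ^ 2 = A.valuation (p : E) ^ (((2 ^ k : ℕ) : ℤ) + ∑ i, s i) := by
    rw [hν, map_prod, ← Finset.prod_pow]
    have h4 : ∀ t : Finset (Fin (2 ^ k)), ∏ i ∈ t, A.valuation (b i) ^ 2 =
        A.valuation (p : E) ^ ((t.card : ℤ) + ∑ i ∈ t, s i) := by
      intro t
      induction t using Finset.induction_on with
      | empty => simp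
      | insert i t hi ih =>
        rw [Finset.prod_insert hi, Finset.sum_insert hi, Finset.card_insert_of_notMem hi, ih, hvb,
          ← zpow_add₀ hv0]
        congr 1
        push_cast
        ring
    rw [h4, Finset.card_univ, Fintype.card_fin]
  have hvν' : A.valuation ν' ^ 2 = A.valuation (p : E) ^ (((2 ^ k : ℕ) : ℤ) - ∑ i, s i) := by
    rw [hν'eq, map_div₀, div_pow, hvν, map_pow, ← pow_mul, ← zpow_natCast, ← zpow_sub₀ hv0]
    congr 1
    push_cast
    ring
  have hzinj := zpow_right_injective₀ (zero_lt_iff.2 hv0) hA.ne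
  have hne : A.valuation ν ≠ A.valuation ν' := by
    intro heq
    have h1 : A.valuation ν ^ 2 = A.valuation ν' ^ 2 := by rw [heq]
    rw [hvν, hvν'] at h1
    have h2 := hzinj h1
    obtain ⟨m, hm⟩ := hodd
    omega
  have hvt : ∃ n : ℤ, Odd n ∧ A.valuation (ν + ν') ^ 2 = A.valuation (p : E) ^ n := by
    have hge' : Even (((2 ^ k : ℕ) : ℤ)) := by exact_mod_cast hge
    rcases lt_or_gt_of_ne hne with h1 | h1
    · refine ⟨((2 ^ k : ℕ) : ℤ) - ∑ i, s i, hge'.sub_odd hodd, ?_⟩
      rw [Valuation.map_add_eq_of_lt_right _ h1]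
      exact hvν'
    · refine ⟨((2 ^ k : ℕ) : ℤ) + ∑ i, s i, hge'.add_odd hodd, ?_⟩
      rw [Valuation.map_add_eq_of_lt_left _ h1]
      exact hvν
  obtain ⟨n, hn, hvn⟩ := hvt
  have hq0 : q ≠ 0 := by
    rintro rfl
    rw [Rat.cast_zero] at hq'
    rw [← hq', map_zero, zero_pow two_ne_zero] at hvn
    exact zpow_ne_zero n hv0 hvn.symm
  obtain ⟨m, hm⟩ := Mix_rat (E := E) A hA hq0
  rw [← hq', hm, ← zpow_natCast, ← zpow_mul] at hvn
  have h3 := hzinj hvn
  obtain ⟨c, hc⟩ := hn
  push_cast at h3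
  omega

end LIF
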