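import Pool.Agent.helper1.GLI.Two
import Pool.Agent.helper1.GLI.Mix
import Pool.Agent.helper1.GLI.CombD
import Pool.Agent.helper1.GLI.Eps

/-!
[GLI-Min] Every nonzero Galois stable space of antisymmetric functions on the roots has dimension
at least `2^k - 1` (assembly; imports the stubs `Two`, `Mix`, `CombD`, `Eps`, `Perm`, `AVal`).

Proof.
* `min_orient`: the case where `a = b` satisfies `TwoAd` and `Orient` for some `A`.  Let `Γ` be the
  subgroup of all `γ` for which there is `σ` with `σ (Bx x) = Bx (γ x)` for all `x` (`1`: `σ = 1`;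
  products: `σ σ'`; inverses: `σ⁻¹`; `Bx` is injective by `roots_inj`).  `hsw`: `γ` is the permutation
  given by `exists_perm` (uniqueness from the injectivity of `Bx`).  `h1`: `exists_root_conj` and
  `exists_perm`; `h2`: `two_trans` and `exists_perm`; `h3`: `exists_mixed` and `exists_perm`
  (`σ b_i = b_j = Bx (j, true)` means `γ (i, true) = (j, true)` etc.).  `comb_dim` gives the claim.
* `min_dim`: the general case.  `exists_val` (`LI/Val.lean`) with the prime `2` gives `A` with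
  `v(2) < 1`; `exists_orient` gives `b` with `b_i = a_i` or `b_i = p/a_i`, `Orient`; `spl_swap` gives
  `Spl p f b` (`a_i ≠ 0` by `roots_inj`), `two_ad` gives `TwoAd`.  Let `τ` be the permutation of
  `Fin g × Bool` with `τ (i, c) = (i, c)` if `b_i = a_i` and `(i, !c)` otherwise; so
  `Bx p b x = Bx p a (τ x)` (`p/(p/a_i) = a_i`).  `W' = {φ ∘ τ : φ ∈ W}` (image of `W` under the linear
  equivalence `LinearEquiv.funCongrLeft ℚ ℚ τ`) has the same dimension, is antisymmetric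
  (`τ` commutes with the swap) and stable: if `σ (Bx p b x) = Bx p b (γ x)` for all `x` then
  `σ (Bx p a y) = Bx p a (τ γ τ⁻¹ y)`, so for `φ ∈ W`, `φ ∘ (τ γ τ⁻¹) ∈ W` and
  `(φ ∘ τ) ∘ γ = (φ ∘ (τ γ τ⁻¹)) ∘ τ ∈ W'`.
-/

set_option autoImplicit false

namespace LIF

open Polynomial

variable {p k : ℕ} [Fact p.Prime] {f : ℤ[X]} {E : Type*} [Field E] [CharZero E]
  [Algebra ℚ E] [IsAlgClosed E] [Algebra.IsAlgebraic ℚ E] [Normal ℚ E]

theorem min_orient (h : GoodF p k f) {b : Fin (2 ^ k) → E} (hs : Spl p f b)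
    (A : ValuationSubring E) (ht : TwoAd p k A b) (ho : Orient p k A b)
    (W : Submodule ℚ (Fin (2 ^ k) × Bool → ℚ))
    (hanti : ∀ φ ∈ W, ∀ i c, φ (i, !c) = - φ (i, c))
    (hst : ∀ φ ∈ W, ∀ (σ : E ≃ₐ[ℚ] E) (γ : Equiv.Perm (Fin (2 ^ k) × Bool)),
      (∀ x, σ (Bx p b x) = Bx p b (γ x)) → (fun x => φ (γ x)) ∈ W)
    (hW : W ≠ ⊥) : 2 ^ k - 1 ≤ Module.finrank ℚ W := by
  obtain ⟨hb0, hinj⟩ := roots_inj h hs
  let Γ : Subgroup (Equiv.Perm (Fin (2 ^ k) × Bool)) :=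
    { carrier := {γ | ∃ σ : E ≃ₐ[ℚ] E, ∀ x, σ (Bx p b x) = Bx p b (γ x)}
      one_mem' := ⟨AlgEquiv.refl, fun x => rfl⟩
      mul_mem' := by
        rintro γ γ' ⟨σ, hσ⟩ ⟨σ', hσ'⟩
        refine ⟨σ * σ', fun x => ?_⟩
        rw [AlgEquiv.mul_apply, hσ', hσ, Equiv.Perm.mul_apply]
      inv_mem' := by
        rintro γ ⟨σ, hσ⟩
        refine ⟨σ.symm, fun x => ?_⟩
        rw [AlgEquiv.symm_apply_eq, hσ]
        congr 1
        exact (γ.apply_symm_apply x).symm }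
  have hΓ : ∀ γ, γ ∈ Γ ↔ ∃ σ : E ≃ₐ[ℚ] E, ∀ x, σ (Bx p b x) = Bx p b (γ x) := fun γ => Iff.rfl
  have htrue : ∀ i, Bx p b (i, true) = b i := fun i => rfl
  have hfalse : ∀ i, Bx p b (i, false) = (p : E) / b i := fun i => rfl
  have hperm : ∀ σ : E ≃ₐ[ℚ] E, ∃ γ ∈ Γ, ∀ x, σ (Bx p b x) = Bx p b (γ x) := by
    intro σ
    obtain ⟨γ, hγ, -⟩ := exists_perm h hs σ
    exact ⟨γ, (hΓ γ).2 ⟨σ, hγ⟩, hγ⟩
  refine comb_dim Γ ?_ ?_ ?_ ?_ W hanti ?_ hW
  · intro γ hγ i c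
    obtain ⟨σ, hσ⟩ := (hΓ γ).1 hγ
    obtain ⟨γ', h1, h2⟩ := exists_perm h hs σ
    have h3 : ∀ x, γ x = γ' x := fun x => hinj (by rw [← hσ, h1])
    rw [h3, h3]
    exact h2 i c
  · intro i j
    obtain ⟨σ, hσ⟩ := exists_root_conj h hs (i, true) (j, true)
    obtain ⟨γ, hγ, h1⟩ := hperm σ
    exact ⟨γ, hγ, hinj (by rw [← h1, hσ])⟩
  · intro i j l hij hil
    obtain ⟨σ, h1, h2⟩ := two_trans h hs A ht ho hij hil
    obtain ⟨γ, hγ, h3⟩ := hperm σ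
    refine ⟨γ, hγ, hinj ?_, hinj ?_⟩
    · rw [← h3, htrue, h1]
    · rw [← h3, htrue, htrue, h2]
  · obtain ⟨σ, ⟨i, j, h1⟩, ⟨i', j', h2⟩⟩ := exists_mixed h hs
    obtain ⟨γ, hγ, h3⟩ := hperm σ
    have h4 : γ (i, true) = (j, true) := hinj (by rw [← h3, htrue, htrue, h1])
    have h5 : γ (i', true) = (j', false) := hinj (by rw [← h3, htrue, hfalse, h2])
    exact ⟨γ, hγ, ⟨i, by rw [h4]⟩, ⟨i', by rw [h5]⟩⟩
  · intro φ hφ γ hγ
    obtain ⟨σ, hσ⟩ := (hΓ γ).1 hγ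
    exact hst φ hφ σ γ hσ

theorem min_dim (h : GoodF p k f) {a : Fin (2 ^ k) → E} (hs : Spl p f a)
    (W : Submodule ℚ (Fin (2 ^ k) × Bool → ℚ))
    (hanti : ∀ φ ∈ W, ∀ i c, φ (i, !c) = - φ (i, c))
    (hst : ∀ φ ∈ W, ∀ (σ : E ≃ₐ[ℚ] E) (γ : Equiv.Perm (Fin (2 ^ k) × Bool)),
      (∀ x, σ (Bx p a x) = Bx p a (γ x)) → (fun x => φ (γ x)) ∈ W)
    (hW : W ≠ ⊥) : 2 ^ k - 1 ≤ Module.finrank ℚ W := by
  classical
  obtain ⟨ha0, -⟩ := roots_inj h hs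
  have hp0 : (p : E) ≠ 0 := Nat.cast_ne_zero.2 (Fact.out : p.Prime).ne_zero
  have : Fact (Nat.Prime 2) := ⟨Nat.prime_two⟩
  obtain ⟨A, hA⟩ := exists_val (E := E) 2
  have h2 : A.valuation (2 : E) < 1 := by
    have h3 : (((2 : ℕ)) : E) = 2 := Nat.cast_ofNat
    rwa [h3] at hA
  obtain ⟨b, hb, ho⟩ := exists_orient h hs A h2
  have hsb : Spl p f b := spl_swap ha0 hp0 hs hb
  have ht : TwoAd p k A b := two_ad h hsb A h2
  -- the change of the enumeration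
  let t : Fin (2 ^ k) × Bool → Fin (2 ^ k) × Bool :=
    fun x => if b x.1 = a x.1 then x else (x.1, !x.2)
  have ht1 : ∀ i c, b i = a i → t (i, c) = (i, c) := fun i c hi => if_pos hi
  have ht2 : ∀ i c, b i ≠ a i → t (i, c) = (i, !c) := fun i c hi => if_neg hi
  have htt : ∀ x, t (t x) = x := by
    rintro ⟨i, c⟩
    by_cases hi : b i = a i
    · rw [ht1 i c hi, ht1 i c hi]
    · rw [ht2 i c hi, ht2 i (!c) hi, Bool.not_not]
  let τ : Equiv.Perm (Fin (2 ^ k) × Bool) := ⟨t, t, htt, htt⟩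
  have hτ : ∀ x, τ x = t x := fun x => rfl
  have hτi : ∀ x, τ⁻¹ (τ x) = x := fun x => τ.symm_apply_apply x
  have hBx : ∀ x, Bx p b x = Bx p a (τ x) := by
    rintro ⟨i, c⟩
    rw [hτ]
    by_cases hi : b i = a i
    · rw [ht1 i c hi]
      unfold Bx
      rw [hi]
    · rw [ht2 i c hi]
      have hbi : b i = (p : E) / a i := (hb i).resolve_left hi
      cases c
      · show (p : E) / b i = a i
        rw [hbi, div_div_cancel₀ hp0]
      · exact hbi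
  have hsw : ∀ i c, τ (i, !c) = ((τ (i, c)).1, !(τ (i, c)).2) := by
    intro i c
    rw [hτ, hτ]
    by_cases hi : b i = a i
    · rw [ht1 i c hi, ht1 i (!c) hi]
    · rw [ht2 i c hi, ht2 i (!c) hi]
  -- the transported space
  let e : (Fin (2 ^ k) × Bool → ℚ) ≃ₗ[ℚ] (Fin (2 ^ k) × Bool → ℚ) :=
    LinearEquiv.funCongrLeft ℚ ℚ τ
  have he : ∀ φ x, e φ x = φ (τ x) := fun φ x => rfl
  rw [← LinearEquiv.finrank_map_eq e W]
  refine min_orient h hsb A ht ho (W.map (e : (Fin (2 ^ k) × Bool → ℚ) →ₗ[ℚ] _)) ?_ ?_ ?_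
  · rintro _ ⟨φ, hφ, rfl⟩ i c
    show e φ (i, !c) = -e φ (i, c)
    rw [he, he, hsw, hanti φ hφ]
  · rintro _ ⟨φ, hφ, rfl⟩ σ γ hγ
    have h1 : ∀ y, σ (Bx p a y) = Bx p a ((τ * γ * τ⁻¹) y) := by
      intro y
      obtain ⟨x, rfl⟩ := τ.surjective y
      rw [← hBx, hγ, hBx, Equiv.Perm.mul_apply, Equiv.Perm.mul_apply, hτi]
    refine ⟨fun y => φ ((τ * γ * τ⁻¹) y), hst φ hφ σ _ h1, ?_⟩
    funext x
    show φ ((τ * γ * τ⁻¹) (τ x)) = φ (τ (γ x))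
    rw [Equiv.Perm.mul_apply, Equiv.Perm.mul_apply, hτi]
  · intro hbot
    apply hW
    rw [Submodule.eq_bot_iff] at hbot ⊢
    intro φ hφ
    have h1 := hbot (e φ) ⟨φ, hφ, rfl⟩
    exact e.map_eq_zero_iff.1 h1

end LIF
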