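import Pool.Agent.helper1.GLI.Chh
import Pool.Agent.helper1.LI.Sym

/-!
[GLI-Neg] The root `γ` of `hq s (2^k) = X^(2g) + s X^g - 1`, `g = 2^k`, `k ≥ 1`.

* `gam_neg`: `γ^(p^g) = -γ`.  The polynomial is even (`g` is even), so `-γ` is a root, so
  `-γ = γ^(p^j)` for some `j < 2g` (`gam_roots`), `j ≠ 0` (`γ ≠ 0`, `p` odd).  Apply the `p^j`-th
  power again: `γ^(p^(2j)) = (-γ)^(p^j) = -γ^(p^j) = γ`, so `2g ∣ 2j` (`mem_Km_iff_dvd`,
  `mem_Km`), `g ∣ j`, `0 < j < 2g`, so `j = g`.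
* `eta_of_fix`: if `x ≠ 0`, `x^(p^g) = x` then `η_(2g)(x) = 1`: `(p^(2g)-1)/2 =
  (p^g - 1) (p^g+1)/2`.
* `eta_gam`: for `p % 4 = 3`, `g` even, `γ^(p^g) = -γ`, `γ ≠ 0`: `η_(2g)(γ) = -1`:
  `γ^((p^(2g)-1)/2) = (γ^(p^g+1))^((p^g-1)/2) = (-γ^2)^((p^g-1)/2) = γ^(p^g-1) = -1`
  (`(p^g-1)/2` is even because `p^g % 8 = 1`, `g` even).
* `diff_eta`: for `1 ≤ j < 2g`: `γ^(p^j) - γ = γ (γ^(p^j-1) - 1)`, `x = γ^(p^j-1) - 1` satisfies
  `x^(p^g) = x` (`(-γ)^(p^j-1) = γ^(p^j-1)`, `p^j - 1` even; Frobenius is additive) and `x ≠ 0`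
  since `γ^(p^j) ≠ γ` (degree `2g`).  So `η = η(γ) η(x) = -1`.
* `eta_one_sub`: `η_(2g)(1 - γ) = -1`: `chh_X_sub_one` (`LI/Sym.lean`) says `chh h0 (X - 1) = -1`, so
  `η(γ - 1) = -1` by `chh_pow`, and `η(-1) = (-1)^((p^(2g)-1)/2) = 1`.
* `gam_ne`: `γ^(p^d) ≠ γ` and `≠ -γ` for odd `d` (`γ ≠ 0`): degree `2g`; if `γ^(p^d) = -γ` then
  `γ^(p^(2d)) = γ`, so `2g ∣ 2d`, `g ∣ d`, but `g` is even and `d` odd.
-/

set_option autoImplicit false

namespace LIF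

open Polynomial

variable {p : ℕ} [Fact p.Prime]

theorem gam_ne_zero {g : ℕ} {h0 : (ZMod p)[X]} (hg : Good p g h0)
    {γ : AlgebraicClosure (ZMod p)} (hγ : aeval γ h0 = 0) : γ ≠ 0 := by
  intro h
  have h1 := gam_deg hg hγ
  rw [h, minpoly.zero, natDegree_X] at h1
  omega

theorem Neg_two_ne (hp : p ≠ 2) : (2 : AlgebraicClosure (ZMod p)) ≠ 0 := by
  intro h
  have h2 : ((2 : ℕ) : AlgebraicClosure (ZMod p)) = 0 := by exact_mod_cast h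
  rw [CharP.cast_eq_zero_iff (AlgebraicClosure (ZMod p)) p] at h2
  exact hp ((Nat.prime_dvd_prime_iff_eq Fact.out Nat.prime_two).1 h2)

theorem Neg_dvd {g : ℕ} {h0 : (ZMod p)[X]} (hg : Good p g h0)
    {γ : AlgebraicClosure (ZMod p)} (hγ : aeval γ h0 = 0) {m : ℕ} (hm : 1 ≤ m)
    (h : γ ^ (p ^ m) = γ) : 2 * g ∣ m := by
  rw [← gam_deg hg hγ]
  exact (mem_Km_iff_dvd hm).1 ((mem_Km hm).2 h)

theorem gam_neg {k : ℕ} (hk : 1 ≤ k) {s : ZMod p} (hg : Good p (2 ^ k) (hq s (2 ^ k)))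
    {γ : AlgebraicClosure (ZMod p)} (hγ : aeval γ (hq s (2 ^ k)) = 0) :
    γ ^ (p ^ (2 ^ k)) = -γ := by
  have hp2 := hg.p2
  have hodd : Odd p := (Fact.out : p.Prime).odd_of_ne_two hp2
  have h1 : aeval (-γ) (hq s (2 ^ k)) = 0 := by
    have he : Even (2 ^ k) := (Nat.even_pow' (by omega)).2 even_two
    have h2 : aeval (-γ) (hq s (2 ^ k)) = aeval γ (hq s (2 ^ k)) := by
      simp only [hq, map_sub, map_add, map_mul, map_pow, aeval_X, aeval_C, map_one]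
      rw [(he.mul_left 2).neg_pow, he.neg_pow]
    rw [h2, hγ]
  rw [gam_roots hg hγ, Finset.prod_eq_zero_iff] at h1
  obtain ⟨j, hj, hj0⟩ := h1
  rw [Finset.mem_range] at hj
  have h2 : γ ^ (p ^ j) = -γ := (sub_eq_zero.1 hj0).symm
  have h3 : γ ^ (p ^ (j + j)) = γ := by
    rw [pow_add, pow_mul, h2, (hodd.pow).neg_pow, h2, neg_neg]
  rcases Nat.eq_zero_or_pos j with h0 | h0
  · exfalso
    rw [h0, pow_zero, pow_one] at h2
    have h4 : 2 * γ = 0 := by linear_combination h2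
    rcases mul_eq_zero.1 h4 with h5 | h5
    · exact Neg_two_ne hp2 h5
    · exact gam_ne_zero hg hγ h5
  · have h4 := Neg_dvd hg hγ (by omega) h3
    have h5 : 2 ^ k ∣ j := by
      obtain ⟨c, hc⟩ := h4
      exact ⟨c, by
        have : 2 * j = 2 * (2 ^ k * c) := by rw [two_mul, hc]; ring
        omega⟩
    obtain ⟨c, hc⟩ := h5
    have h6 : c = 1 := by
      rcases Nat.lt_or_ge c 2 with h7 | h7
      · rcases Nat.eq_zero_or_pos c with h8 | h8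
        · rw [h8, mul_zero] at hc; omega
        · omega
      · have h9 : 2 ^ k * 2 ≤ 2 ^ k * c := Nat.mul_le_mul_left _ h7
        omega
    rw [h6, mul_one] at hc
    rw [← hc]
    exact h2

theorem Neg_exp {g : ℕ} (hp : p ≠ 2) : (p ^ (2 * g) - 1) / 2 = (p ^ g - 1) * ((p ^ g + 1) / 2) := by
  have hodd : Odd (p ^ g) := ((Fact.out : p.Prime).odd_of_ne_two hp).pow
  obtain ⟨r, hr⟩ := hodd
  have h1 : p ^ (2 * g) = (2 * r + 1) * (2 * r + 1) := by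
    rw [two_mul, pow_add, hr]
  have h2 : (2 * r + 1) * (2 * r + 1) - 1 = 2 * (2 * r * (r + 1)) := by
    have : (2 * r + 1) * (2 * r + 1) = 2 * (2 * r * (r + 1)) + 1 := by ring
    omega
  rw [h1, h2, hr]
  have h3 : (2 * r + 1 + 1) / 2 = r + 1 := by omega
  have h4 : 2 * r + 1 - 1 = 2 * r := by omega
  rw [h3, h4]
  omega

theorem eta_of_fix {g : ℕ} {x : AlgebraicClosure (ZMod p)} (hp : p ≠ 2) (hx0 : x ≠ 0)
    (hx : x ^ (p ^ g) = x) : eta p (2 * g) x = 1 := by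
  have h1 : x ^ (p ^ g - 1) = 1 := by
    have h2 : 1 ≤ p ^ g := Nat.one_le_pow _ _ (Fact.out : p.Prime).pos
    have h3 : x * x ^ (p ^ g - 1) = x * 1 := by
      rw [← pow_succ', Nat.sub_add_cancel h2, hx, mul_one]
    exact mul_left_cancel₀ hx0 h3
  unfold eta
  rw [Neg_exp hp, pow_mul, h1, one_pow]

theorem Neg_mod8 {g : ℕ} (ge : Even g) (hp : p ≠ 2) : p ^ g % 8 = 1 := by
  have hodd : Odd p := (Fact.out : p.Prime).odd_of_ne_two hp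
  obtain ⟨r, hr⟩ := ge
  obtain ⟨c, hc⟩ := hodd.pow (n := r)
  have h1 : p ^ g = (2 * c + 1) * (2 * c + 1) := by rw [hr, pow_add, hc]
  rw [h1]
  have h2 : (2 * c + 1) * (2 * c + 1) = 4 * (c * (c + 1)) + 1 := by ring
  have h3 : 2 ∣ c * (c + 1) := (Nat.even_mul_succ_self c).two_dvd
  obtain ⟨d, hd⟩ := h3
  rw [h2, hd]
  omega

theorem eta_gam {g : ℕ} (ge : Even g) (g1 : 1 ≤ g) (hp4 : p % 4 = 3)
    {γ : AlgebraicClosure (ZMod p)}
    (h0 : γ ≠ 0) (hn : γ ^ (p ^ g) = -γ) : eta p (2 * g) γ = -1 := by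
  have hp2 : p ≠ 2 := by omega
  have h8 := Neg_mod8 (p := p) ge hp2
  obtain ⟨t, ht⟩ : ∃ t, p ^ g = 8 * t + 1 := ⟨p ^ g / 8, by omega⟩
  have h1 : γ ^ (p ^ g - 1) = -1 := by
    have h2 : 1 ≤ p ^ g := Nat.one_le_pow _ _ (Fact.out : p.Prime).pos
    have h3 : γ * γ ^ (p ^ g - 1) = γ * (-1) := by
      rw [← pow_succ', Nat.sub_add_cancel h2, hn, mul_neg, mul_one]
    exact mul_left_cancel₀ h0 h3
  unfold eta
  rw [Neg_exp hp2, pow_mul, h1]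
  have h5 : (p ^ g + 1) / 2 = 4 * t + 1 := by omega
  rw [h5, pow_succ, pow_mul]
  norm_num

theorem diff_eta {g : ℕ} {h0 : (ZMod p)[X]} (hg : Good p g h0) (ge : Even g) (hp4 : p % 4 = 3)
    {γ : AlgebraicClosure (ZMod p)} (hγ : aeval γ h0 = 0) (hn : γ ^ (p ^ g) = -γ) {j : ℕ}
    (hj1 : 1 ≤ j) (hj2 : j < 2 * g) : eta p (2 * g) (γ ^ (p ^ j) - γ) = -1 := by
  have hp2 := hg.p2
  have hodd : Odd p := (Fact.out : p.Prime).odd_of_ne_two hp2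
  have h1 : 1 ≤ p ^ j := Nat.one_le_pow _ _ (Fact.out : p.Prime).pos
  have hev : Even (p ^ j - 1) := by
    obtain ⟨r, hr⟩ := hodd.pow (n := j)
    exact ⟨r, by omega⟩
  have h2 : γ ^ (p ^ j) - γ = γ * (γ ^ (p ^ j - 1) - 1) := by
    rw [mul_sub, ← pow_succ', Nat.sub_add_cancel h1, mul_one]
  have h3 : γ ^ (p ^ j - 1) - 1 ≠ 0 := by
    intro h
    rw [h, mul_zero, sub_eq_zero] at h2
    have := Neg_dvd hg hγ hj1 h2
    have := Nat.le_of_dvd (by omega) this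
    omega
  have h4 : (γ ^ (p ^ j - 1) - 1) ^ (p ^ g) = γ ^ (p ^ j - 1) - 1 := by
    rw [sub_pow_char_pow, one_pow, ← pow_mul, mul_comm, pow_mul, hn, hev.neg_pow]
  have h5 : eta p (2 * g) (γ * (γ ^ (p ^ j - 1) - 1)) =
      eta p (2 * g) γ * eta p (2 * g) (γ ^ (p ^ j - 1) - 1) := by
    unfold eta
    rw [mul_pow]
  rw [h2, h5, eta_gam ge hg.g1 hp4 (gam_ne_zero hg hγ) hn, eta_of_fix hp2 h3 h4, mul_one]

theorem eta_one_sub {g : ℕ} {h0 : (ZMod p)[X]} (hg : Good p g h0)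
    {γ : AlgebraicClosure (ZMod p)} (hγ : aeval γ h0 = 0) : eta p (2 * g) (1 - γ) = -1 := by
  have h1 := chh_pow hg hγ (X - 1)
  rw [chh_X_sub_one hg, map_sub, aeval_X, map_one, Int.cast_neg, Int.cast_one] at h1
  have h2 : 1 - γ = (-1) * (γ - 1) := by ring
  have h3 : eta p (2 * g) ((-1) * (γ - 1)) =
      eta p (2 * g) (-1 : AlgebraicClosure (ZMod p)) * eta p (2 * g) (γ - 1) := by
    unfold eta
    rw [mul_pow]
  have h4 : eta p (2 * g) (-1 : AlgebraicClosure (ZMod p)) = 1 := by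
    unfold eta
    have h8 := Neg_mod8 (p := p) (g := 2 * g) ⟨g, by ring⟩ hg.p2
    obtain ⟨t, ht⟩ : ∃ t, p ^ (2 * g) = 8 * t + 1 := ⟨p ^ (2 * g) / 8, by omega⟩
    have h5 : (p ^ (2 * g) - 1) / 2 = 2 * (2 * t) := by omega
    rw [h5, pow_mul]
    norm_num
  rw [h2, h3, h4, ← h1, one_mul]

theorem gam_ne {g : ℕ} {h0 : (ZMod p)[X]} (hg : Good p g h0) (ge : Even g)
    {γ : AlgebraicClosure (ZMod p)} (hγ : aeval γ h0 = 0) {d : ℕ} (hd : d % 2 = 1) :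
    γ ^ (p ^ d) ≠ γ ∧ γ ^ (p ^ d) ≠ -γ := by
  have hodd : Odd p := (Fact.out : p.Prime).odd_of_ne_two hg.p2
  obtain ⟨r, hr⟩ := ge
  constructor
  · intro h
    obtain ⟨c, hc⟩ := Neg_dvd hg hγ (by omega) h
    have : d = 2 * (g * c) := by rw [hc]; ring
    omega
  · intro h
    have h3 : γ ^ (p ^ (d + d)) = γ := by
      rw [pow_add, pow_mul, h, (hodd.pow).neg_pow, h, neg_neg]
    obtain ⟨c, hc⟩ := Neg_dvd hg hγ (by omega) h3
    have h4 : d = g * c := by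
      have : 2 * d = 2 * (g * c) := by rw [two_mul, hc]; ring
      omega
    have h5 : d = 2 * (r * c) := by rw [h4, hr]; ring
    omega

end LIF
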