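import Pool.Agent.helper1.GLI.Carl
import Pool.Agent.helper1.GLI.Neg
import Pool.Agent.helper1.LI.Mon
import Pool.Agent.helper1.LI.Sym
import Pool.Agent.helper1.LI.Par

/-!
[GLI-Mod4] `4 ∣ S_d` for `1 ≤ d < 2g`.

`p % 4 = 3`, `g` even, `γ` a root of `h0` with `γ^(p^g) = -γ`.

Proof.  `S_d = ∑_{h ∈ Mon p d} chi (Dp h0) h = ∑_h ch1 h * chh h0 h` (`chi_eq`, `LI/Sym.lean`).
Let `T = (Mon p d).filter (h.eval 1 ≠ 0)`.  For `h ∈ T` both factors are `±1` (`ch1_ne_zero_iff`,
`chh_ne_zero_iff`, `h0 ∤ h` as `deg h = d < 2g`); for `h ∉ T` the term is `0`.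
`card T + p^(d-1) = p^d` (`Par_card`), so `card T = p^(d-1) (p-1) ≡ 2 (mod 4)` (`p - 1 ≡ 2 mod 4`,
`p` odd).  If `m` is the number of `h ∈ T` with value `-1` then `S_d = card T - 2 m` and
`(-1)^m = ∏_{h ∈ T} ch1 h * ∏_{h ∈ T} chh h0 h`.  Claim: the first product is `-1`, the second is
`1`; so `m` is odd and `S_d ≡ 2 - 2 ≡ 0 (mod 4)`.

First product: the number of `h ∈ Mon p d` with `h.eval 1 = c` is `p^(d-1)` for each `c ∈ F_p`
(odd), so the number of `h ∈ T` with `ch1 h = -1` is `p^(d-1) (p-1)/2`, which is odd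
(`(p-1)/2` is odd; `quadraticChar` has `(p-1)/2` values `-1`).
(Alternatively multiply out: `∏_{c ≠ 0} η(c)^(p^(d-1)) = η(-1) = -1`, Wilson.)

Second product: let `P_d = ∏_{h ∈ Mon p d} chh h0 h ∈ {1, -1}` for `d < 2g`.  By `chh_pow`,
`prod_Mon_aeval` and multiplicativity of `η = eta p (2g)`
`P_d = η(∏_h h(γ)) = ∏_{i < d} η(γ^(p^d) - γ^(p^i))`, and
`γ^(p^d) - γ^(p^i) = (γ^(p^(d-i)) - γ)^(p^i)`, so each factor is `(-1)^(p^i) = -1` by `diff_eta`
(`1 ≤ d - i < 2g`).  So `P_d = (-1)^d` (in the algebraic closure, characteristic `≠ 2`, hence in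
`ℤ`).  The `h ∈ Mon p d` with `h.eval 1 = 0` are `(X - 1) h'`, `h' ∈ Mon p (d-1)` (see
`sum_Mon_root` and its proof for the bijection), and `chh h0 ((X-1) h') = - chh h0 h'`
(`chh_mul`, `chh_X_sub_one`), so their product is `(-1)^(p^(d-1)) P_(d-1) = - (-1)^(d-1) = (-1)^d`.
So `∏_{h ∈ T} chh h0 h = (-1)^d / (-1)^d = 1`.
-/

set_option autoImplicit false

namespace LIF

open Polynomial

theorem Mod4_sum {α : Type*} (T : Finset α) (u : α → ℤ) (hu : ∀ x ∈ T, u x = 1 ∨ u x = -1) :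
    (4 : ℤ) ∣ (∑ x ∈ T, u x) - ((T.card : ℤ) + (∏ x ∈ T, u x) - 1) := by
  classical
  induction T using Finset.induction_on with
  | empty => simp
  | insert a T ha ih =>
    rw [Finset.sum_insert ha, Finset.prod_insert ha, Finset.card_insert_of_notMem ha]
    have ih' := ih (fun x hx => hu x (Finset.mem_insert_of_mem hx))
    have hP : (∏ x ∈ T, u x) = 1 ∨ (∏ x ∈ T, u x) = -1 := by
      have h1 : ∀ x ∈ T, u x = 1 ∨ u x = -1 := fun x hx => hu x (Finset.mem_insert_of_mem hx)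
      clear ih ih' hu ha
      induction T using Finset.induction_on with
      | empty => left; simp
      | insert b T hb ih2 =>
        rw [Finset.prod_insert hb]
        have h2 := ih2 (fun x hx => h1 x (Finset.mem_insert_of_mem hx))
        rcases h1 b (Finset.mem_insert_self b T) with h3 | h3 <;>
          rcases h2 with h4 | h4 <;> rw [h3, h4] <;> norm_num
    push_cast
    rcases hu a (Finset.mem_insert_self a T) with h3 | h3 <;>
      rcases hP with h4 | h4 <;> rw [h3, h4] <;> rw [h4] at ih' <;> omega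

theorem Mod4_chh_pm {p : ℕ} [Fact p.Prime] {g : ℕ} {h0 : (ZMod p)[X]} (hg : Good p g h0)
    {d : ℕ} (hd : d < 2 * g) {h : (ZMod p)[X]} (hh : h ∈ Mon p d) :
    chh h0 h = 1 ∨ chh h0 h = -1 := by
  obtain ⟨h5, h6⟩ := mem_Mon.1 hh
  have h7 : chh h0 h ≠ 0 := by
    rw [chh_ne_zero_iff hg]
    refine not_dvd_of_natDegree_lt h5.ne_zero ?_
    rw [h6, hg.deg]
    exact hd
  rcases chh_cases (h0 := h0) h with h8 | h8 | h8
  · exact absurd h8 h7
  · exact Or.inl h8
  · exact Or.inr h8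

theorem Mod4_prod_pm {α : Type*} (T : Finset α) (u : α → ℤ) (hu : ∀ x ∈ T, u x = 1 ∨ u x = -1) :
    (∏ x ∈ T, u x) = 1 ∨ (∏ x ∈ T, u x) = -1 := by
  classical
  induction T using Finset.induction_on with
  | empty => left; simp
  | insert b T hb ih2 =>
    rw [Finset.prod_insert hb]
    have h2 := ih2 (fun x hx => hu x (Finset.mem_insert_of_mem hx))
    rcases hu b (Finset.mem_insert_self b T) with h3 | h3 <;>
      rcases h2 with h4 | h4 <;> rw [h3, h4] <;> norm_num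

/-- the product of the symbols of all monic polynomials of degree `d` is `(-1)^d` -/
theorem Mod4_P {p : ℕ} [Fact p.Prime] {g : ℕ} {h0 : (ZMod p)[X]} (hg : Good p g h0)
    (ge : Even g) (hp4 : p % 4 = 3) {γ : AlgebraicClosure (ZMod p)} (hγ : aeval γ h0 = 0)
    (hn : γ ^ (p ^ g) = -γ) {d : ℕ} (hd2 : d < 2 * g) :
    ∏ h ∈ Mon p d, chh h0 h = (-1) ^ d := by
  have hodd : ∀ i : ℕ, Odd (p ^ i) := fun i => (Par_odd hg.p2).pow
  have h1 : ((∏ h ∈ Mon p d, chh h0 h : ℤ) : AlgebraicClosure (ZMod p)) = (-1) ^ d := by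
    rw [Int.cast_prod, Finset.prod_congr rfl (fun h _ => chh_pow hg hγ h)]
    have h2 : ∏ h ∈ Mon p d, eta p (2 * g) (aeval γ h) =
        eta p (2 * g) (∏ h ∈ Mon p d, aeval γ h) := by
      unfold eta
      rw [Finset.prod_pow]
    rw [h2, prod_Mon_aeval (by rw [gam_deg hg hγ]; exact hd2.le)]
    have h3 : eta p (2 * g) (∏ i ∈ Finset.range d, (γ ^ (p ^ d) - γ ^ (p ^ i))) =
        ∏ i ∈ Finset.range d, eta p (2 * g) (γ ^ (p ^ d) - γ ^ (p ^ i)) := by
      unfold eta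
      rw [Finset.prod_pow]
    rw [h3, Finset.prod_congr rfl (g := fun _ => (-1 : AlgebraicClosure (ZMod p)))]
    · rw [Finset.prod_const, Finset.card_range]
    · intro i hi
      rw [Finset.mem_range] at hi
      have h4 : γ ^ (p ^ d) - γ ^ (p ^ i) = (γ ^ (p ^ (d - i)) - γ) ^ (p ^ i) := by
        rw [sub_pow_char_pow, ← pow_mul, ← pow_add, Nat.sub_add_cancel hi.le]
      have h5 : eta p (2 * g) ((γ ^ (p ^ (d - i)) - γ) ^ (p ^ i)) =
          (eta p (2 * g) (γ ^ (p ^ (d - i)) - γ)) ^ (p ^ i) := by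
        unfold eta
        rw [← pow_mul, ← pow_mul, mul_comm]
      rw [h4, h5, diff_eta hg ge hp4 hγ hn (by omega) (by omega)]
      exact (hodd i).neg_one_pow
  have h2 : (∏ h ∈ Mon p d, chh h0 h) = 1 ∨ (∏ h ∈ Mon p d, chh h0 h) = -1 :=
    Mod4_prod_pm _ _ (fun h hh => Mod4_chh_pm hg hd2 hh)
  have h6 : (2 : AlgebraicClosure (ZMod p)) ≠ 0 := by
    intro h7
    have h8 : ((2 : ℕ) : AlgebraicClosure (ZMod p)) = 0 := by exact_mod_cast h7
    rw [CharP.cast_eq_zero_iff (AlgebraicClosure (ZMod p)) p] at h8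
    have h9 := (Nat.prime_dvd_prime_iff_eq (Fact.out : p.Prime) Nat.prime_two).1 h8
    exact hg.p2 h9
  rcases h2 with h2 | h2 <;> rcases neg_one_pow_eq_or ℤ d with h3 | h3
  · rw [h2, h3]
  · exfalso
    have h4 := congrArg (fun z : ℤ => (z : AlgebraicClosure (ZMod p))) h3
    simp only [Int.cast_pow, Int.cast_neg, Int.cast_one] at h4
    rw [h2, h4] at h1
    apply h6
    have h5 : (1 : AlgebraicClosure (ZMod p)) = -1 := by simpa using h1
    linear_combination h5
  · exfalso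
    have h4 := congrArg (fun z : ℤ => (z : AlgebraicClosure (ZMod p))) h3
    simp only [Int.cast_pow, Int.cast_neg, Int.cast_one] at h4
    rw [h2, h4] at h1
    apply h6
    have h5 : (-1 : AlgebraicClosure (ZMod p)) = 1 := by simpa using h1
    linear_combination -h5
  · rw [h2, h3]

theorem Sd_four {p : ℕ} [Fact p.Prime] {g : ℕ} {h0 : (ZMod p)[X]} (hg : Good p g h0)
    (ge : Even g) (hp4 : p % 4 = 3) {γ : AlgebraicClosure (ZMod p)} (hγ : aeval γ h0 = 0)
    (hn : γ ^ (p ^ g) = -γ) {d : ℕ} (hd1 : 1 ≤ d) (hd2 : d < 2 * g) :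
    (4 : ℤ) ∣ Sd (Dp h0) d := by
  classical
  obtain ⟨e, rfl⟩ : ∃ e, d = e + 1 := ⟨d - 1, by omega⟩
  obtain ⟨T, hT⟩ : ∃ T, T = (Mon p (e + 1)).filter (fun h : (ZMod p)[X] => h.eval 1 ≠ 0) := ⟨_, rfl⟩
  have hodd : ∀ i : ℕ, Odd (p ^ i) := fun i => (Par_odd hg.p2).pow
  -- the cardinality
  have hc : (T.card : ℤ) % 4 = 2 := by
    have h1 := Par_card (p := p) (d := e + 1) (by omega)
    rw [← hT, Nat.add_sub_cancel, pow_succ] at h1
    have h2 : p ^ e % 4 = 1 ∨ p ^ e % 4 = 3 := by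
      obtain ⟨r, hr⟩ := hodd e
      omega
    have h3 : (p ^ e * p) % 4 = (p ^ e % 4 * 3) % 4 := by
      rw [Nat.mul_mod, hp4]
    have h4 : T.card % 4 = 2 := by
      rcases h2 with h2 | h2 <;> rw [h2] at h3 <;> omega
    omega
  have hch1 : ∀ h ∈ T, ch1 h = 1 ∨ ch1 h = -1 := by
    intro h hh
    rw [hT, Finset.mem_filter] at hh
    rcases ch1_cases h with h6 | h6 | h6
    · exact absurd h6 ((ch1_ne_zero_iff h).2 hh.2)
    · exact Or.inl h6
    · exact Or.inr h6
  have hchh : ∀ h ∈ T, chh h0 h = 1 ∨ chh h0 h = -1 := by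
    intro h hh
    rw [hT, Finset.mem_filter] at hh
    exact Mod4_chh_pm hg hd2 hh.1
  have hS : Sd (Dp h0) (e + 1) = ∑ h ∈ T, ch1 h * chh h0 h := by
    unfold Sd
    rw [hT, Finset.sum_filter]
    apply Finset.sum_congr rfl
    intro h hh
    rw [chi_eq hg (mem_Mon.1 hh).1]
    split_ifs with h1
    · rfl
    · have h3 : ch1 h = 0 := by
        by_contra h4
        exact h1 ((ch1_ne_zero_iff h).1 h4)
      rw [h3, zero_mul]
  -- first product
  have hp1 : ∏ h ∈ T, ch1 h = -1 := by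
    have hphi : ∑ c : ZMod p, quadraticChar (ZMod p) c = 0 :=
      quadraticChar_sum_zero (by rw [ZMod.ringChar_zmod_n]; exact hg.p2)
    have h1 : ∑ h ∈ T, ch1 h = 0 := by
      have h2 := sum_Mon_ch (p := p) (φ := fun c => quadraticChar (ZMod p) c) hphi
        (d := e + 1) (by omega)
      rw [← h2, hT, Finset.sum_filter]
      apply Finset.sum_congr rfl
      intro h _
      split_ifs with h3
      · rfl
      · rw [not_not] at h3
        rw [h3, quadraticChar_zero]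
    have h2 := Mod4_sum T ch1 hch1
    rw [h1] at h2
    rcases Mod4_prod_pm T ch1 hch1 with h3 | h3
    · rw [h3] at h2
      omega
    · exact h3
  -- second product
  have hp2 : ∏ h ∈ T, chh h0 h = 1 := by
    have h1 := Mod4_P hg ge hp4 hγ hn hd2
    have h2 := Mod4_P hg ge hp4 hγ hn (d := e) (by omega)
    have h3 : ∏ h ∈ (Mon p (e + 1)).filter (fun h : (ZMod p)[X] => h.eval 1 = 0), chh h0 h =
        ∏ h ∈ Mon p e, chh h0 ((X - 1) * h) := by
      have h4 := sum_Mon_root (p := p) (M := Additive ℤ) (fun h => Additive.ofMul (chh h0 h)) e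
      rw [← ofMul_prod, ← ofMul_prod] at h4
      exact Additive.ofMul.injective h4
    have h5 : ∏ h ∈ Mon p e, chh h0 ((X - 1) * h) = -(-1) ^ e := by
      have h6 : ∀ h ∈ Mon p e, chh h0 ((X - 1) * h) = (-1) * chh h0 h := by
        intro h _
        rw [chh_mul hg, chh_X_sub_one hg]
      rw [Finset.prod_congr rfl h6, Finset.prod_mul_distrib, Finset.prod_const, card_Mon,
        (hodd e).neg_one_pow, h2]
      ring
    have h7 := Finset.prod_filter_mul_prod_filter_not (Mon p (e + 1))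
      (fun h : (ZMod p)[X] => h.eval 1 = 0) (fun h => chh h0 h)
    rw [h3, h5, h1] at h7
    have h8 : -(-1 : ℤ) ^ e * ∏ h ∈ T, chh h0 h = (-1) ^ (e + 1) := by
      rw [hT]
      exact h7
    rw [pow_succ] at h8
    have h9 : ((-1 : ℤ) ^ e) ≠ 0 := pow_ne_zero _ (by norm_num)
    have h10 : (-1 : ℤ) ^ e * (∏ h ∈ T, chh h0 h) = (-1 : ℤ) ^ e * 1 := by linarith
    exact mul_left_cancel₀ h9 h10
  have h1 := Mod4_sum T (fun h => ch1 h * chh h0 h) (by
    intro h hh
    rcases hch1 h hh with h3 | h3 <;> rcases hchh h hh with h4 | h4 <;>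
      simp only [h3, h4] <;> norm_num)
  rw [Finset.prod_mul_distrib, hp1, hp2, ← hS] at h1
  omega

end LIF
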