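import Pool.Agent.helper1.GLI.Neg
import Pool.Agent.helper1.LI.Km

/-!
[GLI-Mpar] The parity of `M_d` for odd `d`.

`p % 4 = 3`, `γ` a root of `h0`, `d` odd, `q = p^d`.
`(-1)^(M_d) = eta p (2g) (1 + zz p d γ)` in the algebraic closure, `zz p d γ = (1-γ)^((q-1)/2)`.

Proof.  Let `U = {x ∈ Km p d : eta p d (1 - x) = -1}`.  For `T` in the algebraic closure
`∏_{x ∈ U} (x - T) = ∏_{w ∈ Km p d, w^((q-1)/2) = -1} ((1 - T) - w) = (1 - T)^((q-1)/2) + 1 =: G(T)`
(`w = 1 - x`; the roots of `X^((q-1)/2) + 1` are exactly these `w`, all simple: it divides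
`X^(q-1) - 1`).  `h0(x) = ∏_{i < 2g} (x - γ^(p^i))` (`gam_roots`), so
`∏_{x ∈ U} h0(x) = ∏_{i<2g} G(γ^(p^i)) = ∏_i G(γ)^(p^i) = G(γ)^((p^(2g)-1)/(p-1))`
(`G` has coefficients in `F_p`; Frobenius).  Each `x ∈ U` has `h0(x) ≠ 0` (degree argument: a root of
`h0` has degree `2g`, even, not dividing `d`), so `eta p d (h0(x)) = ±1` and
`(-1)^(M_d) = ∏_{x ∈ U} eta p d (h0(x)) = eta p d (∏_{x ∈ U} h0(x))
 = G(γ)^(((p^(2g)-1)/(p-1)) ((p^d-1)/2)) = (G(γ)^((p^(2g)-1)/2))^(1 + p + ... + p^(d-1))`.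
`G(γ) ≠ 0` (product of the `x - γ`, `γ ∉ Km p d`) and `G(γ)^(p^(2g)) = G(γ)`, so
`eta p (2g) (G(γ)) = ±1`, and the exponent `1 + p + ... + p^(d-1)` is odd (`d` odd terms, each odd).
`1 + zz p d γ = G(γ)`.
-/

set_option autoImplicit false

namespace LIF

open Polynomial

variable {p : ℕ} [Fact p.Prime]

private theorem Mpar_odd (hp : p ≠ 2) : p % 2 = 1 :=
  (Fact.out : p.Prime).eq_two_or_odd.resolve_left hp

private theorem Mpar_pow_odd (hp : p ≠ 2) (d : ℕ) : p ^ d % 2 = 1 := by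
  rw [Nat.pow_mod, Mpar_odd hp, one_pow]
  rfl

private theorem Mpar_N (hp : p ≠ 2) (d : ℕ) : 2 * ((p ^ d - 1) / 2) + 1 = p ^ d := by
  have h1 := Mpar_pow_odd hp d
  have h2 : 1 ≤ p ^ d := Nat.one_le_pow _ _ (Fact.out : p.Prime).pos
  omega

private theorem Mpar_neg (hp : p ≠ 2) : (-1 : AlgebraicClosure (ZMod p)) ≠ 1 := by
  have h : ringChar (AlgebraicClosure (ZMod p)) ≠ 2 := by
    rw [ringChar.eq (AlgebraicClosure (ZMod p)) p]
    exact hp
  exact Ring.neg_one_ne_one_of_char_ne_two h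

private theorem Mpar_NK (hp : p ≠ 2) {d : ℕ} (hd : 1 ≤ d) :
    (((p ^ d - 1) / 2 : ℕ) : AlgebraicClosure (ZMod p)) ≠ 0 := by
  intro h0
  have h1 := congrArg (fun n : ℕ => (n : AlgebraicClosure (ZMod p))) (Mpar_N hp d)
  simp only [Nat.cast_add, Nat.cast_mul, Nat.cast_pow, h0, mul_zero, Nat.cast_one,
    zero_add] at h1
  rw [CharP.cast_eq_zero (AlgebraicClosure (ZMod p)) p, zero_pow (by omega)] at h1
  exact one_ne_zero h1

/-- The product over the `w` with `w ^ N = -1`. -/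
private theorem Mpar_W (hp : p ≠ 2) {d : ℕ} (hd : 1 ≤ d) :
    ∃ W : Finset (AlgebraicClosure (ZMod p)), (∀ w, w ∈ W ↔ w ^ ((p ^ d - 1) / 2) = -1) ∧
      ∀ Y, ∏ w ∈ W, (Y - w) = Y ^ ((p ^ d - 1) / 2) + 1 := by
  classical
  have hN0 : (p ^ d - 1) / 2 ≠ 0 := by
    intro h
    apply Mpar_NK hp hd
    rw [h, Nat.cast_zero]
  set N := (p ^ d - 1) / 2 with hN
  have hsep : (X ^ N - C (-1) : (AlgebraicClosure (ZMod p))[X]).Separable :=
    separable_X_pow_sub_C (-1) (Mpar_NK hp hd) (neg_ne_zero.2 one_ne_zero)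
  have hnd := nodup_roots hsep
  have hmon : (X ^ N - C (-1) : (AlgebraicClosure (ZMod p))[X]).Monic :=
    monic_X_pow_sub_C _ hN0
  have hspl := IsAlgClosed.splits (X ^ N - C (-1) : (AlgebraicClosure (ZMod p))[X])
  have hprod := hspl.eq_prod_roots_of_monic hmon
  refine ⟨(X ^ N - C (-1) : (AlgebraicClosure (ZMod p))[X]).roots.toFinset, ?_, ?_⟩
  · intro w
    rw [Multiset.mem_toFinset, mem_roots hmon.ne_zero, IsRoot.def, eval_sub, eval_pow, eval_X,
      eval_C, sub_eq_zero]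
  · intro Y
    have h1 := congrArg (eval Y) hprod
    rw [eval_sub, eval_pow, eval_X, eval_C, sub_neg_eq_add, eval_multiset_prod,
      Multiset.map_map] at h1
    rw [h1, Finset.prod_multiset_map_count]
    refine Finset.prod_congr rfl fun w hw => ?_
    rw [Multiset.count_eq_one_of_mem hnd (Multiset.mem_toFinset.1 hw), pow_one,
      Function.comp_apply, eval_sub, eval_X, eval_C]

private theorem Mpar_mem (hp : p ≠ 2) {d : ℕ} (hd : 1 ≤ d) {w : AlgebraicClosure (ZMod p)}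
    (hw : w ^ ((p ^ d - 1) / 2) = -1) : 1 - w ∈ Km p d := by
  rw [mem_Km hd, ← Km_phi_apply, map_sub, map_one, Km_phi_apply]
  have h1 : w ^ p ^ d = w := by
    rw [← Mpar_N hp d, pow_succ, mul_comm 2, pow_mul, hw]
    ring
  rw [h1]

open Classical in
private theorem Mpar_prodU (hp : p ≠ 2) {d : ℕ} (hd : 1 ≤ d) (T : AlgebraicClosure (ZMod p)) :
    ∏ x ∈ (Km p d).filter (fun x => eta p d (1 - x) = -1), (x - T) = 1 + zz p d T := by
  obtain ⟨W, hW, hprod⟩ := Mpar_W hp hd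
  have h1 := hprod (1 - T)
  unfold zz
  rw [add_comm, ← h1]
  refine Finset.prod_bij (fun x _ => 1 - x) ?_ ?_ ?_ ?_
  · intro x hx
    rw [Finset.mem_filter] at hx
    rw [hW]
    exact hx.2
  · intro a _ b _ hab
    exact sub_right_injective hab
  · intro w hw
    refine ⟨1 - w, ?_, sub_sub_cancel 1 w⟩
    rw [Finset.mem_filter]
    refine ⟨Mpar_mem hp hd ((hW w).1 hw), ?_⟩
    rw [sub_sub_cancel]
    exact (hW w).1 hw
  · intro x _
    ring

private theorem Mpar_frob (d i : ℕ) (γ : AlgebraicClosure (ZMod p)) :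
    1 + zz p d (γ ^ (p ^ i)) = (1 + zz p d γ) ^ (p ^ i) := by
  rw [← Km_phi_apply, ← Km_phi_apply, map_add, map_one]
  unfold zz
  rw [map_pow, map_sub, map_one]

private theorem Mpar_exp (hp : p ≠ 2) (a d : ℕ) :
    (∑ i ∈ Finset.range a, p ^ i) * ((p ^ d - 1) / 2) =
      ((p ^ a - 1) / 2) * ∑ i ∈ Finset.range d, p ^ i := by
  have h2 : 1 ≤ p := (Fact.out : p.Prime).one_le
  have key : ∀ n : ℕ, (p ^ n - 1) / 2 = ((p - 1) / 2) * ∑ i ∈ Finset.range n, p ^ i := by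
    intro n
    have h3 := Nat.geomSum_eq (Fact.out : p.Prime).two_le n
    have h4 : 2 * ((p - 1) / 2) = p - 1 := by
      have := Mpar_odd hp
      omega
    have h5 : p ^ n - 1 = 2 * (((p - 1) / 2) * ∑ i ∈ Finset.range n, p ^ i) := by
      rw [← mul_assoc, h4, h3]
      exact (Nat.mul_div_cancel' (Nat.sub_one_dvd_pow_sub_one p n)).symm
    omega
  rw [key d, key a]
  ring

theorem Md_parity {p : ℕ} [Fact p.Prime] {g : ℕ} {h0 : (ZMod p)[X]} (hg : Good p g h0)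
    {γ : AlgebraicClosure (ZMod p)} (hγ : aeval γ h0 = 0) {d : ℕ} (hd : d % 2 = 1) :
    ((-1 : AlgebraicClosure (ZMod p)) ^ (Md h0 d)) = eta p (2 * g) (1 + zz p d γ) := by
  classical
  have hp := hg.p2
  have hd1 : 1 ≤ d := by omega
  -- `γ` is not in `Km p d`
  have hγd : γ ^ (p ^ d) ≠ γ := by
    intro h
    have h1 := (mem_Km_iff_dvd hd1).1 ((mem_Km hd1).2 h)
    rw [gam_deg hg hγ] at h1
    have h2 : 2 ∣ d := (dvd_mul_right 2 g).trans h1
    omega
  have hγi : ∀ i : ℕ, γ ^ (p ^ i) ∉ Km p d := by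
    intro i h
    rw [mem_Km hd1] at h
    apply hγd
    apply Km_inj (i := i)
    rw [← pow_mul, mul_comm, pow_mul]
    exact h
  have hx0 : ∀ x ∈ Km p d, aeval x h0 ≠ 0 := by
    intro x hx h
    rw [gam_roots hg hγ, Finset.prod_eq_zero_iff] at h
    obtain ⟨i, _, hi⟩ := h
    rw [sub_eq_zero] at hi
    rw [hi] at hx
    exact hγi i hx
  have hxpm : ∀ x ∈ Km p d, aeval x h0 ^ ((p ^ d - 1) / 2) = 1 ∨
      aeval x h0 ^ ((p ^ d - 1) / 2) = -1 := by
    intro x hx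
    have h1 : aeval x h0 ^ (p ^ d) = aeval x h0 := by
      rw [← Km_phi_apply, ← aeval_algHom_apply, Km_phi_apply, (mem_Km hd1).1 hx]
    have h2 : aeval x h0 ^ ((p ^ d - 1) / 2) * aeval x h0 ^ ((p ^ d - 1) / 2) = 1 := by
      rw [← Mpar_N hp d, pow_succ, two_mul, pow_add] at h1
      exact mul_right_cancel₀ (hx0 x hx) (by rw [h1, one_mul])
    exact mul_self_eq_one_iff.1 h2
  have hMd : Md h0 d = (((Km p d).filter (fun x => eta p d (1 - x) = -1)).filter
      (fun x => eta p d (aeval x h0) = -1)).card := by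
    unfold Md
    rw [Finset.filter_filter]
  have h1 : (-1 : AlgebraicClosure (ZMod p)) ^ (Md h0 d) =
      ∏ x ∈ (Km p d).filter (fun x => eta p d (1 - x) = -1), aeval x h0 ^ ((p ^ d - 1) / 2) := by
    rw [hMd, ← Finset.prod_const, Finset.prod_filter]
    refine Finset.prod_congr rfl fun x hx => ?_
    have hx' := (Finset.mem_filter.1 hx).1
    by_cases h2 : eta p d (aeval x h0) = -1
    · rw [if_pos h2]
      exact h2.symm
    · rw [if_neg h2]
      rcases hxpm x hx' with h3 | h3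
      · exact h3.symm
      · exact absurd h3 h2
  have hG0 : 1 + zz p d γ ≠ 0 := by
    rw [← Mpar_prodU hp hd1 γ, Finset.prod_ne_zero_iff]
    intro x hx h
    rw [sub_eq_zero] at h
    apply hγd
    rw [← (mem_Km hd1)]
    rw [← h]
    exact (Finset.mem_filter.1 hx).1
  have h2g : γ ^ (p ^ (2 * g)) = γ := by
    have := Km_pow_deg γ
    rwa [gam_deg hg hγ] at this
  have hGf : (1 + zz p d γ) ^ (p ^ (2 * g)) = 1 + zz p d γ := by
    rw [← Mpar_frob, h2g]
  have hη : (1 + zz p d γ) ^ ((p ^ (2 * g) - 1) / 2) = 1 ∨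
      (1 + zz p d γ) ^ ((p ^ (2 * g) - 1) / 2) = -1 := by
    have h2 : (1 + zz p d γ) ^ ((p ^ (2 * g) - 1) / 2) *
        (1 + zz p d γ) ^ ((p ^ (2 * g) - 1) / 2) = 1 := by
      rw [← Mpar_N hp (2 * g), pow_succ, two_mul, pow_add] at hGf
      exact mul_right_cancel₀ hG0 (by rw [hGf, one_mul])
    exact mul_self_eq_one_iff.1 h2
  have h2 : ∏ x ∈ (Km p d).filter (fun x => eta p d (1 - x) = -1), aeval x h0 =
      (1 + zz p d γ) ^ (∑ i ∈ Finset.range (2 * g), p ^ i) := by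
    rw [Finset.prod_congr rfl (fun x _ => gam_roots hg hγ x), Finset.prod_comm,
      ← Finset.prod_pow_eq_pow_sum]
    refine Finset.prod_congr rfl fun i _ => ?_
    rw [Mpar_prodU hp hd1, Mpar_frob]
  have hodd : (∑ i ∈ Finset.range d, p ^ i) % 2 = 1 := by
    rw [Finset.sum_nat_mod, Finset.sum_congr rfl (fun i _ => Mpar_pow_odd hp i)]
    simp [hd]
  rw [h1, Finset.prod_pow, h2, ← pow_mul, Mpar_exp hp, pow_mul]
  unfold eta
  rcases hη with h3 | h3
  · rw [h3, one_pow]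
  · rw [h3]
    exact Odd.neg_one_pow (Nat.odd_iff.2 hodd)

end LIF
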