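import Pool.Agent.helper1.GLI.Defs
import Pool.Agent.helper1.LI.Newt
import Pool.Agent.helper1.LI.Sym
import Pool.Agent.helper1.LI.Par

/-!
[GLI-Newt8] `S_d ≡ a_d (mod 8)` for odd `d < 2g` if `4 ∣ S_j` for all `1 ≤ j < 2g`.

Proof.  `newton_mult` with `c = chi D` (multiplicative on monic polynomials, `chi_mul`) is
`d S_d = ∑_{m=1}^{d} a_m S_(d-m)`, `S_0 = 1` (`am D m = ∑_{x ∈ Km p m} chi D (Mp m x)`).
Strong induction: `4 ∣ a_m` for `1 ≤ m < 2g`: `a_m = m S_m - ∑_{j<m} a_j S_(m-j)` and `4 ∣ S_m`,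
`4 ∣ a_j`.  So for `1 ≤ d < 2g`: `16 ∣ d S_d - a_d`.  For odd `d`:
`S_d - a_d = (1 - d) S_d + (d S_d - a_d)`, `2 ∣ 1 - d`, `4 ∣ S_d`.
-/

set_option autoImplicit false

namespace LIF

open Polynomial

theorem Newt8_newton {p : ℕ} [Fact p.Prime] (D : (ZMod p)[X]) (m : ℕ) :
    ((m + 1 : ℕ) : ℤ) * Sd D (m + 1) =
      ∑ j ∈ Finset.Icc 1 m, am D j * Sd D (m + 1 - j) + am D (m + 1) := by
  have h1 := newton_mult (chi D) (fun a b ha hb => chi_mul D ha hb) (m + 1)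
  rw [Finset.sum_Icc_succ_top (by omega), Nat.sub_self] at h1
  have h2 := Sd_zero D
  unfold Sd at h2 ⊢
  unfold am
  rw [h1, h2, mul_one]

theorem Newt8_am {p : ℕ} [Fact p.Prime] {g : ℕ} (D : (ZMod p)[X])
    (h4 : ∀ j, 1 ≤ j → j < 2 * g → (4 : ℤ) ∣ Sd D j) (m : ℕ) (h1 : 1 ≤ m) (h2 : m < 2 * g) :
    (4 : ℤ) ∣ am D m := by
  induction m using Nat.strong_induction_on with
  | _ m ih =>
    obtain ⟨k, rfl⟩ : ∃ k, m = k + 1 := ⟨m - 1, by omega⟩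
    have h3 := Newt8_newton D k
    have h5 : (4 : ℤ) ∣ ∑ j ∈ Finset.Icc 1 k, am D j * Sd D (k + 1 - j) := by
      apply Finset.dvd_sum
      intro j hj
      rw [Finset.mem_Icc] at hj
      exact (ih j (by omega) hj.1 (by omega)).mul_right _
    have h6 : (4 : ℤ) ∣ ((k + 1 : ℕ) : ℤ) * Sd D (k + 1) := (h4 (k + 1) h1 h2).mul_left _
    have h7 : am D (k + 1) = ((k + 1 : ℕ) : ℤ) * Sd D (k + 1) -
        ∑ j ∈ Finset.Icc 1 k, am D j * Sd D (k + 1 - j) := by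
      rw [h3]
      ring
    rw [h7]
    exact dvd_sub h6 h5

theorem Sd_am {p : ℕ} [Fact p.Prime] {g : ℕ} (D : (ZMod p)[X])
    (h4 : ∀ j, 1 ≤ j → j < 2 * g → (4 : ℤ) ∣ Sd D j) {d : ℕ} (hd : d % 2 = 1)
    (hd2 : d < 2 * g) : (8 : ℤ) ∣ Sd D d - am D d := by
  obtain ⟨k, rfl⟩ : ∃ k, d = k + 1 := ⟨d - 1, by omega⟩
  have h3 := Newt8_newton D k
  have h5 : (16 : ℤ) ∣ ∑ j ∈ Finset.Icc 1 k, am D j * Sd D (k + 1 - j) := by
    apply Finset.dvd_sum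
    intro j hj
    rw [Finset.mem_Icc] at hj
    have h6 := Newt8_am D h4 j hj.1 (by omega)
    have h7 := h4 (k + 1 - j) (by omega) (by omega)
    have h8 := mul_dvd_mul h6 h7
    norm_num at h8
    exact h8
  obtain ⟨c, hc⟩ := h5
  obtain ⟨b, hb⟩ := h4 (k + 1) (by omega) hd2
  obtain ⟨e, he⟩ : ∃ e, k = 2 * e := ⟨k / 2, by omega⟩
  rw [hc, hb] at h3
  rw [hb]
  have h9 : am D (k + 1) = ((k + 1 : ℕ) : ℤ) * (4 * b) - 16 * c := by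
    rw [h3]
    ring
  rw [h9, he]
  refine ⟨-(e : ℤ) * b + 2 * c, ?_⟩
  push_cast
  ring

end LIF
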