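import Pool.Agent.helper1.GLI.Neg
import Pool.Agent.helper1.LI.Km

/-!
[GLI-Npar] The parity of `n_d` for odd `d`.

`p % 4 = 3`, `H = hq s 1 = X^2 + s X - 1` with `Good p 1 H`, `β` a root, `d` odd, `q = p^d`.
`(-1)^(n_d) = eta p 2 (1 - β^((q-1)/2))`.

Proof.  Let `U = {v ∈ Km p d : eta p d v = 1}` (the roots of `X^((q-1)/2) - 1`, `(q-1)/2` of them,
an odd number).  For `T` in the algebraic closure `∏_{v ∈ U} (v - T) = - ∏ (T - v)
= 1 - T^((q-1)/2) =: G(T)`.  `H(v) = (v - β)(v - β^p)` (`gam_roots`, `g = 1`), so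
`∏_{v ∈ U} H(v) = G(β) G(β^p) = G(β)^(1+p)`.  As in `Mpar`: `H(v) ≠ 0` for `v ∈ Km p d` (`β` has
degree `2 ∤ d`), `eta p d (H(v)) = ±1`,
`(-1)^(n_d) = ∏_{v ∈ U} eta p d (H(v)) = G(β)^((1+p)((p^d-1)/2)) =
(G(β)^((p^2-1)/2))^(1 + p + ... + p^(d-1))`, `G(β) ≠ 0`, `G(β)^(p^2) = G(β)`, the exponent is odd.
Also `beta_norm`: `β^(p+1) = -1`: `H(0) = -1 = (0 - β)(0 - β^p) = β^(p+1)`.
-/

set_option autoImplicit false

namespace LIF

open Polynomial

theorem beta_norm {p : ℕ} [Fact p.Prime] {s : ZMod p} (hg : Good p 1 (hq s 1))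
    {β : AlgebraicClosure (ZMod p)} (hβ : aeval β (hq s 1) = 0) : β ^ (p + 1) = -1 := by
  have h1 := gam_roots hg hβ 0
  rw [Finset.prod_range_succ, Finset.prod_range_succ, Finset.prod_range_zero, one_mul] at h1
  simp only [zero_sub, pow_zero, pow_one] at h1
  have h2 : aeval (0 : AlgebraicClosure (ZMod p)) (hq s 1) = -1 := by
    unfold hq
    simp
  rw [h2] at h1
  rw [pow_succ]
  linear_combination -h1

/-- `p^d` is `3` modulo `4` -/
private theorem Npar_q {p d : ℕ} (hp4 : p % 4 = 3) (hd : d % 2 = 1) : p ^ d % 4 = 3 := by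
  obtain ⟨e, rfl⟩ : ∃ e, d = 2 * e + 1 := ⟨d / 2, by omega⟩
  have h1 : p ^ 2 ≡ 1 [MOD 4] := by
    have : p ≡ 3 [MOD 4] := hp4
    exact (this.pow 2).trans (by decide)
  have h2 : p ^ (2 * e + 1) ≡ 1 ^ e * 3 [MOD 4] := by
    rw [pow_succ, pow_mul]
    exact (h1.pow e).mul hp4
  rw [one_pow, one_mul] at h2
  exact h2

/-- the squares -/
private theorem Npar_prod {p : ℕ} [Fact p.Prime] (hp4 : p % 4 = 3) {d : ℕ} (hd : d % 2 = 1)
    {U : Finset (AlgebraicClosure (ZMod p))} (hU : ∀ v, v ∈ U ↔ v ^ ((p ^ d - 1) / 2) = 1)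
    (T : AlgebraicClosure (ZMod p)) :
    ∏ v ∈ U, (v - T) = 1 - T ^ ((p ^ d - 1) / 2) := by
  classical
  have hch : CharP (AlgebraicClosure (ZMod p)) p := charP_of_injective_algebraMap' (ZMod p) p
  have hp := (Fact.out : p.Prime)
  have hq1 : p ^ d % 4 = 3 := Npar_q hp4 hd
  obtain ⟨N, hN⟩ : ∃ N, N = (p ^ d - 1) / 2 := ⟨_, rfl⟩
  have hN1 : N % 2 = 1 := by omega
  have hN2 : 2 * N + 1 = p ^ d := by omega
  rw [← hN] at hU ⊢
  have hN0 : (N : AlgebraicClosure (ZMod p)) ≠ 0 := by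
    intro h
    rw [CharP.cast_eq_zero_iff (AlgebraicClosure (ZMod p)) p] at h
    have h1 : p ∣ p ^ d := dvd_pow_self p (by omega)
    rw [← hN2] at h1
    have h2 : p ∣ 1 := (Nat.dvd_add_right (h.mul_left 2)).1 h1
    exact hp.one_lt.ne' (Nat.dvd_one.1 h2)
  have hmon : (X ^ N - 1 : (AlgebraicClosure (ZMod p))[X]).Monic := by
    have := monic_X_pow_sub_C (1 : AlgebraicClosure (ZMod p)) (n := N) (by omega)
    rwa [C_1] at this
  have hsep : (X ^ N - 1 : (AlgebraicClosure (ZMod p))[X]).Separable := by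
    have := separable_X_pow_sub_C (1 : AlgebraicClosure (ZMod p)) (n := N) hN0 one_ne_zero
    rwa [C_1] at this
  have hnd := nodup_roots hsep
  have hUr : U = ⟨(X ^ N - 1 : (AlgebraicClosure (ZMod p))[X]).roots, hnd⟩ := by
    ext v
    rw [hU, Finset.mem_mk, mem_roots hmon.ne_zero, IsRoot.def, eval_sub, eval_pow, eval_X,
      eval_one, sub_eq_zero]
  have hspl := IsAlgClosed.splits (X ^ N - 1 : (AlgebraicClosure (ZMod p))[X])
  have hcard : U.card = N := by
    rw [hUr, Finset.card_mk, ← hspl.natDegree_eq_card_roots]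
    have := natDegree_X_pow_sub_C (n := N) (r := (1 : AlgebraicClosure (ZMod p)))
    rwa [C_1] at this
  have h1 := hspl.eval_eq_prod_roots_of_monic hmon T
  rw [eval_sub, eval_pow, eval_X, eval_one] at h1
  have h2 : ((X ^ N - 1 : (AlgebraicClosure (ZMod p))[X]).roots.map (T - ·)).prod =
      ∏ v ∈ U, (T - v) := by
    rw [hUr]
    rfl
  have h3 : ∏ v ∈ U, (v - T) = (-1) ^ U.card * ∏ v ∈ U, (T - v) := by
    rw [← Finset.prod_const, ← Finset.prod_mul_distrib]
    apply Finset.prod_congr rfl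
    intro v _
    ring
  have hodd : Odd N := Nat.odd_iff.2 hN1
  rw [h3, ← h2, ← h1, hcard, hodd.neg_one_pow]
  ring

private theorem Npar_geom {p : ℕ} (hp4 : p % 4 = 3) (e : ℕ) :
    ∃ S, p ^ (2 * e + 1) = (p - 1) * S + 1 ∧ S % 2 = 1 := by
  obtain ⟨a, ha⟩ : ∃ a, p = a + 1 := ⟨p - 1, by omega⟩
  have hae : a % 2 = 0 := by omega
  induction e with
  | zero => exact ⟨1, by simp; omega, by norm_num⟩
  | succ e ih =>
    obtain ⟨S, hS, hSo⟩ := ih
    refine ⟨p ^ 2 * S + p + 1, ?_, ?_⟩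
    · have h1 : p ^ (2 * (e + 1) + 1) = p ^ 2 * p ^ (2 * e + 1) := by ring
      rw [h1, hS, ha]
      simp only [Nat.add_sub_cancel]
      ring
    · obtain ⟨t, ht⟩ : ∃ t, S = 2 * t + 1 := ⟨S / 2, by omega⟩
      obtain ⟨b, hb⟩ : ∃ b, p = 2 * b + 1 := ⟨p / 2, by omega⟩
      rw [ht, hb]
      have : (2 * b + 1) ^ 2 * (2 * t + 1) + (2 * b + 1) + 1 =
          2 * (2 * b ^ 2 * (2 * t + 1) + 2 * b * (2 * t + 1) + t + b + 1) + 1 := by ring
      omega

theorem nd_parity {p : ℕ} [Fact p.Prime] (hp4 : p % 4 = 3) {s : ZMod p}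
    (hg : Good p 1 (hq s 1))
    {β : AlgebraicClosure (ZMod p)} (hβ : aeval β (hq s 1) = 0) {d : ℕ} (hd : d % 2 = 1) :
    ((-1 : AlgebraicClosure (ZMod p)) ^ (nd (hq s 1) d)) =
      eta p 2 (1 - β ^ ((p ^ d - 1) / 2)) := by
  classical
  have hch : CharP (AlgebraicClosure (ZMod p)) p := charP_of_injective_algebraMap' (ZMod p) p
  have hp := (Fact.out : p.Prime)
  have hq1 : p ^ d % 4 = 3 := Npar_q hp4 hd
  have hd1 : 1 ≤ d := by omega
  obtain ⟨N, hN⟩ : ∃ N, N = (p ^ d - 1) / 2 := ⟨_, rfl⟩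
  have hN1 : N % 2 = 1 := by omega
  have hN2 : 2 * N + 1 = p ^ d := by omega
  obtain ⟨H, hH⟩ : ∃ H : (ZMod p)[X], H = hq s 1 := ⟨_, rfl⟩
  rw [← hH] at hg hβ ⊢
  obtain ⟨U, hU⟩ : ∃ U : Finset (AlgebraicClosure (ZMod p)),
      U = (Km p d).filter (fun v => eta p d v = 1) := ⟨_, rfl⟩
  have hUm : ∀ v, v ∈ U ↔ v ^ N = 1 := by
    intro v
    rw [hU, Finset.mem_filter, mem_Km hd1]
    unfold eta
    rw [← hN]
    constructor
    · exact fun h => h.2
    · intro h
      refine ⟨?_, h⟩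
      rw [← hN2, pow_succ, mul_comm 2 N, pow_mul, h, one_pow, one_mul]
  -- no root of `H` lies in `Km p d`
  have hroot : ∀ v : AlgebraicClosure (ZMod p), v ∈ Km p d → aeval v H ≠ 0 := by
    intro v hv h0
    have h1 := gam_deg hg h0
    have h2 := (mem_Km_iff_dvd hd1).1 hv
    rw [h1] at h2
    omega
  have hfix : ∀ v : AlgebraicClosure (ZMod p), v ∈ Km p d →
      (aeval v H) ^ (p ^ d) = aeval v H := by
    intro v hv
    rw [mem_Km hd1] at hv
    have h1 := Km_fix_adjoin hv (y := aeval v H)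
      (by
        have := aeval_mem_adjoin_singleton (ZMod p) v (p := H)
        exact IntermediateField.algebra_adjoin_le_adjoin _ _ this)
    exact h1
  have hpm : ∀ v ∈ U, eta p d (aeval v H) = 1 ∨ eta p d (aeval v H) = -1 := by
    intro v hv
    have hvK : v ∈ Km p d := by
      rw [hU] at hv
      exact (Finset.mem_filter.1 hv).1
    have h0 := hroot v hvK
    have h1 := hfix v hvK
    have h2 : (aeval v H) ^ (p ^ d - 1) = 1 := by
      have h5 : (aeval v H) ^ (p ^ d - 1) * (aeval v H) = 1 * (aeval v H) := by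
        rw [← pow_succ, Nat.sub_add_cancel (by omega), h1, one_mul]
      exact mul_right_cancel₀ h0 h5
    have h3 : p ^ d - 1 = N * 2 := by omega
    rw [h3, pow_mul] at h2
    unfold eta
    rw [← hN]
    have h5 : ((aeval v H) ^ N - 1) * ((aeval v H) ^ N + 1) = 0 := by
      linear_combination h2
    rcases mul_eq_zero.1 h5 with h6 | h6
    · left
      linear_combination h6
    · right
      linear_combination h6
  have hne : (1 : AlgebraicClosure (ZMod p)) ≠ -1 := by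
    intro h
    have h2 : ((2 : ℕ) : AlgebraicClosure (ZMod p)) = 0 := by
      push_cast
      linear_combination h
    rw [CharP.cast_eq_zero_iff (AlgebraicClosure (ZMod p)) p] at h2
    have h3 := Nat.le_of_dvd (by norm_num) h2
    have h4 := hp.two_le
    omega
  have hnd : nd H d = (U.filter (fun v => eta p d (aeval v H) = -1)).card := by
    unfold nd
    rw [hU, Finset.filter_filter]
  have h1 : (-1 : AlgebraicClosure (ZMod p)) ^ (nd H d) = ∏ v ∈ U, eta p d (aeval v H) := by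
    rw [hnd, ← Finset.prod_const, Finset.prod_filter]
    apply Finset.prod_congr rfl
    intro v hv
    rcases hpm v hv with h | h
    · rw [if_neg (by rw [h]; exact hne), h]
    · rw [if_pos h, h]
  have h2 : ∏ v ∈ U, eta p d (aeval v H) = (∏ v ∈ U, aeval v H) ^ N := by
    unfold eta
    rw [← hN, Finset.prod_pow]
  have hUm' : ∀ v, v ∈ U ↔ v ^ ((p ^ d - 1) / 2) = 1 := by rw [← hN]; exact hUm
  have h3 : ∏ v ∈ U, aeval v H = (1 - β ^ N) ^ (p + 1) := by
    have h4 : ∀ v, aeval v H = (v - β) * (v - β ^ p) := by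
      intro v
      have h5 := gam_roots hg hβ v
      rw [Finset.prod_range_succ, Finset.prod_range_succ, Finset.prod_range_zero, one_mul,
        pow_zero, pow_one, pow_one] at h5
      exact h5
    rw [Finset.prod_congr rfl (fun v _ => h4 v), Finset.prod_mul_distrib, Npar_prod hp4 hd hUm',
      Npar_prod hp4 hd hUm', ← hN, ← pow_mul, mul_comm p N, pow_mul, pow_succ, sub_pow_char,
      one_pow, mul_comm]
  have hbn := beta_norm (hH ▸ hg) (hH ▸ hβ)
  have hbd := gam_deg hg hβ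
  have hbp : β ^ (p ^ 2) = β := by
    have := Km_pow_deg β
    rw [hbd] at this
    simpa using this
  have hG0 : 1 - β ^ N ≠ 0 := by
    intro h
    have h5 : β ^ N = 1 := by linear_combination -h
    have h6 : β ∈ U := (hUm β).2 h5
    rw [hU] at h6
    exact hroot β (Finset.mem_filter.1 h6).1 hβ
  have hGp : (1 - β ^ N) ^ (p ^ 2) = 1 - β ^ N := by
    rw [sub_pow_char_pow, one_pow, ← pow_mul, mul_comm N, pow_mul, hbp]
  rw [h1, h2, h3, ← hN, ← pow_mul]
  obtain ⟨G, hG⟩ : ∃ G, G = 1 - β ^ N := ⟨_, rfl⟩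
  rw [← hG] at hG0 hGp ⊢
  obtain ⟨M, hM⟩ : ∃ M, M = (p ^ 2 - 1) / 2 := ⟨_, rfl⟩
  have hpo : p ^ 2 % 2 = 1 := Nat.odd_iff.1 (Odd.pow (Nat.odd_iff.2 (by omega)))
  have hM2 : 2 * M + 1 = p ^ 2 := by omega
  have hGM : (G ^ M) ^ 2 = 1 := by
    have h5 : (G ^ M) ^ 2 * G = 1 * G := by
      rw [← pow_mul, ← pow_succ, mul_comm M 2, hM2, hGp, one_mul]
    exact mul_right_cancel₀ hG0 h5
  -- `(p + 1) N = M S` with `S` odd
  obtain ⟨S, hS, hSo⟩ : ∃ S, p ^ d - 1 = (p - 1) * S ∧ S % 2 = 1 := by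
    obtain ⟨S, hS, hSo⟩ := Npar_geom hp4 (d / 2)
    have e : 2 * (d / 2) + 1 = d := by omega
    rw [e] at hS
    exact ⟨S, by omega, hSo⟩
  have hexp : (p + 1) * N = M * S := by
    have h5 : 2 * ((p + 1) * N) = 2 * (M * S) := by
      obtain ⟨a, ha⟩ : ∃ a, p = a + 1 := ⟨p - 1, by omega⟩
      have h6 : 2 * N = p ^ d - 1 := by omega
      have h7 : 2 * M = p ^ 2 - 1 := by omega
      have h8 : p ^ 2 - 1 = (p + 1) * (p - 1) := by
        rw [ha]
        simp only [Nat.add_sub_cancel]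
        have : (a + 1) ^ 2 = (a + 1 + 1) * a + 1 := by ring
        omega
      calc 2 * ((p + 1) * N) = (p + 1) * (2 * N) := by ring
        _ = (p + 1) * ((p - 1) * S) := by rw [h6, hS]
        _ = (2 * M) * S := by rw [h7, h8]; ring
        _ = 2 * (M * S) := by ring
    omega
  obtain ⟨t, ht⟩ : ∃ t, S = 2 * t + 1 := ⟨S / 2, by omega⟩
  unfold eta
  rw [← hM, hexp, pow_mul, ht, pow_succ, pow_mul, hGM, one_pow, one_mul]

end LIF
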