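import Pool.Agent.helper1.GLI.Defs

/-!
[GLI-Pair] The recursion for the pair `d`, `g - d` (imports only `Defs`).

`p % 4 = 3`, `4 ∣ g`, `γ ≠ 0`, `γ^(p^g) = -γ`, `eta p (2g) (1 - γ) = -1`, `d` odd, `d < g`,
`δ := γ^(p^d)`, `δ ≠ γ`, `δ ≠ -γ`.  Claim:
`η_(2g)(1 + z_d) η_(2g)(1 + z_(g-d)) = - κ η_g(1 + z'_d) η_g(1 + γ^(p^d-1))`,
`z_d = zz p d γ`, `z'_d = zz p d (γ^2)`, `κ = (γ^2/(1-γ^2))^((p^g-1)/4)`.

Proof.  Let `K` be the algebraic closure.  Choose `ϖ ∈ K` with `ϖ^2 = 1 - γ` (`≠ 0`), and put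
`a = ϖ`, `a' = ϖ^(p^g)`, `A = ϖ^(p^d)`, `A' = ϖ^(p^(g+d))`.  Frobenius: `a'^2 = 1 + γ`,
`A^2 = 1 - δ`, `A'^2 = 1 + δ` (`γ^(p^(g+d)) = (-γ)^(p^d) = -δ`).  `ϖ^(p^(2g)) = ϖ (ϖ^2)^((p^(2g)-1)/2)
= ϖ η_(2g)(1-γ) = -ϖ`.  So with `φ(x) = x^(p^g)` (a ring homomorphism): `φ a = a'`, `φ a' = -a`,
`φ A = A'`, `φ A' = -A`, `φ γ = -γ`, `φ δ = -δ`.  All of `a, a', A, A'` are nonzero
(`η(1-γ) = -1` gives `1 - γ ≠ 0`, apply powers of Frobenius).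
* `z_d = ϖ^(p^d - 1) = A/a`.
* `z_(g-d) = ϖ^(p^(g-d) - 1)`, so `z_(g-d)^(p^d) = ϖ^(p^g - p^d) = a'/A`.
* `1 + z_(g-d) ≠ 0` and `(1 + z_(g-d))^(p^d) = 1 + a'/A`.  For `y ≠ 0` with `y^(p^(2g)) = y`,
  `η_(2g)(y) = ±1`, so `η_(2g)(y) = η_(2g)(y)^(p^d) = η_(2g)(y^(p^d))`.  (`y = 1 + z_(g-d)` is fixed by
  `p^(2g)`: `z_(g-d)^(p^(2g)) = z_(g-d)` as `1 - γ` is.)
* So the left side is `η_(2g)(x)`, `x = (1 + A/a)(1 + a'/A) = (a + A)(A + a')/(a A)`, and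
  `η_(2g)(x) = x^((p^(2g)-1)/2) = (x φ(x))^((p^g-1)/2) = η_g(x φ(x))`, with
  `x φ(x) = (a + A)(A + a')(a' + A')(A' - a)/(c C)`, `c = a a'`, `C = A A'`.
* Identities (`a^2 = 1-γ`, `a'^2 = 1+γ`, `A^2 = 1-δ`, `A'^2 = 1+δ`; all by `linear_combination`
  after eliminating, they were checked): put `μ = (a A + a' A')/2`, `ν = (a A' - a' A)/2`,
  `τ = 1 + μ - ν`.
  (i) `(a + A)(a' + A')(A + a')(A' - a) = (C γ + c δ) τ^2`;
  (ii) `(C + c)(γ + δ) = (C γ + c δ)(1 + γ δ + c C)`;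
  (iii) `1 + γ δ + c C = 2 μ^2`.  (Also `μ^2 + ν^2 = 1`.)
  (For (i) it may be easiest to expand both sides and use `μ^2 + ν^2 = 1`,
  `τ^2 = 2 (1 + μ)(1 - ν)`.)
* `φ μ = μ`, `φ ν = ν`, so `φ τ = τ`.  `μ ≠ 0`: otherwise `a A = - a' A'`, square:
  `(1-γ)(1-δ) = (1+γ)(1+δ)`, so `γ + δ = 0`, excluded.  The left side of (i) is nonzero: a vanishing
  factor gives (squares) `γ = δ` or `γ = -δ`, excluded.  So `τ ≠ 0`.
* With `z' := C/c`, `ζ := δ/γ = γ^(p^d - 1)`:  `z' = (c^2)^((p^d-1)/2) = zz p d (γ^2)` because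
  `C = c^(p^d)`, `c^2 = 1 - γ^2`.  From (ii), (iii): `C γ + c δ = (C + c)(γ + δ)/(2 μ^2)
  = c (1 + z') γ (1 + ζ)/(2 μ^2)`, so
  `x φ(x) = (1 + z')(1 + ζ) (γ/c) (z')^(-1) τ^2/(2 μ^2)`.
* `η_g` of this: `η_g(τ^2) = τ^(p^g - 1) = 1`, same for `μ`; `η_g(2) = 1`
  (`2 ∈ F_p`, `(p^g-1)/2 = (p-1) ((1 + p + ... + p^(g-1))/2)`, `g` even);
  `η_g(γ/c) = ((γ/c)^2)^((p^g-1)/4) = κ`;
  `η_g(z') = η_g(1-γ^2)^((p^d-1)/2)`, `η_g(1-γ^2) = ((1-γ) φ(1-γ))^((p^g-1)/2) = η_(2g)(1-γ) = -1` and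
  `(p^d-1)/2` is odd (`p % 4 = 3`, `d` odd), so `η_g(z') = -1`.
Total: `- κ η_g(1 + z') η_g(1 + ζ)`.
-/

set_option autoImplicit false

namespace LIF

open Polynomial

/-- identity (i) -/
theorem Pair_id1 {K : Type*} [Field K] (h2 : (2 : K) ≠ 0) {a b A B γ δ : K} (ha : a ^ 2 = 1 - γ)
    (hb : b ^ 2 = 1 + γ) (hA : A ^ 2 = 1 - δ) (hB : B ^ 2 = 1 + δ) :
    (a + A) * (b + B) * (A + b) * (B - a) = (A * B * γ + a * b * δ) *
      (1 + (a * A + b * B) / 2 - (a * B - b * A) / 2) ^ 2 := by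
  have hg : γ = 1 - a ^ 2 := by rw [ha]; ring
  have hd : δ = 1 - A ^ 2 := by rw [hA]; ring
  have e1 : b ^ 2 - (2 - a ^ 2) = 0 := by rw [hb, hg]; ring
  have e2 : B ^ 2 - (2 - A ^ 2) = 0 := by rw [hB, hd]; ring
  rw [hg, hd]
  have h4 : (4 : K) ≠ 0 := by
    have : (4 : K) = 2 * 2 := by norm_num
    rw [this]
    exact mul_ne_zero h2 h2
  field_simp
  linear_combination (2 * a ^ 2 * A ^ 4 + a ^ 2 * A ^ 3 * B - 2 * a ^ 2 * A ^ 2 + a ^ 2 * A * B ^ 3 +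
    2 * a ^ 2 * B ^ 2 - 4 * a ^ 2 + a * b * A ^ 4 + 2 * a * b * A ^ 3 * B + a * b * A ^ 2 * B ^ 2 -
    a * b * A ^ 2 - 2 * a * b * A * B - a * b * B ^ 2 + 4 * a * A ^ 3 + 4 * a * A ^ 2 * B - 8 * a * A -
    A ^ 3 * B - 2 * A ^ 2 * B ^ 2 - A * B ^ 3 + 4 * A * B) * e1 +
    (-2 * a ^ 4 * A ^ 2 - 2 * a ^ 4 - 2 * a ^ 3 * b * A * B - 4 * a ^ 3 * A + 4 * a ^ 2 * b * A +
    4 * a ^ 2 * A ^ 2 + 2 * a ^ 2 * A * B + 4 * a ^ 2 + 2 * a * b * A ^ 2 + 2 * a * b * A * B +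
    2 * a * b + 8 * a * A - 2 * A * B) * e2

/-- identities (ii) and (iii) -/
theorem Pair_id2 {K : Type*} [Field K] (h2 : (2 : K) ≠ 0) {a b A B γ δ : K} (ha : a ^ 2 = 1 - γ)
    (hb : b ^ 2 = 1 + γ) (hA : A ^ 2 = 1 - δ) (hB : B ^ 2 = 1 + δ) :
    (A * B + a * b) * (γ + δ) = (A * B * γ + a * b * δ) *
      (2 * ((a * A + b * B) / 2) ^ 2) := by
  have e3 : 2 * ((a * A + b * B) / 2) ^ 2 = 1 + γ * δ + (a * b) * (A * B) := by
    field_simp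
    linear_combination (A ^ 2) * ha + (B ^ 2) * hb + (1 - γ) * hA + (1 + γ) * hB
  rw [e3]
  have ec : (a * b) ^ 2 = 1 - γ ^ 2 := by rw [mul_pow, ha, hb]; ring
  have eC : (A * B) ^ 2 = 1 - δ ^ 2 := by rw [mul_pow, hA, hB]; ring
  linear_combination (-(A * B) * δ) * ec + (-(a * b) * γ) * eC

/-- the value of `x φ(x)` -/
theorem Pair_id3 {K : Type*} [Field K] (h2 : (2 : K) ≠ 0) {a b A B γ δ : K} (ha : a ^ 2 = 1 - γ)
    (hb : b ^ 2 = 1 + γ) (hA : A ^ 2 = 1 - δ) (hB : B ^ 2 = 1 + δ) (a0 : a ≠ 0) (b0 : b ≠ 0)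
    (A0 : A ≠ 0) (B0 : B ≠ 0) (g0 : γ ≠ 0) (m0 : (a * A + b * B) / 2 ≠ 0) :
    ((1 + A / a) * (1 + b / A)) * ((1 + B / b) * (1 + (-a) / B)) =
      (1 + (A * B) / (a * b)) * (1 + δ / γ) * (γ / (a * b)) * ((A * B) / (a * b))⁻¹ *
      (1 + (a * A + b * B) / 2 - (a * B - b * A) / 2) ^ 2 *
      (2 * ((a * A + b * B) / 2) ^ 2)⁻¹ := by
  have h1 := Pair_id1 h2 ha hb hA hB
  have h3 := Pair_id2 h2 ha hb hA hB
  set μ := (a * A + b * B) / 2 with hμ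
  set τ := 1 + μ - (a * B - b * A) / 2 with hτ
  have e1 : ((1 + A / a) * (1 + b / A)) * ((1 + B / b) * (1 + (-a) / B)) =
      ((a + A) * (b + B) * (A + b) * (B - a)) / (a * A * (b * B)) := by
    field_simp
    ring
  have e2 : (1 + (A * B) / (a * b)) * (1 + δ / γ) * (γ / (a * b)) * ((A * B) / (a * b))⁻¹ * τ ^ 2 *
      (2 * μ ^ 2)⁻¹ = ((A * B + a * b) * (γ + δ)) * τ ^ 2 / ((a * A * (b * B)) * (2 * μ ^ 2)) := by
    field_simp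
    ring
  rw [e1, e2, h1, h3]
  have h4 : a * A * (b * B) ≠ 0 := mul_ne_zero (mul_ne_zero a0 A0) (mul_ne_zero b0 B0)
  have h5 : 2 * μ ^ 2 ≠ 0 := mul_ne_zero h2 (pow_ne_zero 2 m0)
  rw [div_eq_div_iff h4 (mul_ne_zero h4 h5)]
  ring

/-- `τ ≠ 0` -/
theorem Pair_tau {K : Type*} [Field K] (h2 : (2 : K) ≠ 0) {a b A B γ δ : K} (ha : a ^ 2 = 1 - γ)
    (hb : b ^ 2 = 1 + γ) (hA : A ^ 2 = 1 - δ) (hB : B ^ 2 = 1 + δ) (h : δ ≠ γ) (h' : δ ≠ -γ) :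
    1 + (a * A + b * B) / 2 - (a * B - b * A) / 2 ≠ 0 := by
  intro h0
  have h1 := Pair_id1 h2 ha hb hA hB
  rw [h0, zero_pow two_ne_zero, mul_zero] at h1
  rcases mul_eq_zero.1 h1 with h1 | h1
  · rcases mul_eq_zero.1 h1 with h1 | h1
    · rcases mul_eq_zero.1 h1 with h1 | h1
      · exact h (by linear_combination hA - ha + (a - A) * h1)
      · exact h (by linear_combination hb - hB + (B - b) * h1)
    · exact h' (by linear_combination hA - hb + (b - A) * h1)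
  · exact h' (by linear_combination ha - hB + (B + a) * h1)

theorem Pair_mu {K : Type*} [Field K] (h2 : (2 : K) ≠ 0) {a b A B γ δ : K} (ha : a ^ 2 = 1 - γ)
    (hb : b ^ 2 = 1 + γ) (hA : A ^ 2 = 1 - δ) (hB : B ^ 2 = 1 + δ) (h' : δ ≠ -γ) :
    (a * A + b * B) / 2 ≠ 0 := by
  intro h0
  have h1 : a * A + b * B = 0 := by
    rcases div_eq_zero_iff.1 h0 with h | h
    · exact h
    · exact absurd h h2
  have h3 : 2 * (δ + γ) = 0 := by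
    linear_combination (-1 : K) * ((a * A - b * B) * h1) + (A ^ 2) * ha - (B ^ 2) * hb +
      (1 - γ) * hA - (1 + γ) * hB
  rcases mul_eq_zero.1 h3 with h | h
  · exact h2 h
  · exact h' (by linear_combination h)

section eta

variable {K : Type*} [Field K] {p : ℕ}

theorem Pair_eta_mul (n : ℕ) (x y : K) : eta p n (x * y) = eta p n x * eta p n y := by
  unfold eta
  exact mul_pow _ _ _

theorem Pair_eta_inv (n : ℕ) (x : K) : eta p n x⁻¹ = (eta p n x)⁻¹ := by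
  unfold eta
  exact inv_pow _ _

theorem Pair_odd (hp : p % 2 = 1) (n : ℕ) : p ^ n % 2 = 1 := by
  rw [Nat.pow_mod, hp, one_pow]
  rfl

theorem Pair_half (hp : p % 2 = 1) (n : ℕ) : 2 * ((p ^ n - 1) / 2) = p ^ n - 1 := by
  have := Pair_odd hp n
  omega

/-- `η(x)² = x^(p^n - 1)` -/
theorem Pair_eta_sq (hp : p % 2 = 1) (n : ℕ) (x : K) : eta p n (x ^ 2) = x ^ (p ^ n - 1) := by
  unfold eta
  rw [← pow_mul, Pair_half hp n]

/-- if `x^(p^n) = x` and `x ≠ 0` then `x^(p^n-1) = 1` -/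
theorem Pair_fix (hp : p % 2 = 1) {n : ℕ} {x : K} (hx : x ^ (p ^ n) = x) (h0 : x ≠ 0) :
    x ^ (p ^ n - 1) = 1 := by
  have h1 : x ^ (p ^ n - 1) * x = 1 * x := by
    rw [← pow_succ, one_mul, Nat.sub_add_cancel, hx]
    have := Pair_odd hp n
    omega
  exact mul_right_cancel₀ h0 h1

/-- `η` of a fixed element is fixed by odd powers -/
theorem Pair_eta_odd (hp : p % 2 = 1) {n : ℕ} (hn : 1 < p ^ n) {x : K} (hx : x ^ (p ^ n) = x) {m : ℕ}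
    (hm : m % 2 = 1) : eta p n (x ^ m) = eta p n x := by
  have e1 : eta p n (x ^ m) = (eta p n x) ^ m := by
    unfold eta
    rw [← pow_mul, ← pow_mul, mul_comm]
  rw [e1]
  have h2 := Pair_half hp n
  have h3 := Pair_odd hp n
  by_cases h0 : x = 0
  · have : eta p n x = 0 := by
      unfold eta
      rw [h0, zero_pow]
      omega
    rw [this, zero_pow]
    omega
  · have h4 : eta p n x ^ 2 = 1 := by
      unfold eta
      rw [← pow_mul, mul_comm, h2]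
      exact Pair_fix hp hx h0
    obtain ⟨k, hk⟩ : ∃ k, m = 2 * k + 1 := ⟨m / 2, by omega⟩
    rw [hk, pow_succ, pow_mul, h4, one_pow, one_mul]

/-- `η_(2g)(x) = η_g (x φ(x))` -/
theorem Pair_eta_double (hp : p % 2 = 1) (g : ℕ) (x : K) :
    eta p (2 * g) x = eta p g (x * x ^ (p ^ g)) := by
  unfold eta
  have h1 : x * x ^ (p ^ g) = x ^ (p ^ g + 1) := by rw [pow_succ]; ring
  rw [h1, ← pow_mul]
  congr 1
  have h2 := Pair_half hp g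
  have h3 := Pair_odd hp g
  have h4 : p ^ (2 * g) = (p ^ g) * (p ^ g) := by rw [two_mul, pow_add]
  obtain ⟨k, hk⟩ : ∃ k, p ^ g = 2 * k + 1 := ⟨p ^ g / 2, by omega⟩
  rw [h4, hk]
  have h5 : (2 * k + 1) * (2 * k + 1) - 1 = 2 * ((2 * k + 1 + 1) * k) := by
    have : (2 * k + 1) * (2 * k + 1) = 2 * ((2 * k + 1 + 1) * k) + 1 := by ring
    omega
  rw [h5, Nat.mul_div_cancel_left _ (by norm_num)]
  congr 1
  omega

end eta

theorem lam_pair {p : ℕ} [Fact p.Prime] (hp4 : p % 4 = 3) {g : ℕ} (g1 : 1 ≤ g) (hg4 : 4 ∣ g)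
    {γ : AlgebraicClosure (ZMod p)} (h0 : γ ≠ 0) (hn : γ ^ (p ^ g) = -γ)
    (hns : eta p (2 * g) (1 - γ) = -1) {d : ℕ} (hd : d % 2 = 1) (hdg : d < g)
    (hne : γ ^ (p ^ d) ≠ γ) (hne' : γ ^ (p ^ d) ≠ -γ) :
    eta p (2 * g) (1 + zz p d γ) * eta p (2 * g) (1 + zz p (g - d) γ) =
      - (γ ^ 2 / (1 - γ ^ 2)) ^ ((p ^ g - 1) / 4) * eta p g (1 + zz p d (γ ^ 2)) *
        eta p g (1 + γ ^ (p ^ d - 1)) := by
  have hp : p % 2 = 1 := by omega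
  have hpp : p.Prime := Fact.out
  have hp3 : 3 ≤ p := by
    have := hpp.two_le
    omega
  have hbig : ∀ n, 1 ≤ n → 3 ≤ p ^ n := fun n hn =>
    hp3.trans (Nat.le_self_pow (by omega) p)
  have hfa : ∀ (n : ℕ) (x y : AlgebraicClosure (ZMod p)),
      (x + y) ^ (p ^ n) = x ^ (p ^ n) + y ^ (p ^ n) := fun n x y => add_pow_char_pow x y p n
  have hneg : ∀ (n : ℕ) (x : AlgebraicClosure (ZMod p)), (-x) ^ (p ^ n) = -(x ^ (p ^ n)) :=
    fun n x => Odd.neg_pow (Nat.odd_iff.2 (Pair_odd hp n)) x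
  have hsub : ∀ (n : ℕ) (x y : AlgebraicClosure (ZMod p)),
      (x - y) ^ (p ^ n) = x ^ (p ^ n) - y ^ (p ^ n) := fun n x y => by
    rw [sub_eq_add_neg, hfa, hneg, ← sub_eq_add_neg]
  have h2 : (2 : AlgebraicClosure (ZMod p)) ≠ 0 := by
    intro h
    have h3 : ((2 : ℕ) : AlgebraicClosure (ZMod p)) = 0 := by exact_mod_cast h
    rw [CharP.cast_eq_zero_iff (AlgebraicClosure (ZMod p)) p] at h3
    have := Nat.le_of_dvd (by norm_num) h3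
    omega
  have h22 : ∀ n, (2 : AlgebraicClosure (ZMod p)) ^ (p ^ n) = 2 := fun n => by
    have h3 := hfa n 1 1
    rw [one_pow] at h3
    have h4 : (1 : AlgebraicClosure (ZMod p)) + 1 = 2 := by norm_num
    rwa [h4] at h3
  obtain ⟨ϖ, hϖ⟩ : ∃ ϖ : AlgebraicClosure (ZMod p), ϖ ^ 2 = 1 - γ :=
    IsAlgClosed.exists_pow_nat_eq (1 - γ) (by norm_num : 0 < 2)
  have h1g : 1 - γ ≠ 0 := by
    intro h
    rw [h] at hns
    unfold eta at hns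
    rw [zero_pow] at hns
    · have h3 : (1 : AlgebraicClosure (ZMod p)) = 0 := by linear_combination hns
      exact one_ne_zero h3
    · have := hbig (2 * g) (by omega)
      omega
  have w0 : ϖ ≠ 0 := by
    rintro rfl
    apply h1g
    rw [← hϖ, zero_pow two_ne_zero]
  have hg2 : γ ^ (p ^ (2 * g)) = γ := by
    rw [two_mul, pow_add, pow_mul, hn, hneg, hn, neg_neg]
  have hw : ϖ ^ (p ^ (2 * g)) = -ϖ := by
    have h3 := Pair_eta_sq hp (2 * g) ϖ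
    rw [hϖ, hns] at h3
    have h4 : ϖ ^ (p ^ (2 * g)) = ϖ ^ (p ^ (2 * g) - 1) * ϖ := by
      rw [← pow_succ, Nat.sub_add_cancel]
      have := hbig (2 * g) (by omega)
      omega
    rw [h4, ← h3]
    ring
  -- the four square roots
  obtain ⟨b, hbdef⟩ : ∃ b, b = ϖ ^ (p ^ g) := ⟨_, rfl⟩
  obtain ⟨A, hAdef⟩ : ∃ A, A = ϖ ^ (p ^ d) := ⟨_, rfl⟩
  obtain ⟨B, hBdef⟩ : ∃ B, B = ϖ ^ (p ^ (g + d)) := ⟨_, rfl⟩
  obtain ⟨δ, hδdef⟩ : ∃ δ, δ = γ ^ (p ^ d) := ⟨_, rfl⟩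
  rw [← hδdef] at hne hne'
  have hsq : ∀ n, (ϖ ^ (p ^ n)) ^ 2 = 1 - γ ^ (p ^ n) := fun n => by
    rw [← pow_mul, mul_comm, pow_mul, hϖ, hsub, one_pow]
  have hb : b ^ 2 = 1 + γ := by rw [hbdef, hsq, hn, sub_neg_eq_add]
  have hA : A ^ 2 = 1 - δ := by rw [hAdef, hsq, hδdef]
  have hgd : γ ^ (p ^ (g + d)) = -δ := by
    rw [pow_add, pow_mul, hn, hneg, hδdef]
  have hB : B ^ 2 = 1 + δ := by rw [hBdef, hsq, hgd, sub_neg_eq_add]
  have b0 : b ≠ 0 := by rw [hbdef]; exact pow_ne_zero _ w0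
  have A0 : A ≠ 0 := by rw [hAdef]; exact pow_ne_zero _ w0
  have B0 : B ≠ 0 := by rw [hBdef]; exact pow_ne_zero _ w0
  have fa : ϖ ^ (p ^ g) = b := hbdef.symm
  have fb : b ^ (p ^ g) = -ϖ := by
    rw [hbdef, ← pow_mul, ← pow_add, ← two_mul, hw]
  have fA : A ^ (p ^ g) = B := by
    rw [hAdef, ← pow_mul, ← pow_add, hBdef, add_comm]
  have fB : B ^ (p ^ g) = -A := by
    rw [hBdef, ← pow_mul, ← pow_add, show g + d + g = 2 * g + d by ring, pow_add, pow_mul, hw, hneg,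
      hAdef]
  have hbd : b ^ (p ^ d) = B := by
    rw [hbdef, ← pow_mul, ← pow_add, hBdef]
  have hpred : ∀ (n : ℕ) (x : AlgebraicClosure (ZMod p)), x ^ (p ^ n - 1) * x = x ^ (p ^ n) :=
    fun n x => by
    rw [← pow_succ, Nat.sub_add_cancel]
    have := Pair_odd hp n
    omega
  have hzz : ∀ n, zz p n γ = ϖ ^ (p ^ n - 1) := fun n => by
    unfold zz
    rw [← hϖ, ← pow_mul, Pair_half hp n]
  have hz : zz p d γ = A / ϖ := by
    rw [eq_div_iff w0, hzz, hpred, hAdef]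
  obtain ⟨y, hydef⟩ : ∃ y, y = zz p (g - d) γ := ⟨_, rfl⟩
  have hy : y ^ (p ^ d) = b / A := by
    rw [eq_div_iff A0, hydef, hzz, hAdef, ← mul_pow, hpred, ← pow_mul, ← pow_add,
      Nat.sub_add_cancel hdg.le, hbdef]
  have hyfix : (1 + y) ^ (p ^ (2 * g)) = 1 + y := by
    rw [hfa, one_pow, hydef]
    unfold zz
    rw [← pow_mul, mul_comm, pow_mul, hsub, one_pow, hg2]
  have hstep : eta p (2 * g) (1 + y) = eta p (2 * g) (1 + b / A) := by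
    rw [← Pair_eta_odd hp (by have := hbig (2 * g) (by omega); omega) hyfix (Pair_odd hp d), hfa,
      one_pow, hy]
  have hx : ((1 + A / ϖ) * (1 + b / A)) ^ (p ^ g) = (1 + B / b) * (1 + (-ϖ) / B) := by
    rw [mul_pow, hfa, hfa, one_pow, div_pow, div_pow, fA, fa, fb]
  have m0 := Pair_mu h2 hϖ hb hA hB hne'
  have t0 := Pair_tau h2 hϖ hb hA hB hne hne'
  have hid := Pair_id3 h2 hϖ hb hA hB w0 b0 A0 B0 h0 m0
  -- the invariant elements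
  have fm : ((ϖ * A + b * B) / 2) ^ (p ^ g) = (ϖ * A + b * B) / 2 := by
    rw [div_pow, hfa, mul_pow, mul_pow, fa, fA, fb, fB, h22]
    ring
  have fn : ((ϖ * B - b * A) / 2) ^ (p ^ g) = (ϖ * B - b * A) / 2 := by
    rw [div_pow, hsub, mul_pow, mul_pow, fa, fA, fb, fB, h22]
    ring
  have ft : (1 + (ϖ * A + b * B) / 2 - (ϖ * B - b * A) / 2) ^ (p ^ g) =
      1 + (ϖ * A + b * B) / 2 - (ϖ * B - b * A) / 2 := by
    rw [hsub, hfa, one_pow, fm, fn]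
  have em : eta p g (((ϖ * A + b * B) / 2) ^ 2) = 1 := by
    rw [Pair_eta_sq hp, Pair_fix hp fm m0]
  have et : eta p g ((1 + (ϖ * A + b * B) / 2 - (ϖ * B - b * A) / 2) ^ 2) = 1 := by
    rw [Pair_eta_sq hp, Pair_fix hp ft t0]
  obtain ⟨g', hg'⟩ : ∃ g', g = 2 * g' := ⟨g / 2, by omega⟩
  have e2 : eta p g (2 : AlgebraicClosure (ZMod p)) = 1 := by
    have h3 : (2 : AlgebraicClosure (ZMod p)) ^ (p - 1) = 1 := by
      have h4 := Pair_fix hp (h22 1) h2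
      rwa [pow_one] at h4
    have h4 : p ^ 2 - 1 ∣ p ^ g - 1 := by
      rw [hg', pow_mul]
      simpa using Nat.sub_dvd_pow_sub_pow (p ^ 2) 1 g'
    obtain ⟨k, hk⟩ := h4
    obtain ⟨q, hq⟩ : ∃ q, p + 1 = 2 * q := ⟨(p + 1) / 2, by omega⟩
    have h5 : p ^ 2 - 1 = 2 * ((p - 1) * q) := by
      obtain ⟨r, rfl⟩ : ∃ r, p = r + 1 := ⟨p - 1, by omega⟩
      have h6 : (r + 1) ^ 2 = 2 * (r * q) + 1 := by
        have : 2 * (r * q) = r * (2 * q) := by ring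
        rw [this, ← hq]
        ring
      rw [h6]
      simp
    unfold eta
    rw [hk, h5, show 2 * ((p - 1) * q) * k = 2 * ((p - 1) * (q * k)) by ring,
      Nat.mul_div_cancel_left _ (by norm_num), pow_mul, h3, one_pow]
  have h4g : p ^ g % 4 = 1 := by
    rw [hg', pow_mul, Nat.pow_mod, Nat.pow_mod p 2, hp4]
    norm_num
  have hc : (ϖ * b) ^ 2 = 1 - γ ^ 2 := by
    rw [mul_pow, hϖ, hb]
    ring
  have ek : eta p g (γ / (ϖ * b)) = (γ ^ 2 / (1 - γ ^ 2)) ^ ((p ^ g - 1) / 4) := by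
    unfold eta
    have h5 : (p ^ g - 1) / 2 = 2 * ((p ^ g - 1) / 4) := by omega
    rw [h5, pow_mul, div_pow, hc]
  have hz' : zz p d (γ ^ 2) = A * B / (ϖ * b) := by
    rw [eq_div_iff (mul_ne_zero w0 b0)]
    unfold zz
    rw [← hc, ← pow_mul, Pair_half hp d, hpred, mul_pow, hbd, hAdef]
  have e1g : eta p g (1 - γ ^ 2) = -1 := by
    rw [← hns, Pair_eta_double hp]
    congr 1
    rw [hsub, one_pow, hn]
    ring
  have ez : eta p g (A * B / (ϖ * b)) = -1 := by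
    rw [← hz']
    unfold eta at e1g
    unfold eta zz
    rw [← pow_mul, mul_comm, pow_mul, e1g]
    refine Odd.neg_one_pow (Nat.odd_iff.2 ?_)
    have h5 : p ^ d % 4 = 3 := by
      obtain ⟨k, hk⟩ : ∃ k, d = 2 * k + 1 := ⟨d / 2, by omega⟩
      rw [hk, pow_succ, pow_mul, Nat.mul_mod, Nat.pow_mod, Nat.pow_mod p 2, hp4]
      norm_num
    omega
  have hζ : γ ^ (p ^ d - 1) = δ / γ := by
    rw [eq_div_iff h0, hpred, hδdef]
  rw [hz, ← hydef, hstep, ← Pair_eta_mul, Pair_eta_double hp, hx, hid, Pair_eta_mul, Pair_eta_mul,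
    Pair_eta_mul, Pair_eta_mul, Pair_eta_mul, Pair_eta_inv, Pair_eta_inv, Pair_eta_mul, e2, em, et,
    ek, ez, hz', hζ]
  norm_num
  ring

end LIF
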