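import Pool.Agent.helper1.GLI.Neg
import Pool.Agent.helper1.LI.ChiMp
import Pool.Agent.helper1.LI.Km

/-!
[GLI-Pts4] `a_d = 4 (M_d - n_d)` for odd `d`.

`p % 4 = 3`, `h0 = hq s (2^k)`, `k ≥ 1`, `Good p (2^k) h0`, `d` odd, `q = p^d` (so `q % 4 = 3`),
`H = hq s 1 = X^2 + s X - 1`, `h0(x) = H(x^(2^k))`.

Proof.  `am D d = ∑_{x ∈ Km p d} chi D (Mp d x)` and by `chi_Mp` the value `chi D (Mp d x)` is the
integer in `{0, 1, -1}` whose image in the algebraic closure is
`D(x)^((q-1)/2) = eta p d (1 - x) * eta p d (h0(x))` (`D = (1 - X) h0`).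
For `x ∈ Km p d`: `h0(x) ≠ 0` (a root of `h0` has degree `2g`, even, which does not divide `d`:
`gam_deg`, `mem_Km_iff_dvd`), so `eta p d (h0(x)) = ±1`; `eta p d (1 - x) = ±1` for `x ≠ 1`.
(`y ≠ 0`, `y^q = y` implies `y^((q-1)/2) = ±1`.)  For `x = 1`: `h0(1) = s`,
`quadraticChar (h0.eval 1) = -1` (`hg.nsq`), so `eta p d (h0(1)) = -1`: for `c ∈ F_p`, `c ≠ 0`,
`c^((q-1)/2) = (c^((p-1)/2))^(1 + p + ... + p^(d-1))`, the exponent is odd.
Let `B = #{x ∈ Km p d : eta p d (h0(x)) = -1}`, `M = Md h0 d`.  The number of `x ∈ Km p d` with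
`eta p d (1 - x) = -1` is `(q-1)/2` and the same with `+1` (the group of nonzero elements of
`Km p d`, `q - 1` elements, roots of `X^((q-1)/2) ∓ 1`).  So the numbers of `x` with
`(eta (1-x), eta (h0 x))` equal to `(-,-)`, `(-,+)`, `(+,-)`, `(+,+)` are
`M`, `(q-1)/2 - M`, `B - 1 - M`, `(q-1)/2 - (B - 1 - M)` and
`am D d = M + ((q-1)/2 - (B-1-M)) - ((q-1)/2 - M) - (B - 1 - M) = 4 M - 2 B + 2`.
Claim `B = 1 + 2 nd H d`: `x = 0`: `h0(0) = -1`, `eta p d (-1) = (-1)^((q-1)/2) = -1` (`q % 4 = 3`):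
it is counted.  For `x ≠ 0` in `Km p d` the map `x ↦ x^(2^k)` is two-to-one from the nonzero
elements onto the nonzero squares (`q - 1 = 2 *` odd: `x^(2^k) = y^(2^k)` iff `x = ± y`, because
`(x/y)^(gcd (2^k, q-1)) = (x/y)^2 = 1`; and the image has `(q-1)/2` elements, all squares, i.e.
`v^((q-1)/2) = 1`).  So the number of `x ≠ 0` with `eta p d (H(x^(2^k))) = -1` is `2 nd H d`.
Hence `am D d = 4 M - 2 (1 + 2 nd) + 2 = 4 M - 4 nd`.
-/

set_option autoImplicit false

namespace LIF

open Polynomial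

section Pts4

variable {p : ℕ} [Fact p.Prime] {d : ℕ}

omit [Fact p.Prime] in
theorem Pts4_q (hp4 : p % 4 = 3) (hd : d % 2 = 1) : p ^ d % 4 = 3 := by
  obtain ⟨m, hm⟩ : ∃ m, d = 2 * m + 1 := ⟨d / 2, by omega⟩
  rw [hm, pow_succ, pow_mul, Nat.mul_mod, Nat.pow_mod (p ^ 2), Nat.pow_mod p 2, hp4]
  norm_num

omit [Fact p.Prime] in
theorem Pts4_odd (hq : p ^ d % 4 = 3) : Odd ((p ^ d - 1) / 2) := by
  rw [Nat.odd_iff]
  omega

theorem Pts4_eta_neg (hq : p ^ d % 4 = 3) (x : AlgebraicClosure (ZMod p)) :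
    eta p d (-x) = -eta p d x := (Pts4_odd hq).neg_pow x

theorem Pts4_eta_one : eta p d (1 : AlgebraicClosure (ZMod p)) = 1 := one_pow _

theorem Pts4_eta_zero (hq : p ^ d % 4 = 3) : eta p d (0 : AlgebraicClosure (ZMod p)) = 0 := by
  unfold eta
  exact zero_pow (by omega)

theorem Pts4_cast (p2 : p ≠ 2) {a b : ℤ} (h : ((a : ℤ) : AlgebraicClosure (ZMod p)) = b)
    (hab : |a - b| ≤ 2) : a = b := by
  have h1 : ((a - b : ℤ) : ZMod p) = 0 := by
    apply (algebraMap (ZMod p) (AlgebraicClosure (ZMod p))).injective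
    rw [map_intCast, map_zero, Int.cast_sub, h, sub_self]
  have h2 : (p : ℤ) ∣ a - b := (ZMod.intCast_zmod_eq_zero_iff_dvd _ p).1 h1
  have h3 : 2 < p := lt_of_le_of_ne (Fact.out : p.Prime).two_le (Ne.symm p2)
  have h4 := Int.eq_zero_of_abs_lt_dvd h2 (by omega)
  omega

theorem Pts4_one_ne (p2 : p ≠ 2) : (1 : AlgebraicClosure (ZMod p)) ≠ -1 := by
  intro h
  have h1 := Pts4_cast p2 (a := 1) (b := -1) (by rw [Int.cast_one, Int.cast_neg, Int.cast_one]; exact h)
    (by norm_num)
  omega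

theorem Pts4_dich (hd : 1 ≤ d) (hq : p ^ d % 4 = 3) {x : AlgebraicClosure (ZMod p)}
    (hx : x ∈ Km p d) (h0 : x ≠ 0) : eta p d x = 1 ∨ eta p d x = -1 := by
  have h1 : x ^ (p ^ d) = x := (mem_Km hd).1 hx
  have h2 : x ^ (p ^ d - 1) = 1 := by
    have h3 : x ^ (p ^ d - 1) * x = 1 * x := by
      rw [← pow_succ, Nat.sub_add_cancel (by omega), h1, one_mul]
    exact mul_right_cancel₀ h0 h3
  have h4 : eta p d x * eta p d x = 1 := by
    unfold eta
    rw [← pow_add, ← h2]
    congr 1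
    omega
  exact mul_self_eq_one_iff.1 h4

theorem Pts4_aeval (hd : 1 ≤ d) {x : AlgebraicClosure (ZMod p)} (hx : x ∈ Km p d)
    (f : (ZMod p)[X]) : aeval x f ∈ Km p d := by
  rw [mem_Km hd] at hx ⊢
  rw [← Km_phi_apply, ← aeval_algHom_apply, Km_phi_apply, hx]

theorem Pts4_neg_mem (hd : 1 ≤ d) (hq : p ^ d % 4 = 3) {x : AlgebraicClosure (ZMod p)}
    (hx : x ∈ Km p d) : -x ∈ Km p d := by
  rw [mem_Km hd] at hx ⊢
  have h1 : Odd (p ^ d) := by
    rw [Nat.odd_iff]
    omega
  rw [h1.neg_pow, hx]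

theorem Pts4_one_sub_mem (hd : 1 ≤ d) {x : AlgebraicClosure (ZMod p)}
    (hx : x ∈ Km p d) : 1 - x ∈ Km p d := by
  have h1 := Pts4_aeval hd hx (1 - X)
  rwa [map_sub, map_one, aeval_X] at h1

theorem Pts4_zero_mem (hd : 1 ≤ d) : (0 : AlgebraicClosure (ZMod p)) ∈ Km p d := by
  rw [mem_Km hd]
  exact zero_pow (pow_pos (Fact.out : p.Prime).pos d).ne'

theorem Pts4_one_mem (hd : 1 ≤ d) : (1 : AlgebraicClosure (ZMod p)) ∈ Km p d := by
  rw [mem_Km hd, one_pow]

open Classical in
/-- the change of sign -/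
theorem Pts4_card_neg (hd : 1 ≤ d) (hq : p ^ d % 4 = 3) (Q : AlgebraicClosure (ZMod p) → Prop)
    (hQ : ∀ x, Q (-x) ↔ Q x) : ((Km p d).filter (fun x => eta p d x = -1 ∧ Q x)).card =
      ((Km p d).filter (fun x => eta p d x = 1 ∧ Q x)).card := by
  refine Finset.card_nbij' (fun x => -x) (fun x => -x) ?_ ?_ ?_ ?_
  · intro x hx
    obtain ⟨h1, h2, h3⟩ := Finset.mem_filter.1 hx
    refine Finset.mem_filter.2 ⟨Pts4_neg_mem hd hq h1, ?_, (hQ x).2 h3⟩
    rw [Pts4_eta_neg hq, h2, neg_neg]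
  · intro x hx
    obtain ⟨h1, h2, h3⟩ := Finset.mem_filter.1 hx
    refine Finset.mem_filter.2 ⟨Pts4_neg_mem hd hq h1, ?_, (hQ x).2 h3⟩
    rw [Pts4_eta_neg hq, h2]
  · intro x _
    exact neg_neg x
  · intro x _
    exact neg_neg x

open Classical in
/-- the numbers of the squares and of the non-squares -/
theorem Pts4_card_eta (p2 : p ≠ 2) (hd : 1 ≤ d) (hq : p ^ d % 4 = 3) :
    2 * ((Km p d).filter (fun x => eta p d x = -1)).card + 1 = p ^ d := by
  have h1 : ((Km p d).filter (fun x => eta p d x = -1)).card =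
      ((Km p d).filter (fun x => eta p d x = 1)).card := by
    have h := Pts4_card_neg hd hq (fun _ => True) (fun _ => Iff.rfl)
    simpa only [and_true] using h
  have h2 : ((Km p d).filter (fun x => x = 0)).card = 1 := by
    have h3 : (Km p d).filter (fun x => x = 0) = {0} := by
      ext x
      rw [Finset.mem_filter, Finset.mem_singleton]
      constructor
      · exact fun h => h.2
      · rintro rfl
        exact ⟨Pts4_zero_mem hd, rfl⟩
    rw [h3, Finset.card_singleton]
  have h3 : ∀ x ∈ Km p d, (1 : ℕ) = (if eta p d x = -1 then 1 else 0) +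
      (if eta p d x = 1 then 1 else 0) + (if x = 0 then 1 else 0) := by
    intro x hx
    by_cases h0 : x = 0
    · rw [h0, Pts4_eta_zero hq, if_neg, if_neg, if_pos rfl]
      · exact zero_ne_one
      · intro h
        exact one_ne_zero (neg_eq_zero.1 h.symm)
    · rcases Pts4_dich hd hq hx h0 with h | h
      · rw [h, if_neg (Pts4_one_ne p2), if_pos rfl, if_neg h0]
      · rw [h, if_pos rfl, if_neg (Pts4_one_ne p2).symm, if_neg h0]
  have h4 : (Km p d).card = ((Km p d).filter (fun x => eta p d x = -1)).card +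
      ((Km p d).filter (fun x => eta p d x = 1)).card +
      ((Km p d).filter (fun x => x = 0)).card := by
    rw [Finset.card_filter, Finset.card_filter, Finset.card_filter, ← Finset.sum_add_distrib,
      ← Finset.sum_add_distrib, ← Finset.sum_congr rfl h3, Finset.card_eq_sum_ones]
  rw [card_Km hd] at h4
  omega

/-- the power map with exponent `2 ^ k` on the squares -/
theorem Pts4_inj (p2 : p ≠ 2) (hq : p ^ d % 4 = 3) (k : ℕ) {x y : AlgebraicClosure (ZMod p)}
    (hx : eta p d x = 1) (hy : eta p d y = 1) (h : x ^ (2 ^ k) = y ^ (2 ^ k)) : x = y := by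
  induction k generalizing x y with
  | zero => simpa using h
  | succ k ih =>
    have h1 : x ^ 2 = y ^ 2 := by
      apply ih
      · unfold eta at hx ⊢
        rw [← pow_mul, mul_comm, pow_mul, hx, one_pow]
      · unfold eta at hy ⊢
        rw [← pow_mul, mul_comm, pow_mul, hy, one_pow]
      · rw [← pow_mul, ← pow_mul, ← pow_succ']
        exact h
    rcases sq_eq_sq_iff_eq_or_eq_neg.1 h1 with h2 | h2
    · exact h2
    · exfalso
      rw [h2, Pts4_eta_neg hq, hy] at hx
      exact Pts4_one_ne p2 hx.symm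

open Classical in
theorem Pts4_pow (p2 : p ≠ 2) (hd : 1 ≤ d) (hq : p ^ d % 4 = 3) (k : ℕ)
    (Q : AlgebraicClosure (ZMod p) → Prop) :
    ((Km p d).filter (fun x => eta p d x = 1 ∧ Q (x ^ (2 ^ k)))).card =
      ((Km p d).filter (fun v => eta p d v = 1 ∧ Q v)).card := by
  obtain ⟨P, hP⟩ : ∃ P : Finset (AlgebraicClosure (ZMod p)),
    P = (Km p d).filter (fun x => eta p d x = 1) := ⟨_, rfl⟩
  have hPm : ∀ x, x ∈ P ↔ x ∈ Km p d ∧ eta p d x = 1 := by
    intro x
    rw [hP, Finset.mem_filter]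
  have hinj : Set.InjOn (fun x : AlgebraicClosure (ZMod p) => x ^ (2 ^ k)) (P : Set _) := by
    intro x hx y hy hxy
    exact Pts4_inj p2 hq k ((hPm x).1 hx).2 ((hPm y).1 hy).2 hxy
  have himg : P.image (fun x => x ^ (2 ^ k)) = P := by
    apply Finset.eq_of_subset_of_card_le
    · intro v hv
      obtain ⟨x, hx, rfl⟩ := Finset.mem_image.1 hv
      obtain ⟨h1, h2⟩ := (hPm x).1 hx
      refine (hPm _).2 ⟨?_, ?_⟩
      · have h3 := Pts4_aeval hd h1 (X ^ (2 ^ k))
        rwa [map_pow, aeval_X] at h3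
      · unfold eta at h2 ⊢
        rw [← pow_mul, mul_comm, pow_mul, h2, one_pow]
    · rw [Finset.card_image_of_injOn hinj]
  have e1 : (Km p d).filter (fun v => eta p d v = 1 ∧ Q v) = P.filter Q := by
    rw [hP, Finset.filter_filter]
  have e2 : (Km p d).filter (fun x => eta p d x = 1 ∧ Q (x ^ (2 ^ k))) =
      P.filter (fun x => Q (x ^ (2 ^ k))) := by
    rw [hP, Finset.filter_filter]
  rw [e1, e2]
  have e3 : P.filter Q = (P.filter (fun x => Q (x ^ (2 ^ k)))).image (fun x => x ^ (2 ^ k)) := by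
    conv_lhs => rw [← himg]
    rw [Finset.filter_image]
  rw [e3, Finset.card_image_of_injOn]
  intro x hx y hy hxy
  exact hinj (Finset.mem_filter.1 hx).1 (Finset.mem_filter.1 hy).1 hxy

/-- an element of the prime field -/
theorem Pts4_prime (p2 : p ≠ 2) (hq : p ^ d % 4 = 3) {c : ZMod p}
    (hc : quadraticChar (ZMod p) c = -1) :
    eta p d (algebraMap (ZMod p) (AlgebraicClosure (ZMod p)) c) = -1 := by
  have hp : p.Prime := Fact.out
  have hch : ringChar (ZMod p) ≠ 2 := by
    rw [ZMod.ringChar_zmod_n]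
    exact p2
  have h2 : p % 2 = 1 := hp.eq_two_or_odd.resolve_left p2
  have h1 : c ^ (p / 2) = -1 := by
    have h := quadraticChar_eq_pow_of_char_ne_two' hch c
    rw [hc, ZMod.card] at h
    rw [← h]
    norm_num
  have hgeom : (∑ i ∈ Finset.range d, p ^ i) * (p - 1) = p ^ d - 1 := by
    rw [Nat.geomSum_eq hp.two_le, Nat.div_mul_cancel (Nat.sub_one_dvd_pow_sub_one p d)]
  obtain ⟨G, hG⟩ : ∃ G, G = ∑ i ∈ Finset.range d, p ^ i := ⟨_, rfl⟩
  rw [← hG] at hgeom
  have h3 : p - 1 = 2 * (p / 2) := by omega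
  have h4 : (p ^ d - 1) / 2 = p / 2 * G := by
    rw [← hgeom, h3]
    have : G * (2 * (p / 2)) = 2 * (p / 2 * G) := by ring
    rw [this, Nat.mul_div_cancel_left _ (by norm_num : 0 < 2)]
  have h5 := Pts4_odd hq
  rw [h4, Nat.odd_mul] at h5
  unfold eta
  rw [← map_pow, h4, pow_mul, h1, h5.2.neg_one_pow, map_neg, map_one]

end Pts4

theorem am_four {p : ℕ} [Fact p.Prime] {k : ℕ} (hk : 1 ≤ k) (hp4 : p % 4 = 3) {s : ZMod p}
    (hg : Good p (2 ^ k) (hq s (2 ^ k))) {d : ℕ} (hd : d % 2 = 1) :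
    am (Dp (hq s (2 ^ k))) d = 4 * ((Md (hq s (2 ^ k)) d : ℤ) - (nd (hq s 1) d : ℤ)) := by
  classical
  have p2 : p ≠ 2 := hg.p2
  have hd1 : 1 ≤ d := by omega
  have hqq : p ^ d % 4 = 3 := Pts4_q hp4 hd
  -- values of the polynomial
  have hval : ∀ x : AlgebraicClosure (ZMod p), aeval x (hq s (2 ^ k)) =
      aeval (x ^ (2 ^ k)) (hq s 1) := by
    intro x
    unfold hq
    simp only [map_sub, map_add, map_mul, map_pow, aeval_X, aeval_C, map_one]
    rw [mul_one, pow_one, ← pow_mul, mul_comm (2 ^ k) 2]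
  have hval0 : aeval (0 : AlgebraicClosure (ZMod p)) (hq s (2 ^ k)) = -1 := by
    rw [hval, zero_pow (by positivity)]
    unfold hq
    simp
  have hne : ∀ x ∈ Km p d, aeval x (hq s (2 ^ k)) ≠ 0 := by
    intro x hx h0
    have h1 := gam_deg hg h0
    have h2 := (mem_Km_iff_dvd hd1).1 hx
    rw [h1] at h2
    have h3 : 2 ∣ d := (Dvd.intro _ rfl).trans h2
    omega
  -- `x = 1`
  have hone : eta p d (aeval (1 : AlgebraicClosure (ZMod p)) (hq s (2 ^ k))) = -1 := by
    have h1 : aeval (1 : AlgebraicClosure (ZMod p)) (hq s (2 ^ k)) =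
        algebraMap (ZMod p) (AlgebraicClosure (ZMod p)) ((hq s (2 ^ k)).eval 1) := by
      rw [← map_one (algebraMap (ZMod p) (AlgebraicClosure (ZMod p))),
        aeval_algebraMap_apply_eq_algebraMap_eval]
    rw [h1]
    exact Pts4_prime p2 hqq hg.nsq
  -- the terms
  have hterm : ∀ x ∈ Km p d, chi (Dp (hq s (2 ^ k))) (Mp d x) =
      1 + (if x = 1 then 1 else 0) - 2 * (if eta p d (1 - x) = -1 then 1 else 0) -
      2 * (if eta p d (aeval x (hq s (2 ^ k))) = -1 then 1 else 0) +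
      4 * (if eta p d (1 - x) = -1 ∧ eta p d (aeval x (hq s (2 ^ k))) = -1 then 1 else 0) := by
    intro x hx
    have h1 := chi_Mp p2 (Dp (hq s (2 ^ k))) hd1 hx
    have h2 : (aeval x (Dp (hq s (2 ^ k)))) ^ ((p ^ d - 1) / 2) =
        eta p d (1 - x) * eta p d (aeval x (hq s (2 ^ k))) := by
      unfold eta Dp
      rw [← mul_pow, map_mul, map_sub, map_one, aeval_X]
    rw [h2] at h1
    have h3 : chi (Dp (hq s (2 ^ k))) (Mp d x) = 0 ∨ chi (Dp (hq s (2 ^ k))) (Mp d x) = 1 ∨
        chi (Dp (hq s (2 ^ k))) (Mp d x) = -1 := quadraticChar_isQuadratic (ZMod p) _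
    have hone_ne := Pts4_one_ne p2
    have hz : (0 : AlgebraicClosure (ZMod p)) ≠ -1 := by
      intro h
      exact one_ne_zero (neg_eq_zero.1 h.symm)
    -- reduce to an integer identity modulo `p`
    have hfin : ∀ t : ℤ, ((t : ℤ) : AlgebraicClosure (ZMod p)) =
        eta p d (1 - x) * eta p d (aeval x (hq s (2 ^ k))) → |t| ≤ 1 →
        chi (Dp (hq s (2 ^ k))) (Mp d x) = t := by
      intro t ht ht1
      apply Pts4_cast p2
      · rw [h1, ht]
      · rw [abs_le] at ht1 ⊢
        rcases h3 with h | h | h <;> rw [h] <;> constructor <;> omega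
    by_cases hx1 : x = 1
    · subst hx1
      have h4 : eta p d ((1 : AlgebraicClosure (ZMod p)) - 1) = 0 := by
        rw [sub_self]
        exact Pts4_eta_zero hqq
      rw [h4] at hfin ⊢
      rw [if_pos rfl, if_neg hz, if_pos hone, if_neg (fun h => hz h.1)]
      apply hfin
      · rw [zero_mul]
        norm_num
      · norm_num
    · have h4 : (1 : AlgebraicClosure (ZMod p)) - x ≠ 0 := sub_ne_zero.2 (Ne.symm hx1)
      have h5 := Pts4_dich hd1 hqq (Pts4_one_sub_mem hd1 hx) h4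
      have h6 := Pts4_dich hd1 hqq (Pts4_aeval hd1 hx (hq s (2 ^ k))) (hne x hx)
      rw [if_neg hx1]
      rcases h5 with h5 | h5 <;> rcases h6 with h6 | h6
      · rw [h5, h6] at hfin
        rw [h5, h6, if_neg hone_ne, if_neg (fun h => hone_ne h.1)]
        exact hfin _ (by norm_num) (by norm_num)
      · rw [h5, h6] at hfin
        rw [h5, h6, if_neg hone_ne, if_pos rfl, if_neg (fun h => hone_ne h.1)]
        exact hfin _ (by norm_num) (by norm_num)
      · rw [h5, h6] at hfin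
        rw [h5, h6, if_pos rfl, if_neg hone_ne, if_neg (fun h => hone_ne h.2)]
        exact hfin _ (by norm_num) (by norm_num)
      · rw [h5, h6] at hfin
        rw [h5, h6, if_pos rfl, if_pos ⟨rfl, rfl⟩]
        exact hfin _ (by norm_num) (by norm_num)
  -- the counts
  have hcA : 2 * ((Km p d).filter (fun x => eta p d (1 - x) = -1)).card + 1 = p ^ d := by
    rw [← Pts4_card_eta p2 hd1 hqq]
    congr 2
    refine Finset.card_nbij' (fun x => 1 - x) (fun x => 1 - x) ?_ ?_ ?_ ?_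
    · intro x hx
      obtain ⟨h1, h2⟩ := Finset.mem_filter.1 hx
      exact Finset.mem_filter.2 ⟨Pts4_one_sub_mem hd1 h1, h2⟩
    · intro x hx
      obtain ⟨h1, h2⟩ := Finset.mem_filter.1 hx
      refine Finset.mem_filter.2 ⟨Pts4_one_sub_mem hd1 h1, ?_⟩
      rw [sub_sub_cancel]
      exact h2
    · intro x _
      exact sub_sub_cancel 1 x
    · intro x _
      exact sub_sub_cancel 1 x
  have hc1 : ((Km p d).filter (fun x => x = 1)).card = 1 := by
    have h3 : (Km p d).filter (fun x => x = 1) = {1} := by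
      ext x
      rw [Finset.mem_filter, Finset.mem_singleton]
      constructor
      · exact fun h => h.2
      · rintro rfl
        exact ⟨Pts4_one_mem hd1, rfl⟩
    rw [h3, Finset.card_singleton]
  have hnd : nd (hq s 1) d = ((Km p d).filter
      (fun v => eta p d v = 1 ∧ eta p d (aeval v (hq s 1)) = -1)).card := rfl
  have hMd : Md (hq s (2 ^ k)) d = ((Km p d).filter (fun x => eta p d (1 - x) = -1 ∧
      eta p d (aeval x (hq s (2 ^ k))) = -1)).card := rfl
  have hcB : ((Km p d).filter (fun x => eta p d (aeval x (hq s (2 ^ k))) = -1)).card =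
      1 + 2 * nd (hq s 1) d := by
    have e1 : ((Km p d).filter (fun x => eta p d x = 1 ∧
        eta p d (aeval (x ^ (2 ^ k)) (hq s 1)) = -1)).card = nd (hq s 1) d := by
      rw [hnd]
      exact Pts4_pow p2 hd1 hqq k (fun v => eta p d (aeval v (hq s 1)) = -1)
    have e2 : ((Km p d).filter (fun x => eta p d x = -1 ∧
        eta p d (aeval (x ^ (2 ^ k)) (hq s 1)) = -1)).card = nd (hq s 1) d := by
      rw [← e1]
      refine Pts4_card_neg hd1 hqq (fun x => eta p d (aeval (x ^ (2 ^ k)) (hq s 1)) = -1) ?_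
      intro x
      have h1 : Even (2 ^ k) := (Nat.even_pow.2 ⟨even_two, by omega⟩)
      rw [h1.neg_pow]
    have e3 : ((Km p d).filter (fun x => x = 0)).card = 1 := by
      have h3 : (Km p d).filter (fun x => x = 0) = {0} := by
        ext x
        rw [Finset.mem_filter, Finset.mem_singleton]
        constructor
        · exact fun h => h.2
        · rintro rfl
          exact ⟨Pts4_zero_mem hd1, rfl⟩
      rw [h3, Finset.card_singleton]
    have h3 : ∀ x ∈ Km p d, (if eta p d (aeval x (hq s (2 ^ k))) = -1 then 1 else 0 : ℕ) =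
        (if x = 0 then 1 else 0) +
        (if eta p d x = 1 ∧ eta p d (aeval (x ^ (2 ^ k)) (hq s 1)) = -1 then 1 else 0) +
        (if eta p d x = -1 ∧ eta p d (aeval (x ^ (2 ^ k)) (hq s 1)) = -1 then 1 else 0) := by
      intro x hx
      by_cases h0 : x = 0
      · subst h0
        have h4 : eta p d (aeval (0 : AlgebraicClosure (ZMod p)) (hq s (2 ^ k))) = -1 := by
          rw [hval0, Pts4_eta_neg hqq, Pts4_eta_one]
        rw [if_pos h4, if_pos rfl, Pts4_eta_zero hqq, if_neg, if_neg]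
        · intro h
          exact one_ne_zero (neg_eq_zero.1 h.1.symm)
        · intro h
          exact zero_ne_one h.1
      · rw [hval x, if_neg h0]
        rcases Pts4_dich hd1 hqq hx h0 with h | h
        · rw [h]
          by_cases h5 : eta p d (aeval (x ^ (2 ^ k)) (hq s 1)) = -1
          · rw [if_pos h5, if_pos ⟨rfl, h5⟩, if_neg (fun h => Pts4_one_ne p2 h.1)]
          · rw [if_neg h5, if_neg (fun h => h5 h.2), if_neg (fun h => h5 h.2)]
        · rw [h]
          by_cases h5 : eta p d (aeval (x ^ (2 ^ k)) (hq s 1)) = -1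
          · rw [if_pos h5, if_neg (fun h => (Pts4_one_ne p2).symm h.1), if_pos ⟨rfl, h5⟩]
          · rw [if_neg h5, if_neg (fun h => h5 h.2), if_neg (fun h => h5 h.2)]
    rw [Finset.card_filter, Finset.sum_congr rfl h3, Finset.sum_add_distrib,
      Finset.sum_add_distrib, ← Finset.card_filter, ← Finset.card_filter, ← Finset.card_filter,
      e1, e2, e3]
    ring
  have hsum : am (Dp (hq s (2 ^ k))) d = ((Km p d).card : ℤ) +
      ((Km p d).filter (fun x => x = 1)).card -
      2 * ((Km p d).filter (fun x => eta p d (1 - x) = -1)).card -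
      2 * ((Km p d).filter (fun x => eta p d (aeval x (hq s (2 ^ k))) = -1)).card +
      4 * Md (hq s (2 ^ k)) d := by
    unfold am
    rw [Finset.sum_congr rfl hterm, hMd, Finset.card_filter, Finset.card_filter,
      Finset.card_filter, Finset.card_filter, Finset.card_eq_sum_ones]
    push_cast
    rw [Finset.sum_add_distrib, Finset.sum_sub_distrib, Finset.sum_sub_distrib,
      Finset.sum_add_distrib, Finset.mul_sum, Finset.mul_sum, Finset.mul_sum]
  rw [hsum, card_Km hd1, hc1, hcB]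
  have h7 : (2 : ℤ) * ((Km p d).filter (fun x => eta p d (1 - x) = -1)).card + 1 =
      ((p ^ d : ℕ) : ℤ) := by exact_mod_cast hcA
  push_cast at h7 ⊢
  linarith

end LIF
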