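import Pool.Agent.helper1.GLI.Dick

/-!
[GLI-Real] The real polynomial `R = Rp p g S`, `S d = f.coeff (2g - d)`, `g = 2^k`
(imports the stub `Dick`).

* `real_cond`: `R` satisfies `RCond k`.  `R = Dk p g + ∑_{0<d<g} S_d Dk p (g-d) + S_g`
  (`S_0 = 1`, leading coefficient), so `R` is monic of degree `g` (`Dk_monic`); all `S_d`,
  `0 < d ≤ g`, are divisible by `4` (`four`), so the coefficients of `R` are those of `Dk p g` modulo
  `4`: `Dk_pow`.  For the coefficient of `X` modulo `8`: `(Dk p g).coeff 1 = 0` (`Dk_parity`),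
  for `0 < d < g`: if `g - d` is even, `(Dk p (g-d)).coeff 1 = 0`; if `g - d` is odd (so `d` is odd)
  `(Dk p (g-d)).coeff 1` is odd (`Dk_one`) and `S_d * odd ≡ S_d (mod 8)` as `4 ∣ S_d`.  So
  `R.coeff 1 ≡ ∑_{d odd < g} S_d ≡ 4 (mod 8)` (`eight`).
* `real_ident`: for `x ≠ 0` in a field `E`: `f(x) = x^g R(x + p/x)`:
  `x^g R(x + p/x) = S_g x^g + ∑_{d<g} S_d (x^(2g-d) + p^(g-d) x^d)` (`Dk_eval`) and
  `f(x) = ∑_{j ≤ 2g} f.coeff j x^j`, `f.coeff (2g - d) = S_d`, `f.coeff d = p^(g-d) S_d` (`fe`).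
* `real_map`: `R = ∏_i (X - (a_i + p/a_i))` in `E[X]` (`E` of characteristic zero, `Spl`), and the
  `y_i = a_i + p/a_i` are distinct.  The `2g` numbers `a_i, p/a_i` are distinct (`f` irreducible over
  `ℚ`, so separable, `f.map` has no repeated root) and nonzero (`f(0) ≠ 0`, irreducible of degree
  `> 1`).  `R(y_i) = 0` by `real_ident`.  `y_i = y_j` means `(a_i - a_j)(1 - p/(a_i a_j)) = 0`, i.e.
  `a_i = a_j` or `a_i = p/a_j`, so `i = j`.  So `R`, monic of degree `g`, has the `g` distinct roots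
  `y_i`.
-/

set_option autoImplicit false

namespace LIF

open Polynomial

variable {p k : ℕ} {f : ℤ[X]}

theorem Real_rest (h : GoodF p k f) : ∃ Q : ℤ[X], Q.natDegree < 2 ^ k ∧
    Rp p (2 ^ k) (fun d => f.coeff (2 * 2 ^ k - d)) = Dk p (2 ^ k) + Q := by
  obtain ⟨g, hg⟩ : ∃ g, 2 ^ k = g + 1 := ⟨2 ^ k - 1, by
    have : 0 < 2 ^ k := by positivity
    omega⟩
  have h1 : f.coeff (2 * 2 ^ k) = 1 := by
    have := h.mon
    rw [Monic, leadingCoeff, h.deg] at this
    exact this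
  refine ⟨C (f.coeff (2 * 2 ^ k - 2 ^ k)) + ∑ d ∈ Finset.range g,
    C (f.coeff (2 * 2 ^ k - (d + 1))) * Dk p (2 ^ k - (d + 1)), ?_, ?_⟩
  · have hk := h.k2
    have h4 : 4 ≤ 2 ^ k := by
      calc 4 = 2 ^ 2 := by norm_num
        _ ≤ 2 ^ k := Nat.pow_le_pow_right (by norm_num) hk
    have h2 : (C (f.coeff (2 * 2 ^ k - 2 ^ k)) + ∑ d ∈ Finset.range g,
        C (f.coeff (2 * 2 ^ k - (d + 1))) * Dk p (2 ^ k - (d + 1))).natDegree ≤ g := by
      refine (natDegree_add_le _ _).trans (max_le ?_ ?_)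
      · rw [natDegree_C]
        exact Nat.zero_le _
      · refine natDegree_sum_le_of_forall_le _ _ fun d hd => ?_
        rw [Finset.mem_range] at hd
        refine (natDegree_C_mul_le _ _).trans ?_
        rw [(Dk_monic p (by omega)).2]
        omega
    omega
  · unfold Rp
    rw [hg, Finset.sum_range_succ', ← hg, Nat.sub_zero]
    beta_reduce
    rw [Nat.sub_zero, h1, C_1, one_mul]
    ring

theorem Real_coeff (_h : GoodF p k f) (i : ℕ) :
    (Rp p (2 ^ k) (fun d => f.coeff (2 * 2 ^ k - d))).coeff i =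
      (C (f.coeff (2 ^ k)) : ℤ[X]).coeff i +
      ∑ d ∈ Finset.range (2 ^ k), f.coeff (2 * 2 ^ k - d) * (Dk p (2 ^ k - d)).coeff i := by
  unfold Rp
  have e : 2 * 2 ^ k - 2 ^ k = 2 ^ k := by omega
  rw [coeff_add, finsetSum_coeff]
  simp only [coeff_C_mul, e]

theorem Real_mod4 (h : GoodF p k f) (i : ℕ) :
    (4 : ℤ) ∣ (Rp p (2 ^ k) (fun d => f.coeff (2 * 2 ^ k - d))).coeff i -
      (Dk p (2 ^ k)).coeff i := by
  have h0 : 0 < 2 ^ k := by positivity
  obtain ⟨g, hg⟩ : ∃ g, 2 ^ k = g + 1 := ⟨2 ^ k - 1, by omega⟩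
  have h1 : f.coeff (2 * 2 ^ k) = 1 := by
    have := h.mon
    rw [Monic, leadingCoeff, h.deg] at this
    exact this
  rw [Real_coeff h i]
  have h2 : ∑ d ∈ Finset.range (2 ^ k), f.coeff (2 * 2 ^ k - d) * (Dk p (2 ^ k - d)).coeff i =
      ∑ d ∈ Finset.range g, f.coeff (2 * 2 ^ k - (d + 1)) * (Dk p (2 ^ k - (d + 1))).coeff i +
        (Dk p (2 ^ k)).coeff i := by
    conv_lhs => rw [hg, Finset.sum_range_succ', ← hg]
    rw [Nat.sub_zero, Nat.sub_zero, h1, one_mul]
  rw [h2]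
  have h3 : (4 : ℤ) ∣ ∑ d ∈ Finset.range g,
      f.coeff (2 * 2 ^ k - (d + 1)) * (Dk p (2 ^ k - (d + 1))).coeff i := by
    refine Finset.dvd_sum fun d hd => ?_
    rw [Finset.mem_range] at hd
    exact Dvd.dvd.mul_right (h.four _ (by omega) (by omega)) _
  have h4 : (4 : ℤ) ∣ (C (f.coeff (2 ^ k)) : ℤ[X]).coeff i := by
    rw [coeff_C]
    split_ifs
    · exact h.four _ (by omega) (by omega)
    · exact dvd_zero _
  have h5 := dvd_add h4 h3
  have e : ∀ x y z : ℤ, x + (y + z) - z = x + y := fun x y z => by ring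
  rw [e]
  exact h5

theorem real_cond (h : GoodF p k f) :
    RCond k (Rp p (2 ^ k) (fun d => f.coeff (2 * 2 ^ k - d))) := by
  have hk := h.k2
  have h0 : 4 ≤ 2 ^ k := by
    calc 4 = 2 ^ 2 := by norm_num
      _ ≤ 2 ^ k := Nat.pow_le_pow_right (by norm_num) hk
  have hp : p % 2 = 1 := by
    have := h.p4
    omega
  have hg2 : 2 ^ k % 2 = 0 := by
    obtain ⟨m, rfl⟩ : ∃ m, k = m + 1 := ⟨k - 1, by omega⟩
    rw [pow_succ]
    omega
  obtain ⟨Q, hQ, hR⟩ := Real_rest h
  have hD := Dk_monic p (n := 2 ^ k) (by omega)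
  have hP := Dk_pow p hp (k := k) (by omega)
  refine ⟨?_, ?_, ?_, ?_, ?_⟩
  · rw [hR]
    refine hD.1.add_of_left ?_
    rw [degree_eq_natDegree hD.1.ne_zero, hD.2]
    exact (degree_le_natDegree).trans_lt (by exact_mod_cast hQ)
  · rw [hR, natDegree_add_eq_left_of_natDegree_lt (by rw [hD.2]; exact hQ), hD.2]
  · have h1 := Real_mod4 h 0
    have h2 := hP.1
    omega
  · intro i hi hi2
    have h1 := Real_mod4 h i
    have h2 := hP.2 i hi hi2
    have h3 := dvd_add h1 h2
    rwa [sub_add_cancel] at h3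
  · have h1 : (8 : ℤ) ∣ ∑ d ∈ Finset.range (2 ^ k),
        (f.coeff (2 * 2 ^ k - d) * (Dk p (2 ^ k - d)).coeff 1 -
          if d % 2 = 1 then f.coeff (2 * 2 ^ k - d) else 0) := by
      refine Finset.dvd_sum fun d hd => ?_
      rw [Finset.mem_range] at hd
      by_cases hd1 : d % 2 = 1
      · rw [if_pos hd1]
        have h2 := Dk_one p hp (n := 2 ^ k - d) (by omega)
        have h3 : (2 : ℤ) ∣ (Dk p (2 ^ k - d)).coeff 1 - 1 := by omega
        have h4 := h.four (2 * 2 ^ k - d) (by omega) (by omega)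
        have h5 := mul_dvd_mul h4 h3
        have e : f.coeff (2 * 2 ^ k - d) * (Dk p (2 ^ k - d)).coeff 1 -
            f.coeff (2 * 2 ^ k - d) =
            f.coeff (2 * 2 ^ k - d) * ((Dk p (2 ^ k - d)).coeff 1 - 1) := by ring
        rw [e]
        exact h5
      · rw [if_neg hd1, Dk_parity p (2 ^ k - d) 1 (by omega)]
        simp
    rw [Finset.sum_sub_distrib, ← Finset.sum_filter] at h1
    have h2 := h.eight
    rw [Real_coeff h 1, coeff_C, if_neg one_ne_zero, zero_add]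
    have h3 : oddsB (2 ^ k) = (Finset.range (2 ^ k)).filter (fun d => d % 2 = 1) := rfl
    rw [h3] at h2
    have h4 := dvd_add h1 h2
    have e : ∀ x y z : ℤ, x - y + (y - z) = x - z := fun x y z => by ring
    rw [e] at h4
    exact h4

theorem real_ident (h : GoodF p k f) {E : Type*} [Field E] {x : E} (hx : x ≠ 0) :
    (f.map (Int.castRingHom E)).eval x =
      x ^ (2 ^ k) * ((Rp p (2 ^ k) (fun d => f.coeff (2 * 2 ^ k - d))).map
        (Int.castRingHom E)).eval (x + (p : E) / x) := by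
  have h0 : 0 < 2 ^ k := by positivity
  have hcoe : ∀ a : ℤ, (Int.castRingHom E) a = (a : E) := fun a => rfl
  have hfe : ∀ d ∈ Finset.range (2 ^ k), ((f.coeff d : ℤ) : E) * x ^ d =
      (p : E) ^ (2 ^ k - d) * (f.coeff (2 * 2 ^ k - d) : E) * x ^ d := by
    intro d hd
    rw [Finset.mem_range] at hd
    rw [h.fe d hd.le]
    push_cast
    ring
  have hL : (f.map (Int.castRingHom E)).eval x = (f.coeff (2 ^ k) : E) * x ^ 2 ^ k +
      ∑ d ∈ Finset.range (2 ^ k), (f.coeff (2 * 2 ^ k - d) : E) *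
        (x ^ (2 * 2 ^ k - d) + (p : E) ^ (2 ^ k - d) * x ^ d) := by
    rw [eval_map, eval₂_eq_sum_range, h.deg]
    simp only [hcoe]
    have e1 : 2 * 2 ^ k + 1 = 2 ^ k + (2 ^ k + 1) := by ring
    rw [e1, Finset.sum_range_add, Finset.sum_range_succ', Nat.add_zero, Finset.sum_congr rfl hfe,
      ← Finset.sum_range_reflect (fun i => ((f.coeff (2 ^ k + (i + 1)) : ℤ) : E) *
        x ^ (2 ^ k + (i + 1)))]
    have e2 : ∀ d ∈ Finset.range (2 ^ k),
        ((f.coeff (2 ^ k + (2 ^ k - 1 - d + 1)) : ℤ) : E) * x ^ (2 ^ k + (2 ^ k - 1 - d + 1)) =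
        ((f.coeff (2 * 2 ^ k - d) : ℤ) : E) * x ^ (2 * 2 ^ k - d) := by
      intro d hd
      rw [Finset.mem_range] at hd
      have e3 : 2 ^ k + (2 ^ k - 1 - d + 1) = 2 * 2 ^ k - d := by omega
      rw [e3]
    rw [Finset.sum_congr rfl e2]
    simp only [mul_add, Finset.sum_add_distrib]
    have e4 : ∑ d ∈ Finset.range (2 ^ k),
        (p : E) ^ (2 ^ k - d) * (f.coeff (2 * 2 ^ k - d) : E) * x ^ d =
        ∑ d ∈ Finset.range (2 ^ k),
        (f.coeff (2 * 2 ^ k - d) : E) * ((p : E) ^ (2 ^ k - d) * x ^ d) :=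
      Finset.sum_congr rfl fun d _ => by ring
    rw [e4]
    ring
  have hR : ((Rp p (2 ^ k) (fun d => f.coeff (2 * 2 ^ k - d))).map
        (Int.castRingHom E)).eval (x + (p : E) / x) = (f.coeff (2 ^ k) : E) +
      ∑ d ∈ Finset.range (2 ^ k), (f.coeff (2 * 2 ^ k - d) : E) *
        (x ^ (2 ^ k - d) + ((p : E) / x) ^ (2 ^ k - d)) := by
    unfold Rp
    have e : 2 * 2 ^ k - 2 ^ k = 2 ^ k := by omega
    simp only [Polynomial.map_add, Polynomial.map_sum, Polynomial.map_mul, map_C, eval_add,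
      eval_C, eval_finsetSum, eval_mul, hcoe, e, Dk_eval p _ hx]
  rw [hL, hR, mul_add, Finset.mul_sum, mul_comm (x ^ 2 ^ k)]
  congr 1
  refine Finset.sum_congr rfl fun d hd => ?_
  rw [Finset.mem_range] at hd
  obtain ⟨m, hm⟩ : ∃ m, 2 ^ k = d + m := ⟨2 ^ k - d, by omega⟩
  have e1 : 2 ^ k - d = m := by omega
  have e2 : 2 * 2 ^ k - d = d + m + m := by omega
  rw [e1, e2, hm, div_pow]
  field_simp
  ring

/-- the roots are nonzero and distinct -/
theorem roots_inj (h : GoodF p k f) {E : Type*} [Field E] [CharZero E] {a : Fin (2 ^ k) → E}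
    (hs : Spl p f a) : (∀ i, a i ≠ 0) ∧ Function.Injective (Bx p a) := by
  have h1 : f.map (Int.castRingHom E) = ∏ x : Fin (2 ^ k) × Bool, (X - C (Bx p a x)) := by
    rw [hs, Fintype.prod_prod_type]
    refine Finset.prod_congr rfl fun i _ => ?_
    rw [Fintype.prod_bool]
    simp [Bx]
  have h2 : (f.map (Int.castRingHom E)).Separable := by
    have h3 := (h.irr.separable).map (f := algebraMap ℚ E)
    rw [Polynomial.map_map] at h3
    have h4 : (algebraMap ℚ E).comp (Int.castRingHom ℚ) = Int.castRingHom E :=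
      RingHom.ext_int _ _
    rwa [h4] at h3
  rw [h1, separable_prod_X_sub_C_iff] at h2
  refine ⟨fun i hi => ?_, h2⟩
  have h5 : Bx p a (i, true) = Bx p a (i, false) := by simp [Bx, hi]
  have h6 := h2 h5
  simp at h6

theorem real_map (h : GoodF p k f) {E : Type*} [Field E] [CharZero E] {a : Fin (2 ^ k) → E}
    (hs : Spl p f a) :
    (Rp p (2 ^ k) (fun d => f.coeff (2 * 2 ^ k - d))).map (Int.castRingHom E) =
      ∏ i, (X - C (a i + (p : E) / a i)) := by
  obtain ⟨ha, hinj⟩ := roots_inj h hs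
  have hc := real_cond h
  have hy : Function.Injective (fun i => a i + (p : E) / a i) := by
    intro i j hij
    simp only at hij
    have hi := ha i
    have hj := ha j
    have h1 : (a i - a j) * (a i * a j - p) = 0 := by
      field_simp at hij
      linear_combination hij
    rcases mul_eq_zero.1 h1 with h2 | h2
    · have h3 : Bx p a (i, true) = Bx p a (j, true) := by
        simpa [Bx] using sub_eq_zero.1 h2
      have h4 := hinj h3
      simpa using h4
    · have h3 : Bx p a (i, true) = Bx p a (j, false) := by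
        simp only [Bx, if_true, Bool.false_eq_true, if_false]
        rw [eq_div_iff hj]
        exact sub_eq_zero.1 h2
      have h4 := hinj h3
      simp at h4
  have hm : ((Rp p (2 ^ k) (fun d => f.coeff (2 * 2 ^ k - d))).map
      (Int.castRingHom E)).Monic := hc.mon.map _
  refine eq_of_monic_of_dvd_of_natDegree_le (monic_prod_X_sub_C _ _) hm ?_ ?_
  · refine Fintype.prod_dvd_of_coprime (pairwise_coprime_X_sub_C hy) fun i => ?_
    rw [dvd_iff_isRoot, IsRoot]
    have h1 := real_ident h (ha i)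
    have h2 : (f.map (Int.castRingHom E)).eval (a i) = 0 := by
      rw [hs, eval_prod]
      refine Finset.prod_eq_zero (Finset.mem_univ i) ?_
      simp
    rw [h2] at h1
    rcases mul_eq_zero.1 h1.symm with h3 | h3
    · exact absurd (pow_eq_zero_iff (by positivity) |>.1 h3) (ha i)
    · exact h3
  · rw [hc.mon.natDegree_map, hc.deg, natDegree_prod_of_monic _ _ fun i _ => monic_X_sub_C _]
    simp only [natDegree_X_sub_C]
    simp

end LIF
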