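import Pool.Agent.helper1.GLI.Neg

/-!
(proofs: helper41)
[GLI-Zeta] `η_g(1 + γ^(p^d-1)) = η_2(1 - β^((p^d-1)/2))`, `β = γ^g`, for odd `d`.

`p % 4 = 3`, `g = 2^k`, `k ≥ 2`, `γ` of degree `2g` over `F_p`, `γ^(p^g) = -γ`, `β = γ^g`,
`β^(p^2) = β`.

Proof.  `ζ = γ^(p^d-1)`, `ω = β^((p^d-1)/2)`; `ζ^(g/2) = γ^((g/2)(p^d-1)) = ω` (`g/2 * (p^d-1) =
g * ((p^d-1)/2)`), `ω^(p^2) = ω`.  So the elements `ζ_i := ζ^(p^(2i))`, `0 ≤ i < g/2`, are all roots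
of the monic polynomial `X^(g/2) - ω` of degree `g/2`.  They are pairwise different: suppose
`ζ^(p^(2i)) = ζ^(p^(2j))`, `i < j < g/2`; by injectivity of Frobenius `ζ^(p^(2m)) = ζ`, `0 < m < g/2`
(`m = j - i`).  `u := γ^(p^(2m) - 1)` then satisfies `u^(p^d - 1) = 1`, and `u^(p^(2g)) = u`; since `d`
is odd and `2g` is a power of `2`, `gcd(d, 2g) = 1` and `u^p = u` (minimal polynomial degree divides
`d` and `2g`, `mem_Km_iff_dvd`), so `u ∈ F_p`.  `γ^(p^(2m)) = u γ`, so by induction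
`γ^(p^(2mt)) = u^t γ`; for `t = g` (`2g ∣ 2 m g`): `u^g = 1`; also `u^(p-1) = 1` and
`gcd(g, p-1) ∣ 2` (`g` a power of `2`, `p - 1 ≡ 2 mod 4`), so `u^2 = 1` and `γ^(p^(4m)) = u^2 γ = γ`,
`2g ∣ 4m`, `g ∣ 2m`, contradiction with `0 < 2m < g`.
So `∏_{i<g/2} (X - ζ_i) = X^(g/2) - ω`; at `X = -1` (`g/2` even): `∏ (1 + ζ_i) = 1 - ω`.
`∏_i (1 + ζ_i) = ∏_i (1 + ζ)^(p^(2i)) = (1 + ζ)^((p^g - 1)/(p^2 - 1))`, and
`(p^g - 1)/2 = ((p^g-1)/(p^2-1)) ((p^2-1)/2)`, so `η_g(1 + ζ) = (1 - ω)^((p^2-1)/2)`.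
-/

set_option autoImplicit false

namespace LIF

open Polynomial

/-- a fixed point of Frobenius whose order divides a power of two -/
theorem Zeta_sq {p : ℕ} [Fact p.Prime] (hp4 : p % 4 = 3) {k : ℕ} {u : AlgebraicClosure (ZMod p)}
    (h1 : u ^ (2 ^ k) = 1) (h2 : u ^ (p - 1) = 1) : u ^ 2 = 1 := by
  have h3 : orderOf u ∣ 2 ^ k := orderOf_dvd_of_pow_eq_one h1
  have h4 : orderOf u ∣ p - 1 := orderOf_dvd_of_pow_eq_one h2
  obtain ⟨j, -, hj⟩ := (Nat.dvd_prime_pow Nat.prime_two).1 h3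
  have hj1 : j ≤ 1 := by
    by_contra hcon
    have h5 : 4 ∣ orderOf u := by
      rw [hj]
      exact pow_dvd_pow 2 (show 2 ≤ j by omega)
    have h6 := h5.trans h4
    omega
  apply orderOf_dvd_iff_pow_eq_one.1
  rw [hj]
  exact pow_dvd_pow 2 hj1

theorem Zeta_iter {p : ℕ} [Fact p.Prime] {γ u : AlgebraicClosure (ZMod p)} {n : ℕ}
    (h1 : γ ^ (p ^ n) = u * γ) (h2 : u ^ (p ^ n) = u) (t : ℕ) :
    γ ^ (p ^ (n * t)) = u ^ t * γ := by
  induction t with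
  | zero => simp
  | succ t ih =>
    rw [Nat.mul_succ, pow_add, pow_mul, ih, mul_pow, h1, ← pow_mul, mul_comm t, pow_mul, h2,
      pow_succ, mul_assoc]

/-- the elements `ζ^(p^(2i))` are different -/
theorem Zeta_ne {p : ℕ} [Fact p.Prime] (hp4 : p % 4 = 3) {k : ℕ} (hk : 2 ≤ k)
    {γ : AlgebraicClosure (ZMod p)} (hdeg : (minpoly (ZMod p) γ).natDegree = 2 * 2 ^ k)
    {d : ℕ} (hd : d % 2 = 1) {m : ℕ} (hm0 : 1 ≤ m) (hm : 2 * m < 2 ^ k) :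
    (γ ^ (p ^ d - 1)) ^ (p ^ (2 * m)) ≠ γ ^ (p ^ d - 1) := by
  intro h
  have hp2 : 2 ≤ p := (Fact.out : p.Prime).two_le
  have hpos : ∀ n : ℕ, 0 < p ^ n := fun n => pow_pos (by omega) n
  have hg : 4 ≤ 2 ^ k := by
    calc 4 = 2 ^ 2 := by norm_num
      _ ≤ 2 ^ k := Nat.pow_le_pow_right (by norm_num) hk
  have hγ : γ ≠ 0 := by
    rintro rfl
    rw [minpoly.zero, natDegree_X] at hdeg
    omega
  have hd1 : 1 ≤ d := by omega
  have hζ : γ ^ (p ^ d - 1) ≠ 0 := pow_ne_zero _ hγ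
  obtain ⟨u, hu⟩ : ∃ u, u = γ ^ (p ^ (2 * m) - 1) := ⟨_, rfl⟩
  have hu0 : u ≠ 0 := by
    rw [hu]
    exact pow_ne_zero _ hγ
  have hζ1 : (γ ^ (p ^ d - 1)) ^ (p ^ (2 * m) - 1) = 1 := by
    have h1 : (γ ^ (p ^ d - 1)) ^ (p ^ (2 * m) - 1) * γ ^ (p ^ d - 1) = 1 * γ ^ (p ^ d - 1) := by
      rw [← pow_succ, Nat.sub_add_cancel (hpos _), h, one_mul]
    exact mul_right_cancel₀ hζ h1
  have hud : u ^ (p ^ d) = u := by
    have h1 : u ^ (p ^ d - 1) = 1 := by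
      rw [hu, ← pow_mul, mul_comm, pow_mul, hζ1]
    calc u ^ (p ^ d) = u ^ (p ^ d - 1) * u := by
          rw [← pow_succ, Nat.sub_add_cancel (hpos _)]
      _ = u := by rw [h1, one_mul]
  have hγg : γ ^ (p ^ (2 * 2 ^ k)) = γ := by
    have h1 := Km_pow_deg γ
    rwa [hdeg] at h1
  have hug : u ^ (p ^ (2 * 2 ^ k)) = u := by
    rw [hu, ← pow_mul, mul_comm, pow_mul, hγg]
  have hdeg1 : (minpoly (ZMod p) u).natDegree = 1 := by
    have h1 := (mem_Km_iff_dvd hd1).1 ((mem_Km hd1).2 hud)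
    have h2 := (mem_Km_iff_dvd (x := u) (m := 2 * 2 ^ k) (by omega)).1
      ((mem_Km (by omega)).2 hug)
    have h3 : Nat.Coprime d (2 * 2 ^ k) := by
      rw [← pow_succ']
      exact Nat.Coprime.pow_right _ (Nat.coprime_comm.1
        ((Nat.Prime.coprime_iff_not_dvd Nat.prime_two).2 (by omega)))
    exact Nat.eq_one_of_dvd_coprimes h3 h1 h2
  have hup : u ^ p = u := by
    have h1 := Km_pow_deg u
    rwa [hdeg1, pow_one] at h1
  have hup' : ∀ n : ℕ, u ^ (p ^ n) = u := by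
    intro n
    have h1 : u ^ (p ^ 1) = u := by rw [pow_one, hup]
    have h2 := Km_iter h1 n
    rwa [one_mul] at h2
  have hup1 : u ^ (p - 1) = 1 := by
    have h1 : u ^ (p - 1) * u = 1 * u := by
      rw [← pow_succ, Nat.sub_add_cancel (by omega), hup, one_mul]
    exact mul_right_cancel₀ hu0 h1
  have hγm : γ ^ (p ^ (2 * m)) = u * γ := by
    rw [hu, ← pow_succ, Nat.sub_add_cancel (hpos _)]
  have hit := Zeta_iter hγm (hup' _)
  have hu2k : u ^ (2 ^ k) = 1 := by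
    have h1 := hit (2 ^ k)
    have h2 : γ ^ (p ^ (2 * m * 2 ^ k)) = γ := by
      have h3 := Km_iter hγg m
      have h4 : 2 * 2 ^ k * m = 2 * m * 2 ^ k := by ring
      rwa [h4] at h3
    rw [h2] at h1
    have h3 : u ^ (2 ^ k) * γ = 1 * γ := by rw [← h1, one_mul]
    exact mul_right_cancel₀ hγ h3
  have hu2 : u ^ 2 = 1 := Zeta_sq hp4 hu2k hup1
  have h4m : γ ^ (p ^ (2 * m * 2)) = γ := by
    rw [hit 2, hu2, one_mul]
  have h5 := (mem_Km_iff_dvd (x := γ) (m := 2 * m * 2) (by omega)).1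
    ((mem_Km (by omega)).2 h4m)
  rw [hdeg] at h5
  have h6 := Nat.le_of_dvd (by omega) h5
  omega

theorem eta_zeta {p : ℕ} [Fact p.Prime] (hp4 : p % 4 = 3) {k : ℕ} (hk : 2 ≤ k)
    {γ : AlgebraicClosure (ZMod p)} (hdeg : (minpoly (ZMod p) γ).natDegree = 2 * 2 ^ k)
    (hn : γ ^ (p ^ (2 ^ k)) = -γ) (hβ : (γ ^ (2 ^ k)) ^ (p ^ 2) = γ ^ (2 ^ k)) {d : ℕ}
    (hd : d % 2 = 1) :
    eta p (2 ^ k) (1 + γ ^ (p ^ d - 1)) = eta p 2 (1 - (γ ^ (2 ^ k)) ^ ((p ^ d - 1) / 2)) := by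
  have hp2 : 2 ≤ p := (Fact.out : p.Prime).two_le
  have hpodd : ∀ n : ℕ, Odd (p ^ n) := fun n => (Nat.odd_iff.2 (by omega)).pow
  have hpos : ∀ n : ℕ, 0 < p ^ n := fun n => pow_pos (by omega) n
  obtain ⟨l, rfl⟩ : ∃ l, k = l + 1 := ⟨k - 1, by omega⟩
  have hl : 1 ≤ l := by omega
  have hG : 2 ^ (l + 1) = 2 * 2 ^ l := by rw [pow_succ']
  have hGpos : 0 < 2 ^ l := by positivity
  have hGeven : Even (2 ^ l) := (Nat.even_pow.2 ⟨even_two, by omega⟩)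
  obtain ⟨ζ, hζ⟩ : ∃ ζ, ζ = γ ^ (p ^ d - 1) := ⟨_, rfl⟩
  obtain ⟨ω, hω⟩ : ∃ ω, ω = (γ ^ (2 ^ (l + 1))) ^ ((p ^ d - 1) / 2) := ⟨_, rfl⟩
  have hpd : (p ^ d - 1) / 2 * 2 = p ^ d - 1 := by
    apply Nat.div_mul_cancel
    have h1 := Nat.odd_iff.1 (hpodd d)
    omega
  have hζω : ζ ^ (2 ^ l) = ω := by
    rw [hζ, hω, ← pow_mul, ← pow_mul]
    congr 1
    calc (p ^ d - 1) * 2 ^ l = (p ^ d - 1) / 2 * 2 * 2 ^ l := by rw [hpd]
      _ = 2 ^ (l + 1) * ((p ^ d - 1) / 2) := by rw [hG]; ring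
  have hωp : ω ^ (p ^ 2) = ω := by
    rw [hω, ← pow_mul, mul_comm, pow_mul, hβ]
  have hroot : ∀ i : ℕ, (ζ ^ (p ^ (2 * i))) ^ (2 ^ l) = ω := by
    intro i
    rw [← pow_mul, mul_comm, pow_mul, hζω]
    exact Km_iter hωp i
  have hne : ∀ i j : ℕ, i < j → j < 2 ^ l → ζ ^ (p ^ (2 * i)) ≠ ζ ^ (p ^ (2 * j)) := by
    intro i j hij hj h
    have h1 : ζ ^ (p ^ (2 * (j - i))) = ζ := by
      apply Km_inj (i := 2 * i)
      rw [← pow_mul, ← pow_add, ← Nat.mul_add, Nat.sub_add_cancel hij.le]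
      exact h.symm
    rw [hζ] at h1
    exact Zeta_ne hp4 hk hdeg hd (by omega) (by omega) h1
  have hpoly : ∏ i ∈ Finset.range (2 ^ l), (X - C (ζ ^ (p ^ (2 * i)))) =
      (X ^ (2 ^ l) - C ω : (AlgebraicClosure (ZMod p))[X]) := by
    have hmon : (∏ i ∈ Finset.range (2 ^ l),
        (X - C (ζ ^ (p ^ (2 * i)))) : (AlgebraicClosure (ZMod p))[X]).Monic :=
      monic_prod_of_monic _ _ (fun i _ => monic_X_sub_C _)
    have hmon2 : (X ^ (2 ^ l) - C ω : (AlgebraicClosure (ZMod p))[X]).Monic :=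
      monic_X_pow_sub_C _ hGpos.ne'
    symm
    apply eq_of_monic_of_dvd_of_natDegree_le hmon hmon2
    · apply Finset.prod_dvd_of_coprime
      · intro i hi j hj hij
        apply isCoprime_X_sub_C_of_isUnit_sub
        rw [isUnit_iff_ne_zero, sub_ne_zero]
        rw [Finset.coe_range, Set.mem_Iio] at hi hj
        rcases lt_or_gt_of_ne hij with h | h
        · exact hne i j h hj
        · exact (hne j i h hi).symm
      · intro i _
        rw [dvd_iff_isRoot, IsRoot.def, eval_sub, eval_pow, eval_X, eval_C, hroot, sub_self]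
    · rw [natDegree_prod_of_monic _ _ (fun i _ => monic_X_sub_C _),
        Finset.sum_congr rfl (fun i _ => natDegree_X_sub_C (ζ ^ (p ^ (2 * i)))),
        natDegree_X_pow_sub_C]
      simp
  have hprod : ∏ i ∈ Finset.range (2 ^ l), (1 + ζ ^ (p ^ (2 * i))) = 1 - ω := by
    have h1 := congrArg (eval (-1)) hpoly
    rw [eval_prod, eval_sub, eval_pow, eval_X, eval_C, hGeven.neg_one_pow] at h1
    rw [← h1]
    have h2 : ∀ i ∈ Finset.range (2 ^ l), eval (-1) (X - C (ζ ^ (p ^ (2 * i)))) =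
        (-1) * (1 + ζ ^ (p ^ (2 * i))) := by
      intro i _
      rw [eval_sub, eval_X, eval_C]
      ring
    rw [Finset.prod_congr rfl h2, Finset.prod_mul_distrib, Finset.prod_const, Finset.card_range,
      hGeven.neg_one_pow, one_mul]
  have hpow : (1 + ζ) ^ (∑ i ∈ Finset.range (2 ^ l), p ^ (2 * i)) = 1 - ω := by
    rw [← hprod, ← Finset.prod_pow_eq_pow_sum]
    refine Finset.prod_congr rfl (fun i _ => ?_)
    rw [← Km_phi_apply, map_add, map_one, Km_phi_apply]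
  have hsum : (p ^ (2 ^ (l + 1)) - 1) / 2 =
      (∑ i ∈ Finset.range (2 ^ l), p ^ (2 * i)) * ((p ^ 2 - 1) / 2) := by
    have h1 : (p ^ 2 - 1) / 2 * 2 = p ^ 2 - 1 := by
      apply Nat.div_mul_cancel
      have h1 := Nat.odd_iff.1 (hpodd 2)
      omega
    have h2 : (∑ i ∈ Finset.range (2 ^ l), p ^ (2 * i)) * (p ^ 2 - 1) + 1 =
        p ^ (2 ^ (l + 1)) := by
      have h3 := geom_sum_mul_add (p ^ 2 - 1) (2 ^ l)
      have hx : p ^ 2 - 1 + 1 = p ^ 2 := Nat.sub_add_cancel (hpos 2)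
      rw [hx] at h3
      rw [hG, pow_mul, ← h3]
      congr 2
      exact Finset.sum_congr rfl (fun i _ => by rw [pow_mul])
    rw [← h2, Nat.add_sub_cancel]
    conv_lhs => rw [← h1]
    rw [← mul_assoc, Nat.mul_div_cancel _ (by norm_num)]
  show (1 + γ ^ (p ^ d - 1)) ^ ((p ^ (2 ^ (l + 1)) - 1) / 2) =
    (1 - (γ ^ (2 ^ (l + 1))) ^ ((p ^ d - 1) / 2)) ^ ((p ^ 2 - 1) / 2)
  rw [← hζ, ← hω, hsum, pow_mul, hpow]

end LIF
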