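import Pool.Agent.helper1.GLI.Pair
import Pool.Agent.helper1.GLI.Zeta
import Pool.Agent.helper1.GLI.Beta
import Pool.Agent.helper1.GLI.Npar

/-!
[GLI-Rec] The recursion `k → k - 1` for `Lam` (import the stubs `Pair`, `Zeta`, `Beta`, `Npar`,
`Neg`, `Chh`).

`g = 2^k`, `k ≥ 2`, `h0 = hq s (2^k)` with `Good`, `γ` a root.  `β = γ^g` is a root of `hq s 1`
(`hq s g (γ) = β^2 + s β - 1`), so `β^(p+1) = -1` (`beta_norm`) and `β^(p^2) = β`.
`gam_neg`, `gam_deg`, `gam_ne`, `eta_one_sub`, `gam_ne_zero` give the hypotheses of `lam_pair` and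
`eta_zeta`.
The odd `d < g` are the odd `d < g/2` and the `g - d` (`g/2` even): `Lam p g γ =
∏_{d ∈ odds (g/2)} η_(2g)(1 + z_d) η_(2g)(1 + z_(g-d))`, and by `lam_pair`, `eta_zeta`
`= ∏_{d ∈ odds (g/2)} (-κ) η_g(1 + zz p d (γ^2)) η_2(1 - β^((p^d-1)/2))`
`= (-κ)^(g/4) Lam p (g/2) (γ^2) ∏_{d ∈ odds (g/2)} η_2(1 - β^((p^d-1)/2))`
(`card (odds (g/2)) = g/4`, `2 (g/2) = g`).
* `lam_rec`, `k ≥ 3`: `κ = ±1` (`κ^2 = (γ^2/(1-γ^2))^((p^g-1)/2)`; `γ^2` and `1 - γ^2` are fixed by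
  `p^g` and nonzero, and `κ^4 = 1`, `κ^2 = ((γ/c)^(p^g-1))` where `c^2 = 1 - γ^2`, `c = ϖ ϖ^(p^g)` as
  in `Pair`, `φ(γ/c) = γ/c`; or directly: `(γ^2)^((p^g-1)/2) = γ^(p^g-1) = -1` and
  `(1-γ^2)^((p^g-1)/2) = η_(2g)(1-γ) = -1`, so `κ^2 = 1`), `g/4` is even, so `(-κ)^(g/4) = 1`; and
  `beta_all` with `4 ∣ g/2` gives `(-1)^(g/8)`.  So `Lam p g γ = (-1)^(g/8) Lam p (g/2) (γ^2)`;
  multiply by `(-1)^(g/4) = 1`.  Statement: with `2^(k-1)/4 = g/8`.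
* `lam_two`, `k = 2`, `g = 4`: `odds 2 = {1}`:
  `Lam p 4 γ = -κ η_2(1 - β^((p-1)/2)) Lam p 2 (γ^2)`.
-/

set_option autoImplicit false

namespace LIF

open Polynomial

private theorem Rec_card (j : ℕ) : (odds (2 * j)).card = j := by
  induction j with
  | zero => simp [odds]
  | succ n ih =>
    have h1 : odds (2 * (n + 1)) = insert (2 * n + 1) (odds (2 * n)) := by
      ext d
      simp only [odds, Finset.mem_filter, Finset.mem_range, Finset.mem_insert]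
      omega
    rw [h1, Finset.card_insert_of_notMem, ih]
    simp only [odds, Finset.mem_filter, Finset.mem_range]
    omega

private theorem Rec_split {M : Type*} [CommMonoid M] (f : ℕ → M) {m : ℕ} (hm : m % 2 = 0) :
    ∏ d ∈ odds (2 * m), f d = ∏ d ∈ odds m, (f d * f (2 * m - d)) := by
  rw [← Finset.prod_filter_mul_prod_filter_not (odds (2 * m)) (fun d => d < m),
    Finset.prod_mul_distrib]
  congr 1
  · apply Finset.prod_congr _ fun _ _ => rfl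
    ext d
    simp only [odds, Finset.mem_filter, Finset.mem_range]
    omega
  · refine Finset.prod_nbij' (fun d => 2 * m - d) (fun d => 2 * m - d) ?_ ?_ ?_ ?_ ?_
    · intro d hd
      simp only [odds, Finset.mem_filter, Finset.mem_range] at hd ⊢
      omega
    · intro d hd
      simp only [odds, Finset.mem_filter, Finset.mem_range] at hd ⊢
      omega
    · intro d hd
      simp only [odds, Finset.mem_filter, Finset.mem_range] at hd
      show 2 * m - (2 * m - d) = d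
      omega
    · intro d hd
      simp only [odds, Finset.mem_filter, Finset.mem_range] at hd
      show 2 * m - (2 * m - d) = d
      omega
    · intro d hd
      simp only [odds, Finset.mem_filter, Finset.mem_range] at hd
      congr 1
      show d = 2 * m - (2 * m - d)
      omega

private theorem Rec_beta {p : ℕ} [Fact p.Prime] {s : ZMod p} {N : ℕ}
    {γ : AlgebraicClosure (ZMod p)} (hγ : aeval γ (hq s N) = 0) :
    aeval (γ ^ N) (hq s 1) = 0 := by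
  rw [hq] at hγ ⊢
  simp only [map_sub, map_add, map_mul, map_pow, aeval_X, aeval_C, map_one, mul_one, pow_one]
    at hγ ⊢
  rw [← pow_mul, mul_comm N 2]
  exact hγ

private theorem Rec_betaFix {p : ℕ} [Fact p.Prime] (hp4 : p % 4 = 3)
    {β : AlgebraicClosure (ZMod p)} (hβ : β ^ (p + 1) = -1) : β ^ (p ^ 2) = β := by
  obtain ⟨t, ht⟩ : ∃ t, p = 2 * t + 1 := ⟨p / 2, by omega⟩
  have h1 : p ^ 2 = (p + 1) * (2 * t) + 1 := by
    rw [ht]
    ring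
  rw [h1, pow_succ, pow_mul, hβ, pow_mul, neg_one_sq, one_pow, one_mul]

private theorem Rec_core {p : ℕ} [Fact p.Prime] (hp4 : p % 4 = 3) {j : ℕ} {s : ZMod p}
    (hg : Good p (2 ^ (j + 2)) (hq s (2 ^ (j + 2)))) (hg1 : Good p 1 (hq s 1))
    {γ : AlgebraicClosure (ZMod p)} (hγ : aeval γ (hq s (2 ^ (j + 2))) = 0) :
    Lam p (2 ^ (j + 2)) γ =
      (- (γ ^ 2 / (1 - γ ^ 2)) ^ ((p ^ (2 ^ (j + 2)) - 1) / 4)) ^ (2 ^ j) *
        Lam p (2 ^ (j + 1)) (γ ^ 2) *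
        ∏ d ∈ odds (2 ^ (j + 1)), eta p 2 (1 - (γ ^ (2 ^ (j + 2))) ^ ((p ^ d - 1) / 2)) := by
  have hβ := beta_norm hg1 (Rec_beta hγ)
  have hfix := Rec_betaFix hp4 hβ
  have hn := gam_neg (by omega) hg hγ
  have h0 := gam_ne_zero hg hγ
  have hdeg := gam_deg hg hγ
  have hns := eta_one_sub hg hγ
  have e1 : (2 : ℕ) ^ (j + 2) = 2 * 2 ^ (j + 1) := by ring
  have e2 : (2 : ℕ) ^ (j + 1) = 2 * 2 ^ j := by ring
  have hcard : (odds (2 ^ (j + 1))).card = 2 ^ j := by rw [e2, Rec_card]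
  have hpow : 1 ≤ (2 : ℕ) ^ j := Nat.one_le_two_pow
  have hsplit : Lam p (2 ^ (j + 2)) γ = ∏ d ∈ odds (2 ^ (j + 1)),
      (eta p (2 * 2 ^ (j + 2)) (1 + zz p d γ) *
        eta p (2 * 2 ^ (j + 2)) (1 + zz p (2 ^ (j + 2) - d) γ)) := by
    unfold Lam
    have h1 := Rec_split (fun d => eta p (2 * 2 ^ (j + 2)) (1 + zz p d γ))
      (m := 2 ^ (j + 1)) (by omega)
    rw [← e1] at h1
    exact h1
  have hfac : ∀ d ∈ odds (2 ^ (j + 1)),
      eta p (2 * 2 ^ (j + 2)) (1 + zz p d γ) *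
        eta p (2 * 2 ^ (j + 2)) (1 + zz p (2 ^ (j + 2) - d) γ) =
      - (γ ^ 2 / (1 - γ ^ 2)) ^ ((p ^ (2 ^ (j + 2)) - 1) / 4) *
        eta p (2 ^ (j + 2)) (1 + zz p d (γ ^ 2)) *
        eta p 2 (1 - (γ ^ (2 ^ (j + 2))) ^ ((p ^ d - 1) / 2)) := by
    intro d hd
    simp only [odds, Finset.mem_filter, Finset.mem_range] at hd
    have hd2 : d % 2 = 1 := hd.2
    obtain ⟨hne, hne'⟩ := gam_ne hg ⟨2 ^ (j + 1), by omega⟩ hγ hd2
    have h1 := lam_pair hp4 (g := 2 ^ (j + 2)) (by omega) ⟨2 ^ j, by ring⟩ h0 hn hns hd2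
      (by omega) hne hne'
    rw [h1, eta_zeta hp4 (by omega) hdeg hn hfix hd2]
  rw [hsplit, Finset.prod_congr rfl hfac, Finset.prod_mul_distrib, Finset.prod_mul_distrib,
    Finset.prod_const, hcard]
  congr 2
  unfold Lam
  rw [e1]

private theorem Rec_kappa {p : ℕ} [Fact p.Prime] (hp4 : p % 4 = 3) {g : ℕ} (ge : Even g)
    {γ : AlgebraicClosure (ZMod p)} (h0 : γ ≠ 0) (hn : γ ^ (p ^ g) = -γ)
    (hns : eta p (2 * g) (1 - γ) = -1) :
    ((γ ^ 2 / (1 - γ ^ 2)) ^ ((p ^ g - 1) / 4)) ^ 2 = 1 := by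
  have hp1 : 1 ≤ p ^ g := Nat.one_le_iff_ne_zero.2 (pow_ne_zero _ (by omega))
  obtain ⟨t, ht⟩ : ∃ t, p ^ g = 4 * t + 1 := by
    obtain ⟨r, hr⟩ := ge
    have h1 : p ^ g % 4 = 1 := by
      rw [hr, ← two_mul, pow_mul, Nat.pow_mod, Nat.pow_mod p 2 4, hp4]
      norm_num
    exact ⟨p ^ g / 4, by omega⟩
  have e1 : (p ^ g - 1) / 4 * 2 = 2 * t := by omega
  have e2 : (p ^ (2 * g) - 1) / 2 = (p ^ g + 1) * (2 * t) := by
    have h2 : p ^ (2 * g) = (p ^ g + 1) * (2 * t) * 2 + 1 := by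
      rw [mul_comm 2 g, pow_mul, ht]
      ring
    omega
  have h3 : (γ ^ 2) ^ (2 * t) = -1 := by
    have h4 : γ * (γ ^ 2) ^ (2 * t) = γ * (-1) := by
      rw [← pow_mul, ← pow_succ', mul_neg_one, ← hn, ht]
      congr 1
      ring
    exact mul_left_cancel₀ h0 h4
  have h5 : (1 - γ ^ 2) ^ (2 * t) = -1 := by
    have h6 : (1 - γ) ^ (p ^ g + 1) = 1 - γ ^ 2 := by
      rw [pow_succ, sub_pow_char_pow, one_pow, hn]
      ring
    rw [← h6, ← pow_mul, ← e2]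
    exact hns
  rw [← pow_mul, e1, div_pow, h3, h5]
  norm_num

theorem lam_rec {p : ℕ} [Fact p.Prime] (hp4 : p % 4 = 3) {k : ℕ} (hk : 3 ≤ k) {s : ZMod p}
    (hg : Good p (2 ^ k) (hq s (2 ^ k))) (hg1 : Good p 1 (hq s 1))
    {γ : AlgebraicClosure (ZMod p)} (hγ : aeval γ (hq s (2 ^ k)) = 0) :
    (-1) ^ (2 ^ k / 4) * Lam p (2 ^ k) γ =
      (-1) ^ (2 ^ (k - 1) / 4) * Lam p (2 ^ (k - 1)) (γ ^ 2) := by
  obtain ⟨j, rfl⟩ : ∃ j, k = j + 1 + 2 := ⟨k - 3, by omega⟩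
  have hn := gam_neg (by omega) hg hγ
  have h0 := gam_ne_zero hg hγ
  have hns := eta_one_sub hg hγ
  have hβ := beta_norm hg1 (Rec_beta hγ)
  have hκ := Rec_kappa hp4 (g := 2 ^ (j + 1 + 2)) ⟨2 ^ (j + 2), by ring⟩ h0 hn hns
  have h1 := Rec_core hp4 hg hg1 hγ
  have e1 : (2 : ℕ) ^ (j + 1 + 2) / 4 = 2 * 2 ^ j := by
    have : (2 : ℕ) ^ (j + 1 + 2) = 4 * (2 * 2 ^ j) := by ring
    omega
  have e3 : j + 1 + 2 - 1 = j + 1 + 1 := by omega
  have e4 : (2 : ℕ) ^ (j + 1) = 2 * 2 ^ j := by ring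
  rw [beta_all hp4 hβ ⟨2 ^ j, by ring⟩, e4, pow_mul, neg_sq, hκ, one_pow, one_mul] at h1
  rw [h1, e1, e3, pow_mul, neg_one_sq, one_pow, one_mul, mul_comm]

theorem lam_two {p : ℕ} [Fact p.Prime] (hp4 : p % 4 = 3) {s : ZMod p}
    (hg : Good p 4 (hq s 4)) (hg1 : Good p 1 (hq s 1))
    {γ : AlgebraicClosure (ZMod p)} (hγ : aeval γ (hq s 4) = 0) :
    Lam p 4 γ = - (γ ^ 2 / (1 - γ ^ 2)) ^ ((p ^ 4 - 1) / 4) *
      eta p 2 (1 - (γ ^ 4) ^ ((p - 1) / 2)) * Lam p 2 (γ ^ 2) := by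
  have h1 := Rec_core (j := 0) hp4 hg hg1 hγ
  have e1 : odds (2 ^ (0 + 1)) = {1} := by decide
  rw [e1, Finset.prod_singleton] at h1
  norm_num at h1 ⊢
  rw [h1]
  ring

end LIF
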