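import Pool.Agent.helper1.GLI.Rec
import Pool.Agent.helper1.GLI.Mod4
import Pool.Agent.helper1.GLI.Pts4
import Pool.Agent.helper1.GLI.Mpar
import Pool.Agent.helper1.GLI.Npar
import Pool.Agent.helper1.GLI.Newt8

/-!
[GLI-Sum8] `∑_{d odd, d < g} S_d ≡ 4 (mod 8)` (assembly of part I).
-/

set_option autoImplicit false

namespace LIF

open Polynomial

variable {p : ℕ} [Fact p.Prime]

theorem Sum8_aeval (s : ZMod p) (N : ℕ) (γ : AlgebraicClosure (ZMod p)) :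
    aeval γ (hq s N) = γ ^ (2 * N) + algebraMap (ZMod p) _ s * γ ^ N - 1 := by
  simp [hq]

theorem Sum8_root {s : ZMod p} {k : ℕ} {γ : AlgebraicClosure (ZMod p)}
    (h : aeval γ (hq s (2 ^ (k + 1))) = 0) : aeval (γ ^ 2) (hq s (2 ^ k)) = 0 := by
  rw [Sum8_aeval] at h ⊢
  rw [← pow_mul, ← pow_mul, show 2 * (2 * 2 ^ k) = 2 * 2 ^ (k + 1) by ring,
    show 2 * 2 ^ k = 2 ^ (k + 1) by ring]
  exact h

theorem Sum8_lam (hp4 : p % 4 = 3) {s : ZMod p} (hgood : ∀ k, Good p (2 ^ k) (hq s (2 ^ k)))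
    (hbase : ∀ γ : AlgebraicClosure (ZMod p), aeval γ (hq s 4) = 0 → Lam p 4 γ = 1)
    {k : ℕ} (hk : 2 ≤ k) : ∀ γ : AlgebraicClosure (ZMod p), aeval γ (hq s (2 ^ k)) = 0 →
      (-1) ^ (2 ^ k / 4) * Lam p (2 ^ k) γ = -1 := by
  induction k, hk using Nat.le_induction with
  | base =>
    intro γ hγ
    have h := hbase γ (by simpa using hγ)
    norm_num
    exact h
  | succ k hk ih =>
    intro γ hγ
    have h1 : Good p 1 (hq s 1) := by simpa using hgood 0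
    rw [lam_rec hp4 (by omega) (hgood (k + 1)) h1 hγ, Nat.add_sub_cancel]
    exact ih _ (Sum8_root hγ)

theorem Sum8_exists_root {g : ℕ} {h0 : (ZMod p)[X]} (hg : Good p g h0) :
    ∃ γ : AlgebraicClosure (ZMod p), aeval γ h0 = 0 := by
  have h1 : h0.degree ≠ 0 := by
    rw [degree_eq_natDegree hg.mon.ne_zero, hg.deg]
    have := hg.g1
    exact_mod_cast (by omega : 2 * g ≠ 0)
  obtain ⟨γ, hγ⟩ := IsAlgClosed.exists_aeval_eq_zero (AlgebraicClosure (ZMod p)) h0 h1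
  exact ⟨γ, hγ⟩

theorem Sum8_neg_one (hp : p ≠ 2) : (-1 : AlgebraicClosure (ZMod p)) ≠ 1 := by
  intro h
  have h2 : ((2 : ℕ) : AlgebraicClosure (ZMod p)) = 0 := by
    push_cast
    linear_combination -h
  rw [CharP.cast_eq_zero_iff (AlgebraicClosure (ZMod p)) p] at h2
  have := (Nat.prime_dvd_prime_iff_eq Fact.out Nat.prime_two).1 h2
  exact hp this

theorem Sum8_parity (hp4 : p % 4 = 3) {s : ZMod p}
    (hgood : ∀ k, Good p (2 ^ k) (hq s (2 ^ k)))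
    (hbase : ∀ γ : AlgebraicClosure (ZMod p), aeval γ (hq s 4) = 0 → Lam p 4 γ = 1)
    {k : ℕ} (hk : 2 ≤ k) :
    Odd (∑ d ∈ odds (2 ^ k), (Md (hq s (2 ^ k)) d + nd (hq s 1) d)) := by
  obtain ⟨γ, hγ⟩ := Sum8_exists_root (hgood k)
  have h1 : Good p 1 (hq s 1) := by simpa using hgood 0
  obtain ⟨β, hβ⟩ := Sum8_exists_root h1
  have hodd : ∀ d ∈ odds (2 ^ k), d % 2 = 1 := fun d hd => (Finset.mem_filter.1 hd).2
  have hM : ∏ d ∈ odds (2 ^ k), (-1 : AlgebraicClosure (ZMod p)) ^ (Md (hq s (2 ^ k)) d) =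
      Lam p (2 ^ k) γ := Finset.prod_congr rfl fun d hd => Md_parity (hgood k) hγ (hodd d hd)
  have h4 : 4 ∣ 2 ^ k := by
    obtain ⟨m, rfl⟩ := Nat.exists_eq_add_of_le hk
    exact ⟨2 ^ m, by rw [pow_add]; norm_num⟩
  have hN : ∏ d ∈ odds (2 ^ k), (-1 : AlgebraicClosure (ZMod p)) ^ (nd (hq s 1) d) =
      (-1) ^ (2 ^ k / 4) := by
    rw [← beta_all hp4 (beta_norm h1 hβ) h4]
    exact Finset.prod_congr rfl fun d hd => nd_parity hp4 h1 hβ (hodd d hd)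
  by_contra hcon
  rw [Nat.not_odd_iff_even] at hcon
  have h2 : (-1 : AlgebraicClosure (ZMod p)) ^
      (∑ d ∈ odds (2 ^ k), (Md (hq s (2 ^ k)) d + nd (hq s 1) d)) = -1 := by
    rw [← Finset.prod_pow_eq_pow_sum]
    simp only [pow_add]
    rw [Finset.prod_mul_distrib, hM, hN, mul_comm]
    exact Sum8_lam hp4 hgood hbase hk γ hγ
  rw [hcon.neg_one_pow] at h2
  exact Sum8_neg_one (hgood 0).p2 h2.symm

theorem sum_eight (hp4 : p % 4 = 3) {s : ZMod p}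
    (hgood : ∀ k, Good p (2 ^ k) (hq s (2 ^ k)))
    (hbase : ∀ γ : AlgebraicClosure (ZMod p), aeval γ (hq s 4) = 0 → Lam p 4 γ = 1)
    {k : ℕ} (hk : 2 ≤ k) :
    (8 : ℤ) ∣ (∑ d ∈ odds (2 ^ k), Sd (Dp (hq s (2 ^ k))) d) - 4 := by
  obtain ⟨γ, hγ⟩ := Sum8_exists_root (hgood k)
  have hn := gam_neg (by omega) (hgood k) hγ
  have ge : Even (2 ^ k) := (Nat.even_pow' (by omega)).2 even_two
  have h4 : ∀ j, 1 ≤ j → j < 2 * 2 ^ k → (4 : ℤ) ∣ Sd (Dp (hq s (2 ^ k))) j := fun j h1 h2 =>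
    Sd_four (hgood k) ge hp4 hγ hn h1 h2
  have h8 : (8 : ℤ) ∣ ∑ d ∈ odds (2 ^ k),
      (Sd (Dp (hq s (2 ^ k))) d - am (Dp (hq s (2 ^ k))) d) := by
    refine Finset.dvd_sum fun d hd => ?_
    have h5 := Finset.mem_filter.1 hd
    have h6 := Finset.mem_range.1 h5.1
    exact Sd_am _ h4 h5.2 (by omega)
  rw [Finset.sum_sub_distrib] at h8
  have ha : ∑ d ∈ odds (2 ^ k), am (Dp (hq s (2 ^ k))) d =
      4 * ∑ d ∈ odds (2 ^ k), ((Md (hq s (2 ^ k)) d : ℤ) - (nd (hq s 1) d : ℤ)) := by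
    rw [Finset.mul_sum]
    exact Finset.sum_congr rfl fun d hd =>
      am_four (by omega) hp4 (hgood k) (Finset.mem_filter.1 hd).2
  obtain ⟨t, ht⟩ := Sum8_parity hp4 hgood hbase hk
  have hS : ∑ d ∈ odds (2 ^ k), ((Md (hq s (2 ^ k)) d : ℤ) - (nd (hq s 1) d : ℤ)) =
      ((∑ d ∈ odds (2 ^ k), (Md (hq s (2 ^ k)) d + nd (hq s 1) d) : ℕ) : ℤ) -
        2 * ∑ d ∈ odds (2 ^ k), (nd (hq s 1) d : ℤ) := by
    push_cast
    rw [Finset.sum_sub_distrib, Finset.sum_add_distrib]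
    ring
  rw [ha, hS, ht] at h8
  push_cast at h8
  omega

end LIF
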