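import Pool.Agent.helper1.GLI.Deg
import Pool.Agent.helper1.GLI.AVal

/-!
[GLI-Two] Double transitivity on oriented roots (imports the stubs `Deg`, `AVal`).

`GoodF`, `Spl p f b`, `TwoAd p k A b`, `Orient p k A b`; `g = 2^k`, `v` the valuation of `A`.
For `j ≠ i`, `l ≠ i` there is `σ` with `σ b_i = b_i` and `σ b_j = b_l`.

Proof.  `y_j = b_j + p/b_j`.  `deg_trans` gives `σ` with `σ b_i = b_i`, `σ y_j = y_l`, so `σ b_j` is a
root of `X^2 - y_l X + p = (X - b_l)(X - p/b_l)`.  If `σ b_j = b_l`: done.  Let `σ b_j = p/b_l`.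
Case A: there is `ρ` with `ρ b_i = b_i`, `ρ b_l = p/b_l`.  Then `ρ (p/b_l) = b_l` and `ρ ∘ σ` works.
Case B: there is no such `ρ`.  Claim: `b_l ∈ L := ℚ(b_i, y_l)` (`IntermediateField.adjoin ℚ {b_i, y_l}`).
Otherwise the minimal polynomial of `b_l` over `L` is `X^2 - y_l X + p` (it divides this monic
polynomial of degree `2` and its degree is not `1`), so `p/b_l` is a conjugate of `b_l` over `L`
(`isConjRoot_iff_exists_algEquiv`, `E` is algebraically closed, algebraic and normal over `L`) and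
the automorphism over `L` is a `ρ` as in case A.
Now `σ⁻¹ L ⊆ ℚ(b_i, y_j)` (`σ⁻¹ b_i = b_i`, `σ⁻¹ y_l = y_j`; `IntermediateField.adjoin_map` or
`adjoin_le`), so `σ⁻¹ b_l ∈ ℚ(b_i, y_j)`; from `σ b_j = p/b_l` we get `b_j = p/σ⁻¹(b_l)`, so
`b_j ∈ ℚ(b_i, y_j)`.  Put `x = b_i^g - b_j^g ∈ ℚ(b_i, y_j)`.  `same` gives `v(x) < v(2)`, and
`val_inv` gives `v(σ x) = v(x) < v(2)`, where `σ x = b_i^g - (p/b_l)^g`.  But
`2 b_l^g = σ x - (b_i^g - b_l^g) + ((p/b_l)^g + b_l^g)`, all three terms have valuation `< v(2)`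
(`same i l`, `opp l`), so `v(2 b_l^g) < v(2)`, while `v(b_l) = 1` (`val_unit`, in `AVal`), so
`v(2 b_l^g) = v(2)`.  Contradiction.
-/

set_option autoImplicit false

namespace LIF

open Polynomial

theorem Two_conj {E : Type*} [Field E] [CharZero E] [Algebra ℚ E] [Normal ℚ E] (p : ℕ) {b : E}
    (hb : b ≠ 0) (L : IntermediateField ℚ E) (hy : b + (p : E) / b ∈ L) (hbL : b ∉ L) :
    ∃ ρ : E ≃ₐ[ℚ] E, (∀ x ∈ L, ρ x = x) ∧ ρ b = (p : E) / b := by
  haveI : Normal L E := Normal.tower_top_of_normal ℚ L E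
  have hint : IsIntegral L b := Normal.isIntegral inferInstance b
  let y : L := ⟨b + (p : E) / b, hy⟩
  have hyE : algebraMap L E y = b + (p : E) / b := rfl
  let q : L[X] := X ^ 2 - C y * X + C (p : L)
  have hdeg : q.natDegree = 2 := by
    change (X ^ 2 - C y * X + C (p : L)).natDegree = 2
    compute_degree!
  have hmon : q.Monic := by
    change (X ^ 2 - C y * X + C (p : L)).Monic
    monicity!
  have hev : ∀ x : E, aeval x q = x ^ 2 - (b + (p : E) / b) * x + p := by
    intro x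
    change aeval x (X ^ 2 - C y * X + C (p : L)) = _
    rw [map_add, map_sub, map_mul, map_pow, aeval_X, aeval_C, aeval_C, hyE, map_natCast]
  have h1 : aeval b q = 0 := by
    rw [hev]
    field_simp
    ring
  have h2 : aeval ((p : E) / b) q = 0 := by
    rw [hev]
    field_simp
    ring
  have h3 : 2 ≤ (minpoly L b).natDegree := by
    rw [minpoly.two_le_natDegree_iff hint]
    rintro ⟨z, hz⟩
    apply hbL
    rw [← hz]
    exact z.2
  have h4 : q = minpoly L b := by
    apply Polynomial.eq_of_monic_of_dvd_of_natDegree_le (minpoly.monic hint) hmon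
      (minpoly.dvd L b h1)
    rw [hdeg]
    exact h3
  obtain ⟨σ, hσ⟩ := (isConjRoot_of_aeval_eq_zero (K := L) hint (y := (p : E) / b)
    (by rw [← h4]; exact h2)).exists_algEquiv
  refine ⟨σ.symm.restrictScalars ℚ, fun x hx => ?_, ?_⟩
  · exact σ.symm.commutes (⟨x, hx⟩ : L)
  · change σ.symm b = (p : E) / b
    exact (AlgEquiv.symm_apply_eq σ).2 hσ.symm

theorem two_trans {p k : ℕ} {f : ℤ[X]} {E : Type*} [Field E] [CharZero E] [Algebra ℚ E]
    [IsAlgClosed E] [Algebra.IsAlgebraic ℚ E] [Normal ℚ E]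
    (h : GoodF p k f) {b : Fin (2 ^ k) → E} (hs : Spl p f b)
    (A : ValuationSubring E) (ht : TwoAd p k A b) (ho : Orient p k A b) {i j l : Fin (2 ^ k)}
    (hij : j ≠ i) (hil : l ≠ i) :
    ∃ σ : E ≃ₐ[ℚ] E, σ (b i) = b i ∧ σ (b j) = b l := by
  have hk2 := h.k2
  have hv := fun m => val_unit h hs A ht.h2 m
  have hb0 : ∀ m, b m ≠ 0 := by
    intro m hm
    have := (hv m).1
    rw [hm, map_zero] at this
    exact zero_ne_one this
  obtain ⟨σ, hσi, hσy⟩ := deg_trans h hs A ht hij hil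
  have hroot : (σ (b j) - b l) * (σ (b j) - (p : E) / b l) = 0 := by
    have h1 : σ (b j) * σ (b j + (p : E) / b j) = σ (b j) ^ 2 + p := by
      have h2 : b j * (b j + (p : E) / b j) = b j ^ 2 + p := by
        have := hb0 j
        field_simp
      rw [← map_mul, h2, map_add, map_pow, map_natCast]
    rw [hσy] at h1
    have h3 : b l * ((p : E) / b l) = p := by
      have := hb0 l
      field_simp
    linear_combination -h1 + h3
  rcases mul_eq_zero.1 hroot with h1 | h1
  · exact ⟨σ, hσi, sub_eq_zero.1 h1⟩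
  have hσj : σ (b j) = (p : E) / b l := sub_eq_zero.1 h1
  by_cases hρ : ∃ ρ : E ≃ₐ[ℚ] E, ρ (b i) = b i ∧ ρ (b l) = (p : E) / b l
  · obtain ⟨ρ, hρi, hρl⟩ := hρ
    refine ⟨σ.trans ρ, ?_, ?_⟩
    · rw [AlgEquiv.trans_apply, hσi, hρi]
    · rw [AlgEquiv.trans_apply, hσj, map_div₀, map_natCast, hρl]
      have hp0 : (p : E) ≠ 0 := by
        intro hp
        have := (hv l).2
        rw [hp, zero_div, map_zero] at this
        exact zero_ne_one this
      have := hb0 l
      field_simp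
  exfalso
  have hbl : b l ∈ IntermediateField.adjoin ℚ {b i, b l + (p : E) / b l} := by
    by_contra hcon
    obtain ⟨ρ, hρ1, hρ2⟩ := Two_conj p (hb0 l) _
      (IntermediateField.subset_adjoin ℚ {b i, b l + (p : E) / b l} (by simp)) hcon
    exact hρ ⟨ρ, hρ1 _ (IntermediateField.subset_adjoin ℚ {b i, b l + (p : E) / b l} (by simp)),
      hρ2⟩
  have hle : IntermediateField.adjoin ℚ {b i, b l + (p : E) / b l} ≤
      (IntermediateField.adjoin ℚ {b i, b j + (p : E) / b j}).comap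
        (σ.symm : E →ₐ[ℚ] E) := by
    rw [IntermediateField.adjoin_le_iff]
    rintro x (rfl | rfl)
    · change σ.symm (b i) ∈ IntermediateField.adjoin ℚ {b i, b j + (p : E) / b j}
      have e : σ.symm (b i) = b i := by
        rw [AlgEquiv.symm_apply_eq, hσi]
      rw [e]
      exact IntermediateField.subset_adjoin ℚ _ (by simp)
    · change σ.symm (b l + (p : E) / b l) ∈ IntermediateField.adjoin ℚ {b i, b j + (p : E) / b j}
      have e : σ.symm (b l + (p : E) / b l) = b j + (p : E) / b j := by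
        rw [AlgEquiv.symm_apply_eq, hσy]
      rw [e]
      exact IntermediateField.subset_adjoin ℚ _ (by simp)
  have h2 : σ.symm (b l) ∈ IntermediateField.adjoin ℚ {b i, b j + (p : E) / b j} := hle hbl
  have hbj : b j ∈ IntermediateField.adjoin ℚ {b i, b j + (p : E) / b j} := by
    have e : b j = (p : E) / σ.symm (b l) := by
      have h3 : σ.symm (σ (b j)) = σ.symm ((p : E) / b l) := by rw [hσj]
      rw [AlgEquiv.symm_apply_apply, map_div₀, map_natCast] at h3
      exact h3
    have h3 : (p : E) / σ.symm (b l) ∈ IntermediateField.adjoin ℚ {b i, b j + (p : E) / b j} :=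
      div_mem (natCast_mem _ _) h2
    rwa [← e] at h3
  have hx : b i ^ 2 ^ k - b j ^ 2 ^ k ∈
      IntermediateField.adjoin ℚ {b i, b j + (p : E) / b j} :=
    sub_mem (pow_mem (IntermediateField.subset_adjoin ℚ _ (by simp)) _) (pow_mem hbj _)
  have hvx := val_inv h hs A ht hij hx σ
  rw [map_sub, map_pow, map_pow, hσi, hσj] at hvx
  have h5 : A.valuation (b i ^ 2 ^ k - ((p : E) / b l) ^ 2 ^ k) < A.valuation (2 : E) := by
    rw [hvx]
    exact ho.same i j
  have h6 : A.valuation (2 * b l ^ 2 ^ k) < A.valuation (2 : E) := by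
    have e : 2 * b l ^ 2 ^ k = (b i ^ 2 ^ k - ((p : E) / b l) ^ 2 ^ k) -
        (b i ^ 2 ^ k - b l ^ 2 ^ k) + (((p : E) / b l) ^ 2 ^ k + b l ^ 2 ^ k) := by ring
    rw [e]
    exact Valuation.map_add_lt _ (Valuation.map_sub_lt _ h5 (ho.same i l)) (ho.opp l)
  rw [map_mul, map_pow, (hv l).1, one_pow, mul_one] at h6
  exact lt_irrefl _ h6

end LIF
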